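import Mathlib

namespace Pool.Agent.H24.BF

variable {E : Type*} [NormedAddCommGroup E] [InnerProductSpace ℝ E] {ι : Type*} [DecidableEq ι]

open Finset

omit [DecidableEq ι] in
/-- weighted Cauchy-Schwarz -/
lemma cauchy (s : Finset ι) (l c : ι → ℝ) (u : ι → E) (hl : ∀ i ∈ s, 0 < l i) :
    ‖∑ i ∈ s, c i • u i‖ ^ 2 ≤ (∑ i ∈ s, c i ^ 2 / l i) * ∑ i ∈ s, l i * ‖u i‖ ^ 2 := by
  have h1 : ‖∑ i ∈ s, c i • u i‖ ≤ ∑ i ∈ s, |c i| * ‖u i‖ := by
    refine le_trans (norm_sum_le _ _) (le_of_eq ?_)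
    apply Finset.sum_congr rfl
    intro i _
    rw [norm_smul, Real.norm_eq_abs]
  have h2 : (∑ i ∈ s, |c i| * ‖u i‖) ^ 2 ≤ (∑ i ∈ s, c i ^ 2 / l i) * ∑ i ∈ s, l i * ‖u i‖ ^ 2 := by
    apply Finset.sum_sq_le_sum_mul_sum_of_sq_le_mul
    · intro i hi; have := hl i hi; positivity
    · intro i hi; have := hl i hi; positivity
    · intro i hi
      have := hl i hi
      rw [mul_pow, sq_abs]
      apply le_of_eq
      field_simp
  exact le_trans (pow_le_pow_left₀ (norm_nonneg _) h1 2) h2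

lemma main (k : ℕ) (v : ι → E) (n : ℕ) (hn : k + 1 ≤ n) : ∀ (s : Finset ι), s.card = n →
    ∀ l : ι → ℝ, (∀ i ∈ s, 0 < l i) → ∑ i ∈ s, l i = 1 → ∀ y : E,
    ∃ t ⊆ s, t.card = k + 1 ∧ ∃ z ∈ convexHull ℝ (v '' (t : Set ι)),
      ‖z - y‖ ^ 2 ≤ ‖(∑ i ∈ s, l i • v i) - y‖ ^ 2 +
        (((n:ℝ) - 1 - k) / (((n:ℝ) - 1) * (k + 1))) * ∑ i ∈ s, l i * ‖v i - ∑ j ∈ s, l j • v j‖ ^ 2 := by
  induction n, hn using Nat.le_induction with
  | base =>
    intro s hs l hl hsum y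
    refine ⟨s, Finset.Subset.refl s, hs, ∑ i ∈ s, l i • v i, ?_, ?_⟩
    · apply (convex_convexHull ℝ _).sum_mem (fun i hi => (hl i hi).le) hsum
      intro i hi
      exact subset_convexHull ℝ _ ⟨i, hi, rfl⟩
    · have : (((k + 1 : ℕ):ℝ) - 1 - k) = 0 := by push_cast; ring
      rw [this, zero_div, zero_mul, add_zero]
  | succ m hm ih =>
    intro s hs l hl hsum y
    have hm1 : 1 ≤ m := by omega
    have hm0 : (0:ℝ) < m := by exact_mod_cast hm1
    have hne : s.Nonempty := by rw [← Finset.card_pos]; omega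
    obtain ⟨x, hx⟩ : ∃ x, x = ∑ i ∈ s, l i • v i := ⟨_, rfl⟩
    rw [← hx]
    obtain ⟨u, hu⟩ : ∃ u : ι → E, ∀ i, u i = v i - x := ⟨_, fun _ => rfl⟩
    obtain ⟨V, hV⟩ : ∃ V, V = ∑ i ∈ s, l i * ‖u i‖ ^ 2 := ⟨_, rfl⟩
    have hV' : ∑ i ∈ s, l i * ‖v i - x‖ ^ 2 = V := by
      rw [hV]; apply Finset.sum_congr rfl; intro i _; rw [hu]
    rw [hV']
    have hV0 : 0 ≤ V := by
      rw [hV]; apply Finset.sum_nonneg; intro i hi; have := hl i hi; positivity
    have hlu : ∑ i ∈ s, l i • u i = 0 := by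
      have : ∑ i ∈ s, l i • u i = ∑ i ∈ s, l i • v i - (∑ i ∈ s, l i) • x := by
        rw [Finset.sum_smul, ← Finset.sum_sub_distrib]
        apply Finset.sum_congr rfl; intro i _; rw [hu, smul_sub]
      rw [this, hsum, one_smul, ← hx, sub_self]
    obtain ⟨U, hU⟩ : ∃ U, U = ∑ i ∈ s, u i := ⟨_, rfl⟩
    obtain ⟨Z, hZ⟩ : ∃ Z, Z = ∑ i ∈ s, (l i)⁻¹ := ⟨_, rfl⟩
    have hcard : (s.card : ℝ) = m + 1 := by rw [hs]; push_cast; ring
    -- displacement
    obtain ⟨δ, hδ⟩ : ∃ δ : ι → E, ∀ i, δ i = (l i / m) • (U - ((m:ℝ)+1) • u i) := ⟨_, fun _ => rfl⟩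
    obtain ⟨w, hw⟩ : ∃ w : ι → ι → ℝ, ∀ i j, w i j = l j + l i / m := ⟨_, fun _ _ => rfl⟩
    have hsumw : ∀ i ∈ s, ∑ j ∈ s.erase i, w i j = 1 := by
      intro i hi
      have h1 : ∑ j ∈ s, w i j = 1 + (m + 1) * (l i / m) := by
        simp only [hw, Finset.sum_add_distrib, hsum, Finset.sum_const, nsmul_eq_mul, hcard]
      have h2 := Finset.add_sum_erase s (fun j => w i j) hi
      rw [h1, hw] at h2
      have h3 : l i + l i / m = (m+1) * (l i / m) := by field_simp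
      linarith
    have hbary : ∀ i ∈ s, ∑ j ∈ s.erase i, w i j • u j = δ i := by
      intro i hi
      have h1 : ∑ j ∈ s, w i j • u j = (l i / m) • U := by
        simp only [hw, add_smul, Finset.sum_add_distrib, hlu, zero_add, ← Finset.smul_sum, ← hU]
      have h2 := Finset.add_sum_erase s (fun j => w i j • u j) hi
      rw [h1] at h2
      have h3 : w i i = (l i / m) * ((m:ℝ)+1) := by rw [hw]; field_simp
      rw [hδ, smul_sub, smul_smul, ← h3]
      exact (sub_eq_of_eq_add' h2.symm).symm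
    have hbary' : ∀ i ∈ s, ∑ j ∈ s.erase i, w i j • v j = x + δ i := by
      intro i hi
      have h1 : ∑ j ∈ s.erase i, w i j • v j = ∑ j ∈ s.erase i, w i j • u j + (∑ j ∈ s.erase i, w i j) • x := by
        rw [Finset.sum_smul, ← Finset.sum_add_distrib]
        apply Finset.sum_congr rfl; intro j _; rw [hu, smul_sub, sub_add_cancel]
      rw [h1, hbary i hi, hsumw i hi, one_smul, add_comm]
    -- variance after the step
    have hvar : ∀ i ∈ s, ∑ j ∈ s.erase i, w i j * ‖v j - (x + δ i)‖ ^ 2 =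
        V + (l i / m) * (∑ j ∈ s, ‖u j‖ ^ 2) - (l i / m) * (m + 1) * ‖u i‖ ^ 2 - ‖δ i‖ ^ 2 := by
      intro i hi
      have h1 : ∀ j, w i j * ‖v j - (x + δ i)‖ ^ 2 = w i j * ‖u j‖ ^ 2 - 2 * inner ℝ (w i j • u j) (δ i) + w i j * ‖δ i‖ ^ 2 := by
        intro j
        have : v j - (x + δ i) = u j - δ i := by rw [hu]; abel
        rw [this, norm_sub_sq_real, inner_smul_left]
        simp only [conj_trivial]
        ring
      simp only [h1]
      rw [Finset.sum_add_distrib, Finset.sum_sub_distrib, ← Finset.mul_sum, ← sum_inner, hbary i hi,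
        ← Finset.sum_mul, hsumw i hi, real_inner_self_eq_norm_sq]
      have h2 := Finset.add_sum_erase s (fun j => w i j * ‖u j‖ ^ 2) hi
      have h3 : ∑ j ∈ s, w i j * ‖u j‖ ^ 2 = V + (l i / m) * ∑ j ∈ s, ‖u j‖ ^ 2 := by
        simp only [hw, add_mul, Finset.sum_add_distrib, ← Finset.mul_sum, ← hV]
      rw [h3] at h2
      have h4 : w i i = (l i / m) * ((m:ℝ)+1) := by rw [hw]; field_simp
      rw [h4] at h2
      linarith
    -- the averaged inequality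
    set g' : ℝ := ((m:ℝ) - 1 - k) / (((m:ℝ) - 1) * (k + 1)) with hg'
    set g : ℝ := (((m+1 : ℕ):ℝ) - 1 - k) / ((((m+1 : ℕ):ℝ) - 1) * (k + 1)) with hg
    obtain ⟨D, hD⟩ : ∃ D, D = ∑ i ∈ s, (l i)⁻¹ * ‖δ i‖ ^ 2 := ⟨_, rfl⟩
    have hsumδ : ∑ i ∈ s, (l i)⁻¹ • δ i = 0 := by
      have h1 : ∀ i ∈ s, (l i)⁻¹ • δ i = (1 / (m:ℝ)) • U - ((1 / (m:ℝ)) * ((m:ℝ) + 1)) • u i := by
        intro i hi
        have hli := (hl i hi).ne'
        rw [hδ, smul_smul, smul_sub, smul_smul]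
        have e : (l i)⁻¹ * (l i / m) = 1 / (m:ℝ) := by field_simp
        rw [e]
      rw [Finset.sum_congr rfl h1, Finset.sum_sub_distrib, Finset.sum_const, ← Finset.smul_sum, ← hU,
        ← Nat.cast_smul_eq_nsmul ℝ, hcard, smul_smul]
      rw [mul_comm ((m:ℝ)+1), sub_self]
    have hDval : D = (1 / (m:ℝ)^2) * (‖U‖ ^ 2 + ((m:ℝ)+1) ^ 2 * V) := by
      have h1 : ∀ i ∈ s, (l i)⁻¹ * ‖δ i‖ ^ 2 = (1 / (m:ℝ)^2) * (l i * ‖U‖ ^ 2 -
          2 * ((m:ℝ)+1) * inner ℝ U (l i • u i) + ((m:ℝ)+1)^2 * (l i * ‖u i‖ ^ 2)) := by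
        intro i hi
        have hli := hl i hi
        rw [hδ, norm_smul, mul_pow, norm_sub_sq_real, inner_smul_right, inner_smul_right, norm_smul,
          Real.norm_eq_abs, Real.norm_eq_abs, sq_abs, mul_pow, sq_abs]
        field_simp
      rw [hD, Finset.sum_congr rfl h1, ← Finset.mul_sum, Finset.sum_add_distrib, Finset.sum_sub_distrib,
        ← Finset.sum_mul, hsum, ← Finset.mul_sum, ← Finset.mul_sum, ← inner_sum, hlu, inner_zero_right, ← hV]
      ring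
    have hUle : ‖U‖ ^ 2 ≤ (Z - ((m:ℝ)+1)^2) * V := by
      have h1 : U = ∑ i ∈ s, (1 - ((m:ℝ)+1) * l i) • u i := by
        simp only [sub_smul, one_smul, mul_smul]
        rw [Finset.sum_sub_distrib, ← Finset.smul_sum, hlu, smul_zero, sub_zero, hU]
      have h2 := cauchy s l (fun i => 1 - ((m:ℝ)+1) * l i) u hl
      rw [← h1, ← hV] at h2
      have h3 : ∑ i ∈ s, (1 - ((m:ℝ)+1) * l i) ^ 2 / l i = Z - ((m:ℝ)+1)^2 := by
        have h4 : ∀ i ∈ s, (1 - ((m:ℝ)+1) * l i) ^ 2 / l i = (l i)⁻¹ - 2 * ((m:ℝ)+1) + ((m:ℝ)+1)^2 * l i := by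
          intro i hi
          have hli := (hl i hi).ne'
          field_simp
          ring
        have e1 : ∑ _i ∈ s, 2 * ((m:ℝ)+1) = ((m:ℝ)+1) * (2 * ((m:ℝ)+1)) := by
          rw [Finset.sum_const, nsmul_eq_mul, hcard]
        have e2 : ∑ i ∈ s, ((m:ℝ)+1)^2 * l i = ((m:ℝ)+1)^2 := by rw [← Finset.mul_sum, hsum, mul_one]
        rw [Finset.sum_congr rfl h4, Finset.sum_add_distrib, Finset.sum_sub_distrib, e1, e2, ← hZ]
        ring
      rw [h3] at h2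
      exact h2
    have hDle : D ≤ Z * V / (m:ℝ)^2 := by
      rw [hDval, one_div, inv_mul_eq_div]
      apply div_le_div_of_nonneg_right _ (by positivity)
      linarith
    have hg1 : 0 ≤ 1 - g' ∧ g = g' + (1 - g') / (m:ℝ)^2 := by
      have hkm : (k:ℝ) + 1 ≤ m := by exact_mod_cast hm
      have hk0 : (0:ℝ) ≤ k := Nat.cast_nonneg k
      by_cases h1 : (m:ℝ) = 1
      · have hk : (k:ℝ) = 0 := by linarith
        rw [hg', hg]
        push_cast
        rw [h1, hk]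
        norm_num
      · have hm2 : (0:ℝ) < m - 1 := by
          have : (1:ℝ) ≤ m := by exact_mod_cast hm1
          rcases lt_or_eq_of_le this with h | h
          · linarith
          · exact absurd h.symm h1
        constructor
        · rw [hg', sub_nonneg, div_le_one (by positivity)]
          nlinarith
        · rw [hg', hg]
          push_cast
          have e1 : (m:ℝ) - 1 ≠ 0 := hm2.ne'
          have e2 : (m:ℝ) + 1 - 1 ≠ 0 := by rw [add_sub_cancel_right]; exact hm0.ne'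
          have e3 : (k:ℝ) + 1 ≠ 0 := by positivity
          rw [add_sub_cancel_right]
          field_simp
          ring
    have hsumA : ∑ i ∈ s, (l i)⁻¹ * (‖(x + δ i) - y‖ ^ 2 + g' * (V + (l i / m) * (∑ j ∈ s, ‖u j‖ ^ 2) -
        (l i / m) * (m + 1) * ‖u i‖ ^ 2 - ‖δ i‖ ^ 2)) ≤ ∑ i ∈ s, (l i)⁻¹ * (‖x - y‖ ^ 2 + g * V) := by
      have h1 : ∀ i ∈ s, (l i)⁻¹ * (‖(x + δ i) - y‖ ^ 2 + g' * (V + (l i / m) * (∑ j ∈ s, ‖u j‖ ^ 2) -
        (l i / m) * (m + 1) * ‖u i‖ ^ 2 - ‖δ i‖ ^ 2)) =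
          (l i)⁻¹ * (‖x - y‖ ^ 2 + g' * V) + 2 * inner ℝ (x - y) ((l i)⁻¹ • δ i) + (1 - g') * ((l i)⁻¹ * ‖δ i‖ ^ 2)
          + g' * ((1/m) * (∑ j ∈ s, ‖u j‖ ^ 2)) - g' * ((1/m) * (m+1)) * ‖u i‖ ^ 2 := by
        intro i hi
        have hli := (hl i hi).ne'
        have e : (x + δ i) - y = (x - y) + δ i := by abel
        rw [e, norm_add_sq_real, inner_smul_right]
        field_simp
        ring
      obtain ⟨A, hA⟩ : ∃ A, A = ∑ j ∈ s, ‖u j‖ ^ 2 := ⟨_, rfl⟩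
      have s1 : ∑ i ∈ s, (l i)⁻¹ * (‖x - y‖ ^ 2 + g' * V) = Z * (‖x - y‖ ^ 2 + g' * V) := by
        rw [← Finset.sum_mul, ← hZ]
      have s2 : ∑ i ∈ s, 2 * inner ℝ (x - y) ((l i)⁻¹ • δ i) = 0 := by
        rw [← Finset.mul_sum, ← inner_sum, hsumδ, inner_zero_right, mul_zero]
      have s3 : ∑ i ∈ s, (1 - g') * ((l i)⁻¹ * ‖δ i‖ ^ 2) = (1 - g') * D := by
        rw [← Finset.mul_sum, ← hD]
      have s4 : ∑ _i ∈ s, g' * ((1/m) * A) = ((m:ℝ)+1) * (g' * ((1/m) * A)) := by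
        rw [Finset.sum_const, nsmul_eq_mul, hcard]
      have s5 : ∑ i ∈ s, g' * ((1/m) * (m+1)) * ‖u i‖ ^ 2 = g' * ((1/m) * (m+1)) * A := by
        rw [← Finset.mul_sum, ← hA]
      have s6 : ∑ i ∈ s, (l i)⁻¹ * (‖x - y‖ ^ 2 + g * V) = Z * (‖x - y‖ ^ 2 + g * V) := by
        rw [← Finset.sum_mul, ← hZ]
      rw [Finset.sum_congr rfl h1, Finset.sum_sub_distrib, Finset.sum_add_distrib, Finset.sum_add_distrib,
        Finset.sum_add_distrib, ← hA, s1, s2, s3, s4, s5, s6]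
      have h2 : (1 - g') * D ≤ (1 - g') * (Z * V / (m:ℝ)^2) := mul_le_mul_of_nonneg_left hDle hg1.1
      have h3 : Z * (g * V) = Z * (g' * V) + (1 - g') * (Z * V / (m:ℝ)^2) := by
        rw [hg1.2]; ring
      have h4 : ((m:ℝ)+1) * (g' * ((1/m) * A)) = g' * ((1/m) * (m+1)) * A := by ring
      rw [h4]
      linarith
    obtain ⟨i, hi, hle⟩ := Finset.exists_le_of_sum_le hne hsumA
    have hli := hl i hi
    have hle' := le_of_mul_le_mul_left hle (inv_pos.mpr hli)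
    obtain ⟨t, hts, htc, z, hz, hzle⟩ := ih (s.erase i) (by rw [Finset.card_erase_of_mem hi, hs]; rfl) (w i)
      (by intro j hj
          have hj' := hl j (Finset.mem_of_mem_erase hj)
          rw [hw]; positivity) (hsumw i hi) y
    refine ⟨t, hts.trans (Finset.erase_subset _ _), htc, z, hz, ?_⟩
    rw [hbary' i hi, hvar i hi] at hzle
    exact le_trans hzle hle'

end Pool.Agent.H24.BF
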