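import Mathlib

set_option autoImplicit false

namespace Pool.Agent.H24.DR

section Abs
variable {K : Type} [DivisionRing K]

/-- the data of commuting pairs of anticommuting elements -/
structure Dat (K : Type) [DivisionRing K] where
  u : ℕ → K
  w : ℕ → K
  two : (2 : K) ≠ 0
  anti : ∀ i, u i * w i = - (w i * u i)
  uu : ∀ i j, i ≠ j → u i * u j = u j * u i
  uw : ∀ i j, i ≠ j → u i * w j = w j * u i
  ww : ∀ i j, i ≠ j → w i * w j = w j * w i
  u0 : ∀ i, u i ≠ 0
  w0 : ∀ i, w i ≠ 0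
  uc : ∀ i k, (u i * u i) * k = k * (u i * u i)
  wc : ∀ i k, (w i * w i) * k = k * (w i * w i)
  loc : ∀ k, ∃ n, ∀ i, n ≤ i → u i * k = k * u i ∧ w i * k = k * w i

variable (D : Dat K)

namespace Dat

def m (n : ℕ) : K := D.w n * D.u (n+1)

lemma m_ne (n : ℕ) : D.m n ≠ 0 := mul_ne_zero (D.w0 _) (D.u0 _)

lemma m_anti (n : ℕ) : D.m n * D.m (n+1) = - (D.m (n+1) * D.m n) := by
  unfold m
  have h1 := D.anti (n+1)
  have h2 := D.uu (n+1) (n+2) (by omega)
  have h3 := D.ww n (n+1) (by omega)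
  have h4 := D.uw (n+2) n (by omega)
  calc D.w n * D.u (n+1) * (D.w (n+1) * D.u (n+1+1))
      = D.w n * (D.u (n+1) * D.w (n+1)) * D.u (n+2) := by simp only [mul_assoc]
    _ = - (D.w n * D.w (n+1) * (D.u (n+1) * D.u (n+2))) := by
        rw [h1]; simp only [mul_neg, neg_mul, mul_assoc]
    _ = - (D.w (n+1) * (D.w n * D.u (n+2)) * D.u (n+1)) := by
        rw [h2, h3]; simp only [mul_assoc]
    _ = - (D.w (n+1) * D.u (n+1+1) * (D.w n * D.u (n+1))) := by
        rw [← h4]; simp only [mul_assoc]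

lemma m_comm (n j : ℕ) (h : n + 2 ≤ j) : D.m n * D.m j = D.m j * D.m n := by
  unfold m
  have c1 : Commute (D.w n) (D.w j) := D.ww n j (by omega)
  have c2 : Commute (D.w n) (D.u (j+1)) := (D.uw (j+1) n (by omega)).symm
  have c3 : Commute (D.u (n+1)) (D.w j) := D.uw (n+1) j (by omega)
  have c4 : Commute (D.u (n+1)) (D.u (j+1)) := D.uu (n+1) (j+1) (by omega)
  exact (Commute.mul_left (c1.mul_right c2) (c3.mul_right c4))

lemma m_sq_central (n : ℕ) (k : K) : (D.m n * D.m n) * k = k * (D.m n * D.m n) := by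
  have h : D.m n * D.m n = (D.w n * D.w n) * (D.u (n+1) * D.u (n+1)) := by
    unfold m
    have h1 := D.uw (n+1) n (by omega)
    calc D.w n * D.u (n+1) * (D.w n * D.u (n+1))
        = D.w n * (D.u (n+1) * D.w n) * D.u (n+1) := by simp only [mul_assoc]
      _ = (D.w n * D.w n) * (D.u (n+1) * D.u (n+1)) := by rw [h1]; simp only [mul_assoc]
  rw [h]
  have c1 : Commute (D.w n * D.w n) k := D.wc n k
  have c2 : Commute (D.u (n+1) * D.u (n+1)) k := D.uc (n+1) k
  exact c1.mul_left c2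

def v (n : ℕ) : K := 1 + D.m n

lemma ne_of_anti (t : K) (n : ℕ) (ht : t ≠ 0) (h : t * D.m n = - (D.m n * t)) :
    (1 + D.m n) ≠ 0 ∧ (1 - D.m n) ≠ 0 := by
  constructor
  · intro h1
    have h2 : D.m n = -1 := by rw [← sub_eq_zero, sub_neg_eq_add, add_comm]; exact h1
    rw [h2] at h
    have h3 : t + t = 0 := by
      have : -t = t := by simpa using h
      nth_rewrite 1 [← this]; simp
    have h4 : (2 : K) * t = 0 := by rw [two_mul]; exact h3
    rcases mul_eq_zero.1 h4 with h5 | h5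
    · exact D.two h5
    · exact ht h5
  · intro h1
    have h2 : D.m n = 1 := (sub_eq_zero.1 h1).symm
    rw [h2] at h
    have h3 : t + t = 0 := by
      have : t = -t := by simpa using h
      nth_rewrite 1 [this]; simp
    have h4 : (2 : K) * t = 0 := by rw [two_mul]; exact h3
    rcases mul_eq_zero.1 h4 with h5 | h5
    · exact D.two h5
    · exact ht h5

lemma v_ne (n : ℕ) : D.v n ≠ 0 :=
  (D.ne_of_anti (D.m (n+1)) n (D.m_ne _) (by rw [D.m_anti n, neg_neg])).1

def P : ℕ → K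
  | 0 => 1
  | (n+1) => P n * D.v n

lemma P_ne (n : ℕ) : D.P n ≠ 0 := by
  induction n with
  | zero => exact one_ne_zero
  | succ n ih => exact mul_ne_zero ih (D.v_ne n)

/-- elements commuting with all the late `m`'s -/
def S (n : ℕ) (k : K) : Prop := ∀ j, n ≤ j → D.m j * k = k * D.m j

lemma S_mono {n n' : ℕ} (h : n ≤ n') {k : K} (hk : D.S n k) : D.S n' k :=
  fun j hj => hk j (h.trans hj)

lemma S_ex (k : K) : ∃ n, D.S n k := by
  obtain ⟨n, hn⟩ := D.loc k
  refine ⟨n, fun j hj => ?_⟩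
  have c1 : Commute (D.w j) k := (hn j hj).2
  have c2 : Commute (D.u (j+1)) k := (hn (j+1) (by omega)).1
  exact c1.mul_left c2

open Classical in
noncomputable def sg (k : K) : K :=
  D.P (Nat.find (D.S_ex k)) * k * (D.P (Nat.find (D.S_ex k)))⁻¹

lemma P_conj_succ (n : ℕ) (k : K) (hk : D.S n k) :
    D.P (n+1) * k * (D.P (n+1))⁻¹ = D.P n * k * (D.P n)⁻¹ := by
  have h1 : D.v n * k = k * D.v n := by
    unfold v
    rw [add_mul, mul_add, hk n le_rfl]; simp
  change D.P n * D.v n * k * (D.P n * D.v n)⁻¹ = _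
  rw [mul_inv_rev]
  calc D.P n * D.v n * k * ((D.v n)⁻¹ * (D.P n)⁻¹)
      = D.P n * (D.v n * k) * (D.v n)⁻¹ * (D.P n)⁻¹ := by simp only [mul_assoc]
    _ = D.P n * k * (D.v n * (D.v n)⁻¹) * (D.P n)⁻¹ := by rw [h1]; simp only [mul_assoc]
    _ = D.P n * k * (D.P n)⁻¹ := by rw [mul_inv_cancel₀ (D.v_ne n), mul_one]

lemma P_conj_le (n n' : ℕ) (h : n ≤ n') (k : K) (hk : D.S n k) :
    D.P n' * k * (D.P n')⁻¹ = D.P n * k * (D.P n)⁻¹ := by
  induction n', h using Nat.le_induction with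
  | base => rfl
  | succ n' hn ih => rw [D.P_conj_succ n' k (D.S_mono hn hk), ih]

lemma sg_eq (n : ℕ) (k : K) (hk : D.S n k) : D.sg k = D.P n * k * (D.P n)⁻¹ := by
  classical
  have h1 := Nat.find_spec (D.S_ex k)
  have h2 : Nat.find (D.S_ex k) ≤ n := Nat.find_min' _ hk
  unfold sg
  exact (D.P_conj_le _ n h2 k h1).symm

noncomputable def sgHom : K →+* K where
  toFun := D.sg
  map_one' := by
    rw [D.sg_eq 0 1 (fun j _ => by simp)]
    simp [P]
  map_mul' a b := by
    obtain ⟨n, hn⟩ := D.S_ex a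
    obtain ⟨n', hn'⟩ := D.S_ex b
    have ha := D.S_mono (le_max_left n n') hn
    have hb := D.S_mono (le_max_right n n') hn'
    have hab : D.S (max n n') (a * b) := by
      intro j hj
      rw [← mul_assoc, ha j hj, mul_assoc, hb j hj, mul_assoc]
    rw [D.sg_eq _ _ ha, D.sg_eq _ _ hb, D.sg_eq _ _ hab]
    have hP := D.P_ne (max n n')
    set p := D.P (max n n')
    calc p * (a * b) * p⁻¹ = p * a * (p⁻¹ * p) * b * p⁻¹ := by
          rw [inv_mul_cancel₀ hP]; simp only [mul_assoc, one_mul]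
      _ = p * a * p⁻¹ * (p * b * p⁻¹) := by simp only [mul_assoc]
  map_zero' := by
    rw [D.sg_eq 0 0 (fun j _ => by simp)]
    simp
  map_add' a b := by
    obtain ⟨n, hn⟩ := D.S_ex a
    obtain ⟨n', hn'⟩ := D.S_ex b
    have ha := D.S_mono (le_max_left n n') hn
    have hb := D.S_mono (le_max_right n n') hn'
    have hab : D.S (max n n') (a + b) := by
      intro j hj
      rw [mul_add, add_mul, ha j hj, hb j hj]
    rw [D.sg_eq _ _ ha, D.sg_eq _ _ hb, D.sg_eq _ _ hab, mul_add, add_mul]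

lemma sgHom_central (z : K) (hz : ∀ k, z * k = k * z) : D.sgHom z = z := by
  change D.sg z = z
  rw [D.sg_eq 0 z (fun j _ => (hz _).symm)]
  simp [P]

lemma Q (n : ℕ) : ∃ y t : K, (D.P n)⁻¹ * D.u 0 * D.P n = y + t ∧ t ≠ 0 ∧
    t * D.m n = - (D.m n * t) ∧ (∀ j, n < j → t * D.m j = D.m j * t) ∧
    (∀ j, n ≤ j → y * D.m j = D.m j * y) := by
  induction n with
  | zero =>
    refine ⟨0, D.u 0, by simp [P], D.u0 0, ?_, ?_, by simp⟩
    · unfold m
      have h1 := D.anti 0
      have h2 := D.uu 0 1 (by omega)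
      calc D.u 0 * (D.w 0 * D.u (0+1)) = (D.u 0 * D.w 0) * D.u 1 := by simp only [mul_assoc, zero_add]
        _ = - (D.w 0 * (D.u 0 * D.u 1)) := by rw [h1]; simp only [neg_mul, mul_assoc]
        _ = - (D.w 0 * D.u (0+1) * D.u 0) := by rw [h2]; simp only [mul_assoc, zero_add]
    · intro j hj
      have c1 : Commute (D.u 0) (D.w j) := D.uw 0 j (by omega)
      have c2 : Commute (D.u 0) (D.u (j+1)) := D.uu 0 (j+1) (by omega)
      exact c1.mul_right c2
  | succ n ih =>
    obtain ⟨y, t, h1, ht, h2, h3, h4⟩ := ih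
    obtain ⟨hv, hv'⟩ := D.ne_of_anti t n ht h2
    -- central element
    set mm := D.m n with hmm
    have hcen : ∀ k, (1 - mm * mm) * k = k * (1 - mm * mm) := by
      intro k
      rw [sub_mul, mul_sub, hmm, D.m_sq_central n k, one_mul, mul_one]
    have hprod : (1 - mm * mm) = (1 + mm) * (1 - mm) := by
      rw [add_mul, mul_sub, mul_sub]; simp
    have hprod' : (1 - mm * mm) = (1 - mm) * (1 + mm) := by
      rw [sub_mul, one_mul, mul_add, mul_one]; abel
    have hne : (1 - mm * mm) ≠ 0 := by rw [hprod]; exact mul_ne_zero hv hv'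
    set c := (1 - mm * mm)⁻¹ with hc
    have hcc : ∀ k, c * k = k * c := by
      intro k
      have : Commute (1 - mm * mm) k := hcen k
      exact this.inv_left₀
    have hcne : c ≠ 0 := inv_ne_zero hne
    have hinv : (1 + mm)⁻¹ = c * (1 - mm) := by
      rw [inv_eq_iff_eq_inv, hc, mul_inv_rev, inv_inv]
      rw [hprod', ← mul_assoc, inv_mul_cancel₀ hv', one_mul]
    have hconj : (1 + mm)⁻¹ * t * (1 + mm) = (-1 + 2 * c) * t + (-(2 * c)) * (mm * t) := by
      have e1 : t * (1 + mm) = (1 - mm) * t := by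
        rw [mul_add, sub_mul, h2]; simp [sub_eq_add_neg]
      have e2 : (1 - mm) * (1 - mm) = -(1 - mm * mm) + 2 * (1 - mm) := by
        rw [sub_mul, mul_sub, mul_sub, two_mul]; simp; abel
      have e3 : c * (1 - mm * mm) = 1 := inv_mul_cancel₀ hne
      calc (1 + mm)⁻¹ * t * (1 + mm) = c * (1 - mm) * (t * (1 + mm)) := by
            rw [hinv]; simp only [mul_assoc]
        _ = c * ((1 - mm) * (1 - mm)) * t := by rw [e1]; simp only [mul_assoc]
        _ = (-(c * (1 - mm * mm)) + c * (2 * (1 - mm))) * t := by rw [e2]; simp only [mul_add, mul_neg]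
        _ = (-1 + c * (2 * (1 - mm))) * t := by rw [e3]
        _ = (-1 + 2 * c) * t + (-(2 * c)) * (mm * t) := by
            have e4 : c * (2 * (1 - mm)) = 2 * c - 2 * c * mm := by
              rw [← mul_assoc, hcc 2, mul_sub, mul_one]
            rw [e4]
            simp only [add_mul, sub_mul, neg_mul, mul_assoc]
            abel
    refine ⟨y + (-1 + 2 * c) * t, (-(2 * c)) * (mm * t), ?_, ?_, ?_, ?_, ?_⟩
    · change (D.P n * D.v n)⁻¹ * D.u 0 * (D.P n * D.v n) = _
      have e5 : D.v n = 1 + mm := rfl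
      have e6 : (1 + mm)⁻¹ * y * (1 + mm) = y := by
        have : y * (1 + mm) = (1 + mm) * y := by
          rw [mul_add, add_mul, hmm, h4 n le_rfl, mul_one, one_mul]
        rw [mul_assoc, this, ← mul_assoc, inv_mul_cancel₀ hv, one_mul]
      rw [mul_inv_rev, e5]
      calc (1 + mm)⁻¹ * (D.P n)⁻¹ * D.u 0 * (D.P n * (1 + mm))
          = (1 + mm)⁻¹ * ((D.P n)⁻¹ * D.u 0 * D.P n) * (1 + mm) := by simp only [mul_assoc]
        _ = (1 + mm)⁻¹ * y * (1 + mm) + (1 + mm)⁻¹ * t * (1 + mm) := by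
            rw [h1, mul_add (1 + mm)⁻¹ y t, add_mul _ _ (1 + mm)]
        _ = _ := by rw [e6, hconj, add_assoc]
    · exact mul_ne_zero (neg_ne_zero.2 (mul_ne_zero D.two hcne)) (mul_ne_zero (D.m_ne n) ht)
    · have e7 : mm * t * D.m (n+1) = - (D.m (n+1) * (mm * t)) := by
        rw [mul_assoc, h3 (n+1) (by omega), ← mul_assoc, D.m_anti n, neg_mul, mul_assoc]
      have e8 : ∀ k, (-(2 * c)) * k = k * (-(2 * c)) := by
        intro k
        have c1 : Commute (2 : K) k := Nat.cast_commute 2 k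
        have c2 : Commute c k := hcc k
        exact (c1.mul_left c2).neg_left
      rw [mul_assoc, e7, mul_neg, ← mul_assoc, e8, mul_assoc]
    · intro j hj
      have e9 : Commute (mm * t) (D.m j) := by
        have c1 : Commute mm (D.m j) := D.m_comm n j (by omega)
        have c2 : Commute t (D.m j) := h3 j (by omega)
        exact c1.mul_left c2
      have e8 : Commute (-(2 * c)) (D.m j) := by
        have c1 : Commute (2 : K) (D.m j) := Nat.cast_commute 2 _
        have c2 : Commute c (D.m j) := hcc _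
        exact (c1.mul_left c2).neg_left
      exact e8.mul_left e9
    · intro j hj
      have c1 : Commute y (D.m j) := h4 j (by omega)
      have c2 : Commute t (D.m j) := h3 j (by omega)
      have c3 : Commute (-1 + 2 * c) (D.m j) := by
        have c1 : Commute (2 : K) (D.m j) := Nat.cast_commute 2 _
        have c2 : Commute c (D.m j) := hcc _
        exact ((Commute.one_left _).neg_left).add_left (c1.mul_left c2)
      exact c1.add_left (c3.mul_left c2)

lemma not_surj : ¬ ∃ k, D.sgHom k = D.u 0 := by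
  rintro ⟨k, hk⟩
  obtain ⟨n, hn⟩ := D.S_ex k
  change D.sg k = D.u 0 at hk
  rw [D.sg_eq n k hn] at hk
  obtain ⟨y, t, h1, ht, h2, _, h4⟩ := D.Q n
  have hP := D.P_ne n
  have hkk : k = y + t := by
    rw [← h1, ← hk]
    set p := D.P n
    calc k = (p⁻¹ * p) * k * (p⁻¹ * p) := by rw [inv_mul_cancel₀ hP]; simp
      _ = p⁻¹ * (p * k * p⁻¹) * p := by simp only [mul_assoc]
  have h5 := hn n le_rfl
  rw [hkk, mul_add, add_mul, h4 n le_rfl, h2] at h5
  have h6 : D.m n * t + D.m n * t = 0 := by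
    have := add_left_cancel h5
    nth_rewrite 1 [this]; simp
  rw [← two_mul] at h6
  rcases mul_eq_zero.1 h6 with h7 | h7
  · exact D.two h7
  · rcases mul_eq_zero.1 h7 with h8 | h8
    · exact D.m_ne n h8
    · exact ht h8

end Dat
end Abs

section Rng
variable {K : Type} [DivisionRing K] (σ : K →+* K)

/-- the ring of matrices `[[σ a, m], [0, a]]` -/
def AR : Subring (Matrix (Fin 2) (Fin 2) K) where
  carrier := {M | M 1 0 = 0 ∧ M 0 0 = σ (M 1 1)}
  mul_mem' := by
    rintro M N ⟨h1, h2⟩ ⟨h3, h4⟩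
    constructor
    · simp [Matrix.mul_apply, Fin.sum_univ_two, h1, h3]
    · simp [Matrix.mul_apply, Fin.sum_univ_two, h1, h2, h3, h4]
  one_mem' := by constructor <;> simp
  add_mem' := by
    rintro M N ⟨h1, h2⟩ ⟨h3, h4⟩
    constructor
    · simp [h1, h3]
    · simp [h2, h4]
  zero_mem' := by constructor <;> simp
  neg_mem' := by
    rintro M ⟨h1, h2⟩
    constructor
    · simp [h1]
    · simp [h2]

/-- element constructor -/
def mkA (a m : K) : AR σ := ⟨!![σ a, m; 0, a], by constructor <;> simp⟩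

lemma eq_mkA (x : AR σ) : x = mkA σ (x.1 1 1) (x.1 0 1) := by
  apply Subtype.ext
  ext i j
  fin_cases i <;> fin_cases j
  · exact x.2.2
  · rfl
  · exact x.2.1
  · rfl

lemma mkA_mul (a m b n : K) : mkA σ a m * mkA σ b n = mkA σ (a * b) (σ a * n + m * b) := by
  apply Subtype.ext
  change !![σ a, m; 0, a] * !![σ b, n; 0, b] = !![σ (a * b), σ a * n + m * b; 0, a * b]
  rw [Matrix.mul_fin_two]
  simp

lemma mkA_one : (1 : AR σ) = mkA σ 1 0 := by
  apply Subtype.ext
  change (1 : Matrix (Fin 2) (Fin 2) K) = !![σ 1, 0; 0, 1]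
  rw [Matrix.one_fin_two, map_one]

lemma mkA_zero : (0 : AR σ) = mkA σ 0 0 := by
  apply Subtype.ext
  ext i j
  fin_cases i <;> fin_cases j <;> simp [mkA]

lemma mkA_inj {a m b n : K} (h : mkA σ a m = mkA σ b n) : a = b ∧ m = n := by
  have h1 := congrArg (fun x : AR σ => x.1 1 1) h
  have h2 := congrArg (fun x : AR σ => x.1 0 1) h
  simp [mkA] at h1 h2
  exact ⟨h1, h2⟩

open MulOpposite in
lemma top_of_unit (I : Submodule (AR σ)ᵐᵒᵖ (AR σ)) (a m : K) (ha : a ≠ 0) (h : mkA σ a m ∈ I)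
    (x : AR σ) : x ∈ I := by
  have hσ : σ a ≠ 0 := (map_ne_zero σ).2 ha
  have h1 : mkA σ a m * mkA σ a⁻¹ (- ((σ a)⁻¹ * m * a⁻¹)) = 1 := by
    rw [mkA_mul, mkA_one, mul_inv_cancel₀ ha]
    congr 1
    rw [mul_neg, mul_assoc, ← mul_assoc, mul_inv_cancel₀ hσ, one_mul, neg_add_cancel]
  have h2 : x = op (mkA σ a⁻¹ (- ((σ a)⁻¹ * m * a⁻¹)) * x) • (mkA σ a m) := by
    rw [op_smul_eq_mul, ← mul_assoc, h1, one_mul]
  rw [h2]
  exact I.smul_mem _ h

open MulOpposite in
lemma right_total (I J : Submodule (AR σ)ᵐᵒᵖ (AR σ)) : I ≤ J ∨ J ≤ I := by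
  by_cases hIJ : I ≤ J
  · exact Or.inl hIJ
  · right
    rw [SetLike.not_le_iff_exists] at hIJ
    obtain ⟨x, hxI, hxJ⟩ := hIJ
    rw [eq_mkA σ x] at hxI hxJ
    generalize x.1 1 1 = a at hxI hxJ
    generalize x.1 0 1 = m at hxI hxJ
    by_cases ha : a = 0
    · subst ha
      have hm : m ≠ 0 := by
        rintro rfl
        rw [← mkA_zero] at hxJ
        exact hxJ J.zero_mem
      intro y hy
      rw [eq_mkA σ y] at hy ⊢
      generalize y.1 1 1 = b at hy
      generalize y.1 0 1 = n at hy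
      by_cases hb : b = 0
      · subst hb
        have h2 : mkA σ 0 n = op (mkA σ (m⁻¹ * n) 0) • (mkA σ 0 m) := by
          rw [op_smul_eq_mul, mkA_mul]
          simp [← mul_assoc, mul_inv_cancel₀ hm]
        rw [h2]
        exact I.smul_mem _ hxI
      · exact absurd (top_of_unit σ J b n hb hy _) hxJ
    · intro y _
      exact top_of_unit σ I a m ha hxI y

lemma right_distrib (I J L : Submodule (AR σ)ᵐᵒᵖ (AR σ)) :
    I ⊓ (J ⊔ L) = (I ⊓ J) ⊔ (I ⊓ L) := by
  apply le_antisymm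
  · rcases right_total σ J L with h | h
    · rw [sup_eq_right.2 h]; exact le_sup_right
    · rw [sup_eq_left.2 h]; exact le_sup_left
  · exact sup_le (inf_le_inf_left _ le_sup_left) (inf_le_inf_left _ le_sup_right)

lemma left_not_distrib (x : K) (hx : ¬ ∃ k, σ k = x) :
    ¬ ∀ I J L : Submodule (AR σ) (AR σ), I ⊓ (J ⊔ L) = (I ⊓ J) ⊔ (I ⊓ L) := by
  intro h
  have h1 := h (Submodule.span _ {mkA σ 0 1}) (Submodule.span _ {mkA σ 0 x})
    (Submodule.span _ {mkA σ 0 (1 + x)})
  have hsm : ∀ (y : AR σ) (k : K), y • (mkA σ 0 k) = mkA σ 0 (σ (y.1 1 1) * k) := by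
    intro y k
    rw [smul_eq_mul]
    conv_lhs => rw [eq_mkA σ y]
    rw [mkA_mul]; simp
  have hmem : mkA σ 0 1 ∈ Submodule.span (AR σ) {mkA σ 0 1} ⊓
      (Submodule.span (AR σ) {mkA σ 0 x} ⊔ Submodule.span (AR σ) {mkA σ 0 (1 + x)}) := by
    refine ⟨Submodule.mem_span_singleton_self _, ?_⟩
    have h2 : mkA σ 0 1 = mkA σ 0 (1 + x) - mkA σ 0 x := by
      apply Subtype.ext
      change !![σ 0, 1; 0, 0] = !![σ 0, 1 + x; 0, 0] - !![σ 0, x; 0, 0]
      ext i j
      fin_cases i <;> fin_cases j <;> simp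
    rw [h2]
    exact Submodule.sub_mem _ (Submodule.mem_sup_right (Submodule.mem_span_singleton_self _))
      (Submodule.mem_sup_left (Submodule.mem_span_singleton_self _))
  rw [h1] at hmem
  have key : ∀ x' : K, (¬ ∃ k, σ k = x') → Submodule.span (AR σ) {mkA σ 0 1} ⊓
      Submodule.span (AR σ) {mkA σ 0 x'} = ⊥ := by
    intro x' hx'
    rw [eq_bot_iff]
    rintro y ⟨hy1, hy2⟩
    obtain ⟨a, rfl⟩ := Submodule.mem_span_singleton.1 hy1
    obtain ⟨b, hb⟩ := Submodule.mem_span_singleton.1 hy2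
    rw [hsm, hsm] at hb
    have h3 := (mkA_inj σ hb).2
    rw [mul_one] at h3
    by_cases hb0 : b.1 1 1 = 0
    · rw [hsm, mul_one, ← h3, hb0, map_zero, zero_mul, ← mkA_zero]
      exact Submodule.zero_mem _
    · exfalso
      apply hx'
      refine ⟨(b.1 1 1)⁻¹ * (a.1 1 1), ?_⟩
      have hσ : σ (b.1 1 1) ≠ 0 := (map_ne_zero σ).2 hb0
      rw [map_mul, map_inv₀, ← h3, ← mul_assoc, inv_mul_cancel₀ hσ, one_mul]
  rw [key x hx, key (1 + x) ?_, sup_bot_eq, Submodule.mem_bot, mkA_zero] at hmem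
  · exact one_ne_zero (mkA_inj σ hmem).2
  · rintro ⟨k, hk⟩
    exact hx ⟨k - 1, by rw [map_sub, map_one, hk]; abel⟩

/-- projection -/
def pr : AR σ →+* K where
  toFun x := x.1 1 1
  map_one' := by simp
  map_mul' x y := by
    have h1 := y.2.1
    simp [Matrix.mul_apply, Fin.sum_univ_two, x.2.1]
  map_zero' := rfl
  map_add' x y := rfl

/-- central scalars -/
def io (hσ : ∀ z ∈ Subring.center K, σ z = z) : Subring.center K →+* Subring.center (AR σ) where
  toFun z := ⟨mkA σ z.1 0, by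
    rw [Subring.mem_center_iff]
    intro g
    rw [eq_mkA σ g, mkA_mul, mkA_mul, hσ z.1 z.2]
    have := Subring.mem_center_iff.1 z.2
    rw [this, this]; simp⟩
  map_one' := by
    apply Subtype.ext
    exact (mkA_one σ).symm
  map_mul' x y := by
    apply Subtype.ext
    change mkA σ (x.1 * y.1) 0 = mkA σ x.1 0 * mkA σ y.1 0
    rw [mkA_mul]; simp
  map_zero' := by
    apply Subtype.ext
    exact (mkA_zero σ).symm
  map_add' x y := by
    apply Subtype.ext
    apply Subtype.ext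
    change !![σ (x.1 + y.1), 0; 0, x.1 + y.1] = !![σ x.1, 0; 0, x.1] + !![σ y.1, 0; 0, y.1]
    ext i j
    fin_cases i <;> fin_cases j <;> simp

open Polynomial in
lemma integral (hσ : ∀ z ∈ Subring.center K, σ z = z)
    (hint : ∀ k : K, IsIntegral (Subring.center K) k) (x : AR σ) :
    IsIntegral (Subring.center (AR σ)) x := by
  obtain ⟨p, hp, hp0⟩ := hint (pr σ x)
  refine ⟨(p.map (io σ hσ)) ^ 2, (hp.map _).pow 2, ?_⟩
  rw [← aeval_def, map_pow]
  set N := aeval x (p.map (io σ hσ)) with hN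
  have hpr : pr σ N = 0 := by
    rw [hN, aeval_def, hom_eval₂, eval₂_map]
    have : ((pr σ).comp (algebraMap (Subring.center (AR σ)) (AR σ))).comp (io σ hσ) =
        algebraMap (Subring.center K) K := by
      ext z
      change (mkA σ z.1 0).1 1 1 = z.1
      simp [mkA]
    rw [this]
    exact hp0
  have h2 : N = mkA σ 0 (N.1 0 1) := by
    conv_lhs => rw [eq_mkA σ N]
    have : N.1 1 1 = 0 := hpr
    rw [this]
  rw [h2, sq, mkA_mul]
  simp [mkA_zero]

end Rng
end Pool.Agent.H24.DR
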