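import Pool.Agent.H24.DRa

set_option autoImplicit false

namespace Pool.Agent.H24.DR

/-- a cancellative monoid: pairs `(m,n)` with `(m,n)(m',n') = (m + (-1)^n m', n + n')` -/
@[ext] structure KB where
  m : ℤ
  n : ℕ

namespace KB

instance : Mul KB := ⟨fun a b => ⟨a.m + (-1) ^ a.n * b.m, a.n + b.n⟩⟩
instance : One KB := ⟨⟨0, 0⟩⟩

lemma mul_def (a b : KB) : a * b = ⟨a.m + (-1) ^ a.n * b.m, a.n + b.n⟩ := rfl
lemma one_def : (1 : KB) = ⟨0, 0⟩ := rfl

instance : Monoid KB where
  mul_assoc a b c := by
    simp only [mul_def]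
    ext
    · simp only [pow_add]; ring
    · simp only [add_assoc]
  one_mul a := by simp [mul_def, one_def]
  mul_one a := by simp [mul_def, one_def]

instance : IsLeftCancelMul KB where
  mul_left_cancel a b c h := by
    simp only [mul_def, KB.mk.injEq] at h
    obtain ⟨h1, h2⟩ := h
    have h3 : ((-1 : ℤ)) ^ a.n ≠ 0 := pow_ne_zero _ (by norm_num)
    ext
    · exact mul_left_cancel₀ h3 (add_left_cancel h1)
    · exact add_left_cancel h2

def toLx (a : KB) : ℕ ×ₗ ℤ := toLex (a.n, a.m)

lemma toLx_inj : Function.Injective toLx := by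
  intro a b h
  have := toLex.injective h
  simp only [Prod.mk.injEq] at this
  ext
  · exact this.2
  · exact this.1

noncomputable instance : LinearOrder KB := LinearOrder.lift' toLx toLx_inj

lemma lt_iff (a b : KB) : a < b ↔ a.n < b.n ∨ (a.n = b.n ∧ a.m < b.m) := by
  change toLx a < toLx b ↔ _
  unfold toLx
  rw [Prod.Lex.toLex_lt_toLex]

instance : MulRightStrictMono KB where
  elim := by
    intro c a b h
    change a * c < b * c
    rw [lt_iff] at h ⊢
    simp only [mul_def]
    rcases h with h | ⟨h1, h2⟩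
    · left; omega
    · right
      refine ⟨by omega, ?_⟩
      rw [h1]; linarith

def x : KB := ⟨0, 1⟩
def y : KB := ⟨1, 1⟩

lemma xx : x * x = y * y := by simp [x, y, mul_def]

end KB

open MonoidAlgebra

abbrev Om := MonoidAlgebra ℚ (ℕ → KB)

instance : NoZeroDivisors Om := inferInstance

noncomputable def X (i : ℕ) : Om := single (Pi.mulSingle i KB.x) 1
noncomputable def Y (i : ℕ) : Om := single (Pi.mulSingle i KB.y) 1

lemma comm_single (i j : ℕ) (h : i ≠ j) (a b : KB) :
    (single (Pi.mulSingle i a) 1 : Om) * single (Pi.mulSingle j b) 1 =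
    single (Pi.mulSingle j b) 1 * single (Pi.mulSingle i a) 1 := by
  have h1 := (Pi.mulSingle_commute (f := fun _ : ℕ => KB) h a b).eq
  rw [single_mul_single, single_mul_single]
  exact congrArg (fun g => (single g (1 * 1) : Om)) h1

lemma XX (i : ℕ) : X i * X i = Y i * Y i := by
  unfold X Y
  rw [single_mul_single, single_mul_single, ← Pi.mulSingle_mul, ← Pi.mulSingle_mul, KB.xx]

noncomputable def T : Subalgebra ℚ Om := Algebra.adjoin ℚ (Set.range X ∪ Set.range Y)

noncomputable def tx (i : ℕ) : T := ⟨X i, Algebra.subset_adjoin (Or.inl ⟨i, rfl⟩)⟩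
noncomputable def ty (i : ℕ) : T := ⟨Y i, Algebra.subset_adjoin (Or.inr ⟨i, rfl⟩)⟩

lemma t_xx (i : ℕ) : tx i * tx i = ty i * ty i := Subtype.ext (XX i)
lemma t_xx' (i j : ℕ) (h : i ≠ j) : tx i * tx j = tx j * tx i :=
  Subtype.ext (comm_single i j h _ _)
lemma t_xy (i j : ℕ) (h : i ≠ j) : tx i * ty j = ty j * tx i :=
  Subtype.ext (comm_single i j h _ _)
lemma t_yy (i j : ℕ) (h : i ≠ j) : ty i * ty j = ty j * ty i :=
  Subtype.ext (comm_single i j h _ _)

/-- induction principle: a property closed under ring operations and true for the generators -/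
lemma T_ind (p : T → Prop) (hx : ∀ i, p (tx i)) (hy : ∀ i, p (ty i))
    (hc : ∀ r : ℚ, p (algebraMap ℚ T r)) (ha : ∀ a b, p a → p b → p (a + b))
    (hm : ∀ a b, p a → p b → p (a * b)) (t : T) : p t := by
  obtain ⟨t, ht⟩ := t
  induction ht using Algebra.adjoin_induction with
  | mem x hx' =>
    rcases hx' with ⟨i, rfl⟩ | ⟨i, rfl⟩
    · exact hx i
    · exact hy i
  | algebraMap r => exact hc r
  | add a b ha' hb' iha ihb => exact ha _ _ iha ihb
  | mul a b ha' hb' iha ihb => exact hm _ _ iha ihb

lemma central_of (z : T) (hx : ∀ i, tx i * z = z * tx i) (hy : ∀ i, ty i * z = z * ty i) :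
    z ∈ Subring.center T := by
  rw [Subring.mem_center_iff]
  intro g
  refine T_ind (fun g => g * z = z * g) hx hy (fun r => ?_) (fun a b ha hb => ?_)
    (fun a b ha hb => ?_) g
  · exact Algebra.commutes r z
  · rw [add_mul, mul_add, ha, hb]
  · rw [mul_assoc, hb, ← mul_assoc, ha, mul_assoc]

noncomputable abbrev Z := Subring.center T

lemma sq_central (i : ℕ) : tx i * tx i ∈ Subring.center T := by
  refine central_of _ (fun j => ?_) (fun j => ?_)
  · by_cases h : j = i
    · subst h; rw [mul_assoc]
    · rw [← mul_assoc, t_xx' j i h, mul_assoc, t_xx' j i h, ← mul_assoc]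
  · by_cases h : j = i
    · subst h; rw [t_xx, mul_assoc]
    · rw [← mul_assoc, ← t_xy i j (Ne.symm h), mul_assoc, ← t_xy i j (Ne.symm h), ← mul_assoc]

lemma s_central (i : ℕ) : tx i * ty i + ty i * tx i ∈ Subring.center T := by
  have hx : ∀ i, (tx i * ty i + ty i * tx i) * tx i = tx i * (tx i * ty i + ty i * tx i) := by
    intro i
    have h1 := (Subring.mem_center_iff.1 (sq_central i)) (ty i)
    rw [add_mul, mul_add, mul_assoc (ty i), h1, ← mul_assoc, ← mul_assoc, add_comm]
  have hy : ∀ i, (tx i * ty i + ty i * tx i) * ty i = ty i * (tx i * ty i + ty i * tx i) := by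
    intro i
    have h1 := (Subring.mem_center_iff.1 (sq_central i)) (tx i)
    rw [t_xx] at h1
    rw [add_mul, mul_add, mul_assoc (tx i), h1, ← mul_assoc, ← mul_assoc, add_comm]
  refine central_of _ (fun j => ?_) (fun j => ?_)
  · by_cases h : j = i
    · subst h; exact (hx j).symm
    · have c1 : Commute (tx j) (tx i) := t_xx' j i h
      have c2 : Commute (tx j) (ty i) := t_xy j i h
      exact (c1.mul_right c2).add_right (c2.mul_right c1)
  · by_cases h : j = i
    · subst h; exact (hy j).symm
    · have c1 : Commute (ty j) (tx i) := (t_xy i j (Ne.symm h)).symm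
      have c2 : Commute (ty j) (ty i) := t_yy j i h
      exact (c1.mul_right c2).add_right (c2.mul_right c1)

/-- the quaternion-like submodule -/
noncomputable def C (i : ℕ) : Submodule Z T := Submodule.span Z {1, tx i, ty i, tx i * ty i}

noncomputable def M : ℕ → Submodule Z T
  | 0 => 1
  | (n+1) => M n * C n

lemma C_fg (i : ℕ) : (C i).FG := Submodule.fg_span (Set.toFinite _)

lemma mem_C_of (i : ℕ) (a : T) (h : a = 1 ∨ a = tx i ∨ a = ty i ∨ a = tx i * ty i) : a ∈ C i := by
  refine Submodule.subset_span ?_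
  simpa using h

lemma zmul_mem (P : Submodule Z T) (z a : T) (hz : z ∈ Subring.center T) (ha : a ∈ P) :
    z * a ∈ P := P.smul_mem (⟨z, hz⟩ : Z) ha

lemma C_x (i : ℕ) (c : T) (hc : c ∈ C i) : tx i * c ∈ C i := by
  unfold C at hc
  induction hc using Submodule.span_induction with
  | mem c hc =>
    simp only [Set.mem_insert_iff, Set.mem_singleton_iff] at hc
    rcases hc with rfl | rfl | rfl | rfl
    · rw [mul_one]; exact mem_C_of i _ (by simp)
    · rw [← mul_one (tx i * tx i)]
      exact zmul_mem _ _ _ (sq_central i) (mem_C_of i _ (by simp))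
    · exact mem_C_of i _ (by simp)
    · rw [← mul_assoc]
      exact zmul_mem _ _ _ (sq_central i) (mem_C_of i _ (by simp))
  | zero => rw [mul_zero]; exact Submodule.zero_mem _
  | add a b _ _ ha hb => rw [mul_add]; exact Submodule.add_mem _ ha hb
  | smul z a _ ha => rw [mul_smul_comm]; exact Submodule.smul_mem _ z ha

lemma C_y (i : ℕ) (c : T) (hc : c ∈ C i) : ty i * c ∈ C i := by
  have hyx : ty i * tx i = (tx i * ty i + ty i * tx i) * 1 - tx i * ty i := by
    rw [mul_one, add_sub_cancel_left]
  unfold C at hc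
  induction hc using Submodule.span_induction with
  | mem c hc =>
    simp only [Set.mem_insert_iff, Set.mem_singleton_iff] at hc
    rcases hc with rfl | rfl | rfl | rfl
    · rw [mul_one]; exact mem_C_of i _ (by simp)
    · rw [hyx]
      exact Submodule.sub_mem _ (zmul_mem _ _ _ (s_central i) (mem_C_of i _ (by simp)))
        (mem_C_of i _ (by simp))
    · rw [← t_xx, ← mul_one (tx i * tx i)]
      exact zmul_mem _ _ _ (sq_central i) (mem_C_of i _ (by simp))
    · rw [← mul_assoc, hyx, mul_one, sub_mul]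
      refine Submodule.sub_mem _ (zmul_mem _ _ _ (s_central i) (mem_C_of i _ (by simp))) ?_
      rw [mul_assoc, ← t_xx, Subring.mem_center_iff.1 (sq_central i)]
      exact zmul_mem _ _ _ (sq_central i) (mem_C_of i _ (by simp))
  | zero => rw [mul_zero]; exact Submodule.zero_mem _
  | add a b _ _ ha hb => rw [mul_add]; exact Submodule.add_mem _ ha hb
  | smul z a _ ha => rw [mul_smul_comm]; exact Submodule.smul_mem _ z ha

lemma C_mul (i : ℕ) (a c : T) (ha : a ∈ C i) (hc : c ∈ C i) : a * c ∈ C i := by
  unfold C at ha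
  induction ha using Submodule.span_induction with
  | mem a ha =>
    simp only [Set.mem_insert_iff, Set.mem_singleton_iff] at ha
    rcases ha with rfl | rfl | rfl | rfl
    · rwa [one_mul]
    · exact C_x i c hc
    · exact C_y i c hc
    · rw [mul_assoc]; exact C_x i _ (C_y i c hc)
  | zero => rw [zero_mul]; exact Submodule.zero_mem _
  | add a b _ _ ha hb => rw [add_mul]; exact Submodule.add_mem _ ha hb
  | smul z a _ ha => rw [smul_mul_assoc]; exact Submodule.smul_mem _ z ha

lemma one_mem_M (n : ℕ) : (1 : T) ∈ M n := by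
  induction n with
  | zero => exact Submodule.one_le.1 le_rfl
  | succ n ih =>
    have := Submodule.mul_mem_mul ih (mem_C_of n 1 (by simp))
    rwa [one_mul] at this

lemma M_le_succ (n : ℕ) : M n ≤ M (n+1) := by
  intro a ha
  have := Submodule.mul_mem_mul ha (mem_C_of n 1 (by simp))
  rwa [mul_one] at this

lemma M_mono {n n' : ℕ} (h : n ≤ n') : M n ≤ M n' :=
  monotone_nat_of_le_succ M_le_succ h

/-- elements commuting with both generators of index `j` commute with `C j` -/
lemma comm_C (j : ℕ) (a : T) (hx : a * tx j = tx j * a) (hy : a * ty j = ty j * a) (b : T)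
    (hb : b ∈ C j) : a * b = b * a := by
  unfold C at hb
  induction hb using Submodule.span_induction with
  | mem c hc =>
    simp only [Set.mem_insert_iff, Set.mem_singleton_iff] at hc
    rcases hc with rfl | rfl | rfl | rfl
    · rw [mul_one, one_mul]
    · exact hx
    · exact hy
    · rw [← mul_assoc, hx, mul_assoc, hy, mul_assoc]
  | zero => rw [mul_zero, zero_mul]
  | add a' b' _ _ ha hb => rw [mul_add, add_mul, ha, hb]
  | smul z a' _ ha => rw [mul_smul_comm, smul_mul_assoc, ha]

lemma C_comm_x (i j : ℕ) (h : i ≠ j) (a : T) (ha : a ∈ C i) : a * tx j = tx j * a :=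
  (comm_C i (tx j) (t_xx' j i (Ne.symm h)) (t_xy j i (Ne.symm h)) a ha).symm

lemma C_comm_y (i j : ℕ) (h : i ≠ j) (a : T) (ha : a ∈ C i) : a * ty j = ty j * a :=
  (comm_C i (ty j) (t_xy i j h).symm (t_yy j i (Ne.symm h)) a ha).symm

lemma M_comm (n j : ℕ) (h : n ≤ j) (a : T) (ha : a ∈ M n) :
    a * tx j = tx j * a ∧ a * ty j = ty j * a := by
  induction n generalizing a with
  | zero =>
    obtain ⟨z, rfl⟩ := Submodule.mem_one.1 ha
    exact ⟨Algebra.commutes z _, Algebra.commutes z _⟩
  | succ n ih =>
    unfold M at ha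
    induction ha using Submodule.mul_induction_on' with
    | mem_mul_mem a ha b hb =>
      have h1 := ih (by omega) a ha
      have h2 := C_comm_x n j (by omega) b hb
      have h3 := C_comm_y n j (by omega) b hb
      constructor
      · rw [mul_assoc, h2, ← mul_assoc, h1.1, mul_assoc]
      · rw [mul_assoc, h3, ← mul_assoc, h1.2, mul_assoc]
    | add a _ b _ ha hb =>
      constructor
      · rw [add_mul, mul_add, ha.1, hb.1]
      · rw [add_mul, mul_add, ha.2, hb.2]

lemma M_mul_le (n : ℕ) : M n * M n ≤ M n := by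
  induction n with
  | zero => exact le_of_eq (mul_one _)
  | succ n ih =>
    have h1 : C n * M n = M n * C n := by
      refine Submodule.mul_comm_of_commute ?_
      intro c hc a ha
      have h2 := M_comm n n le_rfl a ha
      exact (comm_C n a h2.1 h2.2 c hc).symm
    have h2 : C n * C n ≤ C n := Submodule.mul_le.2 (fun a ha b hb => C_mul n a b ha hb)
    calc M (n+1) * M (n+1) = M n * (C n * M n) * C n := by
          change M n * C n * (M n * C n) = _
          simp only [mul_assoc]
      _ = (M n * M n) * (C n * C n) := by rw [h1]; simp only [mul_assoc]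
      _ ≤ M n * C n := mul_le_mul' ih h2

lemma M_mul (n : ℕ) (a b : T) (ha : a ∈ M n) (hb : b ∈ M n) : a * b ∈ M n :=
  M_mul_le n (Submodule.mul_mem_mul ha hb)

lemma M_fg (n : ℕ) : (M n).FG := by
  induction n with
  | zero => exact ⟨{1}, by rw [Finset.coe_singleton]; exact (Submodule.one_eq_span).symm⟩
  | succ n ih => exact ih.mul (C_fg n)

lemma M_ex (t : T) : ∃ n, t ∈ M n := by
  refine T_ind (fun t => ∃ n, t ∈ M n) (fun i => ⟨i+1, ?_⟩) (fun i => ⟨i+1, ?_⟩)
    (fun r => ⟨0, ?_⟩) ?_ ?_ t
  · have := Submodule.mul_mem_mul (one_mem_M i) (mem_C_of i (tx i) (by simp))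
    rwa [one_mul] at this
  · have := Submodule.mul_mem_mul (one_mem_M i) (mem_C_of i (ty i) (by simp))
    rwa [one_mul] at this
  · have hr : algebraMap ℚ T r ∈ Subring.center T := by
      rw [Subring.mem_center_iff]
      intro g
      exact (Algebra.commutes r g).symm
    exact Submodule.mem_one.2 ⟨⟨_, hr⟩, rfl⟩
  · rintro a b ⟨n, hn⟩ ⟨n', hn'⟩
    exact ⟨max n n', Submodule.add_mem _ (M_mono (le_max_left _ _) hn) (M_mono (le_max_right _ _) hn')⟩
  · rintro a b ⟨n, hn⟩ ⟨n', hn'⟩
    exact ⟨max n n', M_mul _ _ _ (M_mono (le_max_left _ _) hn) (M_mono (le_max_right _ _) hn')⟩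

lemma T_integral (t : T) : IsIntegral Z t := by
  obtain ⟨n, hn⟩ := M_ex t
  exact IsIntegral.of_mem_of_fg ((M n).toSubalgebra (one_mem_M n) (M_mul n)) (M_fg n) t hn

/-- every nonzero element has a nonzero central multiple -/
lemma exists_central (s : T) (hs : s ≠ 0) : ∃ s' z : T, z ≠ 0 ∧ z ∈ Subring.center T ∧ s' * s = z ∧
    s * s' = z := by
  have halg : IsAlgebraic Z s := (T_integral s).isAlgebraic
  obtain ⟨q, hq0, hq⟩ := halg.exists_nonzero_coeff_and_aeval_eq_zero (mem_nonZeroDivisors_of_ne_zero hs)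
  have h1 : Polynomial.X * q.divX + Polynomial.C (q.coeff 0) = q := Polynomial.X_mul_divX_add q
  have h2 : s * Polynomial.aeval s q.divX + algebraMap Z T (q.coeff 0) = 0 := by
    have := congrArg (Polynomial.aeval s) h1
    rw [hq, map_add, map_mul, Polynomial.aeval_X, Polynomial.aeval_C] at this
    exact this
  have hcomm : s * Polynomial.aeval s q.divX = Polynomial.aeval s q.divX * s := by
    have h3 : Polynomial.aeval s (Polynomial.X * q.divX) = Polynomial.aeval s (q.divX * Polynomial.X) := by
      rw [mul_comm]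
    rw [map_mul, map_mul, Polynomial.aeval_X] at h3
    exact h3
  refine ⟨- Polynomial.aeval s q.divX, (q.coeff 0 : Z).1, ?_, (q.coeff 0 : Z).2, ?_, ?_⟩
  · intro h
    exact hq0 (Subtype.ext h)
  · refine (neg_mul (Polynomial.aeval s q.divX) s).trans ?_
    rw [← hcomm]
    exact neg_eq_of_add_eq_zero_right h2
  · refine (mul_neg s (Polynomial.aeval s q.divX)).trans ?_
    exact neg_eq_of_add_eq_zero_right h2

open Classical in
noncomputable def adj (s : T) : T := if hs : s ≠ 0 then (exists_central s hs).choose else 0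

lemma adj_spec (s : T) (hs : s ≠ 0) : adj s * s ≠ 0 ∧ adj s * s ∈ Subring.center T ∧
    s * adj s = adj s * s := by
  obtain ⟨z, hz0, hz, h1, h2⟩ := (exists_central s hs).choose_spec
  unfold adj
  rw [dif_pos hs, h1, h2]
  exact ⟨hz0, hz, rfl⟩

open nonZeroDivisors

noncomputable instance oreInst : OreLocalization.OreSet (T⁰) :=
  OreLocalization.oreSetOfNoZeroDivisors
    (fun r s => r * adj s)
    (fun r s => ⟨adj s * s, mem_nonZeroDivisors_of_ne_zero
      (adj_spec s (nonZeroDivisors.ne_zero s.2)).1⟩)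
    (by
      intro r s
      have h := adj_spec s (nonZeroDivisors.ne_zero s.2)
      change adj s * s * r = r * adj s * s
      rw [mul_assoc r, Subring.mem_center_iff.1 h.2.1 r])

noncomputable abbrev KK := OreLocalization (T⁰) T

noncomputable instance : DivisionRing KK := inferInstance

end Pool.Agent.H24.DR
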