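import Pool.Agent.H24.DRb

set_option autoImplicit false

namespace Pool.Agent.H24.DR

open nonZeroDivisors OreLocalization

noncomputable def eta : T →+* KK := OreLocalization.numeratorRingHom

lemma eta_inj : Function.Injective eta :=
  OreLocalization.numeratorHom_inj (fun _ h => h.1)

lemma eta_ne (t : T) (h : t ≠ 0) : eta t ≠ 0 := by
  intro h'
  exact h (eta_inj (h'.trans (map_zero eta).symm))

lemma frac (k : KK) : ∃ s r : T, s ≠ 0 ∧ eta s * k = eta r := by
  induction k using OreLocalization.ind with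
  | _ r s =>
    refine ⟨s, r, nonZeroDivisors.ne_zero s.2, ?_⟩
    change ((s : T) /ₒ 1) * (r /ₒ s) = r /ₒ 1
    exact OreLocalization.mul_cancel

lemma comm_ext (a : T) (k : KK) (s r : T) (hs : s ≠ 0) (hk : eta s * k = eta r)
    (h1 : a * s = s * a) (h2 : a * r = r * a) : eta a * k = k * eta a := by
  have h3 : eta s * (eta a * k) = eta s * (k * eta a) := by
    rw [← mul_assoc, ← map_mul, ← h1, map_mul, mul_assoc, hk, ← map_mul, h2, map_mul, ← hk, mul_assoc]
  exact mul_left_cancel₀ (eta_ne s hs) h3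

lemma eta_central (z : T) (hz : z ∈ Subring.center T) (k : KK) : eta z * k = k * eta z := by
  obtain ⟨s, r, hs, hk⟩ := frac k
  exact comm_ext z k s r hs hk (Subring.mem_center_iff.1 hz s).symm
    (Subring.mem_center_iff.1 hz r).symm

lemma KB_xy : KB.x ≠ KB.y := by
  intro h
  have := congrArg KB.m h
  simp [KB.x, KB.y] at this

lemma coef_X (i : ℕ) : (X i).coeff (Pi.mulSingle i KB.x) = 1 := by
  simp [X]

lemma coef_Y (i : ℕ) : (Y i).coeff (Pi.mulSingle i KB.x) = 0 := by
  have h : (Pi.mulSingle i KB.x : ℕ → KB) ≠ Pi.mulSingle i KB.y := by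
    intro h
    exact KB_xy (Pi.mulSingle_injective i h)
  simp [Y, Ne.symm h]

lemma tu_ne (i : ℕ) : tx i + ty i ≠ 0 := by
  intro h
  have h1 : X i + Y i = 0 := congrArg Subtype.val h
  have h2 := congrArg (fun f : Om => f.coeff (Pi.mulSingle i KB.x)) h1
  simp [coef_X, coef_Y] at h2

lemma tw_ne (i : ℕ) : tx i - ty i ≠ 0 := by
  intro h
  have h1 : X i = Y i := sub_eq_zero.1 (congrArg Subtype.val h)
  have h2 := congrArg (fun f : Om => f.coeff (Pi.mulSingle i KB.x)) h1
  simp [coef_X, coef_Y] at h2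

noncomputable def DD : Dat KK where
  u i := eta (tx i + ty i)
  w i := eta (tx i - ty i)
  two := by
    have h0 : CharZero T := algebraRat.charZero T
    have h1 : (2 : T) ≠ 0 := two_ne_zero
    have h2 := eta_ne 2 h1
    rwa [map_ofNat] at h2
  anti i := by
    rw [← map_mul, ← map_mul, ← map_neg]
    congr 1
    have h := t_xx i
    rw [add_mul, mul_sub, mul_sub, sub_mul, mul_add, mul_add, h]
    abel
  uu i j h := by
    rw [← map_mul, ← map_mul]
    congr 1
    rw [add_mul, mul_add, mul_add, add_mul, mul_add, mul_add, t_xx' i j h, t_xy i j h,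
      ← t_xy j i (Ne.symm h), t_yy i j h]
    abel
  uw i j h := by
    rw [← map_mul, ← map_mul]
    congr 1
    rw [add_mul, mul_sub, mul_sub, sub_mul, mul_add, mul_add, t_xx' i j h, t_xy i j h,
      ← t_xy j i (Ne.symm h), t_yy i j h]
    abel
  ww i j h := by
    rw [← map_mul, ← map_mul]
    congr 1
    rw [sub_mul, mul_sub, mul_sub, sub_mul, mul_sub, mul_sub, t_xx' i j h, t_xy i j h,
      ← t_xy j i (Ne.symm h), t_yy i j h]
    abel
  u0 i := eta_ne _ (tu_ne i)
  w0 i := eta_ne _ (tw_ne i)
  uc i k := by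
    rw [← map_mul]
    apply eta_central
    have h : (tx i + ty i) * (tx i + ty i) = (tx i * tx i + tx i * tx i) +
        (tx i * ty i + ty i * tx i) := by
      rw [add_mul, mul_add, mul_add, ← t_xx i]; abel
    rw [h]
    exact Subring.add_mem _ (Subring.add_mem _ (sq_central i) (sq_central i)) (s_central i)
  wc i k := by
    rw [← map_mul]
    apply eta_central
    have h : (tx i - ty i) * (tx i - ty i) = (tx i * tx i + tx i * tx i) -
        (tx i * ty i + ty i * tx i) := by
      rw [sub_mul, mul_sub, mul_sub, ← t_xx i]; abel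
    rw [h]
    exact Subring.sub_mem _ (Subring.add_mem _ (sq_central i) (sq_central i)) (s_central i)
  loc k := by
    obtain ⟨s, r, hs, hk⟩ := frac k
    obtain ⟨n, hn⟩ := M_ex s
    obtain ⟨n', hn'⟩ := M_ex r
    refine ⟨max n n', fun i hi => ?_⟩
    have h1 := M_comm _ i hi s (M_mono (le_max_left n n') hn)
    have h2 := M_comm _ i hi r (M_mono (le_max_right n n') hn')
    constructor
    · refine comm_ext _ k s r hs hk ?_ ?_
      · rw [add_mul, mul_add, h1.1, h1.2]
      · rw [add_mul, mul_add, h2.1, h2.2]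
    · refine comm_ext _ k s r hs hk ?_ ?_
      · rw [sub_mul, mul_sub, h1.1, h1.2]
      · rw [sub_mul, mul_sub, h2.1, h2.2]

/-- map on centers -/
noncomputable def cen : Z →+* Subring.center KK where
  toFun z := ⟨eta z.1, by
    rw [Subring.mem_center_iff]
    intro k
    exact (eta_central z.1 z.2 k).symm⟩
  map_one' := by apply Subtype.ext; exact map_one eta
  map_mul' a b := by apply Subtype.ext; exact map_mul eta _ _
  map_zero' := by apply Subtype.ext; exact map_zero eta
  map_add' a b := by apply Subtype.ext; exact map_add eta _ _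

lemma K_integral (k : KK) : IsIntegral (Subring.center KK) k := by
  obtain ⟨s, r, hs, hk⟩ := frac k
  obtain ⟨h1, h2, h3⟩ := adj_spec s hs
  have h4 : IsIntegral (Subring.center KK) (eta (adj s * r)) := by
    obtain ⟨p, hp, hp0⟩ := T_integral (adj s * r)
    refine ⟨p.map cen, hp.map _, ?_⟩
    rw [Polynomial.eval₂_map]
    have h5 : (algebraMap (Subring.center KK) KK).comp cen = eta.comp (algebraMap Z T) := by
      ext z; rfl
    rw [h5, ← Polynomial.hom_eval₂, hp0, map_zero]
  have hz : eta (adj s * s) ∈ Subring.center KK := (cen ⟨_, h2⟩).2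
  have hzi : (eta (adj s * s))⁻¹ ∈ Subring.center KK := by
    rw [Subring.mem_center_iff]
    intro g
    have : Commute g (eta (adj s * s)) := Subring.mem_center_iff.1 hz g
    exact this.inv_right₀
  have h6 : k = (⟨_, hzi⟩ : Subring.center KK) • (eta (adj s * r)) := by
    change k = (eta (adj s * s))⁻¹ * eta (adj s * r)
    rw [map_mul eta (adj s) r, ← hk, ← mul_assoc (eta (adj s)), ← map_mul, ← mul_assoc,
      inv_mul_cancel₀ (eta_ne _ h1), one_mul]
  rw [h6]
  exact h4.smul _

theorem main : ∃ (A : Type) (_ : Ring A),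
    (∀ a : A, IsIntegral (Subring.center A) a) ∧
    (∀ I J L : Submodule Aᵐᵒᵖ A, I ⊓ (J ⊔ L) = (I ⊓ J) ⊔ (I ⊓ L)) ∧
    ¬ (∀ I J L : Submodule A A, I ⊓ (J ⊔ L) = (I ⊓ J) ⊔ (I ⊓ L)) := by
  have hσ : ∀ z ∈ Subring.center KK, DD.sgHom z = z := by
    intro z hz
    exact DD.sgHom_central z (fun k => (Subring.mem_center_iff.1 hz k).symm)
  exact ⟨AR DD.sgHom, inferInstance, integral DD.sgHom hσ K_integral,
    right_distrib DD.sgHom, left_not_distrib DD.sgHom _ DD.not_surj⟩

end Pool.Agent.H24.DR
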