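import Mathlib
import Pool.Prelude.Def_F_8adaa765
set_option autoImplicit false
open N435e839e

namespace Pool.Agent.H24.GC

/-- harmonic sum -/
noncomputable def Hm (N : ℕ) : ℝ := ∑ n ∈ Finset.Icc 1 N, (1:ℝ)/n

lemma Hm_eq (N : ℕ) : Hm N = (harmonic N : ℝ) := by
  rw [harmonic_eq_sum_Icc]
  unfold Hm
  push_cast
  refine Finset.sum_congr rfl (fun n _ => by rw [one_div])

lemma Hm_lower (N : ℕ) : Real.log (N+1) ≤ Hm N := by
  rw [Hm_eq]
  have := log_add_one_le_harmonic N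
  push_cast at this
  exact this

lemma Hm_upper (N : ℕ) : Hm N ≤ 1 + Real.log N := by
  rw [Hm_eq]; exact harmonic_le_one_add_log N

lemma one_le_Hm {N : ℕ} (hN : 1 ≤ N) : 1 ≤ Hm N := by
  unfold Hm
  have : (1:ℝ)/((1:ℕ):ℝ) ≤ ∑ n ∈ Finset.Icc 1 N, (1:ℝ)/n :=
    Finset.single_le_sum (f := fun n : ℕ => (1:ℝ)/n) (fun n _ => by positivity)
      (Finset.mem_Icc.2 ⟨le_refl _, hN⟩)
  simpa using this

def Rgh (Y c : ℕ) : Prop := ∀ p, p.Prime → p ≤ Y → ¬ p ∣ c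

open Classical in
/-- sum of `1/c` over rough `c ≤ N` -/
noncomputable def rho (N Y : ℕ) : ℝ := ∑ c ∈ (Finset.Icc 1 N).filter (Rgh Y), (1:ℝ)/c

lemma coprime_rough {Y c m : ℕ} (hc : Rgh Y c) (hm1 : 1 ≤ m) (hm : m ≤ Y) : Nat.Coprime c m := by
  rw [Nat.coprime_iff_gcd_eq_one]
  by_contra h
  obtain ⟨p, hp, hpd⟩ := Nat.exists_prime_and_dvd h
  have h1 := hpd.trans (Nat.gcd_dvd_left c m)
  have h2 := hpd.trans (Nat.gcd_dvd_right c m)
  exact hc p hp ((Nat.le_of_dvd (by omega) h2).trans hm) h1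

/-- if `c m = c' m'` with `c, c'` rough and `m, m' ≤ Y` then equal -/
lemma rough_inj {Y c m c' m' : ℕ} (hc : Rgh Y c) (hc' : Rgh Y c') (h1 : 1 ≤ m) (h2 : m ≤ Y)
    (h1' : 1 ≤ m') (h2' : m' ≤ Y) (hcc : 1 ≤ c) (h : c * m = c' * m') : c = c' ∧ m = m' := by
  -- c is coprime to m' so c ∣ c'
  have e1 : c ∣ c' := by
    have : c ∣ c' * m' := ⟨m, h.symm⟩
    exact (coprime_rough hc h1' h2').dvd_of_dvd_mul_right this
  have e2 : c' ∣ c := by
    have : c' ∣ c * m := ⟨m', h⟩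
    exact (coprime_rough hc' h1 h2).dvd_of_dvd_mul_right this
  have e3 : c = c' := Nat.dvd_antisymm e1 e2
  subst e3
  exact ⟨rfl, Nat.eq_of_mul_eq_mul_left hcc h⟩

lemma rho_bound (N Y : ℕ) : rho N Y * Hm Y ≤ Hm (N * Y) := by
  classical
  unfold rho Hm
  rw [Finset.sum_mul_sum, ← Finset.sum_product']
  have h1 : ∀ q ∈ (((Finset.Icc 1 N).filter (Rgh Y)) ×ˢ (Finset.Icc 1 Y)),
      (1:ℝ)/q.1 * (1/q.2) = (1:ℝ)/((q.1 * q.2 : ℕ) : ℝ) := by
    intro q _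
    push_cast
    rw [div_mul_div_comm, one_mul]
  rw [Finset.sum_congr rfl h1]
  have h2 : Set.InjOn (fun q : ℕ × ℕ => q.1 * q.2)
      (((Finset.Icc 1 N).filter (Rgh Y)) ×ˢ (Finset.Icc 1 Y) : Finset (ℕ × ℕ)) := by
    rintro ⟨c, m⟩ hq ⟨c', m'⟩ hq' heq
    have hq := Finset.mem_product.1 (Finset.mem_coe.1 hq)
    have hq' := Finset.mem_product.1 (Finset.mem_coe.1 hq')
    obtain ⟨ha, hb⟩ := hq
    obtain ⟨ha', hb'⟩ := hq'
    have ha := Finset.mem_filter.1 ha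
    have ha' := Finset.mem_filter.1 ha'
    have hb := Finset.mem_Icc.1 hb
    have hb' := Finset.mem_Icc.1 hb'
    have hc1 := (Finset.mem_Icc.1 ha.1).1
    obtain ⟨r1, r2⟩ := rough_inj ha.2 ha'.2 hb.1 hb.2 hb'.1 hb'.2 hc1 heq
    simp only at r1 r2
    rw [r1, r2]
  rw [← Finset.sum_image (f := fun k : ℕ => (1:ℝ)/(k:ℝ)) h2]
  refine Finset.sum_le_sum_of_subset_of_nonneg ?_ (fun _ _ _ => by positivity)
  intro k hk
  obtain ⟨⟨c, m⟩, hq, rfl⟩ := Finset.mem_image.1 hk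
  obtain ⟨ha, hb⟩ := Finset.mem_product.1 hq
  have ha := Finset.mem_Icc.1 (Finset.mem_filter.1 ha).1
  have hb := Finset.mem_Icc.1 hb
  exact Finset.mem_Icc.2 ⟨Nat.mul_pos ha.1 hb.1, Nat.mul_le_mul ha.2 hb.2⟩

/-- primes in a dyadic block -/
lemma block_card (i : ℕ) (hi : 1 ≤ i) :
    i * ((Finset.Ico (2^i) (2^(i+1))).filter Nat.Prime).card ≤ 4 * 2^i := by
  set S := (Finset.Ico (2^i) (2^(i+1))).filter Nat.Prime with hS
  have h1 : ∏ p ∈ S, p ≤ primorial (2^(i+1)) := by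
    unfold primorial
    refine Finset.prod_le_prod_of_subset_of_one_le' ?_ ?_
    · intro p hp
      have hp := Finset.mem_filter.1 hp
      have hp1 := Finset.mem_Ico.1 hp.1
      exact Finset.mem_filter.2 ⟨Finset.mem_range.2 (by omega), hp.2⟩
    · intro p hp _
      exact (Finset.mem_filter.1 hp).2.one_lt.le
  have h2 : (2^i)^S.card ≤ ∏ p ∈ S, p := by
    refine Finset.pow_card_le_prod S (fun p => p) _ (fun p hp => ?_)
    exact (Finset.mem_Ico.1 (Finset.mem_filter.1 hp).1).1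
  have h3 := primorial_le_four_pow (2^(i+1))
  have h4 : (2:ℕ)^(i * S.card) ≤ 2^(2 * 2^(i+1)) := by
    calc (2:ℕ)^(i * S.card) = (2^i)^S.card := by rw [pow_mul]
      _ ≤ 4^(2^(i+1)) := h2.trans (h1.trans h3)
      _ = 2^(2 * 2^(i+1)) := by rw [pow_mul]; norm_num
  have h5 := (Nat.pow_le_pow_iff_right (by norm_num : 1 < 2)).1 h4
  have h6 : 2 * 2^(i+1) = 4 * 2^i := by rw [pow_succ]; ring
  omega

lemma block_sum (i : ℕ) (hi : 1 ≤ i) :
    ∑ p ∈ (Finset.Ico (2^i) (2^(i+1))).filter Nat.Prime, (1:ℝ)/p ≤ 4 / i := by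
  have h1 := block_card i hi
  set S := (Finset.Ico (2^i) (2^(i+1))).filter Nat.Prime with hS
  calc ∑ p ∈ S, (1:ℝ)/p ≤ ∑ p ∈ S, (1:ℝ)/2^i := by
        refine Finset.sum_le_sum (fun p hp => ?_)
        have h2 := (Finset.mem_Ico.1 (Finset.mem_filter.1 hp).1).1
        have h3 : (2:ℝ)^i ≤ p := by exact_mod_cast h2
        exact one_div_le_one_div_of_le (by positivity) h3
    _ = S.card / 2^i := by rw [Finset.sum_const, nsmul_eq_mul]; ring
    _ ≤ 4 / i := by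
        have hi0 : (0:ℝ) < i := by exact_mod_cast hi
        rw [div_le_div_iff₀ (by positivity) hi0]
        have : ((i * S.card : ℕ) : ℝ) ≤ ((4 * 2^i : ℕ) : ℝ) := by exact_mod_cast h1
        push_cast at this
        linarith

end Pool.Agent.H24.GC
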