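import Pool.Agent.H24.GC1
set_option autoImplicit false
open N435e839e

namespace Pool.Agent.H24.GC

lemma prefix_prop (n t : ℕ) : (∀ a ∈ greedyPrefix true n t, a ≤ t) ∧
    (∀ a ∈ greedyPrefix true n t, ∀ b ∈ greedyPrefix true n t, 0 < a → 0 < b → a ≠ b →
      Nat.Coprime (n - a) (n - b)) := by
  induction t with
  | zero =>
    constructor
    · intro a ha; simp [greedyPrefix] at ha; omega
    · intro a ha; simp [greedyPrefix] at ha; intro b _ h; omega
  | succ t ih =>
    obtain ⟨ih1, ih2⟩ := ih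
    rw [greedyPrefix]
    split_ifs with h
    · constructor
      · intro a ha
        rcases Finset.mem_insert.1 ha with rfl | ha
        · exact le_refl _
        · have := ih1 a ha; omega
      · have key : ∀ b ∈ greedyPrefix true n t, 0 < b → Nat.Coprime (n - (t+1)) (n - b) := by
          intro b hb hb0
          rcases h with h | h
          · have := ih1 b hb; omega
          · exact h b hb
        intro a ha b hb ha0 hb0 hab
        rcases Finset.mem_insert.1 ha with rfl | ha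
        · rcases Finset.mem_insert.1 hb with rfl | hb
          · exact absurd rfl hab
          · exact key b hb hb0
        · rcases Finset.mem_insert.1 hb with rfl | hb
          · exact (key a ha ha0).symm
          · exact ih2 a ha b hb ha0 hb0 hab
    · constructor
      · intro a ha; have := ih1 a ha; omega
      · exact ih2

def YY (j : ℕ) : ℕ := 2^j / (j+1)^2

def Bad (j c : ℕ) : Prop := Rgh (YY j) c ∧ ∃ p, p.Prime ∧ p < 2^(j+1) ∧ p ∣ c

open Classical in
noncomputable def BadSet (j n : ℕ) : Finset ℕ :=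
  (Finset.Ico (2^j) (2^(j+1))).filter (fun a => a < n ∧ Bad j (n - a))

open Classical in
lemma per_n (N n : ℕ) (hnN : n ≤ N) : properSum true n ≤
    ∑ j ∈ Finset.range (Nat.log 2 N + 1), ((YY j : ℝ)/2^j + (BadSet j n).card / 2^j) := by
  unfold properSum
  set S := (selected true n).filter (Proper n) with hS
  have hmem : ∀ a ∈ S, a ∈ greedyPrefix true n (n-1) ∧ 0 < a ∧ a < n ∧ Proper n a := by
    intro a ha
    obtain ⟨h1, h2⟩ := Finset.mem_filter.1 ha
    obtain ⟨h3, h4, h5⟩ := Finset.mem_filter.1 h1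
    exact ⟨h3, h4, h5, h2⟩
  have hmaps : ∀ a ∈ S, Nat.log 2 a ∈ Finset.range (Nat.log 2 N + 1) := by
    intro a ha
    obtain ⟨_, h2, h3, _⟩ := hmem a ha
    rw [Finset.mem_range]
    exact Nat.lt_succ_of_le (Nat.log_mono_right (by omega))
  show ∑ a ∈ S, (1:ℝ)/a ≤ _
  rw [← Finset.sum_fiberwise_of_maps_to hmaps]
  refine Finset.sum_le_sum (fun j _ => ?_)
  set Sj := S.filter (fun a => Nat.log 2 a = j) with hSj
  have hSjm : ∀ a ∈ Sj, a ∈ S ∧ 2^j ≤ a ∧ a < 2^(j+1) := by
    intro a ha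
    obtain ⟨h1, h2⟩ := Finset.mem_filter.1 ha
    obtain ⟨_, h3, _⟩ := hmem a h1
    refine ⟨h1, ?_, ?_⟩
    · rw [← h2]; exact Nat.pow_log_le_self 2 (by omega)
    · rw [← h2]; exact Nat.lt_pow_succ_log_self (by norm_num) a
  have hcard : Sj.card ≤ YY j + (BadSet j n).card := by
    rw [← Finset.card_filter_add_card_filter_not (s := Sj)
      (fun a => ∃ p, p.Prime ∧ p ≤ YY j ∧ p ∣ n - a)]
    refine Nat.add_le_add ?_ ?_
    · have hch : ∀ a, ∃ p : ℕ, a ∈ Sj.filter (fun a => ∃ p, p.Prime ∧ p ≤ YY j ∧ p ∣ n - a) →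
          p.Prime ∧ p ≤ YY j ∧ p ∣ n - a := by
        intro a
        by_cases h : a ∈ Sj.filter (fun a => ∃ p, p.Prime ∧ p ≤ YY j ∧ p ∣ n - a)
        · obtain ⟨p, hp⟩ := (Finset.mem_filter.1 h).2
          exact ⟨p, fun _ => hp⟩
        · exact ⟨0, fun h' => absurd h' h⟩
      choose f hf using hch
      have : (Sj.filter (fun a => ∃ p, p.Prime ∧ p ≤ YY j ∧ p ∣ n - a)).card
          ≤ (Finset.Icc 1 (YY j)).card := by
        refine Finset.card_le_card_of_injOn f ?_ ?_
        · intro a ha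
          obtain ⟨h1, h2, _⟩ := hf a (Finset.mem_coe.1 ha)
          exact Finset.mem_coe.2 (Finset.mem_Icc.2 ⟨h1.one_lt.le, h2⟩)
        · intro a ha b hb hab
          by_contra hne
          obtain ⟨h1, _, h3⟩ := hf a (Finset.mem_coe.1 ha)
          obtain ⟨_, _, h3'⟩ := hf b (Finset.mem_coe.1 hb)
          have ha' := hSjm a (Finset.mem_filter.1 (Finset.mem_coe.1 ha)).1
          have hb' := hSjm b (Finset.mem_filter.1 (Finset.mem_coe.1 hb)).1
          obtain ⟨u1, u2, _⟩ := hmem a ha'.1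
          obtain ⟨v1, v2, _⟩ := hmem b hb'.1
          have hcop := (prefix_prop n (n-1)).2 a u1 b v1 u2 v2 hne
          rw [← hab] at h3'
          have := Nat.dvd_gcd h3 h3'
          rw [Nat.coprime_iff_gcd_eq_one.1 hcop] at this
          exact h1.one_lt.ne' (Nat.dvd_one.1 this)
      rw [Nat.card_Icc] at this
      simpa using this
    · refine Finset.card_le_card ?_
      intro a ha
      obtain ⟨h1, h2⟩ := Finset.mem_filter.1 ha
      obtain ⟨h3, h4, h5⟩ := hSjm a h1
      obtain ⟨_, _, h7, p, hp, hpa, hpd⟩ := hmem a h3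
      refine Finset.mem_filter.2 ⟨Finset.mem_Ico.2 ⟨h4, h5⟩, h7, ?_, p, hp, by omega, hpd⟩
      intro q hq hqY hqd
      exact h2 ⟨q, hq, hqY, hqd⟩
  calc ∑ a ∈ Sj, (1:ℝ)/a ≤ ∑ a ∈ Sj, (1:ℝ)/2^j := by
        refine Finset.sum_le_sum (fun a ha => ?_)
        have h3 : (2:ℝ)^j ≤ a := by exact_mod_cast (hSjm a ha).2.1
        exact one_div_le_one_div_of_le (by positivity) h3
    _ = Sj.card / 2^j := by rw [Finset.sum_const, nsmul_eq_mul]; ring
    _ ≤ ((YY j + (BadSet j n).card : ℕ) : ℝ) / 2^j := by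
        refine div_le_div_of_nonneg_right ?_ (by positivity)
        exact_mod_cast hcard
    _ = _ := by push_cast; ring

open Classical in
/-- sum of reciprocals of bad numbers -/
noncomputable def beta (N j : ℕ) : ℝ := ∑ c ∈ (Finset.Icc 1 N).filter (Bad j), (1:ℝ)/c

open Classical in
lemma sum_bad (N j : ℕ) : ∑ n ∈ Finset.Icc 1 N, (1:ℝ)/n * ((BadSet j n).card / 2^j) ≤ beta N j := by
  have h1 : ∀ n : ℕ, ((BadSet j n).card : ℝ) =
      ∑ a ∈ Finset.Ico (2^j) (2^(j+1)), if a < n ∧ Bad j (n - a) then (1:ℝ) else 0 := by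
    intro n
    unfold BadSet
    rw [Finset.card_filter]
    push_cast
    rfl
  have h2 : ∀ a : ℕ, ∑ n ∈ Finset.Icc 1 N, (1:ℝ)/n * (if a < n ∧ Bad j (n - a) then (1:ℝ) else 0)
      ≤ beta N j := by
    intro a
    unfold beta
    calc ∑ n ∈ Finset.Icc 1 N, (1:ℝ)/n * (if a < n ∧ Bad j (n - a) then (1:ℝ) else 0)
        = ∑ n ∈ (Finset.Icc 1 N).filter (fun n => a < n ∧ Bad j (n - a)), (1:ℝ)/n := by
          rw [Finset.sum_filter]
          refine Finset.sum_congr rfl (fun n _ => ?_)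
          split_ifs <;> simp
      _ ≤ ∑ n ∈ (Finset.Icc 1 N).filter (fun n => a < n ∧ Bad j (n - a)), (1:ℝ)/((n - a : ℕ):ℝ) := by
          refine Finset.sum_le_sum (fun n hn => ?_)
          have hn := (Finset.mem_filter.1 hn).2.1
          have h3 : (0:ℝ) < ((n - a : ℕ):ℝ) := by exact_mod_cast (by omega : 0 < n - a)
          refine one_div_le_one_div_of_le h3 ?_
          exact_mod_cast Nat.sub_le n a
      _ = ∑ c ∈ ((Finset.Icc 1 N).filter (fun n => a < n ∧ Bad j (n - a))).image (fun n => n - a),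
            (1:ℝ)/(c:ℝ) := by
          rw [Finset.sum_image]
          intro n hn m hm hnm
          have hn := (Finset.mem_filter.1 (Finset.mem_coe.1 hn)).2.1
          have hm := (Finset.mem_filter.1 (Finset.mem_coe.1 hm)).2.1
          simp only at hnm
          omega
      _ ≤ _ := by
          refine Finset.sum_le_sum_of_subset_of_nonneg ?_ (fun _ _ _ => by positivity)
          intro c hc
          obtain ⟨n, hn, rfl⟩ := Finset.mem_image.1 hc
          obtain ⟨h3, h4, h5⟩ := Finset.mem_filter.1 hn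
          have h3 := Finset.mem_Icc.1 h3
          exact Finset.mem_filter.2 ⟨Finset.mem_Icc.2 ⟨by omega, by omega⟩, h5⟩
  calc ∑ n ∈ Finset.Icc 1 N, (1:ℝ)/n * ((BadSet j n).card / 2^j)
      = (∑ a ∈ Finset.Ico (2^j) (2^(j+1)), ∑ n ∈ Finset.Icc 1 N,
          (1:ℝ)/n * (if a < n ∧ Bad j (n - a) then (1:ℝ) else 0)) / 2^j := by
        rw [Finset.sum_comm, Finset.sum_div]
        refine Finset.sum_congr rfl (fun n _ => ?_)
        rw [h1, ← Finset.mul_sum]
        ring
    _ ≤ (∑ a ∈ Finset.Ico (2^j) (2^(j+1)), beta N j) / 2^j := by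
        refine div_le_div_of_nonneg_right (Finset.sum_le_sum (fun a _ => h2 a)) (by positivity)
    _ = beta N j := by
        rw [Finset.sum_const, Nat.card_Ico, nsmul_eq_mul]
        have : 2^(j+1) - 2^j = 2^j := by rw [pow_succ]; omega
        rw [this]
        push_cast
        field_simp

open Classical in
lemma beta_le_Hm (N j : ℕ) : beta N j ≤ Hm N := by
  unfold beta Hm
  exact Finset.sum_le_sum_of_subset_of_nonneg (Finset.filter_subset _ _) (fun _ _ _ => by positivity)

open Classical in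
lemma beta_le (N j : ℕ) : beta N j ≤
    (∑ p ∈ (Finset.Ico (YY j + 1) (2^(j+1))).filter Nat.Prime, (1:ℝ)/p) * rho N (YY j) := by
  unfold beta rho
  rw [Finset.sum_mul_sum, ← Finset.sum_product']
  have hch : ∀ c : ℕ, ∃ p : ℕ, Bad j c → p.Prime ∧ p < 2^(j+1) ∧ p ∣ c := by
    intro c
    by_cases h : Bad j c
    · obtain ⟨p, hp⟩ := h.2
      exact ⟨p, fun _ => hp⟩
    · exact ⟨0, fun h' => absurd h' h⟩
  choose f hf using hch
  calc ∑ c ∈ (Finset.Icc 1 N).filter (Bad j), (1:ℝ)/c
      = ∑ c ∈ (Finset.Icc 1 N).filter (Bad j), (1:ℝ)/((f c : ℕ):ℝ) * (1/((c / f c : ℕ) : ℝ)) := by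
        refine Finset.sum_congr rfl (fun c hc => ?_)
        have hb := (Finset.mem_filter.1 hc).2
        obtain ⟨h1, h2, h3⟩ := hf c hb
        obtain ⟨d, hd⟩ := h3
        have h4 : c / f c = d := Nat.div_eq_of_eq_mul_right h1.pos hd
        rw [h4, div_mul_div_comm, one_mul]
        congr 1
        exact_mod_cast hd
    _ = ∑ q ∈ ((Finset.Icc 1 N).filter (Bad j)).image (fun c => (f c, c / f c)),
          (1:ℝ)/((q.1 : ℕ):ℝ) * (1/((q.2 : ℕ) : ℝ)) := by
        rw [Finset.sum_image]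
        intro c hc c' hc' heq
        obtain ⟨e1, e2⟩ := Prod.mk.inj heq
        have hb := (Finset.mem_filter.1 (Finset.mem_coe.1 hc)).2
        have hb' := (Finset.mem_filter.1 (Finset.mem_coe.1 hc')).2
        obtain ⟨h1, h2, h3⟩ := hf c hb
        obtain ⟨h1', h2', h3'⟩ := hf c' hb'
        calc c = f c * (c / f c) := (Nat.mul_div_cancel' h3).symm
          _ = f c' * (c' / f c') := by rw [e2, e1]
          _ = c' := Nat.mul_div_cancel' h3'
    _ ≤ _ := by
        refine Finset.sum_le_sum_of_subset_of_nonneg ?_ (fun _ _ _ => by positivity)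
        intro q hq
        obtain ⟨c, hc, rfl⟩ := Finset.mem_image.1 hq
        obtain ⟨hcN, hb⟩ := Finset.mem_filter.1 hc
        have hcN := Finset.mem_Icc.1 hcN
        obtain ⟨h1, h2, h3⟩ := hf c hb
        have hY : ¬ f c ≤ YY j := fun h => hb.1 (f c) h1 h h3
        have hdvd : c / f c ∣ c := Nat.div_dvd_of_dvd h3
        refine Finset.mem_product.2 ⟨Finset.mem_filter.2 ⟨Finset.mem_Ico.2 ⟨by omega, h2⟩, h1⟩,
          Finset.mem_filter.2 ⟨Finset.mem_Icc.2 ⟨?_, ?_⟩, ?_⟩⟩
        · exact Nat.div_pos (Nat.le_of_dvd (by omega) h3) h1.pos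
        · exact (Nat.div_le_self _ _).trans hcN.2
        · intro p hp hpY hpd
          exact hb.1 p hp hpY (hpd.trans hdvd)

end Pool.Agent.H24.GC
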