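import Pool.Agent.H24.GC2
set_option autoImplicit false
open N435e839e

namespace Pool.Agent.H24.GC

lemma sq_le_pow (m : ℕ) (hm : 10 ≤ m) : (2*m+2)^2 ≤ 2^m := by
  induction m, hm using Nat.le_induction with
  | base => norm_num
  | succ m hm ih =>
    rw [pow_succ 2 m]
    nlinarith

lemma YY_lower (j : ℕ) (hj : 20 ≤ j) : 2^(j/2) ≤ YY j := by
  unfold YY
  rw [Nat.le_div_iff_mul_le (by positivity)]
  have h1 : (j+1)^2 ≤ 2^(j/2) :=
    le_trans (Nat.pow_le_pow_left (by omega) 2) (sq_le_pow (j/2) (by omega))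
  calc 2^(j/2) * (j+1)^2 ≤ 2^(j/2) * 2^(j/2) := Nat.mul_le_mul_left _ h1
    _ = 2^(j/2 + j/2) := by rw [pow_add]
    _ ≤ 2^j := Nat.pow_le_pow_right (by norm_num) (by omega)

lemma YY_le (j : ℕ) : YY j ≤ 2^j := Nat.div_le_self _ _

lemma YY_div (j : ℕ) : (YY j : ℝ) / 2^j ≤ 1 / ((j:ℝ)+1)^2 := by
  have h1 : YY j * (j+1)^2 ≤ 2^j := Nat.div_mul_le_self _ _
  rw [div_le_div_iff₀ (by positivity) (by positivity)]
  have : ((YY j * (j+1)^2 : ℕ) : ℝ) ≤ ((2^j : ℕ) : ℝ) := by exact_mod_cast h1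
  push_cast at this
  linarith

/-- the number of dyadic blocks -/
lemma blocks (j : ℕ) (hj : 20 ≤ j) : j/2 ≤ Nat.log 2 (YY j) ∧ Nat.log 2 (YY j) ≤ j ∧
    (j - Nat.log 2 (YY j) + 1)^2 ≤ 64 * j := by
  have hY := YY_lower j hj
  have hY0 : YY j ≠ 0 := by
    have : 0 < 2^(j/2) := by positivity
    omega
  have h1 : j/2 ≤ Nat.log 2 (YY j) := (Nat.le_log_iff_pow_le (by norm_num) hY0).2 hY
  have h2 : Nat.log 2 (YY j) ≤ j := by
    have := Nat.log_mono_right (b := 2) (YY_le j)
    rwa [Nat.log_pow (by norm_num)] at this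
  refine ⟨h1, h2, ?_⟩
  obtain ⟨k, hk⟩ := Nat.exists_eq_add_of_le h2
  set i0 := Nat.log 2 (YY j)
  have h3 : YY j < 2^(i0+1) := Nat.lt_pow_succ_log_self (by norm_num) _
  have h4 : 2^j < 2^(i0+1) * (j+1)^2 := by
    have : 2^j / (j+1)^2 < 2^(i0+1) := h3
    rwa [Nat.div_lt_iff_lt_mul (by positivity)] at this
  have h5 : 2^k < 2 * (j+1)^2 := by
    have e1 : 2^j = 2^i0 * 2^k := by rw [← pow_add, ← hk]
    have e2 : 2^(i0+1) * (j+1)^2 = 2^i0 * (2 * (j+1)^2) := by rw [pow_succ]; ring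
    rw [e1, e2] at h4
    exact Nat.lt_of_mul_lt_mul_left h4
  have h6 : j - i0 = k := by omega
  rw [h6]
  set q := k/4 with hq
  have h7 : (q+1)^4 ≤ 2^k := by
    calc (q+1)^4 ≤ (2^q)^4 := Nat.pow_le_pow_left (Nat.lt_two_pow_self) 4
      _ = 2^(q*4) := by rw [pow_mul]
      _ ≤ 2^k := Nat.pow_le_pow_right (by norm_num) (by omega)
  have h8 : (q+1)^2 < 2 * (j+1) := by
    by_contra hcon
    push Not at hcon
    have : (2 * (j+1))^2 ≤ ((q+1)^2)^2 := Nat.pow_le_pow_left hcon 2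
    have e3 : ((q+1)^2)^2 = (q+1)^4 := by ring
    have e4 : (2 * (j+1))^2 = 4 * (j+1)^2 := by ring
    have e5 : 0 < (j+1)^2 := by positivity
    omega
  have h9 : k + 1 ≤ 4 * (q+1) := by omega
  calc (k+1)^2 ≤ (4 * (q+1))^2 := Nat.pow_le_pow_left h9 2
    _ = 16 * (q+1)^2 := by ring
    _ ≤ 16 * (2 * (j+1)) := Nat.mul_le_mul_left _ h8.le
    _ ≤ 64 * j := by omega

lemma prime_sum (j : ℕ) (hj : 20 ≤ j) :
    ∑ p ∈ (Finset.Ico (YY j + 1) (2^(j+1))).filter Nat.Prime, (1:ℝ)/p ≤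
      (8 * Real.sqrt j) * (12 / j) := by
  obtain ⟨h1, h2, h3⟩ := blocks j hj
  set i0 := Nat.log 2 (YY j) with hi0
  have hY := YY_lower j hj
  have hY0 : YY j ≠ 0 := by
    have : 0 < 2^(j/2) := by positivity
    omega
  have hlow : 2^i0 ≤ YY j := Nat.pow_log_le_self 2 hY0
  have hmaps : ∀ p ∈ (Finset.Ico (YY j + 1) (2^(j+1))).filter Nat.Prime,
      Nat.log 2 p ∈ Finset.Icc i0 j := by
    intro p hp
    obtain ⟨h4, h5⟩ := Finset.mem_filter.1 hp
    obtain ⟨h6, h7⟩ := Finset.mem_Ico.1 h4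
    refine Finset.mem_Icc.2 ⟨(Nat.le_log_iff_pow_le (by norm_num) (by omega)).2 (by omega), ?_⟩
    exact Nat.lt_succ_iff.1 ((Nat.log_lt_iff_lt_pow (by norm_num) (by omega)).2 h7)
  rw [← Finset.sum_fiberwise_of_maps_to hmaps]
  have hj0 : (0:ℝ) < j := by exact_mod_cast (by omega : 0 < j)
  calc ∑ i ∈ Finset.Icc i0 j, ∑ p ∈ ((Finset.Ico (YY j + 1) (2^(j+1))).filter Nat.Prime).filter
        (fun p => Nat.log 2 p = i), (1:ℝ)/p
      ≤ ∑ i ∈ Finset.Icc i0 j, (12:ℝ)/j := by
        refine Finset.sum_le_sum (fun i hi => ?_)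
        have hi := Finset.mem_Icc.1 hi
        have hi1 : 1 ≤ i := by omega
        calc _ ≤ ∑ p ∈ (Finset.Ico (2^i) (2^(i+1))).filter Nat.Prime, (1:ℝ)/p := by
              refine Finset.sum_le_sum_of_subset_of_nonneg ?_ (fun _ _ _ => by positivity)
              intro p hp
              obtain ⟨h4, h5⟩ := Finset.mem_filter.1 hp
              obtain ⟨h6, h7⟩ := Finset.mem_filter.1 h4
              have hp0 : p ≠ 0 := h7.ne_zero
              refine Finset.mem_filter.2 ⟨Finset.mem_Ico.2 ⟨?_, ?_⟩, h7⟩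
              · rw [← h5]; exact Nat.pow_log_le_self 2 hp0
              · rw [← h5]; exact Nat.lt_pow_succ_log_self (by norm_num) p
          _ ≤ 4 / i := block_sum i hi1
          _ ≤ 12 / j := by
              have hi0' : (0:ℝ) < i := by exact_mod_cast hi1
              rw [div_le_div_iff₀ hi0' hj0]
              have : j ≤ 3 * i := by omega
              have : (j:ℝ) ≤ 3 * i := by exact_mod_cast this
              linarith
    _ = ((j - i0 + 1 : ℕ) : ℝ) * (12 / j) := by
        rw [Finset.sum_const, Nat.card_Icc, nsmul_eq_mul]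
        congr 2
        omega
    _ ≤ _ := by
        refine mul_le_mul_of_nonneg_right ?_ (by positivity)
        have h4 : (((j - i0 + 1 : ℕ) : ℝ))^2 ≤ 64 * j := by exact_mod_cast h3
        have h5 : (8 * Real.sqrt j)^2 = 64 * j := by
          rw [mul_pow, Real.sq_sqrt hj0.le]; norm_num
        rw [← h5] at h4
        exact (pow_le_pow_iff_left₀ (by positivity) (by positivity) two_ne_zero).1 h4

lemma beta_bound (N j : ℕ) (hj : 20 ≤ j) (hjN : 2^j ≤ N) :
    beta N j ≤ (1152 * (Real.sqrt j / j^2)) * Hm N := by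
  have h1 := beta_le N j
  have h2 := prime_sum j hj
  have h3 := rho_bound N (YY j)
  have hY := YY_lower j hj
  have hj0 : (0:ℝ) < j := by exact_mod_cast (by omega : 0 < j)
  have hj20 : (20:ℝ) ≤ j := by exact_mod_cast hj
  have hN1 : 1 ≤ N := le_trans Nat.one_le_two_pow hjN
  have hN0 : (0:ℝ) < N := by exact_mod_cast hN1
  have hYN : YY j ≤ N := (YY_le j).trans hjN
  have hY1 : 1 ≤ YY j := le_trans Nat.one_le_two_pow hY
  have hYpos : (0:ℝ) < YY j := by exact_mod_cast hY1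
  -- Hm (N * Y) ≤ 3 Hm N
  have h4 : Hm (N * YY j) ≤ 3 * Hm N := by
    have e1 := Hm_upper (N * YY j)
    have e2 : Real.log ((N * YY j : ℕ) : ℝ) ≤ Real.log N + Real.log N := by
      push_cast
      rw [Real.log_mul hN0.ne' hYpos.ne']
      have : Real.log (YY j) ≤ Real.log N := Real.log_le_log hYpos (by exact_mod_cast hYN)
      linarith
    have e3 : Real.log N ≤ Hm N :=
      le_trans (Real.log_le_log hN0 (by linarith)) (Hm_lower N)
    have e4 := one_le_Hm hN1
    linarith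
  -- Hm Y ≥ j / 4
  have h5 : (j:ℝ)/4 ≤ Hm (YY j) := by
    refine le_trans ?_ (Hm_lower (YY j))
    have e1 : (2:ℝ)^(j/2) ≤ (YY j : ℝ) + 1 := by
      have : ((2^(j/2) : ℕ) : ℝ) ≤ (YY j : ℝ) := by exact_mod_cast hY
      push_cast at this
      linarith
    have e2 : Real.log ((2:ℝ)^(j/2)) ≤ Real.log ((YY j : ℝ) + 1) :=
      Real.log_le_log (by positivity) e1
    rw [Real.log_pow] at e2
    have e3 : ((j:ℝ) - 1)/2 ≤ ((j/2 : ℕ) : ℝ) := by
      have : j ≤ 2 * (j/2) + 1 := by omega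
      have : (j:ℝ) ≤ 2 * ((j/2 : ℕ) : ℝ) + 1 := by exact_mod_cast this
      linarith
    have e4 := Real.log_two_gt_d9
    nlinarith
  have hrho0 : 0 ≤ rho N (YY j) := by
    unfold rho
    exact Finset.sum_nonneg (fun _ _ => by positivity)
  have h6 : rho N (YY j) ≤ (12 / j) * Hm N := by
    have e1 : rho N (YY j) * ((j:ℝ)/4) ≤ 3 * Hm N :=
      (mul_le_mul_of_nonneg_left h5 hrho0).trans (h3.trans h4)
    rw [div_mul_eq_mul_div, le_div_iff₀ hj0]
    linarith
  calc beta N j ≤ _ := h1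
    _ ≤ ((8 * Real.sqrt j) * (12 / j)) * ((12 / j) * Hm N) :=
        mul_le_mul h2 h6 hrho0 (by positivity)
    _ = _ := by field_simp; ring

noncomputable def gg (j : ℕ) : ℝ := 1 / ((j:ℝ)+1)^2 + (if j < 20 then 1 else 1152 * (Real.sqrt j / j^2))

lemma gg_nonneg (j : ℕ) : 0 ≤ gg j := by
  unfold gg; split_ifs <;> positivity

lemma gg_summable : Summable gg := by
  unfold gg
  refine Summable.add ?_ ?_
  · have := (summable_nat_add_iff 1).2 (Real.summable_one_div_nat_pow.2 (by norm_num : 1 < 2))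
    simpa using this
  · have h1 : Summable (fun j : ℕ => 1152 * (1 / (j:ℝ)^(3/2 : ℝ))) :=
      (Real.summable_one_div_nat_rpow.2 (by norm_num)).mul_left _
    have h2 : Summable (fun j : ℕ => if j < 20 then (1:ℝ) else 0) := by
      refine summable_of_ne_finset_zero (s := Finset.range 20) (fun j hj => ?_)
      rw [if_neg (by simpa using hj)]
    refine Summable.of_nonneg_of_le (fun j => by split_ifs <;> positivity) (fun j => ?_) (h1.add h2)
    split_ifs with h
    · have : (0:ℝ) ≤ 1152 * (1 / (j:ℝ)^(3/2 : ℝ)) := by positivity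
      linarith
    · have hj0 : (0:ℝ) < j := by exact_mod_cast (by omega : 0 < j)
      have e1 : (j:ℝ)^(3/2 : ℝ) = j * Real.sqrt j := by
        rw [Real.sqrt_eq_rpow, show (3/2:ℝ) = 1 + 1/2 by norm_num, Real.rpow_add hj0, Real.rpow_one]
      have e2 : Real.sqrt j / j^2 = 1 / (j * Real.sqrt j) := by
        have hs : 0 < Real.sqrt j := Real.sqrt_pos.2 hj0
        rw [div_eq_div_iff (by positivity) (by positivity)]
        have := Real.mul_self_sqrt hj0.le
        nlinarith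
      rw [e1, ← e2]
      linarith

theorem avg_bound : ∃ C0 : ℝ, ∀ N : ℕ, 1 ≤ N →
    ∑ n ∈ Finset.Icc 1 N, (1:ℝ)/n * properSum true n ≤ C0 * Hm N := by
  refine ⟨∑' j, gg j, fun N hN => ?_⟩
  have hH := one_le_Hm hN
  calc ∑ n ∈ Finset.Icc 1 N, (1:ℝ)/n * properSum true n
      ≤ ∑ n ∈ Finset.Icc 1 N, (1:ℝ)/n * ∑ j ∈ Finset.range (Nat.log 2 N + 1),
          ((YY j : ℝ)/2^j + (BadSet j n).card / 2^j) := by
        refine Finset.sum_le_sum (fun n hn => ?_)
        exact mul_le_mul_of_nonneg_left (per_n N n (Finset.mem_Icc.1 hn).2) (by positivity)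
    _ = ∑ j ∈ Finset.range (Nat.log 2 N + 1), ((YY j : ℝ)/2^j * Hm N +
          ∑ n ∈ Finset.Icc 1 N, (1:ℝ)/n * ((BadSet j n).card / 2^j)) := by
        simp_rw [Finset.mul_sum]
        rw [Finset.sum_comm]
        refine Finset.sum_congr rfl (fun j _ => ?_)
        unfold Hm
        rw [Finset.mul_sum, ← Finset.sum_add_distrib]
        refine Finset.sum_congr rfl (fun n _ => ?_)
        ring
    _ ≤ ∑ j ∈ Finset.range (Nat.log 2 N + 1), gg j * Hm N := by
        refine Finset.sum_le_sum (fun j hj => ?_)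
        have hj := Finset.mem_range.1 hj
        have hjN : 2^j ≤ N := (Nat.le_log_iff_pow_le (by norm_num) (by omega)).1 (by omega)
        have e1 := sum_bad N j
        have e2 := YY_div j
        unfold gg
        rw [add_mul]
        refine add_le_add (mul_le_mul_of_nonneg_right e2 (by linarith)) (e1.trans ?_)
        split_ifs with h
        · rw [one_mul]; exact beta_le_Hm N j
        · exact beta_bound N j (by omega) hjN
    _ = (∑ j ∈ Finset.range (Nat.log 2 N + 1), gg j) * Hm N := by rw [Finset.sum_mul]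
    _ ≤ _ := by
        refine mul_le_mul_of_nonneg_right ?_ (by linarith)
        exact gg_summable.sum_le_tsum _ (fun j _ => gg_nonneg j)

lemma properSum_nonneg (n : ℕ) : 0 ≤ properSum true n := by
  unfold properSum
  exact Finset.sum_nonneg (fun _ _ => by positivity)

theorem main : ¬ (Filter.Tendsto (properSum true) Filter.atTop Filter.atTop) := by
  intro h
  obtain ⟨C0, hC0⟩ := avg_bound
  obtain ⟨n0, hn0⟩ := Filter.eventually_atTop.1 (Filter.tendsto_atTop.1 h (|C0| + 1))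
  -- for all N ≥ n0 + 1, Hm N ≤ (|C0|+1) Hm n0 + ...
  have key : ∀ N, n0 + 1 ≤ N → Hm N ≤ (|C0| + 1) * Hm n0 := by
    intro N hN
    have h1 := hC0 N (by omega)
    have h2 : ∑ n ∈ Finset.Ioc n0 N, (1:ℝ)/n * (|C0| + 1) ≤
        ∑ n ∈ Finset.Icc 1 N, (1:ℝ)/n * properSum true n := by
      calc ∑ n ∈ Finset.Ioc n0 N, (1:ℝ)/n * (|C0| + 1)
          ≤ ∑ n ∈ Finset.Ioc n0 N, (1:ℝ)/n * properSum true n := by
            refine Finset.sum_le_sum (fun n hn => ?_)
            have := (Finset.mem_Ioc.1 hn).1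
            exact mul_le_mul_of_nonneg_left (hn0 n (by omega)) (by positivity)
        _ ≤ _ := by
            refine Finset.sum_le_sum_of_subset_of_nonneg ?_ (fun n _ _ =>
              mul_nonneg (by positivity) (properSum_nonneg n))
            intro n hn
            have := Finset.mem_Ioc.1 hn
            exact Finset.mem_Icc.2 ⟨by omega, by omega⟩
    have h3 : Hm N = Hm n0 + ∑ n ∈ Finset.Ioc n0 N, (1:ℝ)/n := by
      unfold Hm
      have : Finset.Icc 1 N = Finset.Icc 1 n0 ∪ Finset.Ioc n0 N := by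
        ext n; simp only [Finset.mem_Icc, Finset.mem_union, Finset.mem_Ioc]; omega
      rw [this, Finset.sum_union]
      rw [Finset.disjoint_left]
      intro n h4 h5
      have := Finset.mem_Icc.1 h4
      have := Finset.mem_Ioc.1 h5
      omega
    rw [← Finset.sum_mul] at h2
    have h4 : ∑ n ∈ Finset.Ioc n0 N, (1:ℝ)/n = Hm N - Hm n0 := by linarith
    rw [h4] at h2
    have h5 : 0 ≤ Hm N := by unfold Hm; exact Finset.sum_nonneg (fun _ _ => by positivity)
    have h6 : C0 * Hm N ≤ |C0| * Hm N := mul_le_mul_of_nonneg_right (le_abs_self _) h5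
    nlinarith
  -- but Hm → ∞
  have hlim : Filter.Tendsto (fun N : ℕ => Real.log ((N:ℝ)+1)) Filter.atTop Filter.atTop :=
    Real.tendsto_log_atTop.comp (Filter.tendsto_atTop_add_const_right _ _ tendsto_natCast_atTop_atTop)
  obtain ⟨N1, hN1⟩ := Filter.eventually_atTop.1
    (Filter.tendsto_atTop.1 hlim ((|C0| + 1) * Hm n0 + 1))
  have a1 := hN1 (max N1 (n0+1)) (le_max_left _ _)
  have a2 := key (max N1 (n0+1)) (le_max_right _ _)
  have a3 := Hm_lower (max N1 (n0+1))
  linarith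

end Pool.Agent.H24.GC
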