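import Mathlib

set_option autoImplicit false

namespace Pool.Agent.H24.GS

abbrev k := ZMod 2

section General
variable {G : Type} [Group G]

/-- right translation on functions -/
def rho (g : G) : (G → k) →ₗ[k] (G → k) where
  toFun f := fun z => f (z * g)
  map_add' _ _ := rfl
  map_smul' _ _ := rfl

@[simp] lemma rho_apply (g : G) (f : G → k) (z : G) : rho g f z = f (z * g) := rfl

lemma rho_mul (g h : G) (f : G → k) : rho (g * h) f = rho g (rho h f) := by
  ext z; simp [mul_assoc]

@[simp] lemma rho_one (f : G → k) : rho (1 : G) f = f := by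
  ext z; simp

@[simp] lemma rho_inv_rho (g : G) (f : G → k) : rho g⁻¹ (rho g f) = f := by
  rw [← rho_mul]; simp

@[simp] lemma rho_rho_inv (g : G) (f : G → k) : rho g (rho g⁻¹ f) = f := by
  rw [← rho_mul]; simp

/-- the filtration -/
def E (N : Subgroup G) : ℕ → Submodule k (G → k)
  | 0 => ⊥
  | (m+1) =>
    { carrier := {f | ∀ n ∈ N, rho n f - f ∈ E N m}
      add_mem' := by
        intro a b ha hb n hn
        have := (E N m).add_mem (ha n hn) (hb n hn)
        have h2 : rho n (a + b) - (a + b) = (rho n a - a) + (rho n b - b) := by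
          rw [map_add]; abel
        rw [h2]; exact this
      zero_mem' := by
        intro n hn
        simp
      smul_mem' := by
        intro c a ha n hn
        have := (E N m).smul_mem c (ha n hn)
        have h2 : rho n (c • a) - (c • a) = c • (rho n a - a) := by
          rw [map_smul, smul_sub]
        rw [h2]; exact this }

lemma mem_E_succ (N : Subgroup G) (m : ℕ) (f : G → k) :
    f ∈ E N (m+1) ↔ ∀ n ∈ N, rho n f - f ∈ E N m := Iff.rfl

lemma E_rho (N : Subgroup G) [hN : N.Normal] (m : ℕ) (g : G) (f : G → k) (hf : f ∈ E N m) :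
    rho g f ∈ E N m := by
  induction m generalizing f with
  | zero =>
    have : f = 0 := hf
    subst this
    simp
  | succ m ih =>
    intro n hn
    have h1 : rho n (rho g f) - rho g f = rho g (rho (g⁻¹ * n * g) f - f) := by
      rw [map_sub, ← rho_mul, ← rho_mul]
      congr 2
      group
    rw [h1]
    apply ih
    apply hf
    have := hN.conj_mem n hn g⁻¹
    simpa using this

lemma E_le_succ (N : Subgroup G) [hN : N.Normal] (m : ℕ) : E N m ≤ E N (m+1) := by
  intro f hf
  have : ∀ n : G, rho n f ∈ E N m := fun n => E_rho N m n f hf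
  intro n hn
  exact (E N m).sub_mem (this n) hf

lemma E_mul (N : Subgroup G) (m : ℕ) (c : G → k) (hc : ∀ z, ∀ n ∈ N, c (z * n) = c z)
    (f : G → k) (hf : f ∈ E N m) : c * f ∈ E N m := by
  induction m generalizing f with
  | zero =>
    have : f = 0 := hf
    subst this
    simp
  | succ m ih =>
    intro n hn
    have h1 : rho n (c * f) - c * f = c * (rho n f - f) := by
      ext z
      simp [hc z n hn, mul_sub]
    rw [h1]
    exact ih _ (hf n hn)

/-- the set of `g` with `rho g f - f ∈ E N m` is a subgroup -/
lemma stab_mem (N : Subgroup G) [hN : N.Normal] (m : ℕ) (f : G → k) (s : Set G)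
    (hs : ∀ g ∈ s, rho g f - f ∈ E N m) (g : G) (hg : g ∈ Subgroup.closure s) :
    rho g f - f ∈ E N m := by
  induction hg using Subgroup.closure_induction with
  | mem x hx => exact hs x hx
  | one => simp
  | mul x y _ _ hx hy =>
    have : rho (x * y) f - f = rho x (rho y f - f) + (rho x f - f) := by
      rw [rho_mul, map_sub]; abel
    rw [this]
    exact (E N m).add_mem (E_rho N m x _ hy) hx
  | inv x _ hx =>
    have : rho x⁻¹ f - f = - rho x⁻¹ (rho x f - f) := by
      rw [map_sub]; simp
    rw [this]
    exact (E N m).neg_mem (E_rho N m _ _ hx)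

end General

section Dim
variable {G : Type} [Group G] [Fintype G]

/-- the submodule of elements of `E (m+1)` almost invariant under `K` -/
def W (N : Subgroup G) (m : ℕ) (K : Set G) : Submodule k (G → k) where
  carrier := {f | f ∈ E N (m+1) ∧ ∀ g ∈ K, rho g f - f ∈ E N m}
  add_mem' := by
    intro a b ha hb
    refine ⟨(E N (m+1)).add_mem ha.1 hb.1, fun g hg => ?_⟩
    have := (E N m).add_mem (ha.2 g hg) (hb.2 g hg)
    have h2 : rho g (a + b) - (a + b) = (rho g a - a) + (rho g b - b) := by
      rw [map_add]; abel
    rw [h2]; exact this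
  zero_mem' := by
    refine ⟨(E N (m+1)).zero_mem, fun g hg => ?_⟩
    simp
  smul_mem' := by
    intro c a ha
    refine ⟨(E N (m+1)).smul_mem c ha.1, fun g hg => ?_⟩
    have := (E N m).smul_mem c (ha.2 g hg)
    have h2 : rho g (c • a) - (c • a) = c • (rho g a - a) := by
      rw [map_smul, smul_sub]
    rw [h2]; exact this

variable (N : Subgroup G) [hN : N.Normal]

open Module

/-- main dimension estimate -/
lemma dim_W {S : Type} [Fintype S] [DecidableEq S] (pt : G → S)
    (hpt : ∀ z, ∀ n ∈ N, pt (z * n) = pt z) (K : Set G)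
    (hT : ∀ s t : S, ∃ g ∈ K, ∀ z, pt z = s ↔ pt (z * g) = t) (m : ℕ) :
    Fintype.card S * finrank k (W N m K) + finrank k (E N m) ≤
      finrank k (E N (m+1)) + Fintype.card S * finrank k (E N m) := by
  classical
  -- indicator functions
  let chi : S → (G → k) := fun s z => if pt z = s then 1 else 0
  have hchi : ∀ s z, ∀ n ∈ N, chi s (z * n) = chi s z := by
    intro s z n hn
    simp only [chi, hpt z n hn]
  let P : S → ((G → k) →ₗ[k] (G → k)) := fun s => LinearMap.mulLeft k (chi s)
  have hP : ∀ s f, P s f = chi s * f := fun s f => rfl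
  have hPE : ∀ s j f, f ∈ E N j → P s f ∈ E N j := fun s j f hf => E_mul N j (chi s) (hchi s) f hf
  have hsum : ∀ f : G → k, ∑ s, P s f = f := by
    intro f
    ext z
    simp [hP, chi, Finset.sum_apply]
  have hPP : ∀ s t f, P t (P s f) = if s = t then P s f else 0 := by
    intro s t f
    ext z
    by_cases h : s = t
    · subst h
      simp only [hP, chi, Pi.mul_apply, if_true]
      split_ifs <;> simp
    · simp only [hP, chi, Pi.mul_apply, if_neg h, Pi.zero_apply]
      by_cases h1 : pt z = t
      · have : pt z ≠ s := fun h2 => h (h2.symm.trans h1)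
        simp [this]
      · simp [h1]
  -- the map
  let Θ : (S → W N m K) →ₗ[k] ((G → k) ⧸ E N m) :=
    (E N m).mkQ ∘ₗ (∑ s, (P s) ∘ₗ (W N m K).subtype ∘ₗ (LinearMap.proj s))
  have hΘ : ∀ w, Θ w = (E N m).mkQ (∑ s, P s (w s : G → k)) := by
    intro w
    simp [Θ, LinearMap.sum_apply]
  have hrange : LinearMap.range Θ ≤ (E N (m+1)).map (E N m).mkQ := by
    rintro _ ⟨w, rfl⟩
    rw [hΘ]
    refine Submodule.mem_map_of_mem ?_
    exact Submodule.sum_mem _ (fun s _ => hPE s (m+1) _ (w s).2.1)
  have hker : ∀ w, Θ w = 0 → ∀ t, (w t : G → k) ∈ E N m := by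
    intro w hw t
    rw [hΘ, Submodule.mkQ_apply, Submodule.Quotient.mk_eq_zero] at hw
    have h1 : P t (w t : G → k) ∈ E N m := by
      have := hPE t m _ hw
      rw [map_sum] at this
      simpa [hPP] using this
    rw [← hsum (w t : G → k)]
    refine Submodule.sum_mem _ (fun s _ => ?_)
    obtain ⟨g, hg, hgz⟩ := hT s t
    have h2 : P s (rho g (w t : G → k)) = rho g (P t (w t : G → k)) := by
      ext z
      simp only [hP, chi, Pi.mul_apply, rho_apply]
      by_cases h : pt z = s
      · rw [if_pos h, if_pos ((hgz z).1 h)]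
      · rw [if_neg h, if_neg (fun h' => h ((hgz z).2 h'))]
    have h3 : P s (w t : G → k) = P s (rho g (w t : G → k)) - P s (rho g (w t : G → k) - (w t : G → k)) := by
      rw [map_sub]; abel
    rw [h3, h2]
    exact (E N m).sub_mem (E_rho N m g _ h1) (hPE s m _ ((w t).2.2 g hg))
  have hrn := LinearMap.finrank_range_add_finrank_ker Θ
  have hfin : finrank k (S → W N m K) = Fintype.card S * finrank k (W N m K) := by
    rw [finrank_pi_fintype]; simp
  have hkerdim : finrank k (LinearMap.ker Θ) ≤ Fintype.card S * finrank k (E N m) := by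
    have hfin2 : finrank k (S → E N m) = Fintype.card S * finrank k (E N m) := by
      rw [finrank_pi_fintype]; simp
    rw [← hfin2]
    let ι : LinearMap.ker Θ →ₗ[k] (S → E N m) :=
      { toFun := fun w s => ⟨((w : S → W N m K) s : G → k), hker _ w.2 s⟩
        map_add' := by intro a b; rfl
        map_smul' := by intro c a; rfl }
    refine LinearMap.finrank_le_finrank_of_injective (f := ι) ?_
    intro a b hab
    ext s z
    have := congrFun hab s
    have := congrArg (fun q : E N m => (q : G → k) z) this
    exact this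
  have hrd : finrank k (LinearMap.range Θ) + finrank k (E N m) ≤ finrank k (E N (m+1)) := by
    have h1 : finrank k (LinearMap.range Θ) ≤ finrank k ((E N (m+1)).map (E N m).mkQ) :=
      Submodule.finrank_mono hrange
    have h2 : finrank k ((E N (m+1)).map (E N m).mkQ) + finrank k (E N m) = finrank k (E N (m+1)) := by
      have h3 := LinearMap.finrank_range_add_finrank_ker ((E N m).mkQ.domRestrict (E N (m+1)))
      have h4 : LinearMap.range ((E N m).mkQ.domRestrict (E N (m+1))) = (E N (m+1)).map (E N m).mkQ := by
        rw [LinearMap.domRestrict, LinearMap.range_comp, Submodule.range_subtype]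
      have h5 : finrank k (LinearMap.ker ((E N m).mkQ.domRestrict (E N (m+1)))) = finrank k (E N m) := by
        have h6 : LinearMap.ker ((E N m).mkQ.domRestrict (E N (m+1))) = (E N m).submoduleOf (E N (m+1)) := by
          rw [LinearMap.domRestrict, LinearMap.ker_comp, Submodule.ker_mkQ]; rfl
        rw [h6]
        exact (Submodule.submoduleOfEquivOfLe (E_le_succ N m)).finrank_eq
      rw [h4, h5] at h3
      exact h3
    omega
  rw [hfin] at hrn
  omega

end Dim
end Pool.Agent.H24.GS
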