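import Pool.Agent.H24.GSa

set_option autoImplicit false

namespace Pool.Agent.H24.GS

/-- `[z, y] = z⁻¹ y⁻¹ z y` -/
def cmt {Γ : Type} [Group Γ] (y z : Γ) : Γ := z⁻¹ * y⁻¹ * z * y

/-- the coefficients in the group algebra -/
noncomputable def ab {H : Type} [Group H] (x y : H) : ℕ → MonoidAlgebra k H × MonoidAlgebra k H
  | 0 => (1, 0)
  | (j+1) =>
    (MonoidAlgebra.single ((cmt y)^[j] x)⁻¹ 1 *
        (MonoidAlgebra.single y⁻¹ 1 * (ab x y j).1 - (ab x y j).1),
     MonoidAlgebra.single ((cmt y)^[j] x)⁻¹ 1 *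
        (MonoidAlgebra.single y⁻¹ 1 * (ab x y j).2 - (ab x y j).2 +
          MonoidAlgebra.single y⁻¹ 1 * (MonoidAlgebra.single ((cmt y)^[j] x) 1 - 1)))

/-- Table lookup -/
def lut (T i : ℕ) : ℕ := (T >>> (6*i)) &&& 63

def permAux (T b : ℕ) : ℕ → ℕ
  | 0 => 0
  | (n+1) => bif b.testBit n then permAux T b n ^^^ (1 <<< lut T n) else permAux T b n

def px : Equiv.Perm (Fin 5) := ⟨![1,2,3,4,0], ![4,0,1,2,3], by decide, by decide⟩
def py : Equiv.Perm (Fin 5) := ⟨![2,0,4,1,3], ![1,3,0,4,2], by decide, by decide⟩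

def Etab : ℕ := 888308752064989776699982562569861759854341061410593582743822179725225155917775901788354691927028255446714357396202776582826714831664850247984752741602244254716579661260187758494720

/-- enumeration of the sixty elements -/
def e (i : ℕ) : Equiv.Perm (Fin 5) :=
  let c := (Etab >>> (10*i)) &&& 1023
  px ^ (c % 5) * py ^ (c / 5 % 5) * px ^ (c / 25 % 5) * py ^ (c / 125)

noncomputable def A (b : ℕ) : MonoidAlgebra k (Equiv.Perm (Fin 5)) :=
  ∑ i ∈ Finset.range 60, if b.testBit i then MonoidAlgebra.single (e i) 1 else 0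

lemma add_self_zero (a : MonoidAlgebra k (Equiv.Perm (Fin 5))) : a + a = 0 := by
  have h : ((2 : ℕ) : k) = 0 := by decide
  have : a + a = (2 : ℕ) • a := by rw [two_nsmul]
  rw [this, ← Nat.cast_smul_eq_nsmul k, h, zero_smul]

lemma sub_eq_add' (a b : MonoidAlgebra k (Equiv.Perm (Fin 5))) : a - b = a + b := by
  rw [sub_eq_iff_eq_add, add_assoc, add_self_zero, add_zero]

lemma A_zero : A 0 = 0 := by simp [A]

lemma A_xor (a b : ℕ) : A (a ^^^ b) = A a + A b := by
  unfold A
  rw [← Finset.sum_add_distrib]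
  refine Finset.sum_congr rfl (fun i _ => ?_)
  rw [Nat.testBit_xor]
  cases a.testBit i <;> cases b.testBit i <;> simp [add_self_zero]

lemma A_shift (i : ℕ) (hi : i < 60) : A (1 <<< i) = MonoidAlgebra.single (e i) 1 := by
  unfold A
  rw [Finset.sum_eq_single i]
  · simp [Nat.one_shiftLeft, Nat.testBit_two_pow_self]
  · intro j _ hj
    rw [Nat.one_shiftLeft, Nat.testBit_two_pow_of_ne (Ne.symm hj)]
    simp
  · intro h
    exact absurd (Finset.mem_range.2 hi) h

lemma A_permAux (T b n : ℕ) (hn : n ≤ 60) (h : ∀ i < 60, lut T i < 60) :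
    A (permAux T b n) = ∑ i ∈ Finset.range n,
      if b.testBit i then MonoidAlgebra.single (e (lut T i)) 1 else 0 := by
  induction n with
  | zero => simp [permAux, A_zero]
  | succ n ih =>
    rw [Finset.sum_range_succ, ← ih (by omega), permAux]
    cases hb : b.testBit n
    · simp
    · simp only [cond_true, if_true]
      rw [A_xor, A_shift _ (h n (by omega))]

lemma A_perm (T b : ℕ) (g : Equiv.Perm (Fin 5)) (h : ∀ i < 60, lut T i < 60)
    (hg : ∀ i < 60, g * e i = e (lut T i)) :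
    MonoidAlgebra.single g 1 * A b = A (permAux T b 60) := by
  rw [A_permAux T b 60 le_rfl h]
  unfold A
  rw [Finset.mul_sum]
  refine Finset.sum_congr rfl (fun i hi => ?_)
  rw [← hg i (Finset.mem_range.1 hi)]
  split_ifs
  · simp [MonoidAlgebra.single_mul_single]
  · simp

/-- one state recursion -/
def stp (TY : ℕ) (TW C : ℕ → ℕ) (iy : ℕ) : ℕ → ℕ × ℕ
  | 0 => (1, 0)
  | (j+1) =>
    (permAux (TW (j % 5)) (permAux TY (stp TY TW C iy j).1 60 ^^^ (stp TY TW C iy j).1) 60,
     permAux (TW (j % 5)) ((permAux TY (stp TY TW C iy j).2 60 ^^^ (stp TY TW C iy j).2) ^^^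
        ((1 <<< C (j % 5)) ^^^ (1 <<< iy))) 60)

lemma iter_mod {Γ : Type} [Group Γ] (x y : Γ) (h : (cmt y)^[5] x = x) (j : ℕ) :
    (cmt y)^[j] x = (cmt y)^[j % 5] x := by
  have h1 : ∀ q, (cmt y)^[5*q] x = x := by
    intro q
    induction q with
    | zero => rfl
    | succ q ih =>
      rw [Nat.mul_succ, Function.iterate_add_apply, h, ih]
  conv_lhs => rw [← Nat.mod_add_div j 5]
  rw [Function.iterate_add_apply, h1]

lemma ab_eq (x y : Equiv.Perm (Fin 5)) (hper : (cmt y)^[5] x = x)
    (TY : ℕ) (TW C : ℕ → ℕ) (iy : ℕ)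
    (hTY : ∀ i < 60, lut TY i < 60) (hTY' : ∀ i < 60, y⁻¹ * e i = e (lut TY i))
    (hTW : ∀ r < 5, ∀ i < 60, lut (TW r) i < 60)
    (hTW' : ∀ r < 5, ∀ i < 60, ((cmt y)^[r] x)⁻¹ * e i = e (lut (TW r) i))
    (hC : ∀ r < 5, C r < 60) (hC' : ∀ r < 5, e (C r) = y⁻¹ * (cmt y)^[r] x)
    (hiy : iy < 60) (hiy' : e iy = y⁻¹) (h0 : e 0 = 1) (j : ℕ) :
    (ab x y j).1 = A (stp TY TW C iy j).1 ∧ (ab x y j).2 = A (stp TY TW C iy j).2 := by
  induction j with
  | zero =>
    constructor
    · simp only [ab, stp]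
      have := A_shift 0 (by norm_num)
      rw [h0] at this
      rw [show (1:ℕ) = 1 <<< 0 from rfl, this]
      rfl
    · simp only [ab, stp, A_zero]
  | succ j ih =>
    have hr : j % 5 < 5 := Nat.mod_lt _ (by norm_num)
    constructor
    · simp only [ab, stp]
      rw [ih.1, iter_mod x y hper j, sub_eq_add', A_perm TY _ _ hTY hTY', ← A_xor,
        A_perm _ _ _ (hTW _ hr) (hTW' _ hr)]
    · simp only [ab, stp]
      have hin : MonoidAlgebra.single y⁻¹ (1 : k) *
          (MonoidAlgebra.single ((cmt y)^[j % 5] x) (1 : k) + (1 : MonoidAlgebra k (Equiv.Perm (Fin 5)))) =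
          A ((1 <<< C (j % 5)) ^^^ (1 <<< iy)) := by
        rw [mul_add, MonoidAlgebra.single_mul_single, mul_one, mul_one, ← hC' _ hr, ← hiy',
          A_xor, A_shift _ (hC _ hr), A_shift _ hiy]
      rw [ih.2, iter_mod x y hper j, sub_eq_add', sub_eq_add', A_perm TY _ _ hTY hTY', hin,
        ← A_xor, ← A_xor, A_perm _ _ _ (hTW _ hr) (hTW' _ hr)]

def TY1 : ℕ := 1953080048307654475550118667851828058004411421982645625890350234465695979850683931147810435338595603731896532
def TW1 (r : ℕ) : ℕ := match r with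
  | 0 => 2161558603748753705019935310468714222735391977338271055849272453363802163592627999238946894830365592028450820
  | 1 => 1987491628729819641667933445176307272027938908412469477400911905246778057920584497050019266965503060629186837
  | 2 => 1571165469895329344126239253871498973182869191333154089930101204507049177545325755419342484853873721727282279
  | 3 => 378164779857716413149351547616231948160919002774050906984717857525681501645777812967673929620073075588089180
  | _ => 1608443923590152093616135192772578946402345001322238238535090134315999847819052639269022939027018814388468579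
def C1 (r : ℕ) : ℕ := match r with
  | 0 => 35
  | 1 => 4
  | 2 => 21
  | 3 => 39
  | _ => 28
def TY2 : ℕ := 2161558603748753705019935310468714222735391977338271055849272453363802163592627999238946894830365592028450820
def TW2 (r : ℕ) : ℕ := match r with
  | 0 => 1953080048307654475550118667851828058004411421982645625890350234465695979850683931147810435338595603731896532
  | 1 => 1161542299116130577390241129275025359425390742155304160685918680676041558347773689025428682226752140749934960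
  | 2 => 378164779857716413149351547616231948160919002774050906984717857525681501645777812967673929620073075588089180
  | 3 => 1571165469895329344126239253871498973182869191333154089930101204507049177545325755419342484853873721727282279
  | _ => 568006290251446134562237051502123185238691840369840692004261385306033202786165001395588052304672364665595721
def C2 (r : ℕ) : ℕ := match r with
  | 0 => 9
  | 1 => 20
  | 2 => 48
  | 3 => 28
  | _ => 39

lemma chk1 : permAux TY1 ((stp TY1 TW1 C1 20 60).1 ^^^ 1) 60 ^^^ ((stp TY1 TW1 C1 20 60).1 ^^^ 1) = 0 ∧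
   permAux TY1 (stp TY1 TW1 C1 20 60).2 60 ^^^ (stp TY1 TW1 C1 20 60).2 = 0 := by
  decide +kernel

lemma chk2 : permAux TY2 ((stp TY2 TW2 C2 4 60).1 ^^^ 1) 60 ^^^ ((stp TY2 TW2 C2 4 60).1 ^^^ 1) = 0 ∧
   permAux TY2 (stp TY2 TW2 C2 4 60).2 60 ^^^ (stp TY2 TW2 C2 4 60).2 = 0 := by
  decide +kernel

lemma per1 : (cmt py)^[5] px = px := by decide +kernel
lemma per2 : (cmt px)^[5] py = py := by decide +kernel
lemma e0 : e 0 = 1 := by decide +kernel
lemma hTY1 : ∀ i < 60, lut TY1 i < 60 := by decide +kernel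
lemma hTY2 : ∀ i < 60, lut TY2 i < 60 := by decide +kernel
lemma hTW1 : ∀ r < 5, ∀ i < 60, lut (TW1 r) i < 60 := by decide +kernel
lemma hTW2 : ∀ r < 5, ∀ i < 60, lut (TW2 r) i < 60 := by decide +kernel
lemma hC1 : ∀ r < 5, C1 r < 60 := by decide +kernel
lemma hC2 : ∀ r < 5, C2 r < 60 := by decide +kernel
lemma hTY1' : ∀ i < 60, py⁻¹ * e i = e (lut TY1 i) := by decide +kernel
lemma hTY2' : ∀ i < 60, px⁻¹ * e i = e (lut TY2 i) := by decide +kernel
lemma hTW1' : ∀ r < 5, ∀ i < 60, ((cmt py)^[r] px)⁻¹ * e i = e (lut (TW1 r) i) := by decide +kernel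
lemma hTW2' : ∀ r < 5, ∀ i < 60, ((cmt px)^[r] py)⁻¹ * e i = e (lut (TW2 r) i) := by decide +kernel
lemma hC1' : ∀ r < 5, e (C1 r) = py⁻¹ * (cmt py)^[r] px := by decide +kernel
lemma hC2' : ∀ r < 5, e (C2 r) = px⁻¹ * (cmt px)^[r] py := by decide +kernel
lemma hiy1' : e 20 = py⁻¹ := by decide +kernel
lemma hiy2' : e 4 = px⁻¹ := by decide +kernel

lemma key1 : MonoidAlgebra.single py⁻¹ 1 * ((ab px py 60).1 - 1) - ((ab px py 60).1 - 1) = 0 ∧
    MonoidAlgebra.single py⁻¹ 1 * (ab px py 60).2 - (ab px py 60).2 = 0 := by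
  have h := ab_eq px py per1 TY1 TW1 C1 20 hTY1 hTY1' hTW1 hTW1' hC1 hC1' (by norm_num) hiy1' e0 60
  have h1 : (1 : MonoidAlgebra k (Equiv.Perm (Fin 5))) = A 1 := by
    have := A_shift 0 (by norm_num)
    rw [e0] at this
    rw [show (1:ℕ) = 1 <<< 0 from rfl, this]; rfl
  rw [h.1, h.2, h1]
  simp only [sub_eq_add']
  rw [← A_xor, A_perm _ _ _ hTY1 hTY1', ← A_xor, A_perm _ _ _ hTY1 hTY1', ← A_xor, chk1.1, chk1.2]
  exact ⟨A_zero, A_zero⟩

lemma key2 : MonoidAlgebra.single px⁻¹ 1 * ((ab py px 60).1 - 1) - ((ab py px 60).1 - 1) = 0 ∧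
    MonoidAlgebra.single px⁻¹ 1 * (ab py px 60).2 - (ab py px 60).2 = 0 := by
  have h := ab_eq py px per2 TY2 TW2 C2 4 hTY2 hTY2' hTW2 hTW2' hC2 hC2' (by norm_num) hiy2' e0 60
  have h1 : (1 : MonoidAlgebra k (Equiv.Perm (Fin 5))) = A 1 := by
    have := A_shift 0 (by norm_num)
    rw [e0] at this
    rw [show (1:ℕ) = 1 <<< 0 from rfl, this]; rfl
  rw [h.1, h.2, h1]
  simp only [sub_eq_add']
  rw [← A_xor, A_perm _ _ _ hTY2 hTY2', ← A_xor, A_perm _ _ _ hTY2 hTY2', ← A_xor, chk2.1, chk2.2]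
  exact ⟨A_zero, A_zero⟩

end Pool.Agent.H24.GS
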