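import Pool.Agent.H24.GSb

set_option autoImplicit false

namespace Pool.Agent.H24.GS

open Module

section Aff
variable {G : Type} [Group G]

/-- affine pairs -/
@[ext] structure Aff (G : Type) where
  v : G → k
  g : G

instance : Mul (Aff G) := ⟨fun a b => ⟨a.v + rho a.g b.v, a.g * b.g⟩⟩
instance : One (Aff G) := ⟨⟨0, 1⟩⟩
instance : Inv (Aff G) := ⟨fun a => ⟨- rho a.g⁻¹ a.v, a.g⁻¹⟩⟩

lemma aff_mul_v (a b : Aff G) : (a * b).v = a.v + rho a.g b.v := rfl
lemma aff_mul_g (a b : Aff G) : (a * b).g = a.g * b.g := rfl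
lemma aff_one_v : (1 : Aff G).v = 0 := rfl
lemma aff_one_g : (1 : Aff G).g = 1 := rfl
lemma aff_inv_v (a : Aff G) : (a⁻¹).v = - rho a.g⁻¹ a.v := rfl
lemma aff_inv_g (a : Aff G) : (a⁻¹).g = a.g⁻¹ := rfl

instance : Group (Aff G) := Group.ofLeftAxioms
  (by
    intro a b c
    apply Aff.ext
    · simp only [aff_mul_v, aff_mul_g, map_add, rho_mul, add_assoc]
    · simp only [aff_mul_g, mul_assoc])
  (by
    intro a
    apply Aff.ext
    · simp only [aff_mul_v, aff_one_v, aff_one_g, rho_one, zero_add]
    · simp only [aff_mul_g, aff_one_g, one_mul])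
  (by
    intro a
    apply Aff.ext
    · simp only [aff_mul_v, aff_inv_v, aff_inv_g, aff_one_v]
      abel
    · simp only [aff_mul_g, aff_inv_g, aff_one_g, inv_mul_cancel])

/-- projection to the group -/
def Aff.proj : Aff G →* G where
  toFun a := a.g
  map_one' := rfl
  map_mul' _ _ := rfl

def rhoHom : G →* Module.End k (G → k) where
  toFun := rho
  map_one' := by ext f z; simp
  map_mul' a b := by
    apply LinearMap.ext
    intro f
    exact rho_mul a b f

noncomputable def act : MonoidAlgebra k G →ₐ[k] Module.End k (G → k) :=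
  MonoidAlgebra.lift k (Module.End k (G → k)) G rhoHom

lemma act_single (g : G) : (act (MonoidAlgebra.single g 1) : Module.End k (G → k)) = rho g := by
  unfold act
  rw [MonoidAlgebra.lift_single, one_smul]
  rfl

lemma cmt_map {Γ Δ : Type} [Group Γ] [Group Δ] (f : Γ →* Δ) (y z : Γ) :
    f (cmt y z) = cmt (f y) (f z) := by
  simp [cmt]

lemma cmt_iter_map {Γ Δ : Type} [Group Γ] [Group Δ] (f : Γ →* Δ) (y x : Γ) (j : ℕ) :
    f ((cmt y)^[j] x) = (cmt (f y))^[j] (f x) := by
  induction j with
  | zero => rfl
  | succ j ih =>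
    rw [Function.iterate_succ_apply', Function.iterate_succ_apply', cmt_map, ih]

lemma aff_iter (X Y : Aff G) (j : ℕ) :
    ((cmt Y)^[j] X).v = act (ab X.g Y.g j).1 X.v + act (ab X.g Y.g j).2 Y.v := by
  induction j with
  | zero => simp [ab]
  | succ j ih =>
    rw [Function.iterate_succ_apply']
    have hg : ((cmt Y)^[j] X).g = (cmt Y.g)^[j] X.g := cmt_iter_map Aff.proj Y X j
    set Z := (cmt Y)^[j] X with hZ
    simp only [ab, cmt, aff_mul_v, aff_inv_v, aff_mul_g, aff_inv_g]
    simp only [map_mul, map_add, map_sub, map_one, act_single, Module.End.mul_apply,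
      LinearMap.add_apply, LinearMap.sub_apply, Module.End.one_apply, rho_mul, map_neg]
    rw [← hg]
    have e1 : rho Y.g⁻¹ Z.v = rho Y.g⁻¹ (act (ab X.g Y.g j).1 X.v) + rho Y.g⁻¹ (act (ab X.g Y.g j).2 Y.v) := by
      rw [ih, map_add]
    rw [e1, ih]
    simp only [map_add]
    abel

lemma ab_map {H₁ H₂ : Type} [Group H₁] [Group H₂] (f : H₁ →* H₂) (x y : H₁) (j : ℕ) :
    MonoidAlgebra.mapDomainRingHom k f (ab x y j).1 = (ab (f x) (f y) j).1 ∧
    MonoidAlgebra.mapDomainRingHom k f (ab x y j).2 = (ab (f x) (f y) j).2 := by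
  induction j with
  | zero => constructor <;> simp [ab]
  | succ j ih =>
    have hs : ∀ h : H₁, MonoidAlgebra.mapDomainRingHom k f (MonoidAlgebra.single h 1) =
        MonoidAlgebra.single (f h) 1 := by
      intro h; simp
    constructor
    · simp only [ab, map_mul, map_sub, hs, ih.1, map_inv, cmt_iter_map]
    · simp only [ab, map_mul, map_sub, map_add, map_one, hs, ih.2, map_inv, cmt_iter_map]

/-- elements of the group algebra that vanish in the quotient lower the filtration -/
lemma act_mem (φ : G →* Equiv.Perm (Fin 5)) (m : ℕ) (u : G → k) (hu : u ∈ E φ.ker (m+1))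
    (a : MonoidAlgebra k G) (ha : MonoidAlgebra.mapDomainRingHom k φ a = 0) :
    act a u ∈ E φ.ker m := by
  classical
  let s : Equiv.Perm (Fin 5) → G := fun h => if hh : ∃ g, φ g = h then hh.choose else 1
  have hs : ∀ g, φ (s (φ g)) = φ g := by
    intro g
    have hh : ∃ g', φ g' = φ g := ⟨g, rfl⟩
    simp only [s, dif_pos hh]
    exact hh.choose_spec
  let L : MonoidAlgebra k (Equiv.Perm (Fin 5)) → ((G → k) ⧸ E φ.ker m) := fun b =>
    ∑ h : Equiv.Perm (Fin 5), b.coeff h • (E φ.ker m).mkQ (rho (s h) u)
  have key : ∀ a : MonoidAlgebra k G, (E φ.ker m).mkQ (act a u) =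
      L (MonoidAlgebra.mapDomainRingHom k φ a) := by
    intro a
    induction a using MonoidAlgebra.induction_linear with
    | zero => simp [L]
    | add a b ha hb =>
      rw [map_add, LinearMap.add_apply, map_add, ha, hb, map_add]
      simp only [L, MonoidAlgebra.coeff_add, Finsupp.add_apply, add_smul, Finset.sum_add_distrib]
    | single g c =>
      have h1 : (MonoidAlgebra.single g c : MonoidAlgebra k G) = c • MonoidAlgebra.single g 1 := by
        simp
      have h2 : MonoidAlgebra.mapDomainRingHom k φ (MonoidAlgebra.single g c) =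
          MonoidAlgebra.single (φ g) c := by simp
      rw [h2, h1, map_smul, act_single]
      simp only [L]
      rw [Finset.sum_eq_single (φ g)]
      · rw [LinearMap.smul_apply, map_smul]
        have h3 : (MonoidAlgebra.single (φ g) c : MonoidAlgebra k (Equiv.Perm (Fin 5))).coeff (φ g) = c := by
          simp
        rw [h3]
        congr 1
        rw [Submodule.mkQ_apply, Submodule.mkQ_apply, Submodule.Quotient.eq]
        have hn : (s (φ g))⁻¹ * g ∈ φ.ker := by
          rw [MonoidHom.mem_ker, map_mul, map_inv, hs]; simp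
        have h4 := hu _ hn
        have h5 := E_rho φ.ker m (s (φ g)) _ h4
        rw [map_sub, ← rho_mul] at h5
        simpa using h5
      · intro b _ hb
        have : (MonoidAlgebra.single (φ g) c : MonoidAlgebra k (Equiv.Perm (Fin 5))).coeff b = 0 := by
          simp [Ne.symm hb]
        rw [this, zero_smul]
      · intro h
        exact absurd (Finset.mem_univ _) h
  have h := key a
  rw [ha] at h
  simp only [L, MonoidAlgebra.coeff_zero, Finsupp.coe_zero, Pi.zero_apply, zero_smul,
    Finset.sum_const_zero] at h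
  rwa [Submodule.mkQ_apply, Submodule.Quotient.mk_eq_zero] at h

lemma act_E (N : Subgroup G) [N.Normal] (m : ℕ) (u : G → k) (hu : u ∈ E N m)
    (a : MonoidAlgebra k G) : act a u ∈ E N m := by
  induction a using MonoidAlgebra.induction_linear with
  | zero => simp
  | add a b ha hb =>
    rw [map_add, LinearMap.add_apply]
    exact (E N m).add_mem ha hb
  | single g c =>
    have h1 : (MonoidAlgebra.single g c : MonoidAlgebra k G) = c • MonoidAlgebra.single g 1 := by
      simp
    rw [h1, map_smul, act_single, LinearMap.smul_apply]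
    exact (E N m).smul_mem c (E_rho N m g u hu)

end Aff
end Pool.Agent.H24.GS
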