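import Pool.Agent.H24.GSc

set_option autoImplicit false

namespace Pool.Agent.H24.GS

open Module

lemma aff_iter_g {G : Type} [Group G] (X Y : Aff G) (j : ℕ) :
    ((cmt Y)^[j] X).g = (cmt Y.g)^[j] X.g := cmt_iter_map Aff.proj Y X j

section Final
variable {G : Type} [Group G] [Fintype G]

/-- the relation operator -/
noncomputable def RL (X Y : G) : ((G → k) × (G → k)) →ₗ[k] (G → k) :=
  (act ((ab X Y 60).1 - 1)) ∘ₗ LinearMap.fst k _ _ + (act (ab X Y 60).2) ∘ₗ LinearMap.snd k _ _

omit [Fintype G] in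
lemma RL_apply (X Y : G) (u v : G → k) :
    RL X Y (u, v) = act ((ab X Y 60).1 - 1) u + act (ab X Y 60).2 v := rfl

omit [Fintype G] in
lemma RL_mem (φ : G →* Equiv.Perm (Fin 5)) (X Y : G) (x y : Equiv.Perm (Fin 5))
    (hx : φ X = x) (hy : φ Y = y)
    (key : MonoidAlgebra.single y⁻¹ 1 * ((ab x y 60).1 - 1) - ((ab x y 60).1 - 1) = 0 ∧
      MonoidAlgebra.single y⁻¹ 1 * (ab x y 60).2 - (ab x y 60).2 = 0)
    (m : ℕ) (u v : G → k) (hu : u ∈ E φ.ker (m+1)) (hv : v ∈ E φ.ker (m+1)) :
    RL X Y (u, v) ∈ W φ.ker m (Subgroup.closure {Y⁻¹} : Set G) := by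
  have hmem : RL X Y (u, v) ∈ E φ.ker (m+1) := by
    rw [RL_apply]
    exact (E φ.ker (m+1)).add_mem (act_E _ _ _ hu _) (act_E _ _ _ hv _)
  refine ⟨hmem, fun g hg => ?_⟩
  refine stab_mem φ.ker m _ {Y⁻¹} ?_ g hg
  intro g' hg'
  rw [Set.mem_singleton_iff] at hg'
  subst hg'
  have e1 : rho Y⁻¹ (RL X Y (u, v)) - RL X Y (u, v) =
      act (MonoidAlgebra.single Y⁻¹ 1 * ((ab X Y 60).1 - 1) - ((ab X Y 60).1 - 1)) u +
      act (MonoidAlgebra.single Y⁻¹ 1 * (ab X Y 60).2 - (ab X Y 60).2) v := by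
    rw [RL_apply]
    generalize (ab X Y 60).1 - 1 = a
    generalize (ab X Y 60).2 = b
    rw [map_add, map_sub act, map_sub act, map_mul, map_mul, act_single]
    simp only [LinearMap.sub_apply, Module.End.mul_apply]
    abel
  rw [e1]
  have hm := ab_map φ X Y 60
  have hs : MonoidAlgebra.mapDomainRingHom k φ (MonoidAlgebra.single Y⁻¹ 1) =
      MonoidAlgebra.single y⁻¹ 1 := by
    simp [hy]
  rw [hx, hy] at hm
  refine (E φ.ker m).add_mem (act_mem φ m u hu _ ?_) (act_mem φ m v hv _ ?_)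
  · rw [map_sub, map_mul, hs, map_sub, hm.1, map_one]
    exact key.1
  · rw [map_sub, map_mul, hs, hm.2]
    exact key.2

/-- transitivity on five points -/
lemma dim_WY (φ : G →* Equiv.Perm (Fin 5)) (Y : G) (y : Equiv.Perm (Fin 5)) (hy : φ Y = y)
    (htr : ∀ s t : Fin 5, ∃ i : Fin 5, (y ^ (i : ℕ)) s = t) (m : ℕ) :
    5 * finrank k (W φ.ker m (Subgroup.closure {Y⁻¹} : Set G)) + finrank k (E φ.ker m) ≤
      finrank k (E φ.ker (m+1)) + 5 * finrank k (E φ.ker m) := by
  have h := dim_W φ.ker (S := Fin 5) (fun z => (φ z)⁻¹ 0) ?_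
    (Subgroup.closure {Y⁻¹} : Set G) ?_ m
  · simpa using h
  · intro z n hn
    rw [MonoidHom.mem_ker] at hn
    simp [hn]
  · intro s t
    obtain ⟨i, hi⟩ := htr s t
    refine ⟨(Y⁻¹) ^ (i : ℕ), ?_, ?_⟩
    · exact Subgroup.pow_mem _ (Subgroup.subset_closure (Set.mem_singleton _)) _
    · intro z
      have e1 : (φ (z * (Y⁻¹) ^ (i : ℕ)))⁻¹ 0 = (y ^ (i : ℕ)) ((φ z)⁻¹ 0) := by
        rw [map_mul, map_pow, map_inv, hy, mul_inv_rev, Equiv.Perm.mul_apply, inv_pow, inv_inv]
      simp only [e1]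
      constructor
      · rintro rfl; exact hi
      · intro h
        rw [← hi] at h
        exact (y ^ (i : ℕ)).injective h

lemma arith (n w a b c p q z : ℕ) (hn : 15 ≤ n) (h1 : n * w + b ≤ c + n * b)
    (h2 : 5 * p + a ≤ b + 5 * a) (h3 : 5 * q + a ≤ b + 5 * a) (h4 : 2 * b ≤ p + q + z)
    (h5 : z + 1 ≤ w) (h6 : 4 * a ≤ b) : 4 * b ≤ c := by
  have hwb : 5 + 6 * b ≤ 5 * w := by omega
  obtain ⟨t, rfl⟩ := Nat.exists_eq_add_of_le (show b ≤ w by omega)
  have h7 : n * (b + t) = n * b + n * t := by ring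
  have h8 : 15 * t ≤ n * t := Nat.mul_le_mul_right t hn
  omega

lemma step (φ : G →* Equiv.Perm (Fin 5)) (X Y : G) (hx : φ X = px) (hy : φ Y = py)
    (hgen : Subgroup.closure {X, Y} = (⊤ : Subgroup G))
    (hX : (cmt Y)^[60] X = X) (hY : (cmt X)^[60] Y = Y)
    (huniv : ∀ X' Y' : Aff G, (cmt Y')^[60] X' = X' → (cmt X')^[60] Y' = Y' →
      ∃ ψ : G →* Aff G, ψ X = X' ∧ ψ Y = Y') (m : ℕ)
    (h6 : 4 * finrank k (E φ.ker m) ≤ finrank k (E φ.ker (m+1))) :
    4 * finrank k (E φ.ker (m+1)) ≤ finrank k (E φ.ker (m+2)) := by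
  classical
  set N := φ.ker with hN
  -- the map LL
  let inc : (E N (m+1) × E N (m+1)) →ₗ[k] ((G → k) × (G → k)) :=
    LinearMap.prodMap (E N (m+1)).subtype (E N (m+1)).subtype
  let inc' : (E N (m+1) × E N (m+1)) →ₗ[k] ((G → k) × (G → k)) :=
    LinearMap.prod ((E N (m+1)).subtype ∘ₗ LinearMap.snd k _ _)
      ((E N (m+1)).subtype ∘ₗ LinearMap.fst k _ _)
  let f1 : (E N (m+1) × E N (m+1)) →ₗ[k] W N m (Subgroup.closure {Y⁻¹} : Set G) :=
    LinearMap.codRestrict _ (RL X Y ∘ₗ inc)
      (fun p => RL_mem φ X Y px py hx hy key1 m _ _ p.1.2 p.2.2)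
  let f2 : (E N (m+1) × E N (m+1)) →ₗ[k] W N m (Subgroup.closure {X⁻¹} : Set G) :=
    LinearMap.codRestrict _ (RL Y X ∘ₗ inc')
      (fun p => RL_mem φ Y X py px hy hx key2 m _ _ p.2.2 p.1.2)
  let LL := f1.prod f2
  -- the map T
  let T : W N (m+1) (Set.univ : Set G) →ₗ[k] (E N (m+1) × E N (m+1)) :=
    LinearMap.prod
      (LinearMap.codRestrict _ ((rho X - LinearMap.id) ∘ₗ (W N (m+1) (Set.univ : Set G)).subtype)
        (fun f => f.2.2 X (Set.mem_univ _)))
      (LinearMap.codRestrict _ ((rho Y - LinearMap.id) ∘ₗ (W N (m+1) (Set.univ : Set G)).subtype)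
        (fun f => f.2.2 Y (Set.mem_univ _)))
  have hT : LinearMap.ker LL ≤ LinearMap.range T := by
    rintro ⟨u, v⟩ huv
    rw [LinearMap.mem_ker] at huv
    have h1 : RL X Y ((u : G → k), (v : G → k)) = 0 := by
      have := congrArg (fun q => ((q.1 : W N m (Subgroup.closure {Y⁻¹} : Set G)) : G → k)) huv
      exact this
    have h2 : RL Y X ((v : G → k), (u : G → k)) = 0 := by
      have := congrArg (fun q => ((q.2 : W N m (Subgroup.closure {X⁻¹} : Set G)) : G → k)) huv
      exact this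
    obtain ⟨ψ, hψX, hψY⟩ := huniv ⟨u, X⟩ ⟨v, Y⟩
      (by
        apply Aff.ext
        · rw [aff_iter]
          rw [RL_apply, map_sub, map_one, LinearMap.sub_apply, Module.End.one_apply,
            sub_add_eq_add_sub, sub_eq_zero] at h1
          dsimp only
          exact h1
        · rw [aff_iter_g]; exact hX)
      (by
        apply Aff.ext
        · rw [aff_iter]
          rw [RL_apply, map_sub, map_one, LinearMap.sub_apply, Module.End.one_apply,
            sub_add_eq_add_sub, sub_eq_zero] at h2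
          dsimp only
          exact h2
        · rw [aff_iter_g]; exact hY)
    have hproj : ∀ g, (ψ g).g = g := by
      have : (Aff.proj.comp ψ) = MonoidHom.id G := by
        refine MonoidHom.eq_of_eqOn_dense hgen ?_
        rintro g (rfl | rfl)
        · simp [hψX, Aff.proj]
        · simp [hψY, Aff.proj]
      intro g
      exact DFunLike.congr_fun this g
    let f : G → k := fun z => (ψ z).v 1
    have hf : ∀ g, rho g f - f = (ψ g).v := by
      intro g
      ext z
      simp only [Pi.sub_apply, rho_apply, f, map_mul, aff_mul_v, hproj, Pi.add_apply, one_mul]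
      abel
    have hfE : ∀ g, rho g f - f ∈ E N (m+1) := by
      intro g
      refine stab_mem N (m+1) f {X, Y} ?_ g (by rw [hgen]; trivial)
      rintro g' (rfl | rfl)
      · rw [hf, hψX]; exact u.2
      · rw [hf, hψY]; exact v.2
    refine ⟨⟨f, fun n _ => hfE n, fun g _ => hfE g⟩, ?_⟩
    refine Prod.ext (Subtype.ext ?_) (Subtype.ext ?_)
    · change rho X f - f = u
      rw [hf, hψX]
    · change rho Y f - f = v
      rw [hf, hψY]
  have hkerT : 1 ≤ finrank k (LinearMap.ker T) := by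
    let c : G → k := fun _ => 1
    have hc : ∀ g, rho g c - c = 0 := by
      intro g; ext z; simp [c]
    have hcW : c ∈ W N (m+1) (Set.univ : Set G) :=
      ⟨fun n _ => by rw [hc]; exact Submodule.zero_mem _, fun n _ => by rw [hc]; exact Submodule.zero_mem _⟩
    have hcT : (⟨c, hcW⟩ : W N (m+1) (Set.univ : Set G)) ∈ LinearMap.ker T := by
      rw [LinearMap.mem_ker]
      refine Prod.ext (Subtype.ext ?_) (Subtype.ext ?_)
      · exact hc X
      · exact hc Y
    have hne : (LinearMap.ker T) ≠ ⊥ := by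
      intro hbot
      rw [hbot, Submodule.mem_bot] at hcT
      have h1 : c 1 = 0 := congrFun (congrArg Subtype.val hcT) 1
      simp [c] at h1
    have := Submodule.one_le_finrank_iff.2 hne
    exact this
  have hz : finrank k (LinearMap.ker LL) + 1 ≤ finrank k (W N (m+1) (Set.univ : Set G)) := by
    have h1 := LinearMap.finrank_range_add_finrank_ker T
    have h2 := Submodule.finrank_mono hT
    omega
  have hE2 : 2 * finrank k (E N (m+1)) ≤ finrank k (W N m (Subgroup.closure {Y⁻¹} : Set G)) +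
      finrank k (W N m (Subgroup.closure {X⁻¹} : Set G)) + finrank k (LinearMap.ker LL) := by
    have h1 := LinearMap.finrank_range_add_finrank_ker LL
    have h2 := Submodule.finrank_le (LinearMap.range LL)
    rw [Module.finrank_prod] at h1 h2
    omega
  -- the range has at least fifteen elements
  have hS := dim_W N (S := φ.range) (φ.rangeRestrict)
    (by
      intro z n hn
      rw [hN, MonoidHom.mem_ker] at hn
      apply Subtype.ext
      simp [hn]) (Set.univ : Set G)
    (by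
      intro s t
      obtain ⟨g, hg⟩ := φ.rangeRestrict_surjective (s⁻¹ * t)
      refine ⟨g, Set.mem_univ _, fun z => ?_⟩
      rw [map_mul, hg]
      constructor
      · rintro rfl; simp
      · intro h
        have : φ.rangeRestrict z * s⁻¹ = 1 := by
          have h2 : φ.rangeRestrict z * s⁻¹ * t = 1 * t := by rw [mul_assoc, h, one_mul]
          exact mul_right_cancel h2
        exact mul_inv_eq_one.1 this) (m+1)
  have hcard : 15 ≤ Fintype.card φ.range := by
    let j : Fin 5 × Fin 5 → φ.range := fun q =>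
      ⟨px ^ (q.1 : ℕ) * py ^ (q.2 : ℕ), ⟨X ^ (q.1 : ℕ) * Y ^ (q.2 : ℕ), by simp [hx, hy]⟩⟩
    have hj : Function.Injective j := by
      intro a b hab
      have h1 : px ^ (a.1 : ℕ) * py ^ (a.2 : ℕ) = px ^ (b.1 : ℕ) * py ^ (b.2 : ℕ) :=
        congrArg Subtype.val hab
      have : ∀ a b : Fin 5 × Fin 5, px ^ (a.1 : ℕ) * py ^ (a.2 : ℕ) = px ^ (b.1 : ℕ) * py ^ (b.2 : ℕ) →
        a = b := by decide +kernel
      exact this a b h1
    have := Fintype.card_le_of_injective j hj
    rw [Fintype.card_prod, Fintype.card_fin] at this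
    omega
  have hYd := dim_WY φ Y py hy (by decide +kernel) m
  have hXd := dim_WY φ X px hx (by decide +kernel) m
  exact arith _ _ _ _ _ _ _ _ hcard hS hYd hXd hE2 hz h6

theorem not_finite (φ : G →* Equiv.Perm (Fin 5)) (X Y : G) (hx : φ X = px) (hy : φ Y = py)
    (hgen : Subgroup.closure {X, Y} = (⊤ : Subgroup G))
    (hX : (cmt Y)^[60] X = X) (hY : (cmt X)^[60] Y = Y)
    (huniv : ∀ X' Y' : Aff G, (cmt Y')^[60] X' = X' → (cmt X')^[60] Y' = Y' →
      ∃ ψ : G →* Aff G, ψ X = X' ∧ ψ Y = Y') : False := by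
  have h0 : finrank k (E φ.ker 0) = 0 := finrank_bot k _
  have h1 : 1 ≤ finrank k (E φ.ker 1) := by
    have hc : (fun _ => 1 : G → k) ∈ E φ.ker 1 := by
      intro n _
      have : rho n (fun _ => 1 : G → k) - (fun _ => 1) = 0 := by ext z; simp
      rw [this]; exact Submodule.zero_mem _
    have hne : E φ.ker 1 ≠ ⊥ := by
      intro hbot
      rw [hbot, Submodule.mem_bot] at hc
      have := congrFun hc 1
      simp at this
    exact Submodule.one_le_finrank_iff.2 hne
  have key : ∀ m, 4 * finrank k (E φ.ker m) ≤ finrank k (E φ.ker (m+1)) ∧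
      m + 1 ≤ finrank k (E φ.ker (m+1)) := by
    intro m
    induction m with
    | zero => constructor <;> omega
    | succ m ih =>
      have h5 := step φ X Y hx hy hgen hX hY huniv m ih.1
      rw [show m + 1 + 1 = m + 2 from rfl]
      exact ⟨h5, by omega⟩
  have h2 := (key (finrank k (G → k))).2
  have h3 := Submodule.finrank_le (E φ.ker (finrank k (G → k) + 1))
  omega

end Final
end Pool.Agent.H24.GS
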