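import Mathlib

open MeasureTheory Filter Topology
open scoped NNReal ENNReal

namespace Pool.Agent.H24.HP

/-- `α` is poor at block `j` -/
def poor (α : ℕ → Bool) (j : ℕ) : Prop := α (j.unpair.1 / 2) = decide (j.unpair.1 % 2 = 1)

instance (α : ℕ → Bool) (j : ℕ) : Decidable (poor α j) := by unfold poor; infer_instance

/-- position `i` is rich for `α` -/
def rich (α : ℕ → Bool) (i : ℕ) : Prop := ¬ poor α (Nat.log 9 i)

instance (α : ℕ → Bool) (i : ℕ) : Decidable (rich α i) := by unfold rich; infer_instance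

def cnt (α : ℕ → Bool) (n : ℕ) : ℕ := ((Finset.range n).filter (fun i => rich α i)).card

/-- digit expansions -/
noncomputable def dg (η : ℕ → Prop) [DecidablePred η] (i : ℕ) : ℝ := if η i then (1/3)^i else 0

lemma dg_nonneg (η : ℕ → Prop) [DecidablePred η] (i : ℕ) : 0 ≤ dg η i := by
  unfold dg; split_ifs <;> positivity

lemma dg_le (η : ℕ → Prop) [DecidablePred η] (i : ℕ) : dg η i ≤ (1/3)^i := by
  unfold dg; split_ifs
  · exact le_refl _
  · positivity

lemma dg_summable (η : ℕ → Prop) [DecidablePred η] : Summable (dg η) :=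
  Summable.of_nonneg_of_le (dg_nonneg η) (dg_le η)
    (summable_geometric_of_lt_one (by norm_num) (by norm_num))

noncomputable def val (η : ℕ → Prop) [DecidablePred η] : ℝ := ∑' i, dg η i

lemma val_tail (η : ℕ → Prop) [DecidablePred η] (N : ℕ) :
    0 ≤ val η - ∑ i ∈ Finset.range N, dg η i ∧ val η - ∑ i ∈ Finset.range N, dg η i ≤ (3/2) * (1/3)^N := by
  have h := (dg_summable η).sum_add_tsum_nat_add N
  have h2 : val η - ∑ i ∈ Finset.range N, dg η i = ∑' i, dg η (i + N) := by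
    rw [val, ← h]; ring
  rw [h2]
  constructor
  · exact tsum_nonneg fun i => dg_nonneg _ _
  · have hg : HasSum (fun i : ℕ => (1/3:ℝ)^N * (1/3)^i) ((1/3)^N * (1 - 1/3)⁻¹) :=
      (hasSum_geometric_of_lt_one (by norm_num) (by norm_num)).mul_left _
    have h3 : ∑' i, dg η (i + N) ≤ (1/3)^N * (1 - 1/3)⁻¹ := by
      rw [← hg.tsum_eq]
      apply Summable.tsum_le_tsum _ ((summable_nat_add_iff N).mpr (dg_summable η)) hg.summable
      intro i
      refine le_trans (dg_le η (i+N)) (le_of_eq ?_)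
      rw [pow_add]; ring
    refine le_trans h3 (le_of_eq ?_)
    norm_num
    ring

lemma val_sep (η η' : ℕ → Prop) [DecidablePred η] [DecidablePred η'] (k : ℕ)
    (hlt : ∀ i < k, (η i ↔ η' i)) (hk : η k) (hk' : ¬ η' k) : (1/3)^k / 2 ≤ val η - val η' := by
  have h1 := val_tail η (k+1)
  have h2 := val_tail η' (k+1)
  rw [Finset.sum_range_succ] at h1 h2
  have h3 : ∑ i ∈ Finset.range k, dg η i = ∑ i ∈ Finset.range k, dg η' i := by
    apply Finset.sum_congr rfl
    intro i hi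
    have := hlt i (Finset.mem_range.mp hi)
    simp only [dg, this]
  have h4 : dg η k = (1/3)^k := by simp [dg, hk]
  have h5 : dg η' k = 0 := by simp [dg, hk']
  rw [h4, h3] at h1
  rw [h5] at h2
  have h6 : (3/2 : ℝ) * (1/3)^(k+1) = (1/3)^k / 2 := by rw [pow_succ]; ring
  rw [h6] at h1 h2
  linarith [h1.1, h2.2]

/-- the map -/
def dig (α : ℕ → Bool) (ξ : ℕ → Bool) (i : ℕ) : Prop := rich α i ∧ ξ i = true

instance (α ξ : ℕ → Bool) : DecidablePred (dig α ξ) := fun i => by unfold dig; infer_instance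

noncomputable def phi (α ξ : ℕ → Bool) : ℝ := val (dig α ξ)

lemma phi_sep (α ξ ξ' : ℕ → Bool) (n : ℕ) (h : |phi α ξ - phi α ξ'| < (1/3)^n / 2) :
    ∀ i < n, rich α i → ξ i = ξ' i := by
  by_contra hcon
  push Not at hcon
  classical
  have hex : ∃ i, i < n ∧ rich α i ∧ ξ i ≠ ξ' i := hcon
  set k := Nat.find hex with hk
  obtain ⟨hkn, hkr, hkne⟩ := Nat.find_spec hex
  have hmin : ∀ i < k, rich α i → ξ i = ξ' i := by
    intro i hi hr
    by_contra hne
    exact Nat.find_min hex hi ⟨lt_trans hi hkn, hr, hne⟩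
  have hle : (1/3:ℝ)^n ≤ (1/3)^k := pow_le_pow_of_le_one (by norm_num) (by norm_num) hkn.le
  have hiff : ∀ i < k, (dig α ξ i ↔ dig α ξ' i) := by
    intro i hi
    unfold dig
    constructor
    · rintro ⟨h1, h2⟩; exact ⟨h1, by rw [← hmin i hi h1]; exact h2⟩
    · rintro ⟨h1, h2⟩; exact ⟨h1, by rw [hmin i hi h1]; exact h2⟩
  cases h1 : ξ k with
  | true =>
    have h2 : ξ' k = false := by
      cases h3 : ξ' k with
      | true => exact absurd (h1.trans h3.symm) hkne
      | false => rfl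
    have := val_sep (dig α ξ) (dig α ξ') k hiff ⟨hkr, h1⟩ (by rintro ⟨_, h4⟩; rw [h2] at h4; exact Bool.false_ne_true h4)
    have h5 := le_abs_self (phi α ξ - phi α ξ')
    unfold phi at h5 h
    linarith
  | false =>
    have h2 : ξ' k = true := by
      cases h3 : ξ' k with
      | true => rfl
      | false => exact absurd (h1.trans h3.symm) hkne
    have := val_sep (dig α ξ') (dig α ξ) k (fun i hi => (hiff i hi).symm) ⟨hkr, h2⟩ (by rintro ⟨_, h4⟩; rw [h1] at h4; exact Bool.false_ne_true h4)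
    have h5 := neg_le_abs (phi α ξ - phi α ξ')
    unfold phi at h5 h
    linarith

/-- coin tossing -/
noncomputable def coin : Measure Bool := (PMF.uniformOfFintype Bool).toMeasure

instance : IsProbabilityMeasure coin := by unfold coin; infer_instance

lemma coin_singleton (b : Bool) : coin {b} = 2⁻¹ := by
  unfold coin
  rw [PMF.toMeasure_apply_singleton _ _ (measurableSet_singleton b)]
  simp

noncomputable def mu : Measure (ℕ → Bool) := Measure.infinitePi (fun _ => coin)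

instance : IsProbabilityMeasure mu := by unfold mu; infer_instance

lemma mu_cyl (F : Finset ℕ) (ξ0 : ℕ → Bool) : mu {ξ | ∀ i ∈ F, ξ i = ξ0 i} = (2⁻¹ : ℝ≥0∞) ^ F.card := by
  have h : {ξ : ℕ → Bool | ∀ i ∈ F, ξ i = ξ0 i} = Set.pi F (fun i => {ξ0 i}) := by
    ext ξ; simp [Set.mem_pi]
  rw [h, mu, Measure.infinitePi_pi]
  · simp [coin_singleton]
  · intro i _; exact measurableSet_singleton _

/-- gauge functions -/
noncomputable def hh (α : ℕ → Bool) (n : ℕ) (r : ℝ≥0) : ℝ≥0 := (1/2)^(cnt α n) + 2 * 3^n * r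

noncomputable def gg (α : ℕ → Bool) (r : ℝ≥0) : ℝ≥0 := ⨅ n, hh α n r

lemma gg_le (α : ℕ → Bool) (n : ℕ) (r : ℝ≥0) : gg α r ≤ hh α n r := ciInf_le (OrderBot.bddBelow _) n

lemma gg_mono (α : ℕ → Bool) : Monotone (gg α) := by
  intro r s hrs
  apply le_ciInf
  intro n
  refine le_trans (gg_le α n r) ?_
  unfold hh
  gcongr

lemma gg_pos (α : ℕ → Bool) (r : ℝ≥0) (hr : 0 < r) : 0 < gg α r := by
  have h : 2 * r ≤ gg α r := by
    apply le_ciInf
    intro n
    unfold hh
    have h1 : (1:ℝ≥0) ≤ 3^n := one_le_pow₀ (by norm_num)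
    calc 2 * r = 2 * 1 * r := by ring
      _ ≤ 2 * 3^n * r := by gcongr
      _ ≤ _ := le_add_of_nonneg_left (zero_le)
  exact lt_of_lt_of_le (by positivity) h

lemma log9 {i j : ℕ} (h1 : 9^j ≤ i) (h2 : i < 9^(j+1)) : Nat.log 9 i = j := by
  rw [Nat.log_eq_iff]
  · exact ⟨h1, h2⟩
  · right; exact ⟨by norm_num, by have : 0 < 9^j := by positivity
                                  omega⟩

lemma cnt_block (α : ℕ → Bool) (j n : ℕ) (hj : ¬ poor α j) (hn : n ≤ 9^(j+1)) : n - 9^j ≤ cnt α n := by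
  unfold cnt
  have h : Finset.Ico (9^j) n ⊆ (Finset.range n).filter (fun i => rich α i) := by
    intro i hi
    rw [Finset.mem_Ico] at hi
    rw [Finset.mem_filter, Finset.mem_range]
    refine ⟨hi.2, ?_⟩
    unfold rich
    rw [log9 hi.1 (lt_of_lt_of_le hi.2 hn)]
    exact hj
  calc n - 9^j = (Finset.Ico (9^j) n).card := by simp
    _ ≤ _ := Finset.card_le_card h

/-- the block index attached to `(n₀, b)` and `k` -/
def blk (n0 : ℕ) (b : Bool) (k : ℕ) : ℕ := Nat.pair (2 * n0 + (if b then 1 else 0)) k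

lemma poor_blk (α : ℕ → Bool) (n0 : ℕ) (b : Bool) (k : ℕ) : poor α (blk n0 b k) ↔ α n0 = b := by
  unfold poor blk
  rw [Nat.unpair_pair]
  cases b with
  | true =>
    have h1 : (2 * n0 + 1) / 2 = n0 := by omega
    have h2 : (2 * n0 + 1) % 2 = 1 := by omega
    simp [h1, h2]
  | false =>
    have h1 : (2 * n0) / 2 = n0 := by omega
    have h2 : (2 * n0) % 2 = 0 := by omega
    simp [h1, h2]

lemma le_blk (n0 : ℕ) (b : Bool) (k : ℕ) : k ≤ blk n0 b k := Nat.right_le_pair _ _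

lemma le_nine (k : ℕ) : k ≤ 9^k := (Nat.lt_pow_self (by norm_num)).le

lemma cnt_unbdd (α : ℕ → Bool) (N : ℕ) : ∃ n, N ≤ cnt α n := by
  set j := blk 0 (!(α 0)) N with hj
  have h1 : ¬ poor α j := by
    rw [hj, poor_blk]
    cases α 0 <;> simp
  refine ⟨9^(j+1), ?_⟩
  refine le_trans ?_ (cnt_block α j _ h1 le_rfl)
  have h2 : N ≤ j := le_blk _ _ _
  have h3 := le_nine j
  have h4 : 9^(j+1) = 9 * 9^j := by ring
  omega

lemma gg_zero (α : ℕ → Bool) : gg α 0 = 0 := by
  apply le_antisymm _ (zero_le)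
  apply le_of_forall_pos_le_add
  intro ε hε
  obtain ⟨N, hN⟩ := exists_pow_lt_of_lt_one hε (show (1/2:ℝ≥0) < 1 by norm_num)
  obtain ⟨n, hn⟩ := cnt_unbdd α N
  refine le_trans (gg_le α n 0) ?_
  unfold hh
  rw [mul_zero, add_zero, zero_add]
  refine le_trans ?_ hN.le
  exact pow_le_pow_of_le_one (zero_le) (by norm_num) hn

lemma gg_cont (α : ℕ → Bool) (x : ℝ≥0) : ContinuousWithinAt (gg α) (Set.Ici x) x := by
  rw [ContinuousWithinAt, tendsto_order]
  constructor
  · intro a ha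
    filter_upwards [self_mem_nhdsWithin] with y hy
    exact lt_of_lt_of_le ha (gg_mono α hy)
  · intro a ha
    obtain ⟨n, hn⟩ := exists_lt_of_ciInf_lt ha
    have hc : Continuous (hh α n) := by unfold hh; fun_prop
    have h1 : ∀ᶠ y in 𝓝[Set.Ici x] x, hh α n y < a :=
      (hc.tendsto x).mono_left nhdsWithin_le_nhds |>.eventually (gt_mem_nhds hn)
    filter_upwards [h1] with y hy
    exact lt_of_le_of_lt (gg_le α n y) hy

/-- the sets -/
def PP (α : ℕ → Bool) : Set ℝ := Set.range (phi α)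

noncomputable def mm (α : ℕ → Bool) (r : ℝ≥0∞) : ℝ≥0∞ := ((gg α r.toNNReal : ℝ≥0) : ℝ≥0∞)

lemma mass (α : ℕ → Bool) (s : Set ℝ) (hs : Metric.ediam s ≤ 1) :
    mu (phi α ⁻¹' s) ≤ mm α (Metric.ediam s) := by
  have hfin : Metric.ediam s ≠ ∞ := ne_top_of_le_ne_top ENNReal.one_ne_top hs
  set r : ℝ≥0 := (Metric.ediam s).toNNReal with hr
  have hrE : Metric.ediam s = r := (ENNReal.coe_toNNReal hfin).symm
  unfold mm
  rw [← hr]
  -- reduce to each n
  have key : ∀ n, mu (phi α ⁻¹' s) ≤ ((hh α n r : ℝ≥0) : ℝ≥0∞) := by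
    intro n
    by_cases hbig : 1 ≤ 2 * 3^n * r
    · refine le_trans (prob_le_one) ?_
      rw [← ENNReal.coe_one, ENNReal.coe_le_coe]
      unfold hh
      exact le_trans hbig (le_add_of_nonneg_left (zero_le))
    · push Not at hbig
      rcases Set.eq_empty_or_nonempty (phi α ⁻¹' s) with he | ⟨ξ0, hξ0⟩
      · rw [he, measure_empty]; exact zero_le
      · have hsub : phi α ⁻¹' s ⊆ {ξ | ∀ i ∈ (Finset.range n).filter (fun i => rich α i), ξ i = ξ0 i} := by
          intro ξ hξ i hi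
          rw [Finset.mem_filter, Finset.mem_range] at hi
          apply phi_sep α ξ ξ0 n _ i hi.1 hi.2
          have h1 : edist (phi α ξ) (phi α ξ0) ≤ r := by
            rw [← hrE]; exact Metric.edist_le_ediam_of_mem hξ hξ0
          rw [edist_nndist, ENNReal.coe_le_coe] at h1
          have h2 : |phi α ξ - phi α ξ0| ≤ r := by
            rw [← Real.dist_eq, ← coe_nndist]; exact_mod_cast h1
          have h3 : (2 * 3^n * r : ℝ) < 1 := by exact_mod_cast hbig
          have h4 : (0:ℝ) < 3^n := by positivity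
          refine lt_of_le_of_lt h2 ?_
          have h5 : (1/3:ℝ)^n / 2 = 1 / (2 * 3^n) := by
            rw [one_div_pow]; field_simp
          rw [h5, lt_div_iff₀ (by positivity)]
          linarith
        refine le_trans (measure_mono hsub) ?_
        rw [mu_cyl]
        unfold hh cnt
        rw [ENNReal.coe_add, ENNReal.coe_pow]
        refine le_trans (le_of_eq ?_) (le_add_of_nonneg_right (zero_le))
        congr 1
        simp
  have hfm : mu (phi α ⁻¹' s) ≠ ∞ := measure_ne_top _ _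
  have : (mu (phi α ⁻¹' s)).toNNReal ≤ gg α r := by
    apply le_ciInf
    intro n
    have := key n
    rw [← ENNReal.coe_toNNReal hfm, ENNReal.coe_le_coe] at this
    exact this
  rw [← ENNReal.coe_toNNReal hfm, ENNReal.coe_le_coe]
  exact this

lemma pos_mass (α : ℕ → Bool) : 1 ≤ (OuterMeasure.mkMetric (mm α) : OuterMeasure ℝ) (PP α) := by
  have h1 : OuterMeasure.map (phi α) mu.toOuterMeasure ≤ OuterMeasure.mkMetric (mm α) := by
    apply OuterMeasure.le_mkMetric _ _ 1 one_pos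
    intro s hs
    rw [OuterMeasure.map_apply, Measure.coe_toOuterMeasure]
    exact mass α s hs
  have h2 := h1 (PP α)
  rw [OuterMeasure.map_apply, Measure.coe_toOuterMeasure] at h2
  have h3 : phi α ⁻¹' (PP α) = Set.univ := by
    ext ξ; simp [PP]
  rw [h3, measure_univ] at h2
  exact h2

noncomputable def RR (j : ℕ) : ℝ≥0 := (3/2) * (1/3)^(9^(j+1))

lemma gg_RR (β : ℕ → Bool) (j : ℕ) (hj : ¬ poor β j) : 2^(9^j) * gg β (RR j) ≤ 4 * (1/2)^(9^j) := by
  have h1 := gg_le β (3 * 9^j) (RR j)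
  have h2 := cnt_block β j (3 * 9^j) hj (by rw [pow_succ]; omega)
  have h3 : 2 * 9^j ≤ cnt β (3 * 9^j) := by omega
  unfold hh RR at h1
  set B := 9^j with hB
  have h4 : 9^(j+1) = 9 * B := by rw [hB]; ring
  rw [h4] at h1
  have h5 : (1/2:ℝ≥0)^(cnt β (3 * B)) ≤ (1/2)^(2*B) := pow_le_pow_of_le_one zero_le (by norm_num) h3
  have h6 : (2:ℝ≥0) * 3^(3*B) * ((3/2) * (1/3)^(9*B)) = 3 * ((1/729)^B) := by
    rw [pow_mul, pow_mul]
    rw [show (2:ℝ≥0) * (3^3)^B * (3/2 * ((1/3)^9)^B) = (2 * (3/2)) * ((3^3)^B * ((1/3)^9)^B) by ring]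
    rw [← mul_pow]
    congr 1
    · norm_num
    · congr 1
      norm_num
  have h7 : (1/729:ℝ≥0)^B ≤ (1/2)^(2*B) := by
    rw [pow_mul]
    apply pow_le_pow_left₀ zero_le
    norm_num
    exact one_div_le_one_div_of_le (by norm_num) (by norm_num)
  have h8 : gg β (RR j) ≤ 4 * (1/2)^(2*B) := by
    unfold RR
    rw [h4]
    refine le_trans h1 ?_
    rw [h6]
    calc (1/2:ℝ≥0)^(cnt β (3 * B)) + 3 * ((1/729)^B) ≤ (1/2)^(2*B) + 3 * (1/2)^(2*B) := by gcongr
      _ = _ := by ring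
  calc 2^B * gg β (RR j) ≤ 2^B * (4 * (1/2)^(2*B)) := by gcongr
    _ = 4 * (2^B * ((1/2)^B * (1/2)^B)) := by rw [two_mul, pow_add]; ring
    _ = 4 * (1/2)^B := by
      rw [← mul_assoc (2^B), ← mul_pow]
      norm_num

noncomputable def yy (N : ℕ) (ε : Fin N → Bool) : ℝ := ∑ i : Fin N, if ε i then (1/3:ℝ)^(i:ℕ) else 0

lemma cover (α ξ : ℕ → Bool) (j : ℕ) (hj : poor α j) :
    ∃ ε : Fin (9^j) → Bool, phi α ξ ∈ Set.Icc (yy (9^j) ε) (yy (9^j) ε + (RR j : ℝ)) := by
  refine ⟨fun i => decide (dig α ξ i), ?_⟩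
  have h := val_tail (dig α ξ) (9^(j+1))
  have h1 : ∑ i ∈ Finset.range (9^(j+1)), dg (dig α ξ) i = yy (9^j) (fun i => decide (dig α ξ i)) := by
    have h2 : 9^j ≤ 9^(j+1) := Nat.pow_le_pow_right (by norm_num) (by omega)
    rw [← Finset.sum_range_add_sum_Ico _ h2]
    have h3 : ∑ i ∈ Finset.Ico (9^j) (9^(j+1)), dg (dig α ξ) i = 0 := by
      apply Finset.sum_eq_zero
      intro i hi
      rw [Finset.mem_Ico] at hi
      unfold dg
      rw [if_neg]
      rintro ⟨h4, -⟩
      apply h4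
      rw [log9 hi.1 hi.2]
      exact hj
    rw [h3, add_zero, Finset.sum_range]
    unfold yy dg
    apply Finset.sum_congr rfl
    intro i _
    simp
  have h5 : ((RR j : ℝ≥0) : ℝ) = (3/2) * (1/3)^(9^(j+1)) := by
    unfold RR; push_cast; rfl
  rw [h1] at h
  rw [h5]
  unfold phi
  constructor
  · linarith [h.1]
  · linarith [h.2]

lemma nnlim (c a : ℝ≥0) (ha : a < 1) : Tendsto (fun k : ℕ => ((c * a^k : ℝ≥0) : ℝ≥0∞)) atTop (𝓝 0) := by
  rw [← ENNReal.coe_zero, ENNReal.tendsto_coe]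
  have h := (NNReal.tendsto_pow_atTop_nhds_zero_of_lt_one ha).const_mul c
  rwa [mul_zero] at h

lemma null (β : ℕ → Bool) (n0 : ℕ) (b : Bool) (hb : β n0 ≠ b) :
    (OuterMeasure.mkMetric (mm β) : OuterMeasure ℝ) (⋃ α ∈ {α : ℕ → Bool | α n0 = b}, PP α) = 0 := by
  rw [OuterMeasure.coe_mkMetric]
  apply le_antisymm _ zero_le
  have hsmall : ∀ k : ℕ, ((1/2:ℝ≥0))^(9^(blk n0 b k)) ≤ (1/2)^k := by
    intro k
    apply pow_le_pow_of_le_one zero_le (by norm_num)
    exact le_trans (le_blk n0 b k) (le_nine _)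
  have key := Measure.mkMetric_le_liminf_sum (X := ℝ) (β := ℕ) (ι := fun k => Fin (9^(blk n0 b k)) → Bool)
    (⋃ α ∈ {α : ℕ → Bool | α n0 = b}, PP α) (l := atTop)
    (fun k => ((RR (blk n0 b k) : ℝ≥0) : ℝ≥0∞)) ?_
    (fun k ε => Set.Icc (yy _ ε) (yy _ ε + (RR (blk n0 b k) : ℝ))) ?_ ?_ (mm β)
  · refine le_trans key ?_
    have h0 := nnlim 4 (1/2) (by norm_num)
    rw [← h0.liminf_eq]
    refine liminf_le_liminf ?_
    filter_upwards with k
    have hj : ¬ poor β (blk n0 b k) := by rw [poor_blk]; exact hb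
    have h1 := gg_RR β (blk n0 b k) hj
    have h2 : ∀ ε : Fin (9^(blk n0 b k)) → Bool, mm β (Metric.ediam (Set.Icc (yy _ ε) (yy _ ε + (RR (blk n0 b k) : ℝ)))) = (gg β (RR (blk n0 b k)) : ℝ≥0∞) := by
      intro ε
      rw [Real.ediam_Icc]
      unfold mm
      congr 2
      rw [add_sub_cancel_left]
      simp
    simp only [h2]
    rw [Finset.sum_const, Finset.card_univ, Fintype.card_fun, Fintype.card_bool, Fintype.card_fin, nsmul_eq_mul]
    have h3 : (2^(9^(blk n0 b k)) * gg β (RR (blk n0 b k)) : ℝ≥0) ≤ 4 * (1/2)^k :=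
      le_trans h1 (mul_le_mul_right (hsmall k) 4)
    exact_mod_cast ENNReal.coe_le_coe.mpr h3
  · have h0 := nnlim (3/2) (1/3) (by exact NNReal.div_lt_one_of_lt (by norm_num))
    apply tendsto_of_tendsto_of_tendsto_of_le_of_le tendsto_const_nhds h0
    · intro k; exact zero_le
    · intro k
      show ((RR (blk n0 b k) : ℝ≥0) : ℝ≥0∞) ≤ _
      rw [ENNReal.coe_le_coe]
      unfold RR
      apply mul_le_mul_right
      apply pow_le_pow_of_le_one zero_le (by exact (NNReal.div_lt_one_of_lt (by norm_num)).le)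
      have h1 := le_blk n0 b k
      have h2 := le_nine (blk n0 b k + 1)
      omega
  · filter_upwards with k
    intro ε
    rw [Real.ediam_Icc, add_sub_cancel_left]
    simp
  · filter_upwards with k
    intro x hx
    rw [Set.mem_iUnion₂] at hx
    obtain ⟨α, hα, ξ, rfl⟩ := hx
    have hj : poor α (blk n0 b k) := by rw [poor_blk]; exact hα
    obtain ⟨ε, hε⟩ := cover α ξ _ hj
    exact Set.mem_iUnion.mpr ⟨ε, hε⟩

/-- main set -/
def AA (X : Set (ℕ → Bool)) : Set ℝ := ⋃ α ∈ X, PP α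

lemma AA_pos (X : Set (ℕ → Bool)) (β : ℕ → Bool) :
    0 < (OuterMeasure.mkMetric (mm β) : OuterMeasure ℝ) (AA X) ↔ β ∈ X := by
  constructor
  · intro h
    by_contra hβ
    apply h.ne'
    have hsub : AA X ⊆ ⋃ n0 : ℕ, (⋃ α ∈ {α : ℕ → Bool | α n0 = !(β n0)}, PP α) := by
      intro x hx
      unfold AA at hx
      rw [Set.mem_iUnion₂] at hx
      obtain ⟨α, hα, hx⟩ := hx
      have hne : α ≠ β := by rintro rfl; exact hβ hα
      obtain ⟨n0, hn0⟩ := Function.ne_iff.mp hne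
      rw [Set.mem_iUnion]
      refine ⟨n0, ?_⟩
      rw [Set.mem_iUnion₂]
      refine ⟨α, ?_, hx⟩
      show α n0 = !(β n0)
      cases h1 : α n0 <;> cases h2 : β n0 <;> simp_all
    apply measure_mono_null hsub
    rw [measure_iUnion_null_iff]
    intro n0
    exact null β n0 _ (by cases β n0 <;> simp)
  · intro h
    refine lt_of_lt_of_le one_pos (le_trans (pos_mass β) ?_)
    apply measure_mono
    intro x hx
    exact Set.mem_iUnion₂.mpr ⟨β, h, hx⟩

end Pool.Agent.H24.HP
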