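import Mathlib

namespace Pool.Agent.H24.Heis

open PowerSeries Polynomial Cardinal

abbrev O := PowerSeries ℚ
abbrev L := FractionRing O
abbrev K := AlgebraicClosure L

noncomputable def io : O →+* K := (algebraMap L K).comp (algebraMap O L)

theorem eq_zero_of_pow {x : K} {k : ℕ} (h : x ^ k = 0) : x = 0 := by
  by_contra h0
  exact pow_ne_zero k h0 h

theorem io_inj : Function.Injective io :=
  (algebraMap L K).injective.comp (IsFractionRing.injective O L)

theorem io_alg : io = algebraMap O K := by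
  rw [io, ← IsScalarTower.algebraMap_eq O L K]

instance : CharZero K :=
  charZero_of_injective_ringHom (f := io.comp (PowerSeries.C (R := ℚ))) (RingHom.injective _)

noncomputable def t : K := io (PowerSeries.X : O)

theorem t_ne : t ≠ 0 := by
  intro h
  have := io_inj (h.trans (map_zero io).symm)
  exact PowerSeries.X_ne_zero this

theorem exists_V : ∃ V : ValuationSubring K, (∀ f : O, io f ∈ V) ∧ t⁻¹ ∉ V := by
  obtain ⟨V, h, hloc⟩ := IsLocalRing.exists_factor_valuationRing io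
  refine ⟨V, h, fun ht => ?_⟩
  have hu : IsUnit ((io.codRestrict V.toSubring h) (PowerSeries.X : O)) := by
    rw [isUnit_iff_exists_inv]
    refine ⟨⟨t⁻¹, ht⟩, ?_⟩
    apply Subtype.ext
    change t * t⁻¹ = 1
    exact mul_inv_cancel₀ t_ne
  have := hloc.map_nonunit _ hu
  rw [PowerSeries.isUnit_iff_constantCoeff] at this
  simp at this

section
variable (V : ValuationSubring K)

/-- `t ^ n V`. -/
def I (n : ℕ) : AddSubgroup K where
  carrier := {x | x * (t ^ n)⁻¹ ∈ V}
  zero_mem' := by simp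
  add_mem' := by
    intro a b ha hb
    change (a + b) * _ ∈ V
    rw [add_mul]
    exact add_mem ha hb
  neg_mem' := by
    intro a ha
    change (-a) * _ ∈ V
    rw [neg_mul]
    exact neg_mem ha

theorem mem_I {n : ℕ} {x : K} : x ∈ I V n ↔ x * (t ^ n)⁻¹ ∈ V := Iff.rfl

variable {V} (hV : ∀ f : O, io f ∈ V) (ht : t⁻¹ ∉ V)

include hV in
theorem t_mem : t ∈ V := hV _

include hV in
theorem I_anti {m n : ℕ} (h : m ≤ n) {x : K} (hx : x ∈ I V n) : x ∈ I V m := by
  rw [mem_I] at hx ⊢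
  obtain ⟨k, rfl⟩ := Nat.exists_eq_add_of_le h
  have : x * (t ^ m)⁻¹ = x * (t ^ (m + k))⁻¹ * t ^ k := by
    have := t_ne
    rw [pow_add]
    field_simp
  rw [this]
  exact mul_mem hx (pow_mem (t_mem hV) _)

include hV in
theorem I_mul {n : ℕ} {x y : K} (hx : x ∈ I V n) (hy : y ∈ I V n) : x * y ∈ I V n := by
  rw [mem_I] at hx hy ⊢
  have : x * y * (t ^ n)⁻¹ = (x * (t ^ n)⁻¹) * (y * (t ^ n)⁻¹) * t ^ n := by
    have := t_ne
    field_simp
  rw [this]
  exact mul_mem (mul_mem hx hy) (pow_mem (t_mem hV) _)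

theorem I_zero_iff {x : K} : x ∈ I V 0 ↔ x ∈ V := by
  rw [mem_I]; simp

include hV in
theorem unit_inv_mem (f : O) (hf : IsUnit f) : (io f)⁻¹ ∈ V := by
  obtain ⟨u, rfl⟩ := hf
  have h1 : io (u : O) * io ((u⁻¹ : Oˣ) : O) = 1 := by
    rw [← map_mul]; simp
  rw [← eq_inv_of_mul_eq_one_right h1]
  exact hV _

include hV ht in
theorem io_not_all (f : O) (hf : f ≠ 0) : ∃ n, io f ∉ I V n := by
  have h1 := PowerSeries.X_pow_order_mul_divXPowOrder (f := f)
  obtain ⟨m, u, hu⟩ : ∃ (m : ℕ) (u : Oˣ), f = PowerSeries.X ^ m * (u : O) := by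
    refine ⟨f.order.toNat, PowerSeries.Unit_of_divided_by_X_pow_order f, ?_⟩
    rw [PowerSeries.Unit_of_divided_by_X_pow_order_nonzero hf]
    exact h1.symm
  refine ⟨m + 1, fun h => ht ?_⟩
  rw [mem_I, hu, map_mul, map_pow] at h
  change t ^ m * io (u : O) * (t ^ (m + 1))⁻¹ ∈ V at h
  have h2 : (t : K)⁻¹ = (t ^ m * io (u : O) * (t ^ (m + 1))⁻¹) * (io (u : O))⁻¹ := by
    have h3 := t_ne
    have h4 : io (u : O) ≠ 0 := by
      intro h0
      exact u.ne_zero (io_inj (h0.trans (map_zero io).symm))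
    rw [pow_succ]
    field_simp
  rw [h2]
  exact mul_mem h (unit_inv_mem hV _ u.isUnit)

include hV ht in
theorem int_mem (z : ℤ) (hz : (z : K) ∈ I V 1) : z = 0 := by
  by_contra h0
  rw [mem_I] at hz
  apply ht
  have hu : IsUnit (PowerSeries.C (z : ℚ) : O) := by
    rw [PowerSeries.isUnit_iff_constantCoeff]
    simp [h0]
  have h1 : io (PowerSeries.C (z : ℚ)) = (z : K) := by simp
  have h2 := unit_inv_mem hV _ hu
  rw [h1] at h2
  have h3 : (t : K)⁻¹ = (z : K) * (t ^ 1)⁻¹ * (z : K)⁻¹ := by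
    have : (z : K) ≠ 0 := by exact_mod_cast h0
    have h4 := t_ne
    field_simp
  rw [h3]
  exact mul_mem hz h2

theorem isAlg (x : K) : IsAlgebraic O x := by
  have : Algebra.IsAlgebraic O K := (IsFractionRing.comap_isAlgebraic_iff (A := O) (K := L)).2 inferInstance
  exact Algebra.IsAlgebraic.isAlgebraic x

include hV ht in
theorem I_sep (x : K) (hx : ∀ n, x ∈ I V n) : x = 0 := by
  by_contra h0
  -- polynomial over O with nonzero constant coefficient
  obtain ⟨p, hp0, hpx⟩ := isAlg x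
  obtain ⟨k, q, hq, hq0⟩ : ∃ (k : ℕ) (q : O[X]), p = Polynomial.X ^ k * q ∧ q.coeff 0 ≠ 0 := by
    obtain ⟨q, h1, h2⟩ := Polynomial.exists_eq_pow_rootMultiplicity_mul_and_not_dvd p hp0 0
    refine ⟨_, q, by simpa using h1, ?_⟩
    intro h3
    apply h2
    simpa [Polynomial.X_dvd_iff] using h3
  have hqx : Polynomial.aeval x q = 0 := by
    rw [hq, map_mul, map_pow, Polynomial.aeval_X] at hpx
    rcases mul_eq_zero.1 hpx with h | h
    · exact absurd (eq_zero_of_pow h) h0
    · exact h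
  obtain ⟨n, hn⟩ := io_not_all hV ht (q.coeff 0) hq0
  apply hn
  have h1 : Polynomial.aeval x q = io (q.coeff 0) + x * Polynomial.aeval x q.divX := by
    conv_lhs => rw [← Polynomial.divX_mul_X_add q]
    rw [map_add, map_mul, Polynomial.aeval_X, Polynomial.aeval_C, io_alg]
    ring
  have hxV : x ∈ V := I_zero_iff.1 (hx 0)
  have h2 : Polynomial.aeval x q.divX ∈ V := by
    rw [Polynomial.aeval_eq_sum_range]
    refine sum_mem fun i _ => ?_
    rw [Algebra.smul_def, ← io_alg]
    exact mul_mem (hV _) (pow_mem hxV _)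
  have h3 : io (q.coeff 0) = -(x * Polynomial.aeval x q.divX) := by
    rw [hqx] at h1
    linear_combination -h1
  rw [h3]
  refine neg_mem ?_
  rw [mem_I]
  have : x * Polynomial.aeval x q.divX * (t ^ n)⁻¹ = x * (t ^ n)⁻¹ * Polynomial.aeval x q.divX := by ring
  rw [this]
  exact mul_mem (hx n) h2

end

end Pool.Agent.H24.Heis
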