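import Pool.Agent.H24.HeisA

namespace Pool.Agent.H24.Heis

open Polynomial Cardinal

theorem countable_poly (R : Type) [CommRing R] [Countable R] : Countable R[X] := by
  rw [← Cardinal.mk_le_aleph0_iff]
  refine le_trans Polynomial.cardinalMk_le_max ?_
  rw [max_le_iff]
  exact ⟨Cardinal.mk_le_aleph0_iff.2 inferInstance, le_rfl⟩

instance : Countable ℚ[X] := countable_poly ℚ
instance : Countable (Polynomial (Polynomial ℚ)) := countable_poly ℚ[X]

noncomputable def rho : ℚ[X] →+* K := io.comp (Polynomial.coeToPowerSeries.ringHom)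

def Y : Set K := {w | ∃ (m : ℕ) (p : Polynomial (Polynomial ℚ)), p.Monic ∧
  (p.map rho).eval (w * t ^ m) = 0}

theorem Y_countable : Y.Countable := by
  classical
  have h : Y ⊆ ⋃ (m : ℕ), ⋃ (p : Polynomial (Polynomial ℚ)),
      (fun z : K => z * (t ^ m)⁻¹) '' {z | z ∈ (p.map rho).roots} := by
    rintro w ⟨m, p, hp, hw⟩
    rw [Set.mem_iUnion]
    refine ⟨m, ?_⟩
    rw [Set.mem_iUnion]
    refine ⟨p, w * t ^ m, ?_, ?_⟩
    · change w * t ^ m ∈ (p.map rho).roots
      rw [Polynomial.mem_roots (hp.map rho).ne_zero]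
      exact hw
    · have := pow_ne_zero m t_ne
      field_simp
  refine Set.Countable.mono h ?_
  refine Set.countable_iUnion fun m => Set.countable_iUnion fun p => Set.Countable.image ?_ _
  have : {z | z ∈ (p.map rho).roots} = ((p.map rho).roots.toFinset : Set K) := by
    ext z; simp
  rw [this]
  exact (Finset.finite_toSet _).countable

theorem trunc_decomp (M : ℕ) (f : O) : ∃ (a : ℚ[X]) (r : O), f = (a : O) + PowerSeries.X ^ M * r := by
  have h : (PowerSeries.X : O) ^ M ∣ f - ((PowerSeries.trunc M f : ℚ[X]) : O) := by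
    rw [PowerSeries.X_pow_dvd_iff]
    intro m hm
    rw [map_sub, Polynomial.coeff_coe, PowerSeries.coeff_trunc, if_pos hm, sub_self]
  obtain ⟨r, hr⟩ := h
  exact ⟨_, r, by rw [← hr]; ring⟩

variable {V : ValuationSubring K} (hV : ∀ f : O, io f ∈ V) (ht : t⁻¹ ∉ V)

include hV in
theorem integral_mem {w : K} (hw : IsIntegral O w) : w ∈ V := by
  obtain ⟨q, hq, hqw⟩ := hw
  have h1 : IsIntegral V w := by
    refine ⟨q.map (io.codRestrict V.toSubring hV), hq.map _, ?_⟩
    rw [Polynomial.eval₂_map]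
    rw [← io_alg] at hqw
    exact hqw
  obtain ⟨y, hy⟩ := IsIntegrallyClosed.isIntegral_iff.1 h1
  rw [← hy]
  exact y.2

theorem prod_bound (n : ℕ) (w : K) (s : Multiset K) (hs : ∀ y ∈ s, w - y ∉ I V n) :
    ((s.map (fun y => w - y)).prod)⁻¹ * t ^ (n * s.card) ∈ V ∧ (s.map (fun y => w - y)).prod ≠ 0 := by
  induction s using Multiset.induction_on with
  | empty => simp
  | cons a s ih =>
    have h1 := ih (fun y hy => hs y (Multiset.mem_cons_of_mem hy))
    have h2 := hs a (Multiset.mem_cons_self a s)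
    have h3 : w - a ≠ 0 := by
      intro h0
      rw [h0] at h2
      exact h2 (zero_mem _)
    rw [mem_I] at h2
    have h4 : (w - a)⁻¹ * t ^ n ∈ V := by
      rcases V.mem_or_inv_mem ((w - a) * (t ^ n)⁻¹) with h | h
      · exact absurd h h2
      · rw [mul_inv, inv_inv] at h
        exact h
    rw [Multiset.map_cons, Multiset.prod_cons, Multiset.card_cons]
    refine ⟨?_, mul_ne_zero h3 h1.2⟩
    have : ((w - a) * (s.map (fun y => w - y)).prod)⁻¹ * t ^ (n * (s.card + 1)) =
        ((w - a)⁻¹ * t ^ n) * (((s.map (fun y => w - y)).prod)⁻¹ * t ^ (n * s.card)) := by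
      rw [mul_add, pow_add, mul_one, mul_inv]
      ring
    rw [this]
    exact mul_mem h4 h1.1

include ht in
theorem exists_root (n : ℕ) (w : K) (P : K[X]) (hP : P.Monic)
    (hw : P.eval w ∈ I V (n * P.natDegree + 1)) : ∃ y, P.eval y = 0 ∧ w - y ∈ I V n := by
  by_contra hno
  push Not at hno
  have hs : ∀ y ∈ P.roots, w - y ∉ I V n := by
    intro y hy
    exact hno y ((Polynomial.mem_roots hP.ne_zero).1 hy)
  obtain ⟨h1, h2⟩ := prod_bound n w P.roots hs
  have hsp := IsAlgClosed.splits P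
  rw [← hsp.eval_eq_prod_roots_of_monic hP w] at h1 h2
  rw [← hsp.natDegree_eq_card_roots] at h1
  rw [mem_I] at hw
  apply ht
  have h3 : (t : K)⁻¹ = (eval w P * (t ^ (n * P.natDegree + 1))⁻¹) *
      ((eval w P)⁻¹ * t ^ (n * P.natDegree)) := by
    have := t_ne
    have h4 := pow_ne_zero (n * P.natDegree) t_ne
    rw [pow_succ]
    field_simp
  rw [h3]
  exact mul_mem hw h1

include hV ht in
theorem dense (n : ℕ) (x : K) : ∃ y ∈ Y, x - y ∈ I V n := by
  obtain ⟨a, ha0, ha⟩ := (isAlg x).exists_integral_multiple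
  obtain ⟨m, hm⟩ : ∃ m : ℕ, IsIntegral O (x * t ^ m) := by
    have h1 := PowerSeries.X_pow_order_mul_divXPowOrder (f := a)
    obtain ⟨m, u, hu⟩ : ∃ (m : ℕ) (u : Oˣ), a = PowerSeries.X ^ m * (u : O) := by
      refine ⟨a.order.toNat, PowerSeries.Unit_of_divided_by_X_pow_order a, ?_⟩
      rw [PowerSeries.Unit_of_divided_by_X_pow_order_nonzero ha0]
      exact h1.symm
    refine ⟨m, ?_⟩
    have h2 := ha.smul ((u⁻¹ : Oˣ) : O)
    convert h2 using 1
    rw [smul_smul, hu]
    have h3 : ((u⁻¹ : Oˣ) : O) * (PowerSeries.X ^ m * (u : O)) = PowerSeries.X ^ m := by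
      have : ((u⁻¹ : Oˣ) : O) * (u : O) = 1 := by simp
      linear_combination (PowerSeries.X ^ m : O) * this
    rw [h3, Algebra.smul_def, ← io_alg, map_pow, mul_comm]
    rfl
  have hwV : x * t ^ m ∈ V := integral_mem hV hm
  obtain ⟨q, hq, hqw⟩ := hm
  rw [← io_alg] at hqw
  set w : K := x * t ^ m with hw
  set d := q.natDegree with hd
  set M := (n + m) * d + 1 with hM
  choose a r har using fun i : Fin d => trunc_decomp M (q.coeff i)
  let p : Polynomial (Polynomial ℚ) := Polynomial.X ^ d + ∑ i : Fin d, Polynomial.C (a i) * Polynomial.X ^ (i : ℕ)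
  have hpm : p.Monic := Polynomial.monic_X_pow_add (Polynomial.degree_sum_fin_lt _)
  have hpd : (p.map rho).natDegree = d := by
    rw [hpm.natDegree_map]
    apply Polynomial.natDegree_eq_of_degree_eq_some
    change (Polynomial.X ^ d + ∑ i : Fin d, Polynomial.C (a i) * Polynomial.X ^ (i : ℕ)).degree = d
    rw [Polynomial.degree_add_eq_left_of_degree_lt, Polynomial.degree_X_pow]
    rw [Polynomial.degree_X_pow]
    exact Polynomial.degree_sum_fin_lt a
  have hpw : (p.map rho).eval w = w ^ d + ∑ i : Fin d, rho (a i) * w ^ (i : ℕ) := by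
    simp [p, Polynomial.eval_finsetSum, Polynomial.map_sum]
  have hqw2 : w ^ d + ∑ i : Fin d, io (q.coeff i) * w ^ (i : ℕ) = 0 := by
    rw [← hqw]
    conv_rhs => rw [hq.as_sum]
    rw [Polynomial.eval₂_add, Polynomial.eval₂_pow, Polynomial.eval₂_X, Polynomial.eval₂_finsetSum,
      ← Fin.sum_univ_eq_sum_range (fun i => Polynomial.eval₂ io w (Polynomial.C (q.coeff i) * Polynomial.X ^ i))]
    simp
    rfl
  have hev : (p.map rho).eval w ∈ I V ((n + m) * (p.map rho).natDegree + 1) := by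
    rw [hpd]
    have h5 : (p.map rho).eval w = - ∑ i : Fin d, t ^ M * io (r i) * w ^ (i : ℕ) := by
      have h6 : ∀ i : Fin d, io (q.coeff i) = rho (a i) + t ^ M * io (r i) := by
        intro i
        rw [har i, map_add, map_mul, map_pow]
        rfl
      have h7 : ∑ i : Fin d, io (q.coeff i) * w ^ (i : ℕ) =
          ∑ i : Fin d, rho (a i) * w ^ (i : ℕ) + ∑ i : Fin d, t ^ M * io (r i) * w ^ (i : ℕ) := by
        rw [← Finset.sum_add_distrib]
        refine Finset.sum_congr rfl fun i _ => ?_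
        rw [h6 i]; ring
      rw [hpw]
      rw [h7] at hqw2
      linear_combination hqw2
    rw [h5]
    refine neg_mem (sum_mem fun i _ => ?_)
    rw [mem_I]
    have h8 : t ^ M * io (r i) * w ^ (i : ℕ) * (t ^ ((n + m) * d + 1))⁻¹ = io (r i) * w ^ (i : ℕ) := by
      have := pow_ne_zero M t_ne
      rw [← hM]
      field_simp
    rw [h8]
    exact mul_mem (hV _) (pow_mem hwV _)
  obtain ⟨y, hy0, hy⟩ := exists_root ht (n + m) w (p.map rho) (hpm.map rho) hev
  have htm := pow_ne_zero m t_ne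
  refine ⟨y * (t ^ m)⁻¹, ⟨m, p, hpm, ?_⟩, ?_⟩
  · rw [inv_mul_cancel_right₀ htm]; exact hy0
  · rw [mem_I] at hy ⊢
    have : (x - y * (t ^ m)⁻¹) * (t ^ n)⁻¹ = (w - y) * (t ^ (n + m))⁻¹ := by
      rw [hw, pow_add]
      have := pow_ne_zero n t_ne
      field_simp
    rw [this]
    exact hy

end Pool.Agent.H24.Heis
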