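import Pool.Agent.H24.HeisB

namespace Pool.Agent.H24.Heis

open Cardinal

theorem mk_O : #O = 𝔠 := by
  change #((Unit →₀ ℕ) → ℚ) = 𝔠
  rw [← Cardinal.power_def, Cardinal.mk_eq_aleph0 ℚ, Cardinal.mk_eq_aleph0 (Unit →₀ ℕ),
    Cardinal.aleph0_power_aleph0]

theorem mk_K : #K = 𝔠 := by
  apply le_antisymm
  · have : Algebra.IsAlgebraic O K := (IsFractionRing.comap_isAlgebraic_iff (A := O) (K := L)).2 inferInstance
    have : Module.IsTorsionFree O K := by
      rw [Module.isTorsionFree_iff_algebraMap_injective, ← io_alg]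
      exact io_inj
    have h := Algebra.IsAlgebraic.cardinalMk_le_max O K
    rw [mk_O, max_eq_left Cardinal.aleph0_le_continuum] at h
    exact h
  · rw [← mk_O]
    exact Cardinal.mk_le_of_injective io_inj

theorem exists_phi : ∃ φ : ℝ →+* K, Function.Injective φ := by
  have h1 : #ℂ = #K := by rw [Cardinal.mk_complex, mk_K]
  have h2 : ℵ₀ < #ℂ := by rw [Cardinal.mk_complex]; exact Cardinal.aleph0_lt_continuum
  obtain ⟨e⟩ := IsAlgClosed.ringEquiv_of_equiv_of_charZero h2 (Cardinal.eq.1 h1)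
  exact ⟨e.toRingHom.comp Complex.ofRealHom, RingHom.injective _⟩

theorem exists_J : ∃ (J : ℕ → AddSubgroup ℝ) (D : ℕ → Set ℝ), (∀ n, (D n).Countable) ∧
    (∀ n x, ∃ d ∈ D n, x - d ∈ J n) ∧ (∀ n x y, x ∈ J n → y ∈ J n → x * y ∈ J n) ∧
    (∀ x, (∀ n, x ∈ J n) → x = 0) ∧
    (∀ x : ℝ, (∀ n, ∃ z : ℤ, x - z ∈ J n) → ∃ z : ℤ, x = z) := by
  obtain ⟨V, hV, ht⟩ := exists_V
  obtain ⟨φ, hφ⟩ := exists_phi
  let J : ℕ → AddSubgroup ℝ := fun n => (I V (n + 1)).comap φ.toAddMonoidHom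
  have hJ : ∀ n x, x ∈ J n ↔ φ x ∈ I V (n + 1) := fun n x => Iff.rfl
  have hsep : ∀ x, (∀ n, x ∈ J n) → x = 0 := by
    intro x hx
    apply hφ
    rw [map_zero]
    apply I_sep hV ht
    intro n
    exact I_anti hV (Nat.le_succ n) ((hJ n x).1 (hx n))
  have hdense : ∀ n, ∃ D : Set ℝ, D.Countable ∧ ∀ x, ∃ d ∈ D, x - d ∈ J n := by
    intro n
    classical
    let g : K → ℝ := fun y => if h : ∃ d : ℝ, φ d - y ∈ I V (n + 1) then h.choose else 0
    refine ⟨g '' Y, Y_countable.image _, ?_⟩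
    intro x
    obtain ⟨y, hy, hxy⟩ := dense hV ht (n + 1) (φ x)
    refine ⟨g y, ⟨y, hy, rfl⟩, ?_⟩
    have h : ∃ d : ℝ, φ d - y ∈ I V (n + 1) := ⟨x, hxy⟩
    have hg : g y = h.choose := by simp only [g]; rw [dif_pos h]
    rw [hJ, hg, map_sub]
    have h2 := h.choose_spec
    have : φ x - φ h.choose = (φ x - y) - (φ h.choose - y) := by ring
    rw [this]
    exact sub_mem hxy h2
  choose D hD1 hD2 using hdense
  refine ⟨J, D, hD1, hD2, ?_, hsep, ?_⟩
  · intro n x y hx hy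
    rw [hJ] at hx hy ⊢
    rw [map_mul]
    exact I_mul hV hx hy
  · intro x hx
    choose z hz using hx
    refine ⟨z 0, ?_⟩
    have hz0 : ∀ n, z n = z 0 := by
      intro n
      have h1 : φ (x - z n) ∈ I V 1 := I_anti hV (by omega) ((hJ n _).1 (hz n))
      have h2 : φ (x - z 0) ∈ I V 1 := (hJ 0 _).1 (hz 0)
      have h3 := sub_mem h2 h1
      have h4 : φ (x - z 0) - φ (x - z n) = ((z n - z 0 : ℤ) : K) := by
        rw [← map_sub]
        have : x - (z 0 : ℝ) - (x - (z n : ℝ)) = ((z n - z 0 : ℤ) : ℝ) := by push_cast; ring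
        rw [this, map_intCast]
      rw [h4] at h3
      have := int_mem hV ht _ h3
      omega
    have : x - z 0 = 0 := by
      apply hsep
      intro n
      rw [← hz0 n]
      exact hz n
    linarith

end Pool.Agent.H24.Heis
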