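import Pool.Agent.H24.HeisC

namespace Pool.Agent.H24.Heis

/-- The Heisenberg group modulo the central copy of the integers. -/
def G : Type := ℝ × ℝ × AddCircle (1 : ℝ)

noncomputable instance : Mul G :=
  ⟨fun x y => (x.1 + y.1, x.2.1 + y.2.1, x.2.2 + y.2.2 + ((x.1 * y.2.1 : ℝ) : AddCircle (1 : ℝ)))⟩
noncomputable instance : One G := ⟨((0 : ℝ), (0 : ℝ), (0 : AddCircle (1 : ℝ)))⟩
noncomputable instance : Inv G :=
  ⟨fun x => (-x.1, -x.2.1, -x.2.2 + ((x.1 * x.2.1 : ℝ) : AddCircle (1 : ℝ)))⟩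

theorem mul_def (x y : G) : x * y =
    (x.1 + y.1, x.2.1 + y.2.1, x.2.2 + y.2.2 + ((x.1 * y.2.1 : ℝ) : AddCircle (1 : ℝ))) := rfl
theorem one_def : (1 : G) = ((0 : ℝ), (0 : ℝ), (0 : AddCircle (1 : ℝ))) := rfl
theorem inv_def (x : G) : x⁻¹ = (-x.1, -x.2.1, -x.2.2 + ((x.1 * x.2.1 : ℝ) : AddCircle (1 : ℝ))) := rfl

theorem G_ext {x y : G} (h1 : x.1 = y.1) (h2 : x.2.1 = y.2.1) (h3 : x.2.2 = y.2.2) : x = y :=
  Prod.ext h1 (Prod.ext h2 h3)

noncomputable instance : Group G :=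
  Group.ofLeftAxioms
    (by
      intro a b c
      apply G_ext
      · simp only [mul_def]; ring
      · simp only [mul_def]; ring
      · simp only [mul_def]
        have h1 : ((a.1 + b.1) * c.2.1 : ℝ) = a.1 * c.2.1 + b.1 * c.2.1 := by ring
        have h2 : (a.1 * (b.2.1 + c.2.1) : ℝ) = a.1 * b.2.1 + a.1 * c.2.1 := by ring
        rw [h1, h2, AddCircle.coe_add, AddCircle.coe_add]
        abel)
    (by
      intro a
      apply G_ext
      · simp only [mul_def, one_def]; ring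
      · simp only [mul_def, one_def]; ring
      · simp only [mul_def, one_def]
        simp)
    (by
      intro a
      apply G_ext
      · simp only [mul_def, one_def, inv_def]; ring
      · simp only [mul_def, one_def, inv_def]; ring
      · simp only [mul_def, one_def, inv_def]
        have h1 : (-a.1 * a.2.1 : ℝ) = -(a.1 * a.2.1) := by ring
        rw [h1, AddCircle.coe_neg]
        abel)

/-- The subgroup attached to an additive subgroup of `ℝ` closed under products. -/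
def H (J : AddSubgroup ℝ) (hJ : ∀ x y, x ∈ J → y ∈ J → x * y ∈ J) : Subgroup G where
  carrier := {g | g.1 ∈ J ∧ g.2.1 ∈ J ∧ ∃ c ∈ J, ((c : ℝ) : AddCircle (1 : ℝ)) = g.2.2}
  one_mem' := ⟨zero_mem J, zero_mem J, 0, zero_mem J, by simp [one_def]⟩
  mul_mem' := by
    rintro a b ⟨ha1, ha2, c, hc, hca⟩ ⟨hb1, hb2, d, hd, hdb⟩
    refine ⟨add_mem ha1 hb1, add_mem ha2 hb2, c + d + a.1 * b.2.1,
      add_mem (add_mem hc hd) (hJ _ _ ha1 hb2), ?_⟩
    rw [mul_def, AddCircle.coe_add, AddCircle.coe_add, hca, hdb]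
  inv_mem' := by
    rintro a ⟨ha1, ha2, c, hc, hca⟩
    refine ⟨neg_mem ha1, neg_mem ha2, -c + a.1 * a.2.1, add_mem (neg_mem hc) (hJ _ _ ha1 ha2), ?_⟩
    rw [inv_def, AddCircle.coe_add, AddCircle.coe_neg, hca]

theorem mem_H {J : AddSubgroup ℝ} {hJ : ∀ x y, x ∈ J → y ∈ J → x * y ∈ J} {g : G} :
    g ∈ H J hJ ↔ g.1 ∈ J ∧ g.2.1 ∈ J ∧ ∃ c ∈ J, ((c : ℝ) : AddCircle (1 : ℝ)) = g.2.2 := Iff.rfl

theorem countable_quot (J : AddSubgroup ℝ) (hJ : ∀ x y, x ∈ J → y ∈ J → x * y ∈ J) (D : Set ℝ)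
    (hD : D.Countable) (hd : ∀ x, ∃ d ∈ D, x - d ∈ J) : Countable (G ⧸ H J hJ) := by
  have : Countable D := hD.to_subtype
  let f : D × D × D → G ⧸ H J hJ := fun p =>
    QuotientGroup.mk (((p.1 : ℝ), (p.2.1 : ℝ), (((p.2.2 : ℝ)) : AddCircle (1 : ℝ))) : G)
  apply Function.Surjective.countable (f := f)
  intro q
  obtain ⟨g, rfl⟩ := QuotientGroup.mk_surjective q
  obtain ⟨a, b, c⟩ := g
  obtain ⟨c0, rfl⟩ := QuotientAddGroup.mk_surjective c
  obtain ⟨α, hα, ha⟩ := hd a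
  obtain ⟨β, hβ, hb⟩ := hd b
  obtain ⟨γ, hγ, hc⟩ := hd (α * β + c0 - α * b)
  refine ⟨(⟨α, hα⟩, ⟨β, hβ⟩, ⟨γ, hγ⟩), ?_⟩
  simp only [f]
  rw [QuotientGroup.eq, mem_H]
  refine ⟨?_, ?_, α * β + c0 - α * b - γ, hc, ?_⟩
  · change -α + a ∈ J
    rw [neg_add_eq_sub]; exact ha
  · change -β + b ∈ J
    rw [neg_add_eq_sub]; exact hb
  · change _ = (-((γ : ℝ) : AddCircle (1 : ℝ)) + ((α * β : ℝ) : AddCircle (1 : ℝ))) +
      ((c0 : ℝ) : AddCircle (1 : ℝ)) + ((-α * b : ℝ) : AddCircle (1 : ℝ))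
    have : α * β + c0 - α * b - γ = -γ + α * β + c0 + (-α * b) := by ring
    rw [this, AddCircle.coe_add, AddCircle.coe_add, AddCircle.coe_add, AddCircle.coe_neg]

theorem main : ∃ f : G →* Equiv.Perm ℕ, Function.Injective f := by
  obtain ⟨J, D, hD1, hD2, hmul, hsep, hint⟩ := exists_J
  have hc : ∀ n, Countable (G ⧸ H (J n) (hmul n)) := fun n =>
    countable_quot (J n) (hmul n) (D n) (hD1 n) (hD2 n)
  let X := Σ n : ℕ, G ⧸ H (J n) (hmul n)
  have hX : Countable X := inferInstance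
  obtain ⟨ι, hι⟩ := exists_injective_nat X
  let e : X ↪ ℕ := ⟨ι, hι⟩
  refine ⟨(Equiv.Perm.viaEmbeddingHom e).comp (MulAction.toPermHom G X), ?_⟩
  apply Function.Injective.comp (Equiv.Perm.viaEmbeddingHom_injective e)
  rw [injective_iff_map_eq_one]
  intro g hg
  have hmem : ∀ n, g ∈ H (J n) (hmul n) := by
    intro n
    have h1 : g • (⟨n, QuotientGroup.mk 1⟩ : X) = ⟨n, QuotientGroup.mk 1⟩ := by
      have := congrArg (fun p : Equiv.Perm X => p ⟨n, QuotientGroup.mk 1⟩) hg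
      exact this
    have h2 : (⟨n, QuotientGroup.mk (g * 1)⟩ : X) = ⟨n, QuotientGroup.mk 1⟩ := h1
    have h3 : (QuotientGroup.mk (g * 1) : G ⧸ H (J n) (hmul n)) = QuotientGroup.mk 1 :=
      eq_of_heq (Sigma.mk.inj h2).2
    rw [QuotientGroup.eq, mul_one, mul_one] at h3
    exact (Subgroup.inv_mem_iff _).1 h3
  apply G_ext
  · exact hsep _ fun n => (mem_H.1 (hmem n)).1
  · exact hsep _ fun n => (mem_H.1 (hmem n)).2.1
  · obtain ⟨a, b, c⟩ := g
    obtain ⟨c0, rfl⟩ := QuotientAddGroup.mk_surjective c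
    have h4 : ∀ n, ∃ z : ℤ, c0 - z ∈ J n := by
      intro n
      obtain ⟨c, hc, hcc⟩ := (mem_H.1 (hmem n)).2.2
      have h5 : ((c : ℝ) : AddCircle (1 : ℝ)) = ((c0 : ℝ) : AddCircle (1 : ℝ)) := hcc
      have h6 : ((c0 - c : ℝ) : AddCircle (1 : ℝ)) = 0 := by
        rw [AddCircle.coe_sub, h5, sub_self]
      rw [AddCircle.coe_eq_zero_iff] at h6
      obtain ⟨z, hz⟩ := h6
      refine ⟨z, ?_⟩
      have : c0 - (z : ℝ) = c := by
        rw [zsmul_eq_mul, mul_one] at hz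
        linarith
      rw [this]
      exact hc
    obtain ⟨z, hz⟩ := hint c0 h4
    change ((c0 : ℝ) : AddCircle (1 : ℝ)) = 0
    rw [AddCircle.coe_eq_zero_iff]
    exact ⟨z, by rw [zsmul_eq_mul, mul_one, hz]⟩

end Pool.Agent.H24.Heis
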