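import Mathlib

namespace Pool.Agent.H24.LcmA

open Finset

/-- The product of the odd numbers below `2 ^ (k + 1)`. -/
def W (k : ℕ) : ℕ := ∏ m ∈ (range (2 ^ (k + 1))).filter (fun m => m % 2 = 1), m

theorem W_odd (k : ℕ) : Nat.Coprime 2 (W k) := by
  unfold W
  apply Nat.Coprime.prod_right
  intro m hm
  rw [mem_filter] at hm
  rw [Nat.coprime_two_left, Nat.odd_iff]
  exact hm.2

theorem W_pos (k : ℕ) : 0 < W k := by
  unfold W
  apply Finset.prod_pos
  intro m hm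
  rw [mem_filter] at hm
  omega

theorem dvd_W {k m : ℕ} (h1 : m % 2 = 1) (h2 : m < 2 ^ (k + 1)) : m ∣ W k := by
  unfold W
  exact Finset.dvd_prod_of_mem _ (mem_filter.2 ⟨mem_range.2 h2, h1⟩)

theorem W_dvd {j k : ℕ} (h : j ≤ k) : W j ∣ W k := by
  unfold W
  apply Finset.prod_dvd_prod_of_subset
  intro m hm
  rw [mem_filter, mem_range] at hm ⊢
  exact ⟨lt_of_lt_of_le hm.1 (Nat.pow_le_pow_right (by norm_num) (by omega)), hm.2⟩

def kk : ℕ → ℕ
  | 0 => 1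
  | i + 1 => kk i + Nat.totient (W (kk i))

theorem kk_lt (i : ℕ) : kk i < kk (i + 1) := by
  rw [kk]
  have := Nat.totient_pos.2 (W_pos (kk i))
  omega

theorem kk_mono : StrictMono kk := strictMono_nat_of_lt_succ kk_lt

theorem kk_pos (i : ℕ) : 1 ≤ kk i := by
  have := kk_mono.monotone (Nat.zero_le i)
  simpa [kk] using this

theorem kk_modEq {i j : ℕ} (h : i ≤ j) : 2 ^ kk j ≡ 2 ^ kk i [MOD W (kk i)] := by
  induction j, h using Nat.le_induction with
  | base => rfl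
  | succ j hij ih =>
    refine Nat.ModEq.trans ?_ ih
    have h1 : 2 ^ kk (j + 1) ≡ 2 ^ kk j [MOD W (kk j)] := by
      rw [kk, pow_add]
      have := Nat.ModEq.pow_totient (W_odd (kk j))
      simpa using this.mul_left (2 ^ kk j)
    exact h1.of_dvd (W_dvd (kk_mono.monotone hij))

theorem exists_x (r : ℕ) : ∃ y : ℕ, 4 * 2 ^ kk r ≤ 2 * y + 1 ∧
    ∀ i ≤ r, W (kk i) ∣ 2 * y + 1 + 2 ^ kk i := by
  set P := 2 ^ kk r with hP
  set w := W (kk r) with hw
  have hw1 : w % 2 = 1 := by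
    have := W_odd (kk r)
    rw [Nat.coprime_two_left, Nat.odd_iff] at this
    exact this
  have hP2 : P % 2 = 0 := by
    rw [hP, ← Nat.sub_add_cancel (kk_pos r), pow_succ]
    omega
  have hwp : 1 ≤ w := W_pos _
  have hbig : 5 * P + 1 ≤ (8 * P + 1) * w - P := by
    have : 8 * P + 1 ≤ (8 * P + 1) * w := Nat.le_mul_of_pos_right _ hwp
    omega
  have hle : P ≤ (8 * P + 1) * w := by
    have : 8 * P + 1 ≤ (8 * P + 1) * w := Nat.le_mul_of_pos_right _ hwp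
    omega
  have hodd : ((8 * P + 1) * w) % 2 = 1 := by
    rw [Nat.mul_mod, hw1]
    omega
  obtain ⟨y, hy⟩ : ∃ y, (8 * P + 1) * w - P = 2 * y + 1 := ⟨((8 * P + 1) * w - P) / 2, by omega⟩
  refine ⟨y, by omega, ?_⟩
  intro i hi
  have h1 : 2 * y + 1 + P = (8 * P + 1) * w := by omega
  have h2 : W (kk i) ∣ 2 * y + 1 + P := by
    rw [h1]
    exact Dvd.dvd.mul_left (W_dvd (kk_mono.monotone hi)) _
  have h3 : 2 * y + 1 + P ≡ 2 * y + 1 + 2 ^ kk i [MOD W (kk i)] := (kk_modEq hi).add_left _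
  exact (Nat.modEq_zero_iff_dvd.1 (h3.symm.trans (Nat.modEq_zero_iff_dvd.2 h2)))

theorem lcm_le {a b N : ℕ} (ha : 0 < a) (hb : 0 < b) (h : a * b ≤ N) : Nat.lcm a b ≤ N :=
  le_trans (Nat.le_of_dvd (Nat.mul_pos ha hb) (Nat.lcm_dvd_mul a b)) h

/-- The three kinds of elements. -/
def Cls (y : ℕ) (K : ℕ) (a : ℕ) : Prop :=
  (1 ≤ a ∧ a ≤ 2 * y + 1) ∨ (∃ b, 1 ≤ b ∧ b ≤ 2 * y ∧ a = 2 * b) ∨
    (∃ k, k ≤ K ∧ W k ∣ 2 * y + 1 + 2 ^ k ∧ a = 2 * y + 1 + 2 ^ k)

theorem mixed {y K k b : ℕ} (hK : 4 * 2 ^ K ≤ 2 * y + 1) (hk : k ≤ K)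
    (hW : W k ∣ 2 * y + 1 + 2 ^ k) (hb1 : 1 ≤ b) (hb2 : b ≤ 2 * y) :
    Nat.lcm (2 * b) (2 * y + 1 + 2 ^ k) ≤ 2 * (2 * y + 1) ^ 2 := by
  set x := 2 * y + 1 with hx
  have hkK : 2 ^ k ≤ 2 ^ K := Nat.pow_le_pow_right (by norm_num) hk
  have hkp : 0 < 2 ^ k := by positivity
  by_cases hj : b + 2 ^ k ≤ x
  · apply lcm_le (by omega) (by omega)
    have : b ≤ x - 2 ^ k := by omega
    zify [show 2 ^ k ≤ x by omega] at this ⊢
    have h0 : (0 : ℤ) ≤ 2 ^ k := by positivity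
    nlinarith
  · push Not at hj
    obtain ⟨n, hn⟩ : ∃ n, x + 2 ^ k = b + n := ⟨x + 2 ^ k - b, by omega⟩
    have hn1 : 2 ^ k < n := by omega
    have hn2 : n < 2 ^ (k + 1) := by rw [pow_succ]; omega
    obtain ⟨a, m, hm, hnm⟩ := Nat.exists_eq_two_pow_mul_odd (n := n) (by omega)
    rw [Nat.odd_iff] at hm
    have hm3 : 3 ≤ m := by
      by_contra h
      have : m = 1 := by omega
      rw [this, mul_one] at hnm
      rw [hnm] at hn1 hn2
      have h1 := (Nat.pow_lt_pow_iff_right (by norm_num : 1 < 2)).1 hn1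
      have h2 := (Nat.pow_lt_pow_iff_right (by norm_num : 1 < 2)).1 hn2
      omega
    have hmn : m ∣ n := ⟨2 ^ a, by rw [hnm]; ring⟩
    have hmle : m < 2 ^ (k + 1) := lt_of_le_of_lt (Nat.le_of_dvd (by omega) hmn) hn2
    have hmu : m ∣ x + 2 ^ k := dvd_trans (dvd_W hm hmle) hW
    have hmb : m ∣ b := by
      rw [hn] at hmu
      exact (Nat.dvd_add_left hmn).1 hmu
    have hg : m ∣ Nat.gcd (2 * b) (x + 2 ^ k) := Nat.dvd_gcd (Dvd.dvd.mul_left hmb 2) hmu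
    have hg3 : 3 ≤ Nat.gcd (2 * b) (x + 2 ^ k) :=
      le_trans hm3 (Nat.le_of_dvd (Nat.gcd_pos_of_pos_left _ (by omega)) hg)
    have hgl := Nat.gcd_mul_lcm (2 * b) (x + 2 ^ k)
    have h1 : 3 * Nat.lcm (2 * b) (x + 2 ^ k) ≤ 2 * b * (x + 2 ^ k) := by
      rw [← hgl]
      exact Nat.mul_le_mul_right _ hg3
    have h2 : 2 * b * (x + 2 ^ k) ≤ (2 * x) * (2 * x) := Nat.mul_le_mul (by omega) (by omega)
    nlinarith

theorem pair {y K : ℕ} (hK : 4 * 2 ^ K ≤ 2 * y + 1) {a b : ℕ} (ha : Cls y K a) (hb : Cls y K b) :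
    Nat.lcm a b ≤ 2 * (2 * y + 1) ^ 2 := by
  have hle : ∀ k ≤ K, 2 ^ k ≤ 2 ^ K := fun k hk => Nat.pow_le_pow_right (by norm_num) hk
  rcases ha with ⟨ha1, ha2⟩ | ⟨c, hc1, hc2, rfl⟩ | ⟨k, hk, hkW, rfl⟩ <;>
  rcases hb with ⟨hb1, hb2⟩ | ⟨d, hd1, hd2, rfl⟩ | ⟨l, hl, hlW, rfl⟩
  · apply lcm_le (by omega) (by omega)
    nlinarith
  · apply lcm_le (by omega) (by omega)
    nlinarith
  · have := hle l hl
    have hlp : 0 < 2 ^ l := by positivity
    apply lcm_le (by omega) (by omega)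
    have h1 : a * (2 * y + 1 + 2 ^ l) ≤ (2 * y + 1) * (2 * (2 * y + 1)) :=
      Nat.mul_le_mul ha2 (by omega)
    nlinarith
  · apply lcm_le (by omega) (by omega)
    nlinarith
  · rw [Nat.lcm_mul_left]
    have := lcm_le (a := c) (b := d) (N := (2 * y + 1) ^ 2) (by omega) (by omega) (by nlinarith)
    omega
  · exact mixed hK hl hlW hc1 hc2
  · have := hle k hk
    have hkp : 0 < 2 ^ k := by positivity
    apply lcm_le (by omega) (by omega)
    have h1 : (2 * y + 1 + 2 ^ k) * b ≤ (2 * (2 * y + 1)) * (2 * y + 1) :=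
      Nat.mul_le_mul (by omega) hb2
    nlinarith
  · rw [Nat.lcm_comm]
    exact mixed hK hk hkW hd1 hd2
  · have h1 := hle k hk
    have h2 := hle l hl
    have hkp : 0 < 2 ^ k := by positivity
    have hlp : 0 < 2 ^ l := by positivity
    apply lcm_le (by omega) (by omega)
    zify at h1 h2 hK ⊢
    have h3 : (0 : ℤ) ≤ 2 ^ k := by positivity
    have h4 : (0 : ℤ) ≤ 2 ^ l := by positivity
    nlinarith [mul_nonneg h3 h4, mul_le_mul h1 h2 h4 (by positivity : (0 : ℤ) ≤ 2 ^ K)]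

theorem main (r : ℕ) : ∃ (y : ℕ) (A : Finset ℕ), A ⊆ Finset.Icc 1 (2 * (2 * y + 1) ^ 2) ∧
    (∀ a ∈ A, ∀ b ∈ A, Nat.lcm a b ≤ 2 * (2 * y + 1) ^ 2) ∧ A.card = 3 * y + 1 + r := by
  obtain ⟨y, hy1, hy2⟩ := exists_x r
  have hle : ∀ i ≤ r, 2 ^ kk i ≤ 2 ^ kk r := fun i hi =>
    Nat.pow_le_pow_right (by norm_num) (kk_mono.monotone hi)
  set A1 := Icc 1 (2 * y + 1) with hA1
  set A2 := (Icc (y + 1) (2 * y)).image (fun b => 2 * b) with hA2
  set A3 := (range r).image (fun i => 2 * y + 1 + 2 ^ kk i) with hA3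
  have hcls : ∀ a ∈ A1 ∪ A2 ∪ A3, Cls y (kk r) a := by
    intro a ha
    rw [mem_union, mem_union] at ha
    rcases ha with (h | h) | h
    · rw [hA1, mem_Icc] at h
      exact Or.inl h
    · rw [hA2, mem_image] at h
      obtain ⟨b, hb, rfl⟩ := h
      rw [mem_Icc] at hb
      exact Or.inr (Or.inl ⟨b, by omega, hb.2, rfl⟩)
    · rw [hA3, mem_image] at h
      obtain ⟨i, hi, rfl⟩ := h
      rw [mem_range] at hi
      exact Or.inr (Or.inr ⟨kk i, kk_mono.monotone hi.le, hy2 i hi.le, rfl⟩)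
  refine ⟨y, A1 ∪ A2 ∪ A3, ?_, ?_, ?_⟩
  · intro a ha
    have h1 := pair hy1 (hcls a ha) (hcls a ha)
    rw [Nat.lcm_self] at h1
    rw [mem_Icc]
    refine ⟨?_, h1⟩
    rcases hcls a ha with h | ⟨b, h⟩ | ⟨k, -, -, h⟩
    · omega
    · omega
    · rw [h]
      exact Nat.succ_le_of_lt (by positivity)
  · intro a ha b hb
    exact pair hy1 (hcls a ha) (hcls b hb)
  · have hd1 : Disjoint A1 A2 := by
      rw [Finset.disjoint_left]
      intro a h1 h2
      rw [hA1, mem_Icc] at h1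
      rw [hA2, mem_image] at h2
      obtain ⟨b, hb, hab⟩ := h2
      have hab' : 2 * b = a := hab
      rw [mem_Icc] at hb
      omega
    have hd2 : Disjoint (A1 ∪ A2) A3 := by
      rw [Finset.disjoint_left]
      intro a h1 h2
      rw [hA3, mem_image] at h2
      obtain ⟨i, hi, hai⟩ := h2
      have hai' : 2 * y + 1 + 2 ^ kk i = a := hai
      have hpos : 0 < 2 ^ kk i := by positivity
      have heven : 2 ^ kk i % 2 = 0 := by
        rw [← Nat.sub_add_cancel (kk_pos i), pow_succ]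
        omega
      rw [mem_union] at h1
      rcases h1 with h1 | h1
      · rw [hA1, mem_Icc] at h1
        omega
      · rw [hA2, mem_image] at h1
        obtain ⟨b, hb, hb2⟩ := h1
        have hb2' : 2 * b = a := hb2
        omega
    rw [card_union_of_disjoint hd2, card_union_of_disjoint hd1, hA1, hA2, hA3,
      card_image_of_injective, card_image_of_injective, Nat.card_Icc, Nat.card_Icc, card_range]
    · omega
    · intro i j hij
      have h1 : 2 ^ kk i = 2 ^ kk j := by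
        have : 2 * y + 1 + 2 ^ kk i = 2 * y + 1 + 2 ^ kk j := hij
        omega
      exact kk_mono.injective (Nat.pow_right_injective le_rfl h1)
    · intro b c hbc
      have : 2 * b = 2 * c := hbc
      omega

end Pool.Agent.H24.LcmA
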