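import Mathlib
set_option autoImplicit false
namespace Pool.H24.PN

/-- divisor bound -/
theorem divisor_bound (δ : ℝ) (hδ : 0 < δ) :
    ∃ C : ℝ, 0 < C ∧ ∀ n : ℕ, n ≠ 0 → (n.divisors.card : ℝ) ≤ C * (n:ℝ) ^ δ := by
  classical
  obtain ⟨K, hK⟩ := exists_nat_ge ((2:ℝ) ^ (1/δ))
  have hlog : 0 < Real.log 2 := Real.log_pos (by norm_num)
  set A : ℝ := 1 + 1 / (δ * Real.log 2) with hA
  have hA1 : 1 ≤ A := by
    have : 0 < 1 / (δ * Real.log 2) := by positivity
    linarith
  have hA2 : ∀ v : ℕ, (v : ℝ) + 1 ≤ A * (2:ℝ) ^ (δ * v) := by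
    intro v
    have h1 : (2:ℝ) ^ (δ * v) = Real.exp (Real.log 2 * (δ * v)) := by
      rw [Real.rpow_def_of_pos (by norm_num)]
    have h2 : 1 + Real.log 2 * (δ * v) ≤ (2:ℝ) ^ (δ * v) := by
      rw [h1]; linarith [Real.add_one_le_exp (Real.log 2 * (δ * v))]
    have h3 : 0 < δ * Real.log 2 := by positivity
    have h4 : (v:ℝ) + 1 ≤ A * (1 + Real.log 2 * (δ * v)) := by
      rw [hA]
      have : (1 / (δ * Real.log 2)) * (Real.log 2 * (δ * v)) = v := by
        field_simp
      have h5 : 0 ≤ Real.log 2 * (δ * v) := by positivity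
      have h6 : 0 ≤ 1 / (δ * Real.log 2) := by positivity
      nlinarith
    calc (v:ℝ) + 1 ≤ A * (1 + Real.log 2 * (δ * v)) := h4
      _ ≤ A * (2:ℝ) ^ (δ * v) := by
        apply mul_le_mul_of_nonneg_left h2; linarith
  refine ⟨A ^ K, by positivity, ?_⟩
  intro n hn
  rw [Nat.card_divisors hn]
  have hn2 : (n:ℝ) ^ δ = ∏ p ∈ n.primeFactors, ((p:ℝ) ^ (δ * (n.factorization p))) := by
    conv_lhs => rw [← Nat.prod_factorization_pow_eq_self hn]
    rw [Finsupp.prod, Nat.support_factorization]
    push_cast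
    rw [← Real.finsetProd_rpow]
    · apply Finset.prod_congr rfl
      intro p hp
      rw [mul_comm, Real.rpow_mul (by positivity), Real.rpow_natCast]
    · intro p hp; positivity
  have hbd : ∀ p ∈ n.primeFactors, ((n.factorization p + 1 : ℕ) : ℝ) ≤
      (if p < K then A else 1) * ((p:ℝ) ^ (δ * (n.factorization p))) := by
    intro p hp
    have hpp := Nat.prime_of_mem_primeFactors hp
    have hp2 : (2:ℝ) ≤ p := by exact_mod_cast hpp.two_le
    push_cast
    split_ifs with h
    · refine (hA2 _).trans ?_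
      apply mul_le_mul_of_nonneg_left _ (by linarith)
      apply Real.rpow_le_rpow (by norm_num) hp2 (by positivity)
    · push Not at h
      have h1 : (2:ℝ) ≤ (p:ℝ) ^ δ := by
        have h2 : (2:ℝ) ^ (1/δ) ≤ p := hK.trans (by exact_mod_cast h)
        have h3 := Real.rpow_le_rpow (by positivity) h2 hδ.le
        rw [← Real.rpow_mul (by norm_num)] at h3
        have : 1 / δ * δ = 1 := by field_simp
        rw [this, Real.rpow_one] at h3
        exact h3
      rw [one_mul, Real.rpow_mul (by positivity), Real.rpow_natCast]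
      have h4 : ((n.factorization p : ℕ):ℝ) + 1 ≤ 2 ^ (n.factorization p) := by
        have := @Nat.lt_two_pow_self (n.factorization p)
        exact_mod_cast this
      exact h4.trans (pow_le_pow_left₀ (by norm_num) h1 _)
  calc ((∏ p ∈ n.primeFactors, (n.factorization p + 1) : ℕ) : ℝ)
      = ∏ p ∈ n.primeFactors, ((n.factorization p + 1 : ℕ) : ℝ) := by push_cast; rfl
    _ ≤ ∏ p ∈ n.primeFactors, ((if p < K then A else 1) * ((p:ℝ) ^ (δ * (n.factorization p)))) := by
        apply Finset.prod_le_prod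
        · intro p hp; positivity
        · exact hbd
    _ = (∏ p ∈ n.primeFactors, (if p < K then A else 1)) * (n:ℝ) ^ δ := by
        rw [Finset.prod_mul_distrib, hn2]
    _ ≤ A ^ K * (n:ℝ) ^ δ := by
        apply mul_le_mul_of_nonneg_right _ (by positivity)
        rw [Finset.prod_ite, Finset.prod_const_one, mul_one, Finset.prod_const]
        apply pow_le_pow_right₀ hA1
        calc (Finset.filter (fun p => p < K) n.primeFactors).card
            ≤ (Finset.range K).card := by
              apply Finset.card_le_card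
              intro p hp
              simp only [Finset.mem_filter] at hp
              simpa using hp.2
          _ = K := by simp

/-- the Rankin sum over multisets of integers at least two -/
theorem sum_bound_aux (σ : ℝ) (hσ : 1 < σ) : ∀ (m : ℕ) (S : Finset (Multiset ℕ)),
    (∀ Y ∈ S, ∀ y ∈ Y, 2 ≤ y ∧ y ≤ m + 1) →
    ∑ Y ∈ S, ((Y.prod : ℕ) : ℝ) ^ (-σ) ≤
      ∏ i ∈ Finset.range m, (1 - ((i + 2 : ℕ) : ℝ) ^ (-σ))⁻¹ := by
  classical
  intro m
  induction m with
  | zero =>
    intro S hS
    have h0 : S ⊆ {0} := by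
      intro Y hY
      rw [Finset.mem_singleton]
      apply Multiset.eq_zero_of_forall_notMem
      intro y hy
      have := hS Y hY y hy
      omega
    calc ∑ Y ∈ S, ((Y.prod : ℕ) : ℝ) ^ (-σ) ≤ ∑ Y ∈ ({0} : Finset (Multiset ℕ)), ((Y.prod : ℕ) : ℝ) ^ (-σ) := by
          apply Finset.sum_le_sum_of_subset_of_nonneg h0
          intro i _ _; positivity
      _ = 1 := by simp
      _ ≤ _ := by simp
  | succ m ih =>
    intro S hS
    set t : ℝ := ((m + 2 : ℕ) : ℝ) ^ (-σ) with ht
    have htpos : 0 < t := by rw [ht]; positivity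
    have htlt : t < 1 := by
      rw [ht]
      apply Real.rpow_lt_one_of_one_lt_of_neg
      · push_cast; have : (0:ℝ) ≤ m := by positivity
        linarith
      · linarith
    set φ : Multiset ℕ → Multiset ℕ × ℕ := fun Y => (Y.filter (· ≠ m + 2), Y.count (m + 2)) with hφ
    have hrec : ∀ Y : Multiset ℕ, Y.filter (· ≠ m + 2) + Multiset.replicate (Y.count (m+2)) (m+2) = Y := by
      intro Y
      rw [← Multiset.filter_eq', add_comm]
      have := Multiset.filter_add_not (fun x => x = m + 2) Y
      simpa using this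
    have hinj : Function.Injective φ := by
      intro Y Z hYZ
      simp only [hφ, Prod.mk.injEq] at hYZ
      rw [← hrec Y, ← hrec Z, hYZ.1, hYZ.2]
    have hw : ∀ Y : Multiset ℕ, ((Y.prod : ℕ) : ℝ) ^ (-σ) =
        (((φ Y).1.prod : ℕ) : ℝ) ^ (-σ) * t ^ (φ Y).2 := by
      intro Y
      conv_lhs => rw [← hrec Y]
      rw [Multiset.prod_add, Multiset.prod_replicate, Nat.cast_mul, Nat.cast_pow,
        Real.mul_rpow (Nat.cast_nonneg _) (pow_nonneg (Nat.cast_nonneg _) _)]
      have h9 : (((m + 2 : ℕ) : ℝ) ^ (Multiset.count (m+2) Y)) ^ (-σ) = t ^ (Multiset.count (m+2) Y) := by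
        rw [ht, ← Real.rpow_natCast, ← Real.rpow_natCast, ← Real.rpow_mul (Nat.cast_nonneg _),
          ← Real.rpow_mul (Nat.cast_nonneg _)]
        congr 1
        ring
      rw [h9]
    obtain ⟨J, hJ⟩ : ∃ J : ℕ, ∀ Y ∈ S, Y.count (m+2) < J := by
      refine ⟨S.sup (fun Y => Y.count (m+2)) + 1, fun Y hY => ?_⟩
      exact Nat.lt_succ_of_le (Finset.le_sup (f := fun Y : Multiset ℕ => Y.count (m+2)) hY)
    calc ∑ Y ∈ S, ((Y.prod : ℕ) : ℝ) ^ (-σ)
        = ∑ Y ∈ S, (fun z : Multiset ℕ × ℕ => ((z.1.prod : ℕ) : ℝ) ^ (-σ) * t ^ z.2) (φ Y) := by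
          apply Finset.sum_congr rfl
          intro Y _
          exact hw Y
      _ = ∑ z ∈ S.image φ, ((z.1.prod : ℕ) : ℝ) ^ (-σ) * t ^ z.2 := by
          rw [Finset.sum_image (fun a _ b _ h => hinj h)]
      _ ≤ ∑ z ∈ (S.image (fun Y => Y.filter (· ≠ m + 2))) ×ˢ Finset.range J,
            ((z.1.prod : ℕ) : ℝ) ^ (-σ) * t ^ z.2 := by
          apply Finset.sum_le_sum_of_subset_of_nonneg
          · intro z hz
            rw [Finset.mem_image] at hz
            obtain ⟨Y, hY, rfl⟩ := hz
            rw [Finset.mem_product]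
            refine ⟨Finset.mem_image.2 ⟨Y, hY, rfl⟩, ?_⟩
            rw [Finset.mem_range]
            exact hJ Y hY
          · intro z _ _; positivity
      _ = (∑ Y ∈ S.image (fun Y => Y.filter (· ≠ m + 2)), ((Y.prod : ℕ) : ℝ) ^ (-σ)) *
            ∑ j ∈ Finset.range J, t ^ j := by
          rw [Finset.sum_mul_sum, Finset.sum_product]
      _ ≤ (∏ i ∈ Finset.range m, (1 - ((i + 2 : ℕ) : ℝ) ^ (-σ))⁻¹) * (1 - t)⁻¹ := by
          apply mul_le_mul
          · apply ih
            intro Y hY y hy
            rw [Finset.mem_image] at hY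
            obtain ⟨Z, hZ, rfl⟩ := hY
            rw [Multiset.mem_filter] at hy
            have := hS Z hZ y hy.1
            have h2 := hy.2
            omega
          · have hs := summable_geometric_of_lt_one htpos.le htlt
            have := hs.sum_le_tsum (Finset.range J) (fun i _ => pow_nonneg htpos.le i)
            rw [tsum_geometric_of_lt_one htpos.le htlt] at this
            exact this
          · apply Finset.sum_nonneg; intro i _; positivity
          · apply Finset.prod_nonneg
            intro i _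
            apply inv_nonneg.2
            have : ((i + 2 : ℕ) : ℝ) ^ (-σ) < 1 := by
              apply Real.rpow_lt_one_of_one_lt_of_neg
              · push_cast; have : (0:ℝ) ≤ i := by positivity
                linarith
              · linarith
            linarith
      _ = _ := by rw [Finset.prod_range_succ]

theorem sum_bound (σ : ℝ) (hσ : 1 < σ) : ∃ C : ℝ, 0 < C ∧ ∀ (S : Finset (Multiset ℕ)),
    (∀ Y ∈ S, ∀ y ∈ Y, 2 ≤ y) →
    ∑ Y ∈ S, ((Y.prod : ℕ) : ℝ) ^ (-σ) ≤ C := by
  classical
  have hsum : Summable (fun n : ℕ => ((n : ℝ) ^ (-σ))) := by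
    apply Real.summable_nat_rpow.2; linarith
  refine ⟨Real.exp (2 * ∑' n : ℕ, ((n : ℝ) ^ (-σ))), Real.exp_pos _, ?_⟩
  intro S hS
  obtain ⟨m, hm⟩ : ∃ m : ℕ, ∀ Y ∈ S, ∀ y ∈ Y, y ≤ m := by
    refine ⟨S.sup (fun Y => Y.sup), fun Y hY y hy => ?_⟩
    exact (Multiset.le_sup hy).trans (Finset.le_sup (f := fun Y : Multiset ℕ => Y.sup) hY)
  refine (sum_bound_aux σ hσ m S (fun Y hY y hy => ⟨hS Y hY y hy, (hm Y hY y hy).trans (Nat.le_succ _)⟩)).trans ?_
  calc ∏ i ∈ Finset.range m, (1 - ((i + 2 : ℕ) : ℝ) ^ (-σ))⁻¹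
      ≤ ∏ i ∈ Finset.range m, Real.exp (2 * ((i + 2 : ℕ) : ℝ) ^ (-σ)) := by
        apply Finset.prod_le_prod
        · intro i _
          apply inv_nonneg.2
          have : ((i + 2 : ℕ) : ℝ) ^ (-σ) < 1 := by
            apply Real.rpow_lt_one_of_one_lt_of_neg
            · push_cast; have : (0:ℝ) ≤ i := by positivity
              linarith
            · linarith
          linarith
        · intro i _
          have h1 : ((i + 2 : ℕ) : ℝ) ^ (-σ) ≤ 1/2 := by
            have h2 : ((i + 2 : ℕ) : ℝ) ^ (-σ) ≤ ((i + 2 : ℕ) : ℝ) ^ (-1:ℝ) := by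
              apply Real.rpow_le_rpow_of_exponent_le
              · push_cast; have : (0:ℝ) ≤ i := by positivity
                linarith
              · linarith
            refine h2.trans ?_
            rw [Real.rpow_neg_one]
            push_cast
            rw [one_div]
            apply inv_anti₀ (by norm_num)
            have : (0:ℝ) ≤ i := by positivity
            linarith
          have h0 : 0 ≤ ((i + 2 : ℕ) : ℝ) ^ (-σ) := by positivity
          set t := ((i + 2 : ℕ) : ℝ) ^ (-σ)
          have h3 : (1 - t)⁻¹ ≤ 1 + 2 * t := by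
            rw [inv_le_comm₀ (by linarith) (by linarith), ← one_div, div_le_iff₀ (by linarith)]
            nlinarith
          linarith [Real.add_one_le_exp (2 * t)]
    _ = Real.exp (2 * ∑ i ∈ Finset.range m, ((i + 2 : ℕ) : ℝ) ^ (-σ)) := by
        rw [← Real.exp_sum, Finset.mul_sum]
    _ ≤ _ := by
        apply Real.exp_le_exp.2
        apply mul_le_mul_of_nonneg_left _ (by norm_num)
        have h1 : Summable (fun n : ℕ => (((n + 2 : ℕ) : ℝ) ^ (-σ))) := by
          exact (summable_nat_add_iff 2).2 hsum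
        have h2 := h1.sum_le_tsum (Finset.range m) (fun i _ => by positivity)
        refine h2.trans ?_
        have h3 := hsum.sum_add_tsum_nat_add 2
        rw [← h3]
        have : 0 ≤ ∑ i ∈ Finset.range 2, ((i:ℝ) ^ (-σ)) := by
          apply Finset.sum_nonneg; intro i _; positivity
        push_cast at *
        linarith

end Pool.H24.PN
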