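import Pool.Agent.H24.PN1
set_option autoImplicit false
namespace Pool.H24.PN

/-- sum of (y-1) -/
def sg (Y : Multiset ℕ) : ℕ := (Y.map (fun y => y - 1)).sum

theorem sg_cons (a : ℕ) (Y : Multiset ℕ) : sg (a ::ₘ Y) = (a - 1) + sg Y := by
  simp [sg]

theorem sg_lt (Y : Multiset ℕ) (h : ∀ y ∈ Y, 2 ≤ y) : sg Y + 1 ≤ Y.prod := by
  induction Y using Multiset.induction_on with
  | empty => simp [sg]
  | cons a Y ih =>
    rw [sg_cons, Multiset.prod_cons]
    have h1 := ih (fun y hy => h y (Multiset.mem_cons_of_mem hy))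
    have h2 := h a (Multiset.mem_cons_self a Y)
    obtain ⟨b, rfl⟩ : ∃ b, a = b + 1 := ⟨a - 1, by omega⟩
    have h3 : 1 ≤ Y.prod := by omega
    have : b * 1 ≤ b * Y.prod := Nat.mul_le_mul_left b h3
    calc b + 1 - 1 + sg Y + 1 = b + (sg Y + 1) := by omega
      _ ≤ b * Y.prod + Y.prod := by omega
      _ = (b + 1) * Y.prod := by ring

theorem two_sg_le (Y : Multiset ℕ) (h : ∀ y ∈ Y, 2 ≤ y) (hc : 2 ≤ Multiset.card Y) :
    2 * sg Y ≤ Y.prod := by
  obtain ⟨a, Y1, rfl⟩ : ∃ a Y1, Y = a ::ₘ Y1 := by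
    have : Y ≠ 0 := by rintro rfl; simp at hc
    obtain ⟨a, ha⟩ := Multiset.exists_mem_of_ne_zero this
    exact ⟨a, _, (Multiset.cons_erase ha).symm⟩
  have h2 := h a (Multiset.mem_cons_self a Y1)
  have h3 : ∀ y ∈ Y1, 2 ≤ y := fun y hy => h y (Multiset.mem_cons_of_mem hy)
  have h1 := sg_lt Y1 h3
  rw [Multiset.card_cons] at hc
  obtain ⟨b, Y2, rfl⟩ : ∃ b Y2, Y1 = b ::ₘ Y2 := by
    have : Y1 ≠ 0 := by rintro rfl; simp at hc
    obtain ⟨a, ha⟩ := Multiset.exists_mem_of_ne_zero this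
    exact ⟨a, _, (Multiset.cons_erase ha).symm⟩
  have h4 : 2 ≤ (b ::ₘ Y2).prod := by
    rw [Multiset.prod_cons]
    have hb := h3 b (Multiset.mem_cons_self b Y2)
    have h5 := sg_lt Y2 (fun y hy => h3 y (Multiset.mem_cons_of_mem hy))
    have : 1 ≤ Y2.prod := by omega
    calc 2 = 2 * 1 := rfl
      _ ≤ b * Y2.prod := Nat.mul_le_mul hb this
  rw [sg_cons, Multiset.prod_cons]
  set M := (b ::ₘ Y2).prod
  set s := sg (b ::ₘ Y2)
  obtain ⟨c, rfl⟩ : ∃ c, a = c + 2 := ⟨a - 2, by omega⟩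
  obtain ⟨d, hd⟩ : ∃ d, M = d + 2 := ⟨M - 2, by omega⟩
  rw [hd] at h1 ⊢
  have : 2 * (c + 2 - 1 + s) ≤ 2 * (c + 1 + (d + 1)) := by omega
  refine this.trans ?_
  nlinarith [Nat.zero_le (c * d)]

/-- valid Y for the prime p -/
def T (p : ℕ) : Set (Multiset ℕ) :=
  {Y | (∀ y ∈ Y, 2 ≤ y) ∧ ∃ m : ℕ, m * Y.prod = p * m + (p - 1 + sg Y)}

theorem T_lt {p : ℕ} (hp : 2 ≤ p) {Y : Multiset ℕ} (hY : Y ∈ T p) : p < Y.prod := by
  obtain ⟨h1, m, hm⟩ := hY
  by_contra hcon
  push Not at hcon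
  have : m * Y.prod ≤ m * p := Nat.mul_le_mul_left m hcon
  have h2 : m * p = p * m := Nat.mul_comm _ _
  omega

theorem T_lt4 {p : ℕ} (hp : 2 ≤ p) {Y : Multiset ℕ} (hY : Y ∈ T p) : Y.prod < 4 * p := by
  have hlt := T_lt hp hY
  obtain ⟨h1, m, hm⟩ := hY
  obtain ⟨d, hd⟩ : ∃ d, Y.prod = p + d := ⟨Y.prod - p, by omega⟩
  have hm1 : 1 ≤ m := by
    rcases Nat.eq_zero_or_pos m with h | h
    · subst h; simp at hm; omega
    · exact h
  have hmd : m * d = p - 1 + sg Y := by
    rw [hd, Nat.mul_add, Nat.mul_comm m p] at hm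
    omega
  have hdle : d ≤ p - 1 + sg Y := by
    rw [← hmd]; exact Nat.le_mul_of_pos_left d hm1
  rcases Nat.lt_or_ge (Multiset.card Y) 2 with hc | hc
  · rcases Nat.lt_or_ge (Multiset.card Y) 1 with hc0 | hc1
    · have : Y = 0 := by rw [← Multiset.card_eq_zero]; omega
      subst this
      simp at hlt; omega
    · have : Multiset.card Y = 1 := by omega
      rw [Multiset.card_eq_one] at this
      obtain ⟨y, rfl⟩ := this
      simp only [sg, Multiset.map_singleton, Multiset.sum_singleton, Multiset.prod_singleton] at *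
      subst hd
      -- m d = p-1 + (p+d-1)
      obtain ⟨k, rfl⟩ : ∃ k, m = k + 1 := ⟨m - 1, by omega⟩
      have h5 : k * d = 2 * p - 2 := by
        have : (k + 1) * d = k * d + d := by ring
        omega
      have h6 : 1 ≤ k := by
        rcases Nat.eq_zero_or_pos k with h | h
        · subst h; simp at h5; omega
        · exact h
      have h7 : d ≤ k * d := Nat.le_mul_of_pos_left d h6
      omega
  · have := two_sg_le Y h1 hc
    omega

theorem T_finite {p : ℕ} (hp : 2 ≤ p) : (T p).Finite := by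
  classical
  apply Set.Finite.subset (Set.finite_Iic ((4 * p) • (Multiset.range (4 * p)) : Multiset ℕ))
  intro Y hY
  rw [Set.mem_Iic, Multiset.le_iff_count]
  intro a
  have hlt := T_lt4 hp hY
  have hY1 := hY.1
  by_cases ha : a ∈ Y
  · have ha2 := hY1 a ha
    have hpos : 0 < Y.prod := by have := T_lt hp hY; omega
    have h1 : a ∣ Y.prod := Multiset.dvd_prod ha
    have h2 : a ≤ Y.prod := Nat.le_of_dvd hpos h1
    rw [Multiset.count_nsmul, Multiset.count_eq_one_of_mem (Multiset.nodup_range _)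
      (Multiset.mem_range.2 (by omega)), mul_one]
    have h3 : a ^ (Y.count a) ∣ Y.prod := by
      rw [Multiset.pow_count]; exact Multiset.prod_dvd_prod_of_le (Multiset.filter_le _ _)
    have h4 : a ^ (Y.count a) ≤ Y.prod := Nat.le_of_dvd hpos h3
    have h5 : 2 ^ (Y.count a) ≤ a ^ (Y.count a) := Nat.pow_le_pow_left ha2 _
    have h6 := @Nat.lt_two_pow_self (Y.count a)
    omega
  · rw [Multiset.count_eq_zero_of_notMem ha]; exact Nat.zero_le _

/-- the solution set -/
def Sol (n : ℕ) : Set (Multiset ℕ) :=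
  {s : Multiset ℕ | Multiset.card s = n ∧ (∀ x ∈ s, 0 < x) ∧ s.prod = n * s.sum}

theorem split_ones (Z : Multiset ℕ) (hZ : ∀ x ∈ Z, 0 < x) :
    Z = Z.filter (fun x => 2 ≤ x) + Multiset.replicate (Z.card - (Z.filter (fun x => 2 ≤ x)).card) 1 := by
  have h := Multiset.filter_add_not (fun x => 2 ≤ x) Z
  have h2 : Z.filter (fun x => ¬ 2 ≤ x) = Multiset.replicate (Z.filter (fun x => ¬ 2 ≤ x)).card 1 := by
    rw [Multiset.eq_replicate_card]
    intro b hb
    rw [Multiset.mem_filter] at hb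
    have := hZ b hb.1
    omega
  have h3 : (Z.filter (fun x => ¬ 2 ≤ x)).card = Z.card - (Z.filter (fun x => 2 ≤ x)).card := by
    have := congrArg Multiset.card h
    rw [Multiset.card_add] at this
    omega
  rw [h3] at h2
  rw [← h2]; exact h.symm

theorem sum_eq (Z : Multiset ℕ) (hZ : ∀ x ∈ Z, 0 < x) : Z.sum = Z.card + sg (Z.filter (fun x => 2 ≤ x)) := by
  induction Z using Multiset.induction_on with
  | empty => simp [sg]
  | cons a Z ih =>
    have h1 := ih (fun x hx => hZ x (Multiset.mem_cons_of_mem hx))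
    have h2 := hZ a (Multiset.mem_cons_self a Z)
    rw [Multiset.sum_cons, Multiset.card_cons]
    by_cases h : 2 ≤ a
    · have e : Multiset.filter (fun x => 2 ≤ x) (a ::ₘ Z) = a ::ₘ Multiset.filter (fun x => 2 ≤ x) Z :=
        Multiset.filter_cons_of_pos _ h
      rw [e, sg_cons]; omega
    · have e : Multiset.filter (fun x => 2 ≤ x) (a ::ₘ Z) = Multiset.filter (fun x => 2 ≤ x) Z :=
        Multiset.filter_cons_of_neg _ h
      rw [e]; omega

theorem prod_eq (Z : Multiset ℕ) (hZ : ∀ x ∈ Z, 0 < x) : Z.prod = (Z.filter (fun x => 2 ≤ x)).prod := by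
  conv_lhs => rw [split_ones Z hZ]
  simp

theorem sol_ncard_le {p : ℕ} (hp : p.Prime) : (Sol p).ncard ≤ (T p).ncard := by
  classical
  have hex : ∀ s : Multiset ℕ, s ∈ Sol p → ∃ x, x ∈ s ∧ p ∣ x := by
    intro s hs
    obtain ⟨h1, h2, h3⟩ := hs
    have : p ∣ s.prod := ⟨s.sum, h3⟩
    obtain ⟨a, ha, hpa⟩ := (Nat.Prime.prime hp).exists_mem_multiset_dvd this
    exact ⟨a, ha, hpa⟩
  choose! x hx hpx using hex
  have key : ∀ s ∈ Sol p, ∃ m : ℕ, x s = p * m ∧
      m * ((s.erase (x s)).filter (fun x => 2 ≤ x)).prod = p * m + (p - 1 + sg ((s.erase (x s)).filter (fun x => 2 ≤ x))) := by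
    intro s hs
    obtain ⟨m, hm⟩ := hpx s hs
    refine ⟨m, hm, ?_⟩
    have hs' := hs
    obtain ⟨h1, h2, h3⟩ := hs'
    have hc := Multiset.cons_erase (hx s hs)
    have hZ : ∀ y ∈ s.erase (x s), 0 < y := fun y hy => h2 y (Multiset.mem_of_mem_erase hy)
    have hcard : (s.erase (x s)).card = p - 1 := by
      rw [Multiset.card_erase_of_mem (hx s hs), h1]; rfl
    have e1 : s.prod = x s * (s.erase (x s)).prod := by
      conv_lhs => rw [← hc]
      rw [Multiset.prod_cons]
    have e2 : s.sum = x s + (s.erase (x s)).sum := by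
      conv_lhs => rw [← hc]
      rw [Multiset.sum_cons]
    rw [e1, e2, sum_eq _ hZ, hcard, prod_eq _ hZ] at h3
    generalize Multiset.filter (fun x => 2 ≤ x) (s.erase (x s)) = F at h3 ⊢
    rw [hm, mul_assoc] at h3
    exact Nat.eq_of_mul_eq_mul_left hp.pos h3
  refine Set.ncard_le_ncard_of_injOn (fun s => (s.erase (x s)).filter (fun x => 2 ≤ x)) ?_ ?_ (T_finite hp.two_le)
  · intro s hs
    obtain ⟨m, hm1, hm2⟩ := key s hs
    refine ⟨?_, m, hm2⟩
    intro y hy
    rw [Multiset.mem_filter] at hy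
    exact hy.2
  · intro s hs s' hs' heq
    simp only at heq
    obtain ⟨m, hm1, hm2⟩ := key s hs
    obtain ⟨m', hm1', hm2'⟩ := key s' hs'
    have hZ : ∀ y ∈ s.erase (x s), 0 < y := fun y hy => hs.2.1 y (Multiset.mem_of_mem_erase hy)
    have hZ' : ∀ y ∈ s'.erase (x s'), 0 < y := fun y hy => hs'.2.1 y (Multiset.mem_of_mem_erase hy)
    have hcard : (s.erase (x s)).card = p - 1 := by
      rw [Multiset.card_erase_of_mem (hx s hs), hs.1]; rfl
    have hcard' : (s'.erase (x s')).card = p - 1 := by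
      rw [Multiset.card_erase_of_mem (hx s' hs'), hs'.1]; rfl
    have hmm : m = m' := by
      rw [← heq] at hm2'
      set M := ((s.erase (x s)).filter (fun x => 2 ≤ x)).prod
      set g := sg ((s.erase (x s)).filter (fun x => 2 ≤ x))
      have hp2 := hp.two_le
      have hMp : p < M := by
        by_contra hcon
        push Not at hcon
        have : m * M ≤ m * p := Nat.mul_le_mul_left m hcon
        have h2 : m * p = p * m := Nat.mul_comm _ _
        omega
      obtain ⟨d, hd⟩ : ∃ d, M = p + d := ⟨M - p, by omega⟩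
      have hd0 : 0 < d := by omega
      rw [hd, Nat.mul_add, Nat.mul_comm m p] at hm2
      rw [hd, Nat.mul_add, Nat.mul_comm m' p] at hm2'
      have : m * d = m' * d := by omega
      exact Nat.eq_of_mul_eq_mul_right hd0 this
    have hxx : x s = x s' := by rw [hm1, hm1', hmm]
    have hee : s.erase (x s) = s'.erase (x s') := by
      rw [split_ones _ hZ, split_ones _ hZ', heq, hcard, hcard']
    rw [← Multiset.cons_erase (hx s hs), ← Multiset.cons_erase (hx s' hs'), hee, hxx]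

end Pool.H24.PN
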