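import Pool.Agent.H24.PN2
set_option autoImplicit false
namespace Pool.H24.PN

theorem T_div {p : ℕ} (hp : 2 ≤ p) {Y : Multiset ℕ} (hY : Y ∈ T p) :
    Y.prod - p ∈ (Y.prod - 1 + sg Y).divisors := by
  have hlt := T_lt hp hY
  obtain ⟨h1, m, hm⟩ := hY
  obtain ⟨d, hd⟩ : ∃ d, Y.prod = p + d := ⟨Y.prod - p, by omega⟩
  rw [Nat.mem_divisors]
  refine ⟨⟨m + 1, ?_⟩, by omega⟩
  rw [hd] at hm ⊢
  have : p + d - p = d := by omega
  rw [this]
  have h2 : m * (p + d) = p * m + m * d := by ring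
  have h3 : d * (m + 1) = m * d + d := by ring
  omega

theorem main (ε : ℝ) (hε : 0 < ε) (N : ℕ)
    (h : ∀ n : ℕ, N ≤ n → (n : ℝ) ^ ε < (((Sol n).ncard : ℕ) : ℝ)) : False := by
  classical
  obtain ⟨C₁, hC₁, hdiv⟩ := divisor_bound (ε / 2) (by linarith)
  obtain ⟨C₂, hC₂, hsum⟩ := sum_bound (1 + ε / 2) (by linarith)
  -- the constant
  set C : ℝ := (4:ℝ) ^ (1 + ε) * C₁ * (2:ℝ) ^ (ε/2) * C₂ with hC
  have hbound : ∀ P : Finset ℕ, (∀ p ∈ P, p.Prime ∧ N ≤ p) → ∑ p ∈ P, (1 / (p:ℝ)) ≤ C := by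
    intro P hP
    set 𝒯 : ℕ → Finset (Multiset ℕ) := fun p => if hp : 2 ≤ p then (T_finite hp).toFinset else ∅ with h𝒯
    have hmem : ∀ p, 2 ≤ p → ∀ Y, Y ∈ 𝒯 p ↔ Y ∈ T p := by
      intro p hp Y
      simp only [h𝒯, dif_pos hp, Set.Finite.mem_toFinset]
    set 𝒰 : Finset (Multiset ℕ) := P.biUnion 𝒯 with h𝒰
    have h1 : ∀ p ∈ P, (1 / (p:ℝ)) ≤ ∑ Y ∈ 𝒰, if Y ∈ 𝒯 p then ((p:ℝ) ^ (-(1 + ε))) else 0 := by
      intro p hp
      obtain ⟨hpp, hpN⟩ := hP p hp
      have hp0 : (0:ℝ) < p := by exact_mod_cast hpp.pos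
      have h2 := h p hpN
      have h3 : (((Sol p).ncard : ℕ) : ℝ) ≤ ((𝒯 p).card : ℝ) := by
        have := sol_ncard_le hpp
        rw [Set.ncard_eq_toFinset_card _ (T_finite hpp.two_le)] at this
        simp only [h𝒯, dif_pos hpp.two_le]
        exact_mod_cast this
      have h4 : ∑ Y ∈ 𝒰, (if Y ∈ 𝒯 p then ((p:ℝ) ^ (-(1 + ε))) else 0) = ((𝒯 p).card : ℝ) * (p:ℝ) ^ (-(1+ε)) := by
        rw [← Finset.sum_filter, Finset.sum_const, nsmul_eq_mul]
        congr 2
        congr 1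
        ext Y
        simp only [Finset.mem_filter, h𝒰, Finset.mem_biUnion]
        constructor
        · rintro ⟨_, h⟩; exact h
        · intro h; exact ⟨⟨p, hp, h⟩, h⟩
      rw [h4]
      have h5 : (1 / (p:ℝ)) = (p:ℝ) ^ ε * (p:ℝ) ^ (-(1+ε)) := by
        rw [← Real.rpow_add hp0]
        have : ε + -(1 + ε) = -1 := by ring
        rw [this, Real.rpow_neg_one, one_div]
      rw [h5]
      apply mul_le_mul_of_nonneg_right _ (by positivity)
      linarith
    calc ∑ p ∈ P, (1 / (p:ℝ)) ≤ ∑ p ∈ P, ∑ Y ∈ 𝒰, (if Y ∈ 𝒯 p then ((p:ℝ) ^ (-(1 + ε))) else 0) :=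
          Finset.sum_le_sum h1
      _ = ∑ Y ∈ 𝒰, ∑ p ∈ P, (if Y ∈ 𝒯 p then ((p:ℝ) ^ (-(1 + ε))) else 0) := Finset.sum_comm
      _ ≤ ∑ Y ∈ 𝒰, ((4:ℝ) ^ (1 + ε) * C₁ * (2:ℝ) ^ (ε/2)) * ((Y.prod : ℕ) : ℝ) ^ (-(1 + ε/2)) := by
          apply Finset.sum_le_sum
          intro Y hY
          rw [h𝒰, Finset.mem_biUnion] at hY
          obtain ⟨p₀, hp₀, hYp₀⟩ := hY
          have hp₀2 := (hP p₀ hp₀).1.two_le
          have hYT := (hmem p₀ hp₀2 Y).1 hYp₀
          have hYge := hYT.1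
          have hM0 : 0 < Y.prod := by have := T_lt hp₀2 hYT; omega
          have hM0' : (0:ℝ) < Y.prod := by exact_mod_cast hM0
          have h2 : ∀ p ∈ P, (if Y ∈ 𝒯 p then ((p:ℝ) ^ (-(1 + ε))) else 0) ≤
              (if Y ∈ 𝒯 p then ((4:ℝ) ^ (1 + ε) * ((Y.prod : ℕ) : ℝ) ^ (-(1 + ε))) else 0) := by
            intro p hp
            split_ifs with hin
            · have hp2 := (hP p hp).1.two_le
              have hlt := T_lt4 hp2 ((hmem p hp2 Y).1 hin)
              have hp0 : (0:ℝ) < p := by exact_mod_cast (hP p hp).1.pos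
              have h5 : ((Y.prod : ℕ) : ℝ) / 4 ≤ p := by
                have : ((Y.prod : ℕ) : ℝ) < 4 * p := by exact_mod_cast hlt
                linarith
              have h6 : (p:ℝ) ^ (-(1 + ε)) ≤ (((Y.prod : ℕ) : ℝ) / 4) ^ (-(1 + ε)) := by
                apply Real.rpow_le_rpow_of_nonpos (by positivity) h5 (by linarith)
              refine h6.trans (le_of_eq ?_)
              rw [Real.div_rpow hM0'.le (by norm_num), Real.rpow_neg (by norm_num : (0:ℝ) ≤ 4), div_inv_eq_mul, mul_comm]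
            · exact le_refl _
          refine (Finset.sum_le_sum h2).trans ?_
          rw [← Finset.sum_filter, Finset.sum_const, nsmul_eq_mul]
          have h3 : ((P.filter (fun p => Y ∈ 𝒯 p)).card : ℝ) ≤ C₁ * ((2:ℝ) ^ (ε/2) * ((Y.prod : ℕ) : ℝ) ^ (ε/2)) := by
            have h4 : (P.filter (fun p => Y ∈ 𝒯 p)).card ≤ ((Y.prod - 1 + sg Y).divisors).card := by
              apply Finset.card_le_card_of_injOn (fun p => Y.prod - p)
              · intro p hp
                rw [Finset.mem_coe, Finset.mem_filter] at hp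
                have hp2 := (hP p hp.1).1.two_le
                exact T_div hp2 ((hmem p hp2 Y).1 hp.2)
              · intro p hp q hq hpq
                rw [Finset.mem_coe, Finset.mem_filter] at hp hq
                have hp2 := (hP p hp.1).1.two_le
                have hq2 := (hP q hq.1).1.two_le
                have h5 := T_lt hp2 ((hmem p hp2 Y).1 hp.2)
                have h6 := T_lt hq2 ((hmem q hq2 Y).1 hq.2)
                simp only at hpq
                omega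
            have hsg := sg_lt Y hYge
            have hM2 : 2 ≤ Y.prod := by have := T_lt hp₀2 hYT; omega
            have h5 := hdiv (Y.prod - 1 + sg Y) (by omega)
            have h6 : (((Y.prod - 1 + sg Y : ℕ)) : ℝ) ≤ 2 * ((Y.prod : ℕ) : ℝ) := by
              have : Y.prod - 1 + sg Y ≤ 2 * Y.prod := by omega
              exact_mod_cast this
            have h7 : (((Y.prod - 1 + sg Y : ℕ)) : ℝ) ^ (ε/2) ≤ (2:ℝ) ^ (ε/2) * ((Y.prod : ℕ) : ℝ) ^ (ε/2) := by
              rw [← Real.mul_rpow (by norm_num) hM0'.le]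
              apply Real.rpow_le_rpow (Nat.cast_nonneg _) h6 (by linarith)
            calc ((P.filter (fun p => Y ∈ 𝒯 p)).card : ℝ) ≤ (((Y.prod - 1 + sg Y).divisors).card : ℝ) := by
                  exact_mod_cast h4
              _ ≤ C₁ * (((Y.prod - 1 + sg Y : ℕ)) : ℝ) ^ (ε/2) := h5
              _ ≤ _ := mul_le_mul_of_nonneg_left h7 hC₁.le
          have h8 : ((Y.prod : ℕ) : ℝ) ^ (ε/2) * ((Y.prod : ℕ) : ℝ) ^ (-(1 + ε)) = ((Y.prod : ℕ) : ℝ) ^ (-(1 + ε/2)) := by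
            rw [← Real.rpow_add hM0']
            congr 1; ring
          calc ((P.filter (fun p => Y ∈ 𝒯 p)).card : ℝ) * ((4:ℝ) ^ (1 + ε) * ((Y.prod : ℕ) : ℝ) ^ (-(1 + ε)))
              ≤ (C₁ * ((2:ℝ) ^ (ε/2) * ((Y.prod : ℕ) : ℝ) ^ (ε/2))) * ((4:ℝ) ^ (1 + ε) * ((Y.prod : ℕ) : ℝ) ^ (-(1 + ε))) := by
                apply mul_le_mul_of_nonneg_right h3 (by positivity)
            _ = ((4:ℝ) ^ (1 + ε) * C₁ * (2:ℝ) ^ (ε/2)) * (((Y.prod : ℕ) : ℝ) ^ (ε/2) * ((Y.prod : ℕ) : ℝ) ^ (-(1 + ε))) := by ring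
            _ = _ := by rw [h8]
      _ = ((4:ℝ) ^ (1 + ε) * C₁ * (2:ℝ) ^ (ε/2)) * ∑ Y ∈ 𝒰, ((Y.prod : ℕ) : ℝ) ^ (-(1 + ε/2)) := by
          rw [Finset.mul_sum]
      _ ≤ ((4:ℝ) ^ (1 + ε) * C₁ * (2:ℝ) ^ (ε/2)) * C₂ := by
          apply mul_le_mul_of_nonneg_left _ (by positivity)
          apply hsum
          intro Y hY
          rw [h𝒰, Finset.mem_biUnion] at hY
          obtain ⟨p₀, hp₀, hYp₀⟩ := hY
          have hp₀2 := (hP p₀ hp₀).1.two_le
          exact ((hmem p₀ hp₀2 Y).1 hYp₀).1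
      _ = C := by rw [hC]
  -- contradiction with divergence of sum of reciprocals of primes
  apply not_summable_one_div_on_primes
  have hs1 : Summable (fun n : ℕ => (Set.indicator {p : ℕ | p.Prime ∧ N ≤ p} (fun n : ℕ => (1:ℝ) / n) n)) := by
    apply summable_of_sum_le (c := C)
    · intro n
      apply Set.indicator_nonneg
      intro x _; positivity
    · intro u
      have : ∑ x ∈ u, Set.indicator {p : ℕ | p.Prime ∧ N ≤ p} (fun n : ℕ => (1:ℝ) / n) x =
          ∑ x ∈ u.filter (fun p => p.Prime ∧ N ≤ p), (1:ℝ) / x := by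
        rw [Finset.sum_filter]
        apply Finset.sum_congr rfl
        intro x _
        rw [Set.indicator_apply]
        rfl
      rw [this]
      apply hbound
      intro p hp
      rw [Finset.mem_filter] at hp
      exact hp.2
  have hs2 := (summable_nat_add_iff N).2 hs1
  apply (summable_nat_add_iff N).1
  apply hs2.congr
  intro n
  rw [Set.indicator_apply, Set.indicator_apply]
  by_cases hn : (n + N).Prime
  · rw [if_pos (show n + N ∈ {p : ℕ | p.Prime ∧ N ≤ p} from ⟨hn, by omega⟩), if_pos (show n + N ∈ {p : ℕ | p.Prime} from hn)]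
  · rw [if_neg (fun hh : n + N ∈ {p : ℕ | p.Prime ∧ N ≤ p} => hn hh.1),
      if_neg (fun hh : n + N ∈ {p : ℕ | p.Prime} => hn hh)]

end Pool.H24.PN
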