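import Pool.Agent.H24.PN3
set_option autoImplicit false
namespace Pool.H24.PN

theorem sol_inj {p : ℕ} (hp : p.Prime) : ∃ φ : Multiset ℕ → Multiset ℕ, (∀ s ∈ Sol p, φ s ∈ T p) ∧ Set.InjOn φ (Sol p) := by
  classical
  have hex : ∀ s : Multiset ℕ, s ∈ Sol p → ∃ x, x ∈ s ∧ p ∣ x := by
    intro s hs
    obtain ⟨h1, h2, h3⟩ := hs
    have : p ∣ s.prod := ⟨s.sum, h3⟩
    obtain ⟨a, ha, hpa⟩ := (Nat.Prime.prime hp).exists_mem_multiset_dvd this
    exact ⟨a, ha, hpa⟩
  choose! x hx hpx using hex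
  have key : ∀ s ∈ Sol p, ∃ m : ℕ, x s = p * m ∧
      m * ((s.erase (x s)).filter (fun x => 2 ≤ x)).prod = p * m + (p - 1 + sg ((s.erase (x s)).filter (fun x => 2 ≤ x))) := by
    intro s hs
    obtain ⟨m, hm⟩ := hpx s hs
    refine ⟨m, hm, ?_⟩
    have hs' := hs
    obtain ⟨h1, h2, h3⟩ := hs'
    have hc := Multiset.cons_erase (hx s hs)
    have hZ : ∀ y ∈ s.erase (x s), 0 < y := fun y hy => h2 y (Multiset.mem_of_mem_erase hy)
    have hcard : (s.erase (x s)).card = p - 1 := by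
      rw [Multiset.card_erase_of_mem (hx s hs), h1]; rfl
    have e1 : s.prod = x s * (s.erase (x s)).prod := by
      conv_lhs => rw [← hc]
      rw [Multiset.prod_cons]
    have e2 : s.sum = x s + (s.erase (x s)).sum := by
      conv_lhs => rw [← hc]
      rw [Multiset.sum_cons]
    rw [e1, e2, sum_eq _ hZ, hcard, prod_eq _ hZ] at h3
    generalize Multiset.filter (fun x => 2 ≤ x) (s.erase (x s)) = F at h3 ⊢
    rw [hm, mul_assoc] at h3
    exact Nat.eq_of_mul_eq_mul_left hp.pos h3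
  refine ⟨fun s => (s.erase (x s)).filter (fun x => 2 ≤ x), ?_, ?_⟩
  · intro s hs
    obtain ⟨m, hm1, hm2⟩ := key s hs
    refine ⟨?_, m, hm2⟩
    intro y hy
    rw [Multiset.mem_filter] at hy
    exact hy.2
  · intro s hs s' hs' heq
    simp only at heq
    obtain ⟨m, hm1, hm2⟩ := key s hs
    obtain ⟨m', hm1', hm2'⟩ := key s' hs'
    have hZ : ∀ y ∈ s.erase (x s), 0 < y := fun y hy => hs.2.1 y (Multiset.mem_of_mem_erase hy)
    have hZ' : ∀ y ∈ s'.erase (x s'), 0 < y := fun y hy => hs'.2.1 y (Multiset.mem_of_mem_erase hy)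
    have hcard : (s.erase (x s)).card = p - 1 := by
      rw [Multiset.card_erase_of_mem (hx s hs), hs.1]; rfl
    have hcard' : (s'.erase (x s')).card = p - 1 := by
      rw [Multiset.card_erase_of_mem (hx s' hs'), hs'.1]; rfl
    have hmm : m = m' := by
      rw [← heq] at hm2'
      set M := ((s.erase (x s)).filter (fun x => 2 ≤ x)).prod
      set g := sg ((s.erase (x s)).filter (fun x => 2 ≤ x))
      have hp2 := hp.two_le
      have hMp : p < M := by
        by_contra hcon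
        push Not at hcon
        have : m * M ≤ m * p := Nat.mul_le_mul_left m hcon
        have h2 : m * p = p * m := Nat.mul_comm _ _
        omega
      obtain ⟨d, hd⟩ : ∃ d, M = p + d := ⟨M - p, by omega⟩
      have hd0 : 0 < d := by omega
      rw [hd, Nat.mul_add, Nat.mul_comm m p] at hm2
      rw [hd, Nat.mul_add, Nat.mul_comm m' p] at hm2'
      have : m * d = m' * d := by omega
      exact Nat.eq_of_mul_eq_mul_right hd0 this
    have hxx : x s = x s' := by rw [hm1, hm1', hmm]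
    have hee : s.erase (x s) = s'.erase (x s') := by
      rw [split_ones _ hZ, split_ones _ hZ', heq, hcard, hcard']
    rw [← Multiset.cons_erase (hx s hs), ← Multiset.cons_erase (hx s' hs'), hee, hxx]


theorem sol_finite {p : ℕ} (hp : p.Prime) : (Sol p).Finite := by
  obtain ⟨φ, h1, h2⟩ := sol_inj hp
  exact Set.Finite.of_injOn (fun s hs => h1 s hs) h2 (T_finite hp.two_le)

/-- ordered tuples -/
def Tup (n : ℕ) : Set (Fin n → ℕ) :=
  {x : Fin n → ℕ | Monotone x ∧ (∀ i, 0 < x i) ∧ (∏ i, x i) = n * ∑ i, x i}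

theorem tup_ncard_le {p : ℕ} (hp : p.Prime) : (Tup p).ncard ≤ (Sol p).ncard := by
  refine Set.ncard_le_ncard_of_injOn (fun x => (↑(List.ofFn x) : Multiset ℕ)) ?_ ?_ (sol_finite hp)
  · intro x hx
    obtain ⟨h1, h2, h3⟩ := hx
    refine ⟨by simp, ?_, ?_⟩
    · intro y hy
      rw [Multiset.mem_coe, List.mem_ofFn] at hy
      obtain ⟨i, rfl⟩ := hy
      exact h2 i
    · rw [Multiset.prod_coe, Multiset.sum_coe, List.prod_ofFn, List.sum_ofFn]
      exact h3
  · intro x hx y hy hxy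
    simp only [Multiset.coe_eq_coe] at hxy
    have hxs : (List.ofFn x).Pairwise (· ≤ ·) := by
      rw [List.pairwise_ofFn]
      intro i j hij
      exact hx.1 hij.le
    have hys : (List.ofFn y).Pairwise (· ≤ ·) := by
      rw [List.pairwise_ofFn]
      intro i j hij
      exact hy.1 hij.le
    have := List.Perm.eq_of_pairwise (le := (· ≤ ·)) (fun a b _ _ h1 h2 => le_antisymm h1 h2) hxs hys hxy
    exact List.ofFn_injective this

theorem main' (ε : ℝ) (hε : 0 < ε) (N : ℕ)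
    (h : ∀ n : ℕ, n.Prime → N ≤ n → (n : ℝ) ^ ε < (((Sol n).ncard : ℕ) : ℝ)) : False := by
  classical
  obtain ⟨C₁, hC₁, hdiv⟩ := divisor_bound (ε / 2) (by linarith)
  obtain ⟨C₂, hC₂, hsum⟩ := sum_bound (1 + ε / 2) (by linarith)
  -- the constant
  set C : ℝ := (4:ℝ) ^ (1 + ε) * C₁ * (2:ℝ) ^ (ε/2) * C₂ with hC
  have hbound : ∀ P : Finset ℕ, (∀ p ∈ P, p.Prime ∧ N ≤ p) → ∑ p ∈ P, (1 / (p:ℝ)) ≤ C := by
    intro P hP
    set 𝒯 : ℕ → Finset (Multiset ℕ) := fun p => if hp : 2 ≤ p then (T_finite hp).toFinset else ∅ with h𝒯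
    have hmem : ∀ p, 2 ≤ p → ∀ Y, Y ∈ 𝒯 p ↔ Y ∈ T p := by
      intro p hp Y
      simp only [h𝒯, dif_pos hp, Set.Finite.mem_toFinset]
    set 𝒰 : Finset (Multiset ℕ) := P.biUnion 𝒯 with h𝒰
    have h1 : ∀ p ∈ P, (1 / (p:ℝ)) ≤ ∑ Y ∈ 𝒰, if Y ∈ 𝒯 p then ((p:ℝ) ^ (-(1 + ε))) else 0 := by
      intro p hp
      obtain ⟨hpp, hpN⟩ := hP p hp
      have hp0 : (0:ℝ) < p := by exact_mod_cast hpp.pos
      have h2 := h p hpp hpN
      have h3 : (((Sol p).ncard : ℕ) : ℝ) ≤ ((𝒯 p).card : ℝ) := by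
        have := sol_ncard_le hpp
        rw [Set.ncard_eq_toFinset_card _ (T_finite hpp.two_le)] at this
        simp only [h𝒯, dif_pos hpp.two_le]
        exact_mod_cast this
      have h4 : ∑ Y ∈ 𝒰, (if Y ∈ 𝒯 p then ((p:ℝ) ^ (-(1 + ε))) else 0) = ((𝒯 p).card : ℝ) * (p:ℝ) ^ (-(1+ε)) := by
        rw [← Finset.sum_filter, Finset.sum_const, nsmul_eq_mul]
        congr 2
        congr 1
        ext Y
        simp only [Finset.mem_filter, h𝒰, Finset.mem_biUnion]
        constructor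
        · rintro ⟨_, h⟩; exact h
        · intro h; exact ⟨⟨p, hp, h⟩, h⟩
      rw [h4]
      have h5 : (1 / (p:ℝ)) = (p:ℝ) ^ ε * (p:ℝ) ^ (-(1+ε)) := by
        rw [← Real.rpow_add hp0]
        have : ε + -(1 + ε) = -1 := by ring
        rw [this, Real.rpow_neg_one, one_div]
      rw [h5]
      apply mul_le_mul_of_nonneg_right _ (by positivity)
      linarith
    calc ∑ p ∈ P, (1 / (p:ℝ)) ≤ ∑ p ∈ P, ∑ Y ∈ 𝒰, (if Y ∈ 𝒯 p then ((p:ℝ) ^ (-(1 + ε))) else 0) :=
          Finset.sum_le_sum h1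
      _ = ∑ Y ∈ 𝒰, ∑ p ∈ P, (if Y ∈ 𝒯 p then ((p:ℝ) ^ (-(1 + ε))) else 0) := Finset.sum_comm
      _ ≤ ∑ Y ∈ 𝒰, ((4:ℝ) ^ (1 + ε) * C₁ * (2:ℝ) ^ (ε/2)) * ((Y.prod : ℕ) : ℝ) ^ (-(1 + ε/2)) := by
          apply Finset.sum_le_sum
          intro Y hY
          rw [h𝒰, Finset.mem_biUnion] at hY
          obtain ⟨p₀, hp₀, hYp₀⟩ := hY
          have hp₀2 := (hP p₀ hp₀).1.two_le
          have hYT := (hmem p₀ hp₀2 Y).1 hYp₀
          have hYge := hYT.1
          have hM0 : 0 < Y.prod := by have := T_lt hp₀2 hYT; omega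
          have hM0' : (0:ℝ) < Y.prod := by exact_mod_cast hM0
          have h2 : ∀ p ∈ P, (if Y ∈ 𝒯 p then ((p:ℝ) ^ (-(1 + ε))) else 0) ≤
              (if Y ∈ 𝒯 p then ((4:ℝ) ^ (1 + ε) * ((Y.prod : ℕ) : ℝ) ^ (-(1 + ε))) else 0) := by
            intro p hp
            split_ifs with hin
            · have hp2 := (hP p hp).1.two_le
              have hlt := T_lt4 hp2 ((hmem p hp2 Y).1 hin)
              have hp0 : (0:ℝ) < p := by exact_mod_cast (hP p hp).1.pos
              have h5 : ((Y.prod : ℕ) : ℝ) / 4 ≤ p := by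
                have : ((Y.prod : ℕ) : ℝ) < 4 * p := by exact_mod_cast hlt
                linarith
              have h6 : (p:ℝ) ^ (-(1 + ε)) ≤ (((Y.prod : ℕ) : ℝ) / 4) ^ (-(1 + ε)) := by
                apply Real.rpow_le_rpow_of_nonpos (by positivity) h5 (by linarith)
              refine h6.trans (le_of_eq ?_)
              rw [Real.div_rpow hM0'.le (by norm_num), Real.rpow_neg (by norm_num : (0:ℝ) ≤ 4), div_inv_eq_mul, mul_comm]
            · exact le_refl _
          refine (Finset.sum_le_sum h2).trans ?_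
          rw [← Finset.sum_filter, Finset.sum_const, nsmul_eq_mul]
          have h3 : ((P.filter (fun p => Y ∈ 𝒯 p)).card : ℝ) ≤ C₁ * ((2:ℝ) ^ (ε/2) * ((Y.prod : ℕ) : ℝ) ^ (ε/2)) := by
            have h4 : (P.filter (fun p => Y ∈ 𝒯 p)).card ≤ ((Y.prod - 1 + sg Y).divisors).card := by
              apply Finset.card_le_card_of_injOn (fun p => Y.prod - p)
              · intro p hp
                rw [Finset.mem_coe, Finset.mem_filter] at hp
                have hp2 := (hP p hp.1).1.two_le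
                exact T_div hp2 ((hmem p hp2 Y).1 hp.2)
              · intro p hp q hq hpq
                rw [Finset.mem_coe, Finset.mem_filter] at hp hq
                have hp2 := (hP p hp.1).1.two_le
                have hq2 := (hP q hq.1).1.two_le
                have h5 := T_lt hp2 ((hmem p hp2 Y).1 hp.2)
                have h6 := T_lt hq2 ((hmem q hq2 Y).1 hq.2)
                simp only at hpq
                omega
            have hsg := sg_lt Y hYge
            have hM2 : 2 ≤ Y.prod := by have := T_lt hp₀2 hYT; omega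
            have h5 := hdiv (Y.prod - 1 + sg Y) (by omega)
            have h6 : (((Y.prod - 1 + sg Y : ℕ)) : ℝ) ≤ 2 * ((Y.prod : ℕ) : ℝ) := by
              have : Y.prod - 1 + sg Y ≤ 2 * Y.prod := by omega
              exact_mod_cast this
            have h7 : (((Y.prod - 1 + sg Y : ℕ)) : ℝ) ^ (ε/2) ≤ (2:ℝ) ^ (ε/2) * ((Y.prod : ℕ) : ℝ) ^ (ε/2) := by
              rw [← Real.mul_rpow (by norm_num) hM0'.le]
              apply Real.rpow_le_rpow (Nat.cast_nonneg _) h6 (by linarith)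
            calc ((P.filter (fun p => Y ∈ 𝒯 p)).card : ℝ) ≤ (((Y.prod - 1 + sg Y).divisors).card : ℝ) := by
                  exact_mod_cast h4
              _ ≤ C₁ * (((Y.prod - 1 + sg Y : ℕ)) : ℝ) ^ (ε/2) := h5
              _ ≤ _ := mul_le_mul_of_nonneg_left h7 hC₁.le
          have h8 : ((Y.prod : ℕ) : ℝ) ^ (ε/2) * ((Y.prod : ℕ) : ℝ) ^ (-(1 + ε)) = ((Y.prod : ℕ) : ℝ) ^ (-(1 + ε/2)) := by
            rw [← Real.rpow_add hM0']
            congr 1; ring
          calc ((P.filter (fun p => Y ∈ 𝒯 p)).card : ℝ) * ((4:ℝ) ^ (1 + ε) * ((Y.prod : ℕ) : ℝ) ^ (-(1 + ε)))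
              ≤ (C₁ * ((2:ℝ) ^ (ε/2) * ((Y.prod : ℕ) : ℝ) ^ (ε/2))) * ((4:ℝ) ^ (1 + ε) * ((Y.prod : ℕ) : ℝ) ^ (-(1 + ε))) := by
                apply mul_le_mul_of_nonneg_right h3 (by positivity)
            _ = ((4:ℝ) ^ (1 + ε) * C₁ * (2:ℝ) ^ (ε/2)) * (((Y.prod : ℕ) : ℝ) ^ (ε/2) * ((Y.prod : ℕ) : ℝ) ^ (-(1 + ε))) := by ring
            _ = _ := by rw [h8]
      _ = ((4:ℝ) ^ (1 + ε) * C₁ * (2:ℝ) ^ (ε/2)) * ∑ Y ∈ 𝒰, ((Y.prod : ℕ) : ℝ) ^ (-(1 + ε/2)) := by
          rw [Finset.mul_sum]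
      _ ≤ ((4:ℝ) ^ (1 + ε) * C₁ * (2:ℝ) ^ (ε/2)) * C₂ := by
          apply mul_le_mul_of_nonneg_left _ (by positivity)
          apply hsum
          intro Y hY
          rw [h𝒰, Finset.mem_biUnion] at hY
          obtain ⟨p₀, hp₀, hYp₀⟩ := hY
          have hp₀2 := (hP p₀ hp₀).1.two_le
          exact ((hmem p₀ hp₀2 Y).1 hYp₀).1
      _ = C := by rw [hC]
  -- contradiction with divergence of sum of reciprocals of primes
  apply not_summable_one_div_on_primes
  have hs1 : Summable (fun n : ℕ => (Set.indicator {p : ℕ | p.Prime ∧ N ≤ p} (fun n : ℕ => (1:ℝ) / n) n)) := by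
    apply summable_of_sum_le (c := C)
    · intro n
      apply Set.indicator_nonneg
      intro x _; positivity
    · intro u
      have : ∑ x ∈ u, Set.indicator {p : ℕ | p.Prime ∧ N ≤ p} (fun n : ℕ => (1:ℝ) / n) x =
          ∑ x ∈ u.filter (fun p => p.Prime ∧ N ≤ p), (1:ℝ) / x := by
        rw [Finset.sum_filter]
        apply Finset.sum_congr rfl
        intro x _
        rw [Set.indicator_apply]
        rfl
      rw [this]
      apply hbound
      intro p hp
      rw [Finset.mem_filter] at hp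
      exact hp.2
  have hs2 := (summable_nat_add_iff N).2 hs1
  apply (summable_nat_add_iff N).1
  apply hs2.congr
  intro n
  rw [Set.indicator_apply, Set.indicator_apply]
  by_cases hn : (n + N).Prime
  · rw [if_pos (show n + N ∈ {p : ℕ | p.Prime ∧ N ≤ p} from ⟨hn, by omega⟩), if_pos (show n + N ∈ {p : ℕ | p.Prime} from hn)]
  · rw [if_neg (fun hh : n + N ∈ {p : ℕ | p.Prime ∧ N ≤ p} => hn hh.1),
      if_neg (fun hh : n + N ∈ {p : ℕ | p.Prime} => hn hh)]


end Pool.H24.PN
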