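import Mathlib

set_option autoImplicit false

namespace Pool.Agent.H24.PS

open Finset

/-- exponential counting bound -/
lemma card_exp_bound {m q : ℕ} (φ : Fin m → Fin q → ℝ) (A : ℝ) (s : Finset (Fin m → Fin q))
    (hs : ∀ g ∈ s, A ≤ ∑ i, φ i (g i)) :
    (s.card : ℝ) ≤ Real.exp (-A) * ∏ i, ∑ x, Real.exp (φ i x) := by
  have h1 : ∏ i, ∑ x, Real.exp (φ i x) = ∑ g : Fin m → Fin q, Real.exp (∑ i, φ i (g i)) := by
    rw [Finset.prod_univ_sum]
    simp only [Fintype.piFinset_univ]
    apply Finset.sum_congr rfl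
    intro g _
    rw [Real.exp_sum]
  rw [h1]
  have h2 : (s.card : ℝ) * Real.exp A ≤ ∑ g : Fin m → Fin q, Real.exp (∑ i, φ i (g i)) := by
    calc (s.card : ℝ) * Real.exp A = ∑ g ∈ s, Real.exp A := by simp
      _ ≤ ∑ g ∈ s, Real.exp (∑ i, φ i (g i)) :=
          Finset.sum_le_sum (fun g hg => Real.exp_le_exp.mpr (hs g hg))
      _ ≤ _ := Finset.sum_le_sum_of_subset_of_nonneg (Finset.subset_univ _)
          (fun _ _ _ => (Real.exp_pos _).le)
  rw [Real.exp_neg, ← div_eq_inv_mul, le_div_iff₀ (Real.exp_pos A)]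
  exact h2

lemma nbr_card {m q : ℕ} (f : Fin m → Fin q) (D lam : ℝ) (hl : 0 ≤ lam)
    (s : Finset (Fin m → Fin q))
    (hs : ∀ g ∈ s, ∑ i, (((f i : ℕ) : ℝ) - ((g i : ℕ) : ℝ)) ^ 2 ≤ D) :
    (s.card : ℝ) ≤ Real.exp (lam * D) * (1 + q * Real.exp (-lam)) ^ m := by
  have h := card_exp_bound (fun i x => -lam * (((f i : ℕ) : ℝ) - ((x : ℕ) : ℝ)) ^ 2) (-(lam * D)) s
    (by
      intro g hg
      have := hs g hg
      rw [← Finset.mul_sum]
      nlinarith)
  refine h.trans ?_
  rw [neg_neg]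
  apply mul_le_mul_of_nonneg_left _ (Real.exp_pos _).le
  calc ∏ i, ∑ x : Fin q, Real.exp (-lam * (((f i : ℕ) : ℝ) - ((x : ℕ) : ℝ)) ^ 2)
      ≤ ∏ _i : Fin m, (1 + q * Real.exp (-lam)) := by
        apply Finset.prod_le_prod
        · intro i _
          exact Finset.sum_nonneg (fun _ _ => (Real.exp_pos _).le)
        · intro i _
          calc ∑ x : Fin q, Real.exp (-lam * (((f i : ℕ) : ℝ) - ((x : ℕ) : ℝ)) ^ 2)
              ≤ ∑ x : Fin q, ((if x = f i then (1 : ℝ) else 0) + Real.exp (-lam)) := by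
                apply Finset.sum_le_sum
                intro x _
                by_cases hx : x = f i
                · subst hx
                  simp [(Real.exp_pos _).le]
                · rw [if_neg hx, zero_add]
                  apply Real.exp_le_exp.mpr
                  have h3 : (1 : ℝ) ≤ (((f i : ℕ) : ℝ) - ((x : ℕ) : ℝ)) ^ 2 := by
                    have h4 : ((f i : ℕ) : ℤ) - ((x : ℕ) : ℤ) ≠ 0 := by
                      intro h5
                      apply hx
                      apply Fin.ext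
                      omega
                    have h6 : (1 : ℤ) ≤ (((f i : ℕ) : ℤ) - ((x : ℕ) : ℤ)) ^ 2 := by
                      have := sq_pos_of_ne_zero h4
                      omega
                    exact_mod_cast h6
                  nlinarith
            _ = 1 + q * Real.exp (-lam) := by
                rw [Finset.sum_add_distrib]
                simp
    _ = (1 + q * Real.exp (-lam)) ^ m := by simp

/-- mean of the squares of the digits -/
noncomputable def mu (q : ℕ) : ℝ := (∑ x : Fin q, ((x : ℕ) : ℝ) ^ 2) / q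

lemma mu_nonneg (q : ℕ) : 0 ≤ mu q := by
  unfold mu
  positivity

lemma mu_le (q : ℕ) (hq : 0 < q) : mu q ≤ (q : ℝ) ^ 2 := by
  unfold mu
  rw [div_le_iff₀ (by exact_mod_cast hq)]
  calc ∑ x : Fin q, ((x : ℕ) : ℝ) ^ 2 ≤ ∑ _x : Fin q, (q : ℝ) ^ 2 := by
        apply Finset.sum_le_sum
        intro x _
        have : ((x : ℕ) : ℝ) ≤ q := by exact_mod_cast x.2.le
        have h0 : (0 : ℝ) ≤ ((x : ℕ) : ℝ) := by positivity
        nlinarith
    _ = (q : ℝ) ^ 2 * q := by simp [mul_comm]

lemma exp_le_quad {y : ℝ} (h : |y| ≤ 1) : Real.exp y ≤ 1 + y + y ^ 2 := by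
  have := Real.abs_exp_sub_one_sub_id_le h
  have h2 := (abs_le.mp this).2
  linarith

lemma tail_card {m q : ℕ} (hq : 0 < q) (θ A : ℝ) (hθ : |θ| * (q : ℝ) ^ 2 ≤ 1)
    (s : Finset (Fin m → Fin q))
    (hs : ∀ g ∈ s, A ≤ θ * ∑ i, (((g i : ℕ) : ℝ) ^ 2 - mu q)) :
    (s.card : ℝ) ≤ (q : ℝ) ^ m * Real.exp (m * (θ ^ 2 * (q : ℝ) ^ 4) - A) := by
  have h := card_exp_bound (fun (_ : Fin m) x => θ * (((x : Fin q) : ℕ) : ℝ) ^ 2 - θ * mu q) A s
    (by
      intro g hg
      have := hs g hg
      rw [Finset.mul_sum] at this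
      refine this.trans (le_of_eq ?_)
      apply Finset.sum_congr rfl
      intro i _
      ring)
  refine h.trans ?_
  have hq0 : (0 : ℝ) < q := by exact_mod_cast hq
  have h1 : ∑ x : Fin q, Real.exp (θ * ((x : ℕ) : ℝ) ^ 2 - θ * mu q)
      ≤ q * Real.exp (θ ^ 2 * (q : ℝ) ^ 4) := by
    have hb : ∀ x : Fin q, |((x : ℕ) : ℝ) ^ 2 - mu q| ≤ (q : ℝ) ^ 2 := by
      intro x
      have h2 : ((x : ℕ) : ℝ) ≤ q := by exact_mod_cast x.2.le
      have h0 : (0 : ℝ) ≤ ((x : ℕ) : ℝ) := by positivity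
      have h3 := mu_nonneg q
      have h4 := mu_le q hq
      rw [abs_le]
      constructor <;> nlinarith
    calc ∑ x : Fin q, Real.exp (θ * ((x : ℕ) : ℝ) ^ 2 - θ * mu q)
        ≤ ∑ x : Fin q, (1 + θ * (((x : ℕ) : ℝ) ^ 2 - mu q) + θ ^ 2 * (q : ℝ) ^ 4) := by
          apply Finset.sum_le_sum
          intro x _
          have hx := hb x
          have h5 : |θ * (((x : ℕ) : ℝ) ^ 2 - mu q)| ≤ 1 := by
            rw [abs_mul]
            exact (mul_le_mul_of_nonneg_left hx (abs_nonneg θ)).trans hθ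
          have h6 := exp_le_quad h5
          have h7 : (θ * (((x : ℕ) : ℝ) ^ 2 - mu q)) ^ 2 ≤ θ ^ 2 * (q : ℝ) ^ 4 := by
            rw [mul_pow]
            apply mul_le_mul_of_nonneg_left _ (sq_nonneg θ)
            have := sq_le_sq' (by have := abs_le.mp hx; linarith [this.1]) (abs_le.mp hx).2
            calc (((x : ℕ) : ℝ) ^ 2 - mu q) ^ 2 ≤ ((q : ℝ) ^ 2) ^ 2 := this
              _ = (q : ℝ) ^ 4 := by ring
          have h8 : θ * ((x : ℕ) : ℝ) ^ 2 - θ * mu q = θ * (((x : ℕ) : ℝ) ^ 2 - mu q) := by ring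
          rw [h8]
          linarith
      _ = q * (1 + θ ^ 2 * (q : ℝ) ^ 4) := by
          rw [Finset.sum_add_distrib, Finset.sum_add_distrib, ← Finset.mul_sum,
            Finset.sum_sub_distrib]
          have : ∑ x : Fin q, ((x : ℕ) : ℝ) ^ 2 = q * mu q := by
            unfold mu
            field_simp
          rw [this]
          simp
          ring
      _ ≤ _ := by
          apply mul_le_mul_of_nonneg_left _ hq0.le
          have := Real.add_one_le_exp (θ ^ 2 * (q : ℝ) ^ 4)
          linarith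
  calc Real.exp (-A) * ∏ _i : Fin m, ∑ x : Fin q, Real.exp (θ * ((x : ℕ) : ℝ) ^ 2 - θ * mu q)
      ≤ Real.exp (-A) * (q * Real.exp (θ ^ 2 * (q : ℝ) ^ 4)) ^ m := by
        apply mul_le_mul_of_nonneg_left _ (Real.exp_pos _).le
        rw [Finset.prod_const, Finset.card_univ, Fintype.card_fin]
        exact pow_le_pow_left₀ (Finset.sum_nonneg (fun _ _ => (Real.exp_pos _).le)) h1 m
    _ = _ := by
        rw [mul_pow, ← Real.exp_nat_mul, sub_eq_add_neg, Real.exp_add]
        ring

lemma upper_tail {m q : ℕ} (hq : 0 < q) (δ : ℝ) (h0 : 0 < δ) (h1 : δ ≤ 1)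
    (s : Finset (Fin m → Fin q))
    (hs : ∀ g ∈ s, mu q * m + δ * m ≤ ∑ i, ((g i : ℕ) : ℝ) ^ 2) :
    (s.card : ℝ) ≤ (q : ℝ) ^ m * Real.exp (-(δ ^ 2 / (4 * (q : ℝ) ^ 4) * m)) := by
  have hq1 : (1 : ℝ) ≤ q := by exact_mod_cast hq
  have hq4 : (0 : ℝ) < (q : ℝ) ^ 4 := by positivity
  set lam : ℝ := δ / (2 * (q : ℝ) ^ 4) with hlam
  have hl0 : 0 < lam := by positivity
  have h := tail_card (m := m) hq lam (lam * (δ * m))
    (by
      rw [abs_of_pos hl0, hlam]
      rw [div_mul_eq_mul_div, div_le_one (by positivity)]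
      have : (q : ℝ) ^ 2 ≤ (q : ℝ) ^ 4 := pow_le_pow_right₀ hq1 (by norm_num)
      nlinarith [sq_nonneg (q : ℝ)]) s
    (by
      intro g hg
      have := hs g hg
      apply mul_le_mul_of_nonneg_left _ hl0.le
      rw [Finset.sum_sub_distrib]
      simp only [Finset.sum_const, Finset.card_univ, Fintype.card_fin, nsmul_eq_mul]
      linarith)
  refine h.trans (le_of_eq ?_)
  congr 2
  rw [hlam]
  field_simp
  ring

lemma lower_tail {m q : ℕ} (hq : 0 < q) (δ : ℝ) (h0 : 0 < δ) (h1 : δ ≤ 1)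
    (s : Finset (Fin m → Fin q))
    (hs : ∀ g ∈ s, ∑ i, ((g i : ℕ) : ℝ) ^ 2 ≤ mu q * m - δ * m) :
    (s.card : ℝ) ≤ (q : ℝ) ^ m * Real.exp (-(δ ^ 2 / (4 * (q : ℝ) ^ 4) * m)) := by
  have hq1 : (1 : ℝ) ≤ q := by exact_mod_cast hq
  have hq4 : (0 : ℝ) < (q : ℝ) ^ 4 := by positivity
  set lam : ℝ := δ / (2 * (q : ℝ) ^ 4) with hlam
  have hl0 : 0 < lam := by positivity
  have h := tail_card (m := m) hq (-lam) (lam * (δ * m))
    (by
      rw [abs_neg, abs_of_pos hl0, hlam]
      rw [div_mul_eq_mul_div, div_le_one (by positivity)]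
      have : (q : ℝ) ^ 2 ≤ (q : ℝ) ^ 4 := pow_le_pow_right₀ hq1 (by norm_num)
      nlinarith [sq_nonneg (q : ℝ)]) s
    (by
      intro g hg
      have := hs g hg
      rw [neg_mul, ← mul_neg]
      apply mul_le_mul_of_nonneg_left _ hl0.le
      rw [Finset.sum_sub_distrib]
      simp only [Finset.sum_const, Finset.card_univ, Fintype.card_fin, nsmul_eq_mul]
      linarith)
  refine h.trans (le_of_eq ?_)
  congr 2
  rw [hlam]
  field_simp
  ring

lemma exists_coloring {V : Type*} [Fintype V] [DecidableEq V] (R : V → V → Prop)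
    [DecidableRel R] (hsym : ∀ u v, R u v → R v u) (K : ℕ)
    (h : ∀ v, (Finset.univ.filter (fun u => R v u)).card < K) :
    ∀ s : Finset V, ∃ χ : V → Fin K, ∀ u ∈ s, ∀ v ∈ s, u ≠ v → R u v → χ u ≠ χ v := by
  intro s
  induction s using Finset.induction_on with
  | empty =>
    by_cases hV : Nonempty V
    · obtain ⟨v⟩ := hV
      have hK : 0 < K := (Nat.zero_le _).trans_lt (h v)
      exact ⟨fun _ => ⟨0, hK⟩, by simp⟩
    · rw [not_nonempty_iff] at hV
      exact ⟨fun v => hV.elim v, by simp⟩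
  | insert a s ha ih =>
    obtain ⟨χ, hχ⟩ := ih
    have h1 : ((Finset.univ.filter (fun u => R a u)).image χ).card < K :=
      Finset.card_image_le.trans_lt (h a)
    obtain ⟨k, hk⟩ : ∃ k : Fin K, k ∉ (Finset.univ.filter (fun u => R a u)).image χ := by
      by_contra hcon
      push Not at hcon
      have : (Finset.univ : Finset (Fin K)) ⊆ (Finset.univ.filter (fun u => R a u)).image χ :=
        fun x _ => hcon x
      have := Finset.card_le_card this
      simp only [Finset.card_univ, Fintype.card_fin] at this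
      omega
    have hk' : ∀ u, R a u → χ u ≠ k := by
      intro u hu hc
      exact hk (Finset.mem_image.mpr ⟨u, by simp [hu], hc⟩)
    refine ⟨Function.update χ a k, ?_⟩
    intro u hu v hv huv hR
    rcases Finset.mem_insert.mp hu with rfl | hu'
    · have hv' : v ≠ u := fun hc => huv hc.symm
      rw [Function.update_self, Function.update_of_ne hv']
      exact (hk' v hR).symm
    · by_cases hua : u = a
      · exact absurd (hua ▸ hu') ha
      · rw [Function.update_of_ne hua]
        by_cases hva : v = a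
        · subst hva
          rw [Function.update_self]
          exact hk' u (hsym _ _ hR)
        · rw [Function.update_of_ne hva]
          have hv' : v ∈ s := by
            rcases Finset.mem_insert.mp hv with h | h
            · exact absurd h hva
            · exact h
          exact hχ u hu' v hv' huv hR

end Pool.Agent.H24.PS
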