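import Mathlib

set_option autoImplicit false

namespace Pool.Agent.H24.PS

open Finset

/-- the `i`-th base-`q` digit -/
def dg (q i x : ℕ) : ℕ := x / q ^ i % q

lemma dg_inj (q : ℕ) (hq : 0 < q) : ∀ (m x y : ℕ), x < q ^ m → y < q ^ m →
    (∀ i < m, dg q i x = dg q i y) → x = y := by
  intro m
  induction m with
  | zero =>
    intro x y hx hy _
    simp at hx hy
    omega
  | succ m ih =>
    intro x y hx hy h
    have h0 : x % q = y % q := by
      have := h 0 (Nat.succ_pos m)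
      simpa [dg] using this
    have h1 : x / q = y / q := by
      apply ih
      · rw [Nat.div_lt_iff_lt_mul hq]
        rwa [pow_succ] at hx
      · rw [Nat.div_lt_iff_lt_mul hq]
        rwa [pow_succ] at hy
      · intro i hi
        have := h (i + 1) (by omega)
        simp only [dg] at this ⊢
        rw [pow_succ', ← Nat.div_div_eq_div_mul, ← Nat.div_div_eq_div_mul] at this
        exact this
    rw [← Nat.div_add_mod x q, ← Nat.div_add_mod y q, h0, h1]

lemma dg_eq (q i x : ℕ) : (dg q i x : ℤ) = (x / q ^ i : ℕ) - q * (x / q ^ (i + 1) : ℕ) := by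
  unfold dg
  have h1 : x / q ^ (i + 1) = x / q ^ i / q := by
    rw [pow_succ, Nat.div_div_eq_div_mul]
  rw [h1]
  have h2 := Nat.div_add_mod (x / q ^ i) q
  have h3 : ((q * (x / q ^ i / q) + x / q ^ i % q : ℕ) : ℤ) = (x / q ^ i : ℕ) := by
    exact_mod_cast h2
  push_cast at h3 ⊢
  linarith

/-- if the carries of the doublings of `v` and `w` agree then floors are averaged -/
lemma floor_avg {q h : ℕ} (hq : q = 2 * h) (hh : 0 < h) (v w i : ℕ)
    (hc : (2 * v) / q ^ (i + 1) % 2 = (2 * w) / q ^ (i + 1) % 2) :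
    2 * ((v + w) / q ^ (i + 1)) = (2 * v) / q ^ (i + 1) + (2 * w) / q ^ (i + 1) := by
  have hQ : q ^ (i + 1) = 2 * (h * q ^ i) := by
    rw [pow_succ]
    nth_rewrite 2 [hq]
    ring
  have hP : 0 < h * q ^ i := by
    have : 0 < q := by omega
    positivity
  rw [hQ] at hc ⊢
  rw [Nat.mul_div_mul_left _ _ (by norm_num : 0 < 2), Nat.mul_div_mul_left _ _ (by norm_num : 0 < 2)]
    at hc ⊢
  set P := h * q ^ i with hPdef
  have e1 := Nat.div_add_mod v P
  have e2 := Nat.div_add_mod w P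
  have l1 := Nat.mod_lt v hP
  have l2 := Nat.mod_lt w hP
  obtain ⟨b, hb⟩ : ∃ b, v / P + w / P = 2 * b := ⟨(v / P + w / P) / 2, by omega⟩
  have e3 : (v + w) / (2 * P) = b := by
    apply Nat.div_eq_of_lt_le
    · calc b * (2 * P) = P * (2 * b) := by ring
        _ = P * (v / P) + P * (w / P) := by rw [← hb]; ring
        _ ≤ v + w := by omega
    · have e4 : (b + 1) * (2 * P) = P * (2 * b) + 2 * P := by ring
      rw [e4, ← hb, Nat.mul_add]
      omega
  rw [e3]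
  omega

lemma dg_avg {q h : ℕ} (hq : q = 2 * h) (hh : 0 < h) (v w m : ℕ)
    (hc : ∀ i < m, (2 * v) / q ^ (i + 1) % 2 = (2 * w) / q ^ (i + 1) % 2) (i : ℕ) (hi : i < m) :
    2 * (dg q i (v + w) : ℤ) = dg q i (2 * v) + dg q i (2 * w) := by
  have h1 : 2 * ((v + w) / q ^ (i + 1)) = (2 * v) / q ^ (i + 1) + (2 * w) / q ^ (i + 1) :=
    floor_avg hq hh v w i (hc i hi)
  have h2 : 2 * ((v + w) / q ^ i) = (2 * v) / q ^ i + (2 * w) / q ^ i := by
    rcases Nat.eq_zero_or_pos i with h0 | h0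
    · subst h0
      simp
      ring
    · obtain ⟨j, rfl⟩ : ∃ j, i = j + 1 := ⟨i - 1, by omega⟩
      exact floor_avg hq hh v w j (hc j (by omega))
  rw [dg_eq, dg_eq, dg_eq]
  have h1' : (2 : ℤ) * ((v + w) / q ^ (i + 1) : ℕ) = ((2 * v) / q ^ (i + 1) : ℕ)
      + ((2 * w) / q ^ (i + 1) : ℕ) := by exact_mod_cast h1
  have h2' : (2 : ℤ) * ((v + w) / q ^ i : ℕ) = ((2 * v) / q ^ i : ℕ)
      + ((2 * w) / q ^ i : ℕ) := by exact_mod_cast h2
  linear_combination h2' - (q : ℤ) * h1'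

/-- digit vector -/
def dv (q : ℕ) (hq : 0 < q) (m x : ℕ) : Fin m → Fin q := fun i => ⟨dg q i x, Nat.mod_lt _ hq⟩

/-- energy of a digit vector -/
noncomputable def en {q m : ℕ} (f : Fin m → Fin q) : ℝ := ∑ i, ((f i : ℕ) : ℝ) ^ 2

lemma dv_inj {q : ℕ} (hq : 0 < q) (m x y : ℕ) (hx : x < q ^ m) (hy : y < q ^ m)
    (h : dv q hq m x = dv q hq m y) : x = y := by
  apply dg_inj q hq m x y hx hy
  intro i hi
  have := congrFun h ⟨i, hi⟩
  exact congrArg Fin.val this

lemma en_avg {q h : ℕ} (hq : q = 2 * h) (hh : 0 < h) (hq0 : 0 < q) (v w m : ℕ)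
    (hc : ∀ i < m, (2 * v) / q ^ (i + 1) % 2 = (2 * w) / q ^ (i + 1) % 2) :
    4 * en (dv q hq0 m (v + w)) = 2 * en (dv q hq0 m (2 * v)) + 2 * en (dv q hq0 m (2 * w))
      - ∑ i, (((dv q hq0 m (2 * v) i : ℕ) : ℝ) - ((dv q hq0 m (2 * w) i : ℕ) : ℝ)) ^ 2 := by
  unfold en
  rw [Finset.mul_sum, Finset.mul_sum, Finset.mul_sum, ← Finset.sum_add_distrib,
    ← Finset.sum_sub_distrib]
  apply Finset.sum_congr rfl
  intro i _
  have h1 := dg_avg hq hh v w m hc i i.2
  have h2 : 2 * ((dg q i (v + w) : ℕ) : ℝ) = (dg q i (2 * v) : ℕ) + (dg q i (2 * w) : ℕ) := by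
    exact_mod_cast h1
  simp only [dv]
  have h3 : ((dg q i (v + w) : ℕ) : ℝ) = ((dg q i (2 * v) : ℕ) + (dg q i (2 * w) : ℕ)) / 2 := by
    linarith
  rw [h3]
  ring

end Pool.Agent.H24.PS
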