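import Mathlib
import Pool.Agent.H24.PS1
import Pool.Agent.H24.PS2

set_option autoImplicit false

namespace Pool.Agent.H24.PS

open Finset
open Classical in
lemma shift_exists (Bad : ℕ → Prop) (N U B : ℕ) (hN : N ≤ U) (hU : 0 < U)
    (hB : ((range (2 * U)).filter Bad).card ≤ B) (L : Finset ℕ) (hL : ∀ a ∈ L, a ≤ N) :
    ∃ u < U, (L.filter (fun a => Bad (a + u))).card * U ≤ L.card * B := by
  by_contra hcon
  push Not at hcon
  have h1 : ∑ u ∈ range U, (L.card * B) < ∑ u ∈ range U, (L.filter (fun a => Bad (a + u))).card * U := by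
    apply Finset.sum_lt_sum_of_nonempty ⟨0, by simpa using hU⟩
    intro u hu
    exact hcon u (by simpa using hu)
  have h2 : ∑ u ∈ range U, (L.filter (fun a => Bad (a + u))).card ≤ L.card * B := by
    have h3 : ∑ u ∈ range U, (L.filter (fun a => Bad (a + u))).card
        = ∑ a ∈ L, ((range U).filter (fun u => Bad (a + u))).card := by
      simp_rw [Finset.card_filter]
      exact Finset.sum_comm
    rw [h3]
    calc ∑ a ∈ L, ((range U).filter (fun u => Bad (a + u))).card ≤ ∑ _a ∈ L, B := by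
          apply Finset.sum_le_sum
          intro a ha
          refine le_trans ?_ hB
          apply Finset.card_le_card_of_injOn (fun u => a + u)
          · intro u hu
            simp only [Finset.coe_filter, Finset.mem_range, Set.mem_ofPred_eq] at hu ⊢
            have := hL a ha
            exact ⟨by omega, hu.2⟩
          · intro x _ y _ hxy
            simpa using hxy
      _ = L.card * B := by simp
  rw [Finset.sum_const, Finset.card_range, smul_eq_mul, ← Finset.sum_mul] at h1
  have h4 := Nat.mul_le_mul_right U h2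
  have h5 : U * (L.card * B) = L.card * B * U := by ring
  omega

open Classical in
lemma shifts (Bad : ℕ → Prop) (N U B : ℕ) (hN : N ≤ U) (hU : 0 < U)
    (hB : ((range (2 * U)).filter Bad).card ≤ B) (J : ℕ) :
    ∃ us : ℕ → ℕ, (∀ j, us j < U) ∧
      ((Icc 1 N).filter (fun a => ∀ j < J, Bad (a + us j))).card * U ^ J ≤ N * B ^ J := by
  induction J with
  | zero =>
    refine ⟨fun _ => 0, fun _ => hU, ?_⟩
    simp
  | succ J ih =>
    obtain ⟨us, hus, hc⟩ := ih
    set L' := (Icc 1 N).filter (fun a => ∀ j < J, Bad (a + us j)) with hL'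
    obtain ⟨u, hu, hcu⟩ := shift_exists Bad N U B hN hU hB L' (by
      intro a ha
      simp only [hL', Finset.mem_filter, Finset.mem_Icc] at ha
      exact ha.1.2)
    refine ⟨fun j => if j = J then u else us j, ?_, ?_⟩
    · intro j
      dsimp only
      split_ifs
      · exact hu
      · exact hus j
    · have hsub : (Icc 1 N).filter (fun a => ∀ j < J + 1, Bad (a + if j = J then u else us j))
          ⊆ L'.filter (fun a => Bad (a + u)) := by
        intro a ha
        simp only [hL', Finset.mem_filter] at ha ⊢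
        refine ⟨⟨ha.1, ?_⟩, ?_⟩
        · intro j hj
          have := ha.2 j (by omega)
          rwa [if_neg (by omega)] at this
        · have := ha.2 J (by omega)
          rwa [if_pos rfl] at this
      calc _ ≤ (L'.filter (fun a => Bad (a + u))).card * U ^ (J + 1) :=
            Nat.mul_le_mul_right _ (Finset.card_le_card hsub)
        _ = (L'.filter (fun a => Bad (a + u))).card * U * U ^ J := by ring
        _ ≤ L'.card * B * U ^ J := Nat.mul_le_mul_right _ hcu
        _ = L'.card * U ^ J * B := by ring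
        _ ≤ N * B ^ J * B := Nat.mul_le_mul_right _ hc
        _ = N * B ^ (J + 1) := by ring

lemma en_lt {q : ℕ} (hq : 0 < q) (m x : ℕ) :
    (∑ i : Fin m, (dg q i x) ^ 2) < m * q ^ 2 + 1 := by
  have : (∑ i : Fin m, (dg q i x) ^ 2) ≤ ∑ _i : Fin m, q ^ 2 := by
    apply Finset.sum_le_sum
    intro i _
    have h1 : dg q i x < q := Nat.mod_lt _ hq
    exact Nat.pow_le_pow_left h1.le 2
  simp at this
  omega

/-- the colours -/
abbrev Col (J m q K : ℕ) : Type := Fin J × (Fin m → Fin 2) × Fin (m * q ^ 2 + 1) × Fin K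

lemma core (q h m N U B J K : ℕ) (hq : q = 2 * h) (hh : 0 < h) (hq0 : 0 < q) (δ : ℝ)
    (hU : 4 * U ≤ q ^ m) (hU0 : 0 < U) (hN1 : 0 < N) (hN : N ≤ U)
    (hB : ∀ s : Finset ℕ, (∀ v ∈ s, v < 2 * U ∧ mu q * m + δ * m ≤ en (dv q hq0 m (2 * v))) →
      s.card ≤ B)
    (hJ : N * B ^ J < U ^ J)
    (χ : (Fin m → Fin q) → Fin K)
    (hχ : ∀ f g, f ≠ g → ∑ i, (((f i : ℕ) : ℝ) - ((g i : ℕ) : ℝ)) ^ 2 ≤ 8 * (δ * m) → χ f ≠ χ g) :
    ∃ us : ℕ → ℕ, ∃ c : ℕ → Col J m q K, (∀ j, us j < U) ∧
      ∀ a ∈ Icc 1 N, ∀ b ∈ Icc 1 N, a ≠ b → c a = c b →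
        ∃ j < J, a + b + 2 * us j < q ^ m ∧
          en (dv q hq0 m (a + b + 2 * us j)) < mu q * m - δ * m := by
  classical
  obtain ⟨us, hus, hcard⟩ := shifts
    (fun v => mu q * m + δ * m ≤ en (dv q hq0 m (2 * v))) N U B hN hU0 (by
      apply hB
      intro v hv
      simp only [Finset.mem_filter, Finset.mem_range] at hv
      exact hv) J
  have hall : ∀ a ∈ Icc 1 N, ∃ j, j < J ∧ en (dv q hq0 m (2 * (a + us j))) < mu q * m + δ * m := by
    intro a ha
    by_contra hcon
    push Not at hcon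
    have h1 : 1 ≤ ((Icc 1 N).filter (fun a => ∀ j < J,
        mu q * m + δ * m ≤ en (dv q hq0 m (2 * (a + us j))))).card := by
      rw [Nat.one_le_iff_ne_zero, Finset.card_ne_zero]
      exact ⟨a, by rw [Finset.mem_filter]; exact ⟨ha, hcon⟩⟩
    have h2 := Nat.mul_le_mul_right (U ^ J) h1
    omega
  choose! jj hjj using hall
  have hJ0 : 0 < J := by
    have := (hjj 1 (by simp; omega)).1
    omega
  have hK0 : 0 < K := (Nat.zero_le _).trans_lt (χ (fun _ => ⟨0, hq0⟩)).2
  let c : ℕ → Col J m q K := fun a =>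
    (⟨jj a % J, Nat.mod_lt _ hJ0⟩,
      (fun i => ⟨(2 * (a + us (jj a))) / q ^ ((i : ℕ) + 1) % 2, Nat.mod_lt _ (by norm_num)⟩),
      ⟨∑ i : Fin m, (dg q i (2 * (a + us (jj a)))) ^ 2, en_lt hq0 m _⟩,
      χ (dv q hq0 m (2 * (a + us (jj a)))))
  refine ⟨us, c, hus, ?_⟩
  intro a ha b hb hab hcab
  have ha' := hjj a ha
  have hb' := hjj b hb
  simp only [c, Prod.mk.injEq] at hcab
  obtain ⟨e1, e2, e3, e4⟩ := hcab
  have e1' : jj a = jj b := by
    have := congrArg Fin.val e1
    simp only at this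
    rwa [Nat.mod_eq_of_lt ha'.1, Nat.mod_eq_of_lt hb'.1] at this
  rw [← e1'] at e2 e3 e4 hb'
  set u := us (jj a) with hu
  have hult : u < U := hus _
  simp only [Finset.mem_Icc] at ha hb
  have hva : 2 * (a + u) < q ^ m := by omega
  have hvb : 2 * (b + u) < q ^ m := by omega
  have hs : a + b + 2 * u < q ^ m := by omega
  refine ⟨jj a, ha'.1, hs, ?_⟩
  have hc : ∀ i < m, (2 * (a + u)) / q ^ (i + 1) % 2 = (2 * (b + u)) / q ^ (i + 1) % 2 := by
    intro i hi
    have := congrFun e2 ⟨i, hi⟩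
    exact congrArg Fin.val this
  have key := en_avg hq hh hq0 (a + u) (b + u) m hc
  have hT : en (dv q hq0 m (2 * (a + u))) = en (dv q hq0 m (2 * (b + u))) := by
    have h3 := congrArg Fin.val e3
    simp only at h3
    unfold en
    simp only [dv]
    exact_mod_cast h3
  have hne : dv q hq0 m (2 * (a + u)) ≠ dv q hq0 m (2 * (b + u)) := by
    intro hcon
    have := dv_inj hq0 m _ _ hva hvb hcon
    omega
  have hD : 8 * (δ * m) < ∑ i, (((dv q hq0 m (2 * (a + u)) i : ℕ) : ℝ)
      - ((dv q hq0 m (2 * (b + u)) i : ℕ) : ℝ)) ^ 2 := by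
    by_contra hcon
    push Not at hcon
    exact hχ _ _ hne hcon e4
  have hgood := ha'.2
  have hsum : a + u + (b + u) = a + b + 2 * u := by ring
  rw [hsum] at key
  linarith

end Pool.Agent.H24.PS
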