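import Mathlib
import Pool.Agent.H24.PS3

set_option autoImplicit false

namespace Pool.Agent.H24.PS

open Finset

noncomputable def dlt (q : ℕ) : ℝ := 1 / (16 * Real.log (2 * q))

lemma log2q {q : ℕ} (hq : 2 ≤ q) : 1 ≤ Real.log (2 * q) := by
  have h1 : (4 : ℝ) ≤ 2 * q := by
    have : (2 : ℝ) ≤ q := by exact_mod_cast hq
    linarith
  have h2 : Real.exp 1 ≤ 2 * q := by
    have := Real.exp_one_lt_d9
    linarith
  rw [Real.le_log_iff_exp_le (by linarith)]
  exact h2

lemma dlt_pos {q : ℕ} (hq : 2 ≤ q) : 0 < dlt q := by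
  have := log2q hq
  unfold dlt
  positivity

lemma dlt_le {q : ℕ} (hq : 2 ≤ q) : dlt q ≤ 1 := by
  have := log2q hq
  unfold dlt
  rw [div_le_one (by positivity)]
  linarith

lemma chi_exists (q m : ℕ) (hq : 2 ≤ q) :
    ∃ χ : (Fin m → Fin q) → Fin (⌊Real.exp m⌋₊ + 1), ∀ f g, f ≠ g →
      ∑ i, (((f i : ℕ) : ℝ) - ((g i : ℕ) : ℝ)) ^ 2 ≤ 8 * (dlt q * m) → χ f ≠ χ g := by
  classical
  have hl := log2q hq
  have hq0 : (0 : ℝ) < q := by
    have : (2 : ℝ) ≤ q := by exact_mod_cast hq
    linarith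
  obtain ⟨χ, hχ⟩ := exists_coloring
    (fun f g : Fin m → Fin q => ∑ i, (((f i : ℕ) : ℝ) - ((g i : ℕ) : ℝ)) ^ 2 ≤ 8 * (dlt q * m))
    (by
      intro u v h
      refine le_trans (le_of_eq ?_) h
      apply Finset.sum_congr rfl
      intro i _
      ring) (⌊Real.exp m⌋₊ + 1) (by
      intro v
      have h := nbr_card v (8 * (dlt q * m)) (Real.log (2 * q)) (by linarith)
        (Finset.univ.filter (fun u : Fin m → Fin q =>
          ∑ i, (((v i : ℕ) : ℝ) - ((u i : ℕ) : ℝ)) ^ 2 ≤ 8 * (dlt q * m)))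
        (by
          intro g hg
          simpa using hg)
      have h2 : Real.exp (Real.log (2 * q) * (8 * (dlt q * m))) = Real.exp (m / 2) := by
        congr 1
        unfold dlt
        field_simp
        ring
      have h3 : (q : ℝ) * Real.exp (-Real.log (2 * q)) = 1 / 2 := by
        rw [Real.exp_neg, Real.exp_log (by positivity)]
        field_simp
      have h4 : (1 + (1 : ℝ) / 2) ^ m ≤ Real.exp (m / 2) := by
        have := Real.add_one_le_exp ((1 : ℝ) / 2)
        calc (1 + (1 : ℝ) / 2) ^ m ≤ (Real.exp (1 / 2)) ^ m :=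
              pow_le_pow_left₀ (by norm_num) (by linarith) m
          _ = Real.exp (m / 2) := by
              rw [← Real.exp_nat_mul]
              congr 1
              ring
      rw [h2, h3] at h
      have h5 : ((Finset.univ.filter (fun u : Fin m → Fin q =>
          ∑ i, (((v i : ℕ) : ℝ) - ((u i : ℕ) : ℝ)) ^ 2 ≤ 8 * (dlt q * m))).card : ℝ)
            ≤ Real.exp m := by
        refine h.trans ?_
        calc Real.exp (m / 2) * (1 + (1 : ℝ) / 2) ^ m ≤ Real.exp (m / 2) * Real.exp (m / 2) :=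
              mul_le_mul_of_nonneg_left h4 (Real.exp_pos _).le
          _ = Real.exp m := by
              rw [← Real.exp_add]
              congr 1
              ring
      have h6 := Nat.le_floor h5
      omega) Finset.univ
  exact ⟨χ, fun f g hfg h => hχ f (Finset.mem_univ _) g (Finset.mem_univ _) hfg h⟩

noncomputable def cc (q : ℕ) : ℝ := dlt q ^ 2 / (4 * (q : ℝ) ^ 4)

lemma cc_pos {q : ℕ} (hq : 2 ≤ q) : 0 < cc q := by
  have := dlt_pos hq
  have hq0 : (0 : ℝ) < q := by
    have : (2 : ℝ) ≤ q := by exact_mod_cast hq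
    linarith
  unfold cc
  positivity

/-- the colouring for a fixed number of digits -/
lemma coloring_m (q h m N J : ℕ) (hq : q = 2 * h) (hh : 0 < h)
    (hN1 : 0 < N) (hN : N ≤ q ^ m / 4)
    (hm1 : 5 ≤ cc q * m) (hJ : 2 * Real.log q < cc q * J) (hm0 : 0 < m) :
    ∃ c : ℕ → Col J m q (⌊Real.exp m⌋₊ + 1),
      ∀ s : Finset ℕ, (∀ x ∈ s, ∃ a ∈ Icc 1 N, ∃ b ∈ Icc 1 N, a ≠ b ∧ c a = c b ∧ a + b = x) →
        (s.card : ℝ) ≤ J * ((q : ℝ) ^ m * Real.exp (-(cc q * m))) := by
  classical
  have hq2 : 2 ≤ q := by omega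
  have hq0 : 0 < q := by omega
  have hqr : (2 : ℝ) ≤ q := by exact_mod_cast hq2
  set U := q ^ m / 4 with hUdef
  have hU4 : 4 * U ≤ q ^ m := Nat.mul_div_le _ _
  have hU0 : 0 < U := by omega
  set M : ℝ := (q : ℝ) ^ m with hM
  have hMpos : 0 < M := by positivity
  set B := ⌊M * Real.exp (-(cc q * m))⌋₊ with hB
  obtain ⟨χ, hχ⟩ := chi_exists q m hq2
  have hBbound : ∀ s : Finset ℕ, (∀ v ∈ s, v < 2 * U ∧
      mu q * m + dlt q * m ≤ en (dv q hq0 m (2 * v))) → s.card ≤ B := by
    intro s hs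
    have hinj : Set.InjOn (fun v => dv q hq0 m (2 * v)) (s : Set ℕ) := by
      intro x hx y hy hxy
      have hx' := (hs x hx).1
      have hy' := (hs y hy).1
      have := dv_inj hq0 m (2 * x) (2 * y) (by omega) (by omega) hxy
      omega
    have hcard := Finset.card_image_of_injOn hinj
    have ht := upper_tail (m := m) hq0 (dlt q) (dlt_pos hq2) (dlt_le hq2)
      (s.image (fun v => dv q hq0 m (2 * v))) (by
        intro g hg
        obtain ⟨v, hv, rfl⟩ := Finset.mem_image.mp hg
        exact (hs v hv).2)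
    rw [hcard] at ht
    exact Nat.le_floor ht
  have hBU : (B : ℝ) ≤ Real.exp (-(cc q * m) / 2) * U := by
    have h1 : (B : ℝ) ≤ M * Real.exp (-(cc q * m)) := Nat.floor_le (by positivity)
    have h2 : M ≤ 8 * U := by
      have h3 : q ^ m < 4 * (U + 1) := by
        have := Nat.div_add_mod (q ^ m) 4
        have := Nat.mod_lt (q ^ m) (by norm_num : 0 < 4)
        omega
      have h4 : ((q ^ m : ℕ) : ℝ) ≤ ((8 * U : ℕ) : ℝ) := by
        exact_mod_cast (by omega : q ^ m ≤ 8 * U)
      push_cast at h4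
      exact h4
    have h5 : 8 * Real.exp (-(cc q * m)) ≤ Real.exp (-(cc q * m) / 2) := by
      have h6 : Real.exp (-(cc q * m)) = Real.exp (-(cc q * m) / 2) * Real.exp (-(cc q * m) / 2) := by
        rw [← Real.exp_add]
        congr 1
        ring
      have h7 : Real.exp (-(cc q * m) / 2) ≤ 1 / 8 := by
        have h8 : Real.exp (-(cc q * m) / 2) ≤ Real.exp (-(5 / 2)) :=
          Real.exp_le_exp.mpr (by linarith)
        refine h8.trans ?_
        rw [Real.exp_neg, inv_eq_one_div]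
        apply one_div_le_one_div_of_le (by norm_num)
        have h9 := Real.exp_one_gt_d9
        have h10 : Real.exp (5 / 2) = Real.exp 1 * Real.exp 1 * Real.exp (1 / 2) := by
          rw [← Real.exp_add, ← Real.exp_add]
          congr 1
          norm_num
        have h11 := Real.add_one_le_exp ((1 : ℝ) / 2)
        rw [h10]
        nlinarith [Real.exp_pos (1 : ℝ), Real.exp_pos ((1 : ℝ) / 2)]
      rw [h6]
      nlinarith [Real.exp_pos (-(cc q * m) / 2)]
    calc (B : ℝ) ≤ M * Real.exp (-(cc q * m)) := h1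
      _ ≤ 8 * U * Real.exp (-(cc q * m)) := mul_le_mul_of_nonneg_right h2 (Real.exp_pos _).le
      _ = (8 * Real.exp (-(cc q * m))) * U := by ring
      _ ≤ _ := mul_le_mul_of_nonneg_right h5 (by positivity)
  have hJ' : N * B ^ J < U ^ J := by
    have hU0r : (0 : ℝ) < U := by exact_mod_cast hU0
    have h1 : ((N * B ^ J : ℕ) : ℝ) < ((U ^ J : ℕ) : ℝ) := by
      push_cast
      have h2 : (B : ℝ) ^ J ≤ (Real.exp (-(cc q * m) / 2) * U) ^ J :=
        pow_le_pow_left₀ (by positivity) hBU J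
      have h3 : (N : ℝ) ≤ M := by
        have : ((N : ℕ) : ℝ) ≤ ((q ^ m : ℕ) : ℝ) := by exact_mod_cast (by omega : N ≤ q ^ m)
        push_cast at this
        exact this
      have h4 : M * Real.exp (-(cc q * m) / 2) ^ J < 1 := by
        have h5 : M = Real.exp (m * Real.log q) := by
          rw [Real.exp_nat_mul, Real.exp_log (by linarith)]
        rw [h5, ← Real.exp_nat_mul, ← Real.exp_add, Real.exp_lt_one_iff]
        have hm0r : (0 : ℝ) < m := by exact_mod_cast hm0
        nlinarith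
      calc (N : ℝ) * (B : ℝ) ^ J ≤ M * (Real.exp (-(cc q * m) / 2) * U) ^ J :=
            mul_le_mul h3 h2 (by positivity) hMpos.le
        _ = (M * Real.exp (-(cc q * m) / 2) ^ J) * (U : ℝ) ^ J := by rw [mul_pow]; ring
        _ < 1 * (U : ℝ) ^ J := mul_lt_mul_of_pos_right h4 (by positivity)
        _ = (U : ℝ) ^ J := one_mul _
    exact_mod_cast h1
  obtain ⟨us, c, hus, hc⟩ := core q h m N U B J (⌊Real.exp m⌋₊ + 1) hq hh hq0 (dlt q) hU4 hU0 hN1 hN
    hBbound hJ' χ hχ
  refine ⟨c, ?_⟩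
  intro s hs
  have hsub : s ⊆ (Finset.range J).biUnion (fun j => s.filter (fun x =>
      x + 2 * us j < q ^ m ∧ en (dv q hq0 m (x + 2 * us j)) < mu q * m - dlt q * m)) := by
    intro x hx
    obtain ⟨a, ha, b, hb, hab, hcab, rfl⟩ := hs x hx
    obtain ⟨j, hj, h1, h2⟩ := hc a ha b hb hab hcab
    rw [Finset.mem_biUnion]
    exact ⟨j, by simpa using hj, by rw [Finset.mem_filter]; exact ⟨hx, h1, h2⟩⟩
  have h1 := Finset.card_le_card hsub
  have h2 : ∀ j ∈ Finset.range J, ((s.filter (fun x =>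
      x + 2 * us j < q ^ m ∧ en (dv q hq0 m (x + 2 * us j)) < mu q * m - dlt q * m)).card : ℝ)
      ≤ M * Real.exp (-(cc q * m)) := by
    intro j _
    have hinj : Set.InjOn (fun x => dv q hq0 m (x + 2 * us j)) ((s.filter (fun x =>
      x + 2 * us j < q ^ m ∧ en (dv q hq0 m (x + 2 * us j)) < mu q * m - dlt q * m) : Finset ℕ)
        : Set ℕ) := by
      intro x hx y hy hxy
      simp only [Finset.coe_filter, Set.mem_ofPred_eq] at hx hy
      have := dv_inj hq0 m _ _ hx.2.1 hy.2.1 hxy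
      omega
    have hcard := Finset.card_image_of_injOn hinj
    rw [← hcard]
    exact lower_tail (m := m) hq0 (dlt q) (dlt_pos hq2) (dlt_le hq2) _ (by
        intro g hg
        obtain ⟨v, hv, rfl⟩ := Finset.mem_image.mp hg
        rw [Finset.mem_filter] at hv
        exact hv.2.2.le)
  calc (s.card : ℝ) ≤ (((Finset.range J).biUnion (fun j => s.filter (fun x =>
      x + 2 * us j < q ^ m ∧ en (dv q hq0 m (x + 2 * us j)) < mu q * m - dlt q * m))).card : ℝ) := by
        exact_mod_cast h1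
    _ ≤ ((∑ j ∈ Finset.range J, (s.filter (fun x =>
      x + 2 * us j < q ^ m ∧ en (dv q hq0 m (x + 2 * us j)) < mu q * m - dlt q * m)).card : ℕ) : ℝ) := by
        exact_mod_cast Finset.card_biUnion_le
    _ ≤ ∑ j ∈ Finset.range J, M * Real.exp (-(cc q * m)) := by
        push_cast
        exact Finset.sum_le_sum h2
    _ = J * (M * Real.exp (-(cc q * m))) := by simp

end Pool.Agent.H24.PS
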