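import Mathlib
import Pool.Agent.H24.PS4

set_option autoImplicit false

namespace Pool.Agent.H24.PS

open Finset

lemma main_coloring (ε : ℝ) (hε : 0 < ε) :
    ∃ N₀ : ℕ, 1 ≤ N₀ ∧ ∀ N : ℕ, N₀ ≤ N → ∃ J m q K : ℕ, ∃ c : ℕ → Col J m q K,
      (Fintype.card (Col J m q K) : ℝ) ≤ (N : ℝ) ^ ε ∧
      ∀ s : Finset ℕ, (∀ x ∈ s, ∃ a ∈ Icc 1 N, ∃ b ∈ Icc 1 N, a ≠ b ∧ c a = c b ∧ a + b = x) →
        (s.card : ℝ) < (N : ℝ) / 10 := by
  set h : ℕ := ⌈Real.exp (3 / ε)⌉₊ + 1 with hh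
  set q : ℕ := 2 * h with hq
  have hh0 : 0 < h := by omega
  have hq2 : 2 ≤ q := by omega
  have hqr : (2 : ℝ) ≤ q := by exact_mod_cast hq2
  have hq0 : (0 : ℝ) < q := by linarith
  have hlogq : 3 ≤ ε * Real.log q := by
    have h1 : Real.exp (3 / ε) ≤ q := by
      have h2 := Nat.le_ceil (Real.exp (3 / ε))
      have h3 : ((⌈Real.exp (3 / ε)⌉₊ : ℕ) : ℝ) ≤ (q : ℝ) := by
        exact_mod_cast (by omega : ⌈Real.exp (3 / ε)⌉₊ ≤ q)
      linarith
    have h4 : 3 / ε ≤ Real.log q := by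
      rw [Real.le_log_iff_exp_le hq0]
      exact h1
    rw [div_le_iff₀ hε] at h4
    linarith
  have hc0 := cc_pos hq2
  set J : ℕ := ⌊2 * Real.log q / cc q⌋₊ + 1 with hJdef
  have hJ : 2 * Real.log q < cc q * J := by
    have h1 := Nat.lt_floor_add_one (2 * Real.log q / cc q)
    rw [div_lt_iff₀ hc0] at h1
    rw [hJdef]
    push_cast
    linarith
  have hJ1 : (1 : ℝ) ≤ J := by
    rw [hJdef]
    push_cast
    have : (0 : ℝ) ≤ (⌊2 * Real.log q / cc q⌋₊ : ℝ) := by positivity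
    linarith
  set C : ℝ := 4 * J * (4 * q : ℝ) ^ ε * ((q : ℝ) ^ 2 + 1) with hC
  have hCpos : 0 < C := by positivity
  set m0 : ℕ := ⌈5 / cc q⌉₊ + ⌈40 * q * J / cc q⌉₊ + ⌈C⌉₊ + 1 with hm0
  have hm0a : 5 / cc q ≤ m0 := by
    have h1 := Nat.le_ceil (5 / cc q)
    have h2 : ((⌈5 / cc q⌉₊ : ℕ) : ℝ) ≤ (m0 : ℝ) := by exact_mod_cast (by omega : ⌈5 / cc q⌉₊ ≤ m0)
    linarith
  have hm0b : 40 * q * J / cc q ≤ m0 := by
    have h1 := Nat.le_ceil (40 * q * J / cc q)
    have h2 : ((⌈40 * q * J / cc q⌉₊ : ℕ) : ℝ) ≤ (m0 : ℝ) := by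
      exact_mod_cast (by omega : ⌈40 * q * J / cc q⌉₊ ≤ m0)
    linarith
  have hm0c : C ≤ m0 := by
    have h1 := Nat.le_ceil C
    have h2 : ((⌈C⌉₊ : ℕ) : ℝ) ≤ (m0 : ℝ) := by exact_mod_cast (by omega : ⌈C⌉₊ ≤ m0)
    linarith
  refine ⟨q ^ m0 + 1, by omega, ?_⟩
  intro N hN
  have hex : ∃ m, N ≤ q ^ m / 4 := by
    refine ⟨4 * N, ?_⟩
    have h1 : 4 * N < q ^ (4 * N) := Nat.lt_pow_self (by omega)
    omega
  classical
  set m := Nat.find hex with hmdef
  have hmspec : N ≤ q ^ m / 4 := Nat.find_spec hex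
  have hmm0 : m0 < m := by
    by_contra hcon
    push Not at hcon
    have h1 : q ^ m ≤ q ^ m0 := Nat.pow_le_pow_right (by omega) hcon
    omega
  have hm1 : 0 < m := by omega
  have hmin : q ^ m < 4 * q * N := by
    have h1 := Nat.find_min hex (m := m - 1) (by omega)
    have h2 : q ^ (m - 1) / 4 < N := by omega
    have h3 : q ^ (m - 1) < 4 * N := by omega
    calc q ^ m = q ^ (m - 1) * q := by
          rw [← pow_succ]
          congr 1
          omega
      _ < 4 * N * q := Nat.mul_lt_mul_of_pos_right h3 (by omega)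
      _ = 4 * q * N := by ring
  have hminr : (q : ℝ) ^ m < 4 * q * N := by exact_mod_cast hmin
  have hN0 : 0 < N := by omega
  have hNr : (0 : ℝ) < N := by exact_mod_cast hN0
  have hmr : (m0 : ℝ) ≤ m := by exact_mod_cast hmm0.le
  have hmr1 : (1 : ℝ) ≤ m := by exact_mod_cast hm1
  have h5 : 5 ≤ cc q * m := by
    have h1 : 5 / cc q ≤ m := hm0a.trans hmr
    rw [div_le_iff₀ hc0] at h1
    linarith
  have h40 : 40 * q * J ≤ cc q * m := by
    have h1 : 40 * q * J / cc q ≤ m := hm0b.trans hmr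
    rw [div_le_iff₀ hc0] at h1
    linarith
  have hCm : C ≤ m := hm0c.trans hmr
  obtain ⟨c, hc⟩ := coloring_m q h m N J hq hh0 hN0 hmspec h5 hJ hm1
  refine ⟨J, m, q, _, c, ?_, ?_⟩
  · have hcard : (Fintype.card (Col J m q (⌊Real.exp m⌋₊ + 1)) : ℝ)
        = J * (2 ^ m * ((m * (q : ℝ) ^ 2 + 1) * (⌊Real.exp m⌋₊ + 1))) := by
      simp [Col, Fintype.card_prod]
    rw [hcard]
    have e1 : ((⌊Real.exp m⌋₊ : ℕ) : ℝ) + 1 ≤ 2 * Real.exp m := by
      have h1 := Nat.floor_le (Real.exp_pos (m : ℝ)).le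
      have h2 := Real.one_le_exp (show (0 : ℝ) ≤ m by linarith)
      linarith
    have e2 : (2 : ℝ) ^ m ≤ Real.exp m := by
      have h1 : (2 : ℝ) ≤ Real.exp 1 := by
        have := Real.add_one_le_exp (1 : ℝ)
        linarith
      calc (2 : ℝ) ^ m ≤ (Real.exp 1) ^ m := pow_le_pow_left₀ (by norm_num) h1 m
        _ = Real.exp m := by
            rw [← Real.exp_nat_mul]
            simp
    have e3 : (m : ℝ) * (q : ℝ) ^ 2 + 1 ≤ m * ((q : ℝ) ^ 2 + 1) := by linarith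
    have e4 : 2 * J * (4 * q : ℝ) ^ ε * (m * ((q : ℝ) ^ 2 + 1)) ≤ Real.exp m := by
      have h1 := Real.quadratic_le_exp_of_nonneg (show (0 : ℝ) ≤ m by linarith)
      have h2 : 2 * J * (4 * q : ℝ) ^ ε * (m * ((q : ℝ) ^ 2 + 1)) = C / 2 * m := by
        rw [hC]
        ring
      rw [h2]
      have h3 : C / 2 * m ≤ (m : ℝ) / 2 * m := by
        apply mul_le_mul_of_nonneg_right _ (by linarith)
        linarith
      have h4 : (m : ℝ) / 2 * m = (m : ℝ) ^ 2 / 2 := by ring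
      linarith
    have e5 : Real.exp (3 * m) ≤ (N : ℝ) ^ ε * (4 * q : ℝ) ^ ε := by
      rw [← Real.mul_rpow hNr.le (by positivity)]
      have h1 : (q : ℝ) ^ m ≤ N * (4 * q) := by linarith
      calc Real.exp (3 * m) ≤ Real.exp (m * Real.log q * ε) := by
            apply Real.exp_le_exp.mpr
            nlinarith
        _ = ((q : ℝ) ^ m) ^ ε := by
            rw [Real.exp_mul, Real.exp_nat_mul, Real.exp_log hq0]
        _ ≤ _ := Real.rpow_le_rpow (by positivity) h1 hε.le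
    have hq4 : (0 : ℝ) < (4 * q : ℝ) ^ ε := by positivity
    have e6 : (J : ℝ) * (2 ^ m * ((m * (q : ℝ) ^ 2 + 1) * (⌊Real.exp m⌋₊ + 1))) * (4 * q : ℝ) ^ ε
        ≤ Real.exp (3 * m) := by
      calc (J : ℝ) * (2 ^ m * ((m * (q : ℝ) ^ 2 + 1) * (⌊Real.exp m⌋₊ + 1))) * (4 * q : ℝ) ^ ε
          ≤ (J : ℝ) * (Real.exp m * ((m * ((q : ℝ) ^ 2 + 1)) * (2 * Real.exp m))) * (4 * q : ℝ) ^ ε := by
            gcongr
        _ = (2 * J * (4 * q : ℝ) ^ ε * (m * ((q : ℝ) ^ 2 + 1))) * (Real.exp m * Real.exp m) := by ring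
        _ ≤ Real.exp m * (Real.exp m * Real.exp m) :=
            mul_le_mul_of_nonneg_right e4 (by positivity)
        _ = Real.exp (3 * m) := by
            rw [← Real.exp_add, ← Real.exp_add]
            congr 1
            ring
    have e7 := e6.trans e5
    exact le_of_mul_le_mul_right e7 hq4
  · intro s hs
    have h1 := hc s hs
    have h2 : Real.exp (cc q * m) > 40 * q * J := by
      have := Real.add_one_le_exp (cc q * m)
      linarith
    refine h1.trans_lt ?_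
    rw [Real.exp_neg]
    have hexp : 0 < Real.exp (cc q * m) := Real.exp_pos _
    calc (J : ℝ) * ((q : ℝ) ^ m * (Real.exp (cc q * m))⁻¹)
        = J * (q : ℝ) ^ m / Real.exp (cc q * m) := by
          field_simp
      _ < N / 10 := by
          rw [div_lt_iff₀ hexp]
          have h3 : (J : ℝ) * (q : ℝ) ^ m < J * (4 * q * N) :=
            mul_lt_mul_of_pos_left hminr (by linarith)
          have h4 : (J : ℝ) * (4 * q * N) = N / 10 * (40 * q * J) := by ring
          have h5 : (N : ℝ) / 10 * (40 * q * J) ≤ N / 10 * Real.exp (cc q * m) :=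
            mul_le_mul_of_nonneg_left h2.le (by positivity)
          linarith

end Pool.Agent.H24.PS
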