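import Mathlib

set_option autoImplicit false

namespace Pool.Agent.H24.PS

open Finset

/-- partition of `[N]` into the fibres of `f` -/
lemma exists_finpartition {β : Type*} [DecidableEq β] (f : ℕ → β) (N : ℕ) :
    ∃ P : Finpartition (Icc 1 N), P.parts.card = ((Icc 1 N).image f).card ∧
      ∀ A ∈ P.parts, ∀ a ∈ A, ∀ b ∈ A, a ∈ Icc 1 N ∧ b ∈ Icc 1 N ∧ f a = f b := by
  set parts : Finset (Finset ℕ) :=
    ((Icc 1 N).image f).image (fun y => (Icc 1 N).filter (fun b => f b = y)) with hparts
  have hmem : ∀ A, A ∈ parts ↔ ∃ a ∈ Icc 1 N, (Icc 1 N).filter (fun b => f b = f a) = A := by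
    intro A
    rw [hparts]
    simp only [Finset.mem_image]
    constructor
    · rintro ⟨y, ⟨a, ha, rfl⟩, rfl⟩
      exact ⟨a, ha, rfl⟩
    · rintro ⟨a, ha, rfl⟩
      exact ⟨f a, ⟨a, ha, rfl⟩, rfl⟩
  refine ⟨Finpartition.ofExistsUnique parts ?_ ?_ ?_, ?_, ?_⟩
  · intro p hp
    obtain ⟨a, _, rfl⟩ := (hmem p).mp hp
    exact Finset.filter_subset _ _
  · intro a ha
    refine ⟨(Icc 1 N).filter (fun b => f b = f a), ⟨(hmem _).mpr ⟨a, ha, rfl⟩, ?_⟩, ?_⟩
    · rw [Finset.mem_filter]
      exact ⟨ha, rfl⟩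
    · rintro t ⟨ht, hat⟩
      obtain ⟨b, _, rfl⟩ := (hmem t).mp ht
      rw [Finset.mem_filter] at hat
      rw [hat.2]
  · intro he
    obtain ⟨a, ha, hA⟩ := (hmem ∅).mp he
    have : a ∈ (∅ : Finset ℕ) := by
      rw [← hA, Finset.mem_filter]
      exact ⟨ha, rfl⟩
    simp at this
  · change parts.card = _
    rw [hparts]
    apply Finset.card_image_of_injOn
    intro x hx y hy hxy
    simp only [Finset.coe_image, Set.mem_image] at hx hy
    obtain ⟨a, ha, rfl⟩ := hx
    have ha' : a ∈ (Icc 1 N).filter (fun b => f b = f a) := by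
      rw [Finset.mem_filter]
      exact ⟨by simpa using ha, rfl⟩
    simp only at hxy
    rw [hxy, Finset.mem_filter] at ha'
    exact ha'.2
  · intro A hA a ha b hb
    obtain ⟨x, _, rfl⟩ := (hmem A).mp hA
    rw [Finset.mem_filter] at ha hb
    exact ⟨ha.1, hb.1, ha.2.trans hb.2.symm⟩

lemma exists_refinement {β : Type*} [DecidableEq β] (c : ℕ → β) (N k : ℕ)
    (h1 : ((Icc 1 N).image c).card ≤ k) (h2 : k ≤ N) :
    ∃ f : ℕ → ℕ ⊕ β, ((Icc 1 N).image f).card = k ∧
      ∀ a b, a ≠ b → f a = f b → c a = c b := by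
  let F : ℕ → ℕ → ℕ ⊕ β := fun j a => if a ≤ j then Sum.inl a else Sum.inr (c a)
  have hF : ∀ j a b, a ≠ b → F j a = F j b → c a = c b := by
    intro j a b hab h
    simp only [F] at h
    split_ifs at h with ha hb hb
    · simp at h
      exact absurd h hab
    · simpa using h
  have g0 : ((Icc 1 N).image (F 0)).card ≤ k := by
    refine le_trans ?_ h1
    have : (Icc 1 N).image (F 0) ⊆ ((Icc 1 N).image c).image Sum.inr := by
      intro x hx
      obtain ⟨a, ha, rfl⟩ := Finset.mem_image.mp hx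
      simp only [Finset.mem_Icc] at ha
      simp only [F]
      rw [if_neg (by omega)]
      exact Finset.mem_image.mpr ⟨c a, Finset.mem_image.mpr ⟨a, by simpa using ha, rfl⟩, rfl⟩
    exact (Finset.card_le_card this).trans Finset.card_image_le
  have gN : k ≤ ((Icc 1 N).image (F N)).card := by
    have : ((Icc 1 N).image (F N)).card = (Icc 1 N).card := by
      apply Finset.card_image_of_injOn
      intro x hx y hy hxy
      simp only [Finset.coe_Icc, Set.mem_Icc] at hx hy
      simp only [F] at hxy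
      rw [if_pos hx.2, if_pos hy.2] at hxy
      simpa using hxy
    rw [this]
    simpa using h2
  have gstep : ∀ j, ((Icc 1 N).image (F (j + 1))).card ≤ ((Icc 1 N).image (F j)).card + 1 := by
    intro j
    have : (Icc 1 N).image (F (j + 1)) ⊆ insert (Sum.inl (j + 1)) ((Icc 1 N).image (F j)) := by
      intro x hx
      obtain ⟨a, ha, rfl⟩ := Finset.mem_image.mp hx
      by_cases hj : a = j + 1
      · subst hj
        simp [F]
      · apply Finset.mem_insert_of_mem
        refine Finset.mem_image.mpr ⟨a, ha, ?_⟩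
        simp only [F]
        by_cases hj2 : a ≤ j
        · rw [if_pos hj2, if_pos (by omega)]
        · rw [if_neg hj2, if_neg (by omega)]
    exact (Finset.card_le_card this).trans (Finset.card_insert_le _ _)
  have hex : ∃ j, k ≤ ((Icc 1 N).image (F j)).card := ⟨N, gN⟩
  classical
  set j := Nat.find hex with hj
  have hspec : k ≤ ((Icc 1 N).image (F j)).card := Nat.find_spec hex
  refine ⟨F j, ?_, hF j⟩
  rcases Nat.eq_zero_or_pos j with h0 | h0
  · rw [h0] at hspec ⊢
    omega
  · have h3 := Nat.find_min hex (m := j - 1) (by omega)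
    have h4 := gstep (j - 1)
    have h5 : j - 1 + 1 = j := by omega
    rw [h5] at h4
    omega

end Pool.Agent.H24.PS
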