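import Pool.Agent.H24.RCADefs

namespace Pool.Agent.H24.RCA

open Function


set_option linter.unusedSectionVars false
set_option linter.unusedSimpArgs false

section Lemmas

variable {M : Type} [CommSemiring M] [LinearOrder M] [IsStrictOrderedRing M]
variable {S : Set (Set M)}

lemma lt_succ (h : Model M S) {x y : M} : x < y + 1 ↔ x ≤ y := by
  constructor
  · intro hxy
    by_contra hcon
    push Not at hcon
    obtain ⟨z, hz⟩ := h.sub y x hcon.le
    have hz0 : z ≠ 0 := by
      rintro rfl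
      rw [add_zero] at hz
      exact hcon.ne hz
    have h1 : 1 ≤ z := h.discrete z (lt_of_le_of_ne (h.zero_le z) hz0.symm)
    have h2 : y + 1 ≤ y + z := by gcongr
    rw [hz] at h2
    exact absurd hxy (not_lt.mpr h2)
  · intro hxy
    exact lt_of_le_of_lt hxy (lt_add_one y)

lemma succ_le (h : Model M S) {x y : M} : x + 1 ≤ y ↔ x < y := by
  constructor
  · intro hxy; exact lt_of_lt_of_le (lt_add_one x) hxy
  · intro hxy
    by_contra hcon
    push Not at hcon
    exact absurd hxy (not_lt.mpr ((lt_succ h).mp hcon))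

lemma le_mul_self' (h : Model M S) (x : M) : x ≤ x * x := by
  rcases (h.zero_le x).eq_or_lt with h0 | h0
  · rw [← h0]; simp
  · have h1 := h.discrete x h0
    calc x = x * 1 := (mul_one x).symm
      _ ≤ x * x := mul_le_mul_of_nonneg_left h1 h0.le

lemma left_le_pair (h : Model M S) (x y : M) : x ≤ pair x y := by
  unfold pair
  exact le_add_of_nonneg_left (h.zero_le _)

lemma right_le_pair (h : Model M S) (x y : M) : y ≤ pair x y := by
  unfold pair
  calc y ≤ x + y := le_add_of_nonneg_left (h.zero_le _)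
    _ ≤ (x + y) * (x + y) := le_mul_self' h _
    _ ≤ _ := le_add_of_nonneg_right (h.zero_le _)

lemma pair_lt (h : Model M S) {x y x' y' : M} (hlt : x + y < x' + y') :
    pair x y < pair x' y' := by
  unfold pair
  have h1 : x + y + 1 ≤ x' + y' := (succ_le h).mpr hlt
  have h0 := h.zero_le (x + y)
  have h2 : (x + y + 1) * (x + y + 1) ≤ (x' + y') * (x' + y') :=
    mul_le_mul h1 h1 (h.zero_le _) (h.zero_le _)
  have h3 : x ≤ x + y := le_add_of_nonneg_right (h.zero_le _)
  calc (x + y) * (x + y) + x ≤ (x + y) * (x + y) + (x + y) := by gcongr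
    _ ≤ (x + y) * (x + y) + (x + y) + (x + y) := le_add_of_nonneg_right h0
    _ < (x + y) * (x + y) + (x + y) + (x + y) + 1 := lt_add_one _
    _ = (x + y + 1) * (x + y + 1) := by ring
    _ ≤ (x' + y') * (x' + y') := h2
    _ ≤ _ := le_add_of_nonneg_right (h.zero_le _)

lemma pair_inj (h : Model M S) {x y x' y' : M} (he : pair x y = pair x' y') : x = x' ∧ y = y' := by
  have hs : x + y = x' + y' := by
    rcases lt_trichotomy (x + y) (x' + y') with h1 | h1 | h1
    · exact absurd he (pair_lt h h1).ne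
    · exact h1
    · exact absurd he (pair_lt h h1).ne'
  unfold pair at he
  rw [hs] at he
  have hx : x = x' := add_left_cancel he
  subst hx
  exact ⟨rfl, add_left_cancel hs⟩

/-- definability helpers -/
lemma Sig00.or {P Q : (ℕ → M) → Prop} (hP : Sig00 S P) (hQ : Sig00 S Q) :
    Sig00 S (fun v => P v ∨ Q v) := by
  have h := Sig00.not (Sig00.and (Sig00.not hP) (Sig00.not hQ))
  have he : (fun v => ¬ (¬ P v ∧ ¬ Q v)) = (fun v => P v ∨ Q v) := by
    funext v; simp only [eq_iff_iff]; tauto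
  rwa [he] at h

lemma Sig00.imp {P Q : (ℕ → M) → Prop} (hP : Sig00 S P) (hQ : Sig00 S Q) :
    Sig00 S (fun v => P v → Q v) := by
  have h := Sig00.or (Sig00.not hP) hQ
  have he : (fun v => ¬ P v ∨ Q v) = (fun v => P v → Q v) := by
    funext v; simp only [eq_iff_iff]; tauto
  rwa [he] at h

lemma Sig00.iff {P Q : (ℕ → M) → Prop} (hP : Sig00 S P) (hQ : Sig00 S Q) :
    Sig00 S (fun v => (P v ↔ Q v)) := by
  have h := Sig00.and (Sig00.imp hP hQ) (Sig00.imp hQ hP)
  have he : (fun v => (P v → Q v) ∧ (Q v → P v)) = (fun v => (P v ↔ Q v)) := by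
    funext v; simp only [eq_iff_iff]; tauto
  rwa [he] at h

lemma Sig00.bex {P : (ℕ → M) → Prop} {t : (ℕ → M) → M} (i : ℕ) (hP : Sig00 S P) (ht : Term t) :
    Sig00 S (fun v => ∃ a, a < t v ∧ P (update v i a)) := by
  have h := Sig00.not (Sig00.ball i (Sig00.not hP) ht)
  have he : (fun v => ¬ ∀ a, a < t v → ¬ P (update v i a)) =
      (fun v => ∃ a, a < t v ∧ P (update v i a)) := by
    funext v; simp only [eq_iff_iff]; push Not; rfl
  rwa [he] at h

lemma Sig00.le {s t : (ℕ → M) → M} (hs : Term s) (ht : Term t) :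
    Sig00 S (fun v => s v ≤ t v) := by
  have h := Sig00.not (Sig00.lt (S := S) ht hs)
  have he : (fun v => ¬ (t v < s v)) = (fun v => s v ≤ t v) := by
    funext v; simp only [eq_iff_iff, not_lt]
  rwa [he] at h

lemma Term.pair {s t : (ℕ → M) → M} (hs : Term s) (ht : Term t) :
    Term (fun v => RCA.pair (s v) (t v)) :=
  Term.add (Term.mul (Term.add hs ht) (Term.add hs ht)) hs

lemma Sig00.rel {R : Set M} (hR : R ∈ S) {s t : (ℕ → M) → M} (hs : Term s) (ht : Term t) :
    Sig00 S (fun v => RCA.rel R (s v) (t v)) :=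
  Sig00.mem hR (Term.pair hs ht)

lemma compr (h : Model M S) {P : (ℕ → M) → Prop} (hP : Sig00 S P) (v : ℕ → M) (i : ℕ) :
    {x | P (update v i x)} ∈ S :=
  h.comprehension P P (Or.inl hP) (Or.inl hP) v i (fun _ => Iff.rfl)

/-- comprehension in a convenient form -/
lemma compr1 (h : Model M S) {φ : M → Prop} (hφ : Sig00 S (fun v => φ (v 0))) :
    {x | φ x} ∈ S := by
  have := compr h hφ (fun _ => 0) 0
  simpa using this

lemma lnp (h : Model M S) {φ : M → Prop} (hφ : Sig00 S (fun v => φ (v 0))) (hex : ∃ x, φ x) :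
    ∃ x, φ x ∧ ∀ y, y < x → ¬ φ y := by
  by_contra hcon
  push Not at hcon
  have hQ : Sig00 S (fun v : ℕ → M => ∀ a, a < v 0 + 1 → ¬ φ ((update v 0 a) 0)) :=
    Sig00.ball 0 (Sig00.not hφ) (Term.add (Term.var 0) (Term.const 1))
  have hind := h.induction _ (Or.inl hQ) (fun _ => 0) 0
  simp only [update_self] at hind
  obtain ⟨x, hx⟩ := hex
  have h1 := hind ?_ ?_ x
  · exact h1 x (lt_add_one x) hx
  · intro a ha hφa
    obtain ⟨y, hy, _⟩ := hcon a hφa
    have : a ≤ 0 := by
      have := (lt_succ h).mp ha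
      exact this
    exact absurd (lt_of_lt_of_le hy this) (not_lt.mpr (h.zero_le y))
  · intro x hx a ha hφa
    obtain ⟨y, hy, hφy⟩ := hcon a hφa
    have h2 : a ≤ x + 1 := (lt_succ h).mp ha
    exact hx y (lt_of_lt_of_le hy h2) hφy

/-- coding of binary relations -/
lemma relCompr (h : Model M S) {φ : M → M → Prop} (hφ : Sig00 S (fun v => φ (v 1) (v 2))) :
    ∃ R ∈ S, ∀ x y, rel R x y ↔ φ x y := by
  refine ⟨{c | ∃ x, x < c + 1 ∧ ∃ y, y < c + 1 ∧ (c = pair x y ∧ φ x y)}, ?_, ?_⟩
  · apply compr1 h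
    have h1 : Sig00 S (fun v : ℕ → M => v 0 = pair (v 1) (v 2) ∧ φ (v 1) (v 2)) :=
      Sig00.and (Sig00.eq (Term.var 0) (Term.pair (Term.var 1) (Term.var 2))) hφ
    have h2 := Sig00.bex 2 h1 (Term.add (Term.var 0) (Term.const 1))
    have h3 := Sig00.bex 1 h2 (Term.add (Term.var 0) (Term.const 1))
    simpa using h3
  · intro x y
    constructor
    · rintro ⟨x', -, y', -, he, hp⟩
      obtain ⟨rfl, rfl⟩ := pair_inj h he
      exact hp
    · intro hp
      exact ⟨x, (lt_succ h).mpr (left_le_pair h x y), y, (lt_succ h).mpr (right_le_pair h x y), rfl, hp⟩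

end Lemmas

end Pool.Agent.H24.RCA
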