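import Mathlib

/-!
Models of the second order theory `RCA₀` (shallow embedding of `Σ⁰₀`, `Σ⁰₁`, `Π⁰₁` formulas).
-/

namespace Pool.Agent.H24.RCA

open Function

section Defs

variable {M : Type} [CommSemiring M] [LinearOrder M] [IsStrictOrderedRing M]

/-- Number terms of the language of second order arithmetic, as functions of a valuation
`v : ℕ → M` of the number variables `x₀, x₁, …` (elements of `M` are allowed as parameters). -/
inductive Term : ((ℕ → M) → M) → Prop
  | const (a : M) : Term (fun _ => a)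
  | var (i : ℕ) : Term (fun v => v i)
  | add {s t : (ℕ → M) → M} : Term s → Term t → Term (fun v => s v + t v)
  | mul {s t : (ℕ → M) → M} : Term s → Term t → Term (fun v => s v * t v)

/-- Relations defined by `Σ⁰₀` (bounded quantifier) formulas with parameters from the model
`(M, S)`, as predicates of the valuation. `update v i a` is the valuation `v` with the value of
`xᵢ` changed to `a`. -/
inductive Sig00 (S : Set (Set M)) : ((ℕ → M) → Prop) → Prop
  | eq {s t : (ℕ → M) → M} : Term s → Term t → Sig00 S (fun v => s v = t v)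
  | lt {s t : (ℕ → M) → M} : Term s → Term t → Sig00 S (fun v => s v < t v)
  | mem {X : Set M} {t : (ℕ → M) → M} : X ∈ S → Term t → Sig00 S (fun v => t v ∈ X)
  | not {P : (ℕ → M) → Prop} : Sig00 S P → Sig00 S (fun v => ¬ P v)
  | and {P Q : (ℕ → M) → Prop} : Sig00 S P → Sig00 S Q → Sig00 S (fun v => P v ∧ Q v)
  | ball {P : (ℕ → M) → Prop} {t : (ℕ → M) → M} (i : ℕ) : Sig00 S P → Term t →
      Sig00 S (fun v => ∀ a, a < t v → P (update v i a))

/-- Relations defined by `Σ⁰₁` formulas: `Σ⁰₀` or `∃ xᵢ θ` with `θ` a `Σ⁰₀` formula. -/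
def Sig01 (S : Set (Set M)) (P : (ℕ → M) → Prop) : Prop :=
  Sig00 S P ∨ ∃ (i : ℕ) (Q : (ℕ → M) → Prop), Sig00 S Q ∧ P = fun v => ∃ a, Q (update v i a)

/-- Relations defined by `Π⁰₁` formulas: `Σ⁰₀` or `∀ xᵢ θ` with `θ` a `Σ⁰₀` formula. -/
def Pi01 (S : Set (Set M)) (P : (ℕ → M) → Prop) : Prop :=
  Sig00 S P ∨ ∃ (i : ℕ) (Q : (ℕ → M) → Prop), Sig00 S Q ∧ P = fun v => ∀ a, Q (update v i a)

/-- `(M, S)` is a model of `RCA₀`: `M` is (the nonnegative part of) a discretely ordered ring,
`Σ⁰₁` induction and `Δ⁰₁` comprehension hold. -/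
structure Model (M : Type) [CommSemiring M] [LinearOrder M] [IsStrictOrderedRing M]
    (S : Set (Set M)) : Prop where
  zero_le : ∀ x : M, 0 ≤ x
  discrete : ∀ x : M, 0 < x → 1 ≤ x
  sub : ∀ x y : M, x ≤ y → ∃ z, x + z = y
  induction : ∀ P : (ℕ → M) → Prop, Sig01 S P → ∀ (v : ℕ → M) (i : ℕ),
    P (update v i 0) → (∀ x, P (update v i x) → P (update v i (x + 1))) →
      ∀ x, P (update v i x)
  comprehension : ∀ P Q : (ℕ → M) → Prop, Sig01 S P → Pi01 S Q → ∀ (v : ℕ → M) (i : ℕ),
    (∀ x, P (update v i x) ↔ Q (update v i x)) → {x | P (update v i x)} ∈ S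

/-- The pairing function `(x, y) = (x + y)² + x`. -/
def pair (x y : M) : M := (x + y) * (x + y) + x

/-- The binary relation coded by a set `R`. -/
def rel (R : Set M) (x y : M) : Prop := pair x y ∈ R

/-- `A` is infinite (unbounded). -/
def Inf (A : Set M) : Prop := ∀ b : M, ∃ x ∈ A, b < x

end Defs

end Pool.Agent.H24.RCA
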