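import Pool.Agent.H24.RCADefs

namespace Pool.Agent.H24.RRP

open Function Pool.Agent.H24.RCA

section Defs

variable {M : Type} [CommSemiring M] [LinearOrder M] [IsStrictOrderedRing M]

/-- A subset of `M` is finite (in the sense of the model, when it belongs to `S`): bounded. -/
def Fin' (A : Set M) : Prop := ∃ b : M, ∀ x ∈ A, x ≤ b

/-- `E ∈ S` is a coding of the finite sets of the model `(M, S)` by numbers (for example by binary
expansions): `rel E v x` says that `v` belongs to the finite set with code `x`. The elements of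
the set with code `x` are less than `x`, and every finite set of the model has exactly one
code. -/
structure Coding (S : Set (Set M)) (E : Set M) : Prop where
  mem : E ∈ S
  lt : ∀ v x, rel E v x → v < x
  exists_code : ∀ B ∈ S, Fin' B → ∃ x, ∀ v, rel E v x ↔ v ∈ B
  unique : ∀ x y, (∀ v, rel E v x ↔ rel E v y) → x = y

/-- `A` codes the adjacency relation of a simple graph on the vertex set `V`. -/
def IsGraph (V A : Set M) : Prop :=
  (∀ x ∈ V, ¬ rel A x x) ∧ (∀ x ∈ V, ∀ y ∈ V, rel A x y → rel A y x)

/-- `(V, A)` is a copy of the Rado graph (extension property for the finite sets of the model). -/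
def IsRado (S : Set (Set M)) (V A : Set M) : Prop :=
  IsGraph V A ∧ ∀ U ∈ S, ∀ W ∈ S, U ⊆ V → W ⊆ V → Fin' U → Fin' W → (∀ x ∈ U, x ∉ W) →
    ∃ v ∈ V, v ∉ U ∧ v ∉ W ∧ (∀ u ∈ U, rel A v u) ∧ (∀ w ∈ W, ¬ rel A v w)

/-- The finite vertex set with code `x` is a copy in the graph `(V, A)` of the finite graph with
vertices `i < N` and adjacency relation coded by `G`: it is contained in `V` and some `f ∈ S` is
an isomorphism from the finite graph onto the subgraph induced on it. -/
def IsCopy (S : Set (Set M)) (E V A : Set M) (N : M) (G : Set M) (x : M) : Prop :=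
  (∀ v, rel E v x → v ∈ V) ∧ ∃ f ∈ S,
    (∀ i, i < N → ∃ v, rel E v x ∧ rel f i v) ∧
    (∀ v, rel E v x → ∃ i, i < N ∧ rel f i v) ∧
    (∀ i v w, i < N → rel E v x → rel E w x → rel f i v → rel f i w → v = w) ∧
    (∀ i j v, i < N → j < N → rel E v x → rel f i v → rel f j v → i = j) ∧
    (∀ i j v w, i < N → j < N → rel E v x → rel E w x → rel f i v → rel f j w →
      (rel G i j ↔ rel A v w))

/-- `c` is a coloring (with elements of `M` as colors) of the copies of the finite graph `(N, G)`
in `(V, A)`. -/
def IsColoring (S : Set (Set M)) (E V A : Set M) (N : M) (G c : Set M) : Prop :=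
  (∀ x y, rel c x y → IsCopy S E V A N G x) ∧
  (∀ x, IsCopy S E V A N G x → ∃ y, rel c x y) ∧
  (∀ x y z, rel c x y → rel c x z → y = z)

/-- Every color is used at most `k` times. -/
def IsBounded (k : ℕ) (c : Set M) : Prop :=
  ∀ (y : M) (s : Finset M), (∀ x ∈ s, rel c x y) → s.card ≤ k

/-- The principle `RRP_k` in the structure `(M, S)` (finite sets coded by `E`): for every Rado
graph `(V, A)`, every finite graph `(N, G)` and every `k`-bounded coloring `c` of its copies in
`(V, A)` there is `X ⊆ V` inducing again a Rado graph such that `c` is injective on the copies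
contained in `X`. -/
def RRP (S : Set (Set M)) (E : Set M) (k : ℕ) : Prop :=
  ∀ V ∈ S, ∀ A ∈ S, IsRado S V A → ∀ (N : M), ∀ G ∈ S, IsGraph {i | i < N} G →
    ∀ c ∈ S, IsColoring S E V A N G c → IsBounded k c →
      ∃ X ∈ S, X ⊆ V ∧ IsRado S X A ∧
        ∀ x x' y, (∀ v, rel E v x → v ∈ X) → (∀ v, rel E v x' → v ∈ X) →
          rel c x y → rel c x' y → x = x'

end Defs

end Pool.Agent.H24.RRP
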