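import Pool.Agent.H24.RCA
import Pool.Agent.H24.RRPDefs

set_option linter.unusedSectionVars false
set_option linter.unusedVariables false

namespace Pool.Agent.H24.RRP

open Function Pool.Agent.H24.RCA

section Proof

variable {M : Type} [CommSemiring M] [LinearOrder M] [IsStrictOrderedRing M]
variable {S : Set (Set M)} {E V A c : Set M}

/-- there are `j` smaller elements with color `y` -/
def Late (c : Set M) : ℕ → M → M → Prop :=
  fun j => Nat.rec (motive := fun _ => M → M → Prop) (fun _ _ => True)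
    (fun _ L x y => ∃ x1, x1 < x ∧ (rel c x1 y ∧ L x1 y)) j

lemma Late_zero (x y : M) : Late c 0 x y ↔ True := Iff.rfl
lemma Late_succ (j : ℕ) (x y : M) :
    Late c (j+1) x y ↔ ∃ x1, x1 < x ∧ (rel c x1 y ∧ Late c j x1 y) := Iff.rfl

lemma Late_def (hc : c ∈ S) {b : (ℕ → M) → M} (hb : Term b)
    (fb : ∀ v x, b (update v 9 x) = b v) (j : ℕ) :
    ∀ a : (ℕ → M) → M, Term a → Sig00 S (fun v => Late c j (a v) (b v)) := by
  induction j with
  | zero =>
    intro a ha
    have h : Sig00 S (fun v : ℕ → M => v 0 = v 0) := Sig00.eq (Term.var 0) (Term.var 0)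
    have he : (fun v : ℕ → M => v 0 = v 0) = (fun v => Late c 0 (a v) (b v)) := by
      funext v; simp [Late_zero]
    rwa [he] at h
  | succ j ih =>
    intro a ha
    have h1 : Sig00 S (fun v => rel c (v 9) (b v) ∧ Late c j (v 9) (b v)) :=
      Sig00.and (Sig00.rel hc (Term.var 9) hb) (ih _ (Term.var 9))
    have h2 := Sig00.bex 9 h1 ha
    simp only [update_self, fb] at h2
    exact h2

lemma Late_of_finset (j : ℕ) : ∀ (x y : M) (s : Finset M), s.card = j →
    (∀ z ∈ s, z < x ∧ rel c z y) → Late c j x y := by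
  induction j with
  | zero => intro x y s _ _; rw [Late_zero]; trivial
  | succ j ih =>
    intro x y s hs h
    have hne : s.Nonempty := by
      rw [← Finset.card_pos, hs]; omega
    rw [Late_succ]
    refine ⟨s.max' hne, (h _ (s.max'_mem hne)).1, (h _ (s.max'_mem hne)).2, ?_⟩
    apply ih _ _ (s.erase (s.max' hne))
    · rw [Finset.card_erase_of_mem (s.max'_mem hne), hs]; rfl
    · intro z hz
      rw [Finset.mem_erase] at hz
      exact ⟨lt_of_le_of_ne (s.le_max' z hz.2) hz.1, (h z hz.2).2⟩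

lemma finset_of_Late (j : ℕ) : ∀ (x y : M), Late c j x y →
    ∃ s : Finset M, s.card = j ∧ ∀ z ∈ s, z < x ∧ rel c z y := by
  induction j with
  | zero => intro x y _; exact ⟨∅, rfl, by simp⟩
  | succ j ih =>
    intro x y h
    rw [Late_succ] at h
    obtain ⟨x1, hx1, hr, hL⟩ := h
    obtain ⟨s, hs, h⟩ := ih x1 y hL
    refine ⟨insert x1 s, ?_, ?_⟩
    · rw [Finset.card_insert_of_notMem, hs]
      intro hmem
      exact lt_irrefl _ (h x1 hmem).1
    · intro z hz
      rw [Finset.mem_insert] at hz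
      rcases hz with rfl | hz
      · exact ⟨hx1, hr⟩
      · exact ⟨lt_trans (h z hz).1 hx1, (h z hz).2⟩

lemma split (hmod : Model M S) (hc : c ∈ S) (k : ℕ) :
    ∃ c' ∈ S, ∀ x y', rel c' x y' ↔
      ((∃ y, y < y' + 1 ∧ (y' = pair y 0 ∧ rel c x y ∧ ¬ Late c k x y)) ∨
       (∃ y, y < y' + 1 ∧ (y' = pair y 1 ∧ rel c x y ∧ Late c k x y))) := by
  apply relCompr hmod
  have hL := Late_def (S := S) hc (b := fun v => v 3) (Term.var 3) (by intro v x; simp) k
    (fun v => v 1) (Term.var 1)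
  have h0 : Sig00 S (fun v : ℕ → M => v 2 = pair (v 3) 0 ∧ rel c (v 1) (v 3) ∧
      ¬ Late c k (v 1) (v 3)) :=
    Sig00.and (Sig00.eq (Term.var 2) (Term.pair (Term.var 3) (Term.const 0)))
      (Sig00.and (Sig00.rel hc (Term.var 1) (Term.var 3)) (Sig00.not hL))
  have h1 : Sig00 S (fun v : ℕ → M => v 2 = pair (v 3) 1 ∧ rel c (v 1) (v 3) ∧
      Late c k (v 1) (v 3)) :=
    Sig00.and (Sig00.eq (Term.var 2) (Term.pair (Term.var 3) (Term.const 1)))
      (Sig00.and (Sig00.rel hc (Term.var 1) (Term.var 3)) hL)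
  have h2 := Sig00.or (Sig00.bex 3 h0 (Term.add (Term.var 2) (Term.const 1)))
    (Sig00.bex 3 h1 (Term.add (Term.var 2) (Term.const 1)))
  simpa using h2

theorem RRP_succ (hmod : Model M S) (hE : Coding S E) {k : ℕ} (hk : 2 ≤ k)
    (h : RRP S E k) : RRP S E (k + 1) := by
  intro V hV A hA hRado N G hG hGg c hc hcol hbd
  obtain ⟨c', hc', hrel⟩ := split hmod hc k
  have hrel0 : ∀ x y, rel c' x (pair y 0) ↔ (rel c x y ∧ ¬ Late c k x y) := by
    intro x y
    rw [hrel]
    constructor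
    · rintro (⟨z, _, hz, h1, h2⟩ | ⟨z, _, hz, h1, h2⟩)
      · obtain ⟨rfl, _⟩ := pair_inj hmod hz
        exact ⟨h1, h2⟩
      · obtain ⟨_, h3⟩ := pair_inj hmod hz
        exact absurd h3 zero_ne_one
    · rintro ⟨h1, h2⟩
      exact Or.inl ⟨y, (lt_succ hmod).mpr (left_le_pair hmod y 0), rfl, h1, h2⟩
  have hrel1 : ∀ x y, rel c' x (pair y 1) ↔ (rel c x y ∧ Late c k x y) := by
    intro x y
    rw [hrel]
    constructor
    · rintro (⟨z, _, hz, h1, h2⟩ | ⟨z, _, hz, h1, h2⟩)
      · obtain ⟨_, h3⟩ := pair_inj hmod hz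
        exact absurd h3.symm zero_ne_one
      · obtain ⟨rfl, _⟩ := pair_inj hmod hz
        exact ⟨h1, h2⟩
    · rintro ⟨h1, h2⟩
      exact Or.inr ⟨y, (lt_succ hmod).mpr (left_le_pair hmod y 1), rfl, h1, h2⟩
  have hcol' : IsColoring S E V A N G c' := by
    refine ⟨?_, ?_, ?_⟩
    · intro x y' h1
      rw [hrel] at h1
      rcases h1 with ⟨y, _, _, h2, _⟩ | ⟨y, _, _, h2, _⟩ <;> exact hcol.1 x y h2
    · intro x hx
      obtain ⟨y, hy⟩ := hcol.2.1 x hx
      by_cases hL : Late c k x y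
      · exact ⟨pair y 1, (hrel1 x y).mpr ⟨hy, hL⟩⟩
      · exact ⟨pair y 0, (hrel0 x y).mpr ⟨hy, hL⟩⟩
    · intro x y' z' h1 h2
      rw [hrel] at h1 h2
      rcases h1 with ⟨y, _, rfl, h1, h1'⟩ | ⟨y, _, rfl, h1, h1'⟩ <;>
      rcases h2 with ⟨z, _, rfl, h2, h2'⟩ | ⟨z, _, rfl, h2, h2'⟩ <;>
      have hyz := hcol.2.2 x y z h1 h2 <;> subst hyz
      · rfl
      · exact absurd h2' h1'
      · exact absurd h1' h2'
      · rfl
  have hbd' : IsBounded k c' := by
    intro y' s hs
    rcases s.eq_empty_or_nonempty with rfl | ⟨x0, hx0⟩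
    · simp
    have h0 := hs x0 hx0
    rw [hrel] at h0
    rcases h0 with ⟨y, _, rfl, _, _⟩ | ⟨y, _, rfl, _, _⟩
    · have hs' : ∀ x ∈ s, rel c x y ∧ ¬ Late c k x y := fun x hx => (hrel0 x y).mp (hs x hx)
      by_contra hcon
      push Not at hcon
      have hne : s.Nonempty := ⟨x0, hx0⟩
      apply (hs' _ (s.max'_mem hne)).2
      obtain ⟨t, ht, htc⟩ := Finset.exists_subset_card_eq
        (show k ≤ (s.erase (s.max' hne)).card by
          rw [Finset.card_erase_of_mem (s.max'_mem hne)]; omega)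
      apply Late_of_finset k _ _ t htc
      intro z hz
      have hz' := ht hz
      rw [Finset.mem_erase] at hz'
      exact ⟨lt_of_le_of_ne (s.le_max' z hz'.2) hz'.1, (hs' z hz'.2).1⟩
    · have hs' : ∀ x ∈ s, rel c x y ∧ Late c k x y := fun x hx => (hrel1 x y).mp (hs x hx)
      have h1 : s.card ≤ 1 := by
        rw [Finset.card_le_one]
        -- two late elements would give k + 2 elements of the same color
        have key : ∀ a ∈ s, ∀ b ∈ s, ¬ a < b := by
          intro a ha b hb hab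
          obtain ⟨t, htc, ht⟩ := finset_of_Late k a y (hs' a ha).2
          have hb_t : b ∉ insert a t := by
            intro hmem
            rw [Finset.mem_insert] at hmem
            rcases hmem with h | h
            · exact hab.ne' h
            · exact lt_irrefl _ (lt_trans hab (ht b h).1)
          have ha_t : a ∉ t := fun h => lt_irrefl _ (ht a h).1
          have := hbd y (insert b (insert a t)) (by
            intro x hx
            rw [Finset.mem_insert, Finset.mem_insert] at hx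
            rcases hx with rfl | rfl | hx
            · exact (hs' _ hb).1
            · exact (hs' _ ha).1
            · exact (ht x hx).2)
          rw [Finset.card_insert_of_notMem hb_t, Finset.card_insert_of_notMem ha_t, htc] at this
          omega
        intro a ha b hb
        rcases lt_trichotomy a b with h | h | h
        · exact absurd h (key a ha b hb)
        · exact h
        · exact absurd h (key b hb a ha)
      omega
  obtain ⟨X, hX, hXV, hXR, hXinj⟩ := h V hV A hA hRado N G hG hGg c' hc' hcol' hbd'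
  -- the restriction of `c` to the copies inside `X`
  obtain ⟨c1, hc1, hrelc1⟩ : ∃ c1 ∈ S, ∀ x y, rel c1 x y ↔
      (rel c x y ∧ ∀ v, v < x → (rel E v x → v ∈ X)) := by
    apply relCompr hmod
    have h1 : Sig00 S (fun v : ℕ → M => rel E (v 3) (v 1) → v 3 ∈ X) :=
      Sig00.imp (Sig00.rel hE.mem (Term.var 3) (Term.var 1)) (Sig00.mem hX (Term.var 3))
    have h2 := Sig00.and (Sig00.rel hc (Term.var 1) (Term.var 2)) (Sig00.ball 3 h1 (Term.var 1))
    simpa using h2
  have hrelc1' : ∀ x y, rel c1 x y ↔ (rel c x y ∧ ∀ v, rel E v x → v ∈ X) := by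
    intro x y
    rw [hrelc1]
    constructor
    · rintro ⟨h1, h2⟩; exact ⟨h1, fun v hv => h2 v (hE.lt v x hv) hv⟩
    · rintro ⟨h1, h2⟩; exact ⟨h1, fun v _ hv => h2 v hv⟩
  have hcopy : ∀ x, IsCopy S E X A N G x ↔ (IsCopy S E V A N G x ∧ ∀ v, rel E v x → v ∈ X) := by
    intro x
    constructor
    · rintro ⟨h1, h2⟩; exact ⟨⟨fun v hv => hXV (h1 v hv), h2⟩, h1⟩
    · rintro ⟨⟨_, h2⟩, h1⟩; exact ⟨h1, h2⟩
  have hcol1 : IsColoring S E X A N G c1 := by
    refine ⟨?_, ?_, ?_⟩
    · intro x y hxy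
      rw [hrelc1'] at hxy
      rw [hcopy]
      exact ⟨hcol.1 x y hxy.1, hxy.2⟩
    · intro x hx
      rw [hcopy] at hx
      obtain ⟨y, hy⟩ := hcol.2.1 x hx.1
      exact ⟨y, (hrelc1' x y).mpr ⟨hy, hx.2⟩⟩
    · intro x y z h1 h2
      rw [hrelc1'] at h1 h2
      exact hcol.2.2 x y z h1.1 h2.1
  have hbd1 : IsBounded k c1 := by
    intro y s hs
    have hs' : ∀ x ∈ s, rel c x y ∧ ∀ v, rel E v x → v ∈ X := fun x hx => (hrelc1' x y).mp (hs x hx)
    classical
    have hsub : s ⊆ (s.filter (fun x => Late c k x y)) ∪ (s.filter (fun x => ¬ Late c k x y)) := by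
      intro x hx
      rw [Finset.mem_union, Finset.mem_filter, Finset.mem_filter]
      by_cases hL : Late c k x y
      · exact Or.inl ⟨hx, hL⟩
      · exact Or.inr ⟨hx, hL⟩
    have h1 : (s.filter (fun x => Late c k x y)).card ≤ 1 := by
      rw [Finset.card_le_one]
      intro a ha b hb
      rw [Finset.mem_filter] at ha hb
      exact hXinj a b (pair y 1) (hs' a ha.1).2 (hs' b hb.1).2
        ((hrel1 a y).mpr ⟨(hs' a ha.1).1, ha.2⟩) ((hrel1 b y).mpr ⟨(hs' b hb.1).1, hb.2⟩)
    have h2 : (s.filter (fun x => ¬ Late c k x y)).card ≤ 1 := by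
      rw [Finset.card_le_one]
      intro a ha b hb
      rw [Finset.mem_filter] at ha hb
      exact hXinj a b (pair y 0) (hs' a ha.1).2 (hs' b hb.1).2
        ((hrel0 a y).mpr ⟨(hs' a ha.1).1, ha.2⟩) ((hrel0 b y).mpr ⟨(hs' b hb.1).1, hb.2⟩)
    have h3 := Finset.card_le_card hsub
    have h4 := Finset.card_union_le (s.filter (fun x => Late c k x y))
      (s.filter (fun x => ¬ Late c k x y))
    omega
  obtain ⟨X2, hX2, hX2X, hX2R, hX2inj⟩ := h X hX A hA hXR N G hG hGg c1 hc1 hcol1 hbd1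
  refine ⟨X2, hX2, hX2X.trans hXV, hX2R, ?_⟩
  intro x x' y hx hx' hxy hxy'
  exact hX2inj x x' y hx hx' ((hrelc1' x y).mpr ⟨hxy, fun v hv => hX2X (hx v hv)⟩)
    ((hrelc1' x' y).mpr ⟨hxy', fun v hv => hX2X (hx' v hv)⟩)

theorem RRP_pred {k : ℕ} (h : RRP S E (k + 1)) : RRP S E k := by
  intro V hV A hA hRado N G hG hGg c hc hcol hbd
  exact h V hV A hA hRado N G hG hGg c hc hcol (fun y s hs => (hbd y s hs).trans (Nat.le_succ k))

end Proof

end Pool.Agent.H24.RRP
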