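import Mathlib

set_option autoImplicit false

namespace Pool.Agent.H24.RS

open Finset

/-- number of cells of rank `m` -/
def q (m : ℕ) : ℕ := 1000 ^ (m + 1)

lemma q_pos (m : ℕ) : 0 < q m := by unfold q; positivity
lemma qr_pos (m : ℕ) : (0:ℝ) < q m := by exact_mod_cast q_pos m

/-- the point of rank `m` in the cell `i` -/
noncomputable def pt (m i : ℕ) : ℝ := (i + 1 / 3 ^ (m + 1)) / q m

def isT (m : ℕ) (t : ℝ) : Prop := ∃ i, i < q m ∧ t = pt m i

lemma pt_lt (m i : ℕ) : (i : ℝ) / q m < pt m i := by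
  unfold pt
  apply div_lt_div_of_pos_right _ (qr_pos m)
  have : (0:ℝ) < 1 / 3 ^ (m + 1) := by positivity
  linarith

lemma pt_lt' (m i : ℕ) : pt m i < ((i:ℝ) + 1) / q m := by
  unfold pt
  apply div_lt_div_of_pos_right _ (qr_pos m)
  have : (1:ℝ) / 3 ^ (m + 1) < 1 := by
    rw [div_lt_one (by positivity)]
    exact one_lt_pow₀ (by norm_num) (by omega)
  linarith

lemma isT_lt {m m' : ℕ} (h : m < m') {t : ℝ} (h1 : isT m t) (h2 : isT m' t) : False := by
  obtain ⟨i, _, hi⟩ := h1
  obtain ⟨i', _, hi'⟩ := h2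
  obtain ⟨d, rfl⟩ := Nat.exists_eq_add_of_lt h
  rw [hi] at hi'
  unfold pt at hi'
  have e1 : ((i:ℝ) * 3 ^ (m + d + 2) + 3 ^ (d + 1)) * q (m + d + 1) =
      ((i':ℝ) * 3 ^ (m + d + 2) + 1) * q m := by
    have p1 := qr_pos m
    have p2 := qr_pos (m + d + 1)
    have e2 : (3:ℝ) ^ (m + d + 2) = 3 ^ (m + 1) * 3 ^ (d + 1) := by rw [← pow_add]; congr 1; ring
    have e3 : (3:ℝ) ^ (m + d + 1 + 1) = 3 ^ (m + 1) * 3 ^ (d + 1) := by rw [← pow_add]; congr 1; ring
    rw [e3] at hi'
    rw [e2]
    rw [div_eq_div_iff p1.ne' p2.ne'] at hi'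
    have q1 : (3:ℝ) ^ (m + 1) ≠ 0 := by positivity
    have q2 : (3:ℝ) ^ (d + 1) ≠ 0 := by positivity
    field_simp at hi'
    linarith
  have e2 : (i * 3 ^ (m + d + 2) + 3 ^ (d + 1)) * q (m + d + 1) =
      (i' * 3 ^ (m + d + 2) + 1) * q m := by exact_mod_cast e1
  have h3 : 3 ∣ (i' * 3 ^ (m + d + 2) + 1) * q m := by
    rw [← e2]
    apply Dvd.dvd.mul_right
    apply dvd_add
    · apply Dvd.dvd.mul_left
      exact dvd_pow_self 3 (by omega)
    · exact dvd_pow_self 3 (by omega)
  rcases (Nat.Prime.dvd_mul Nat.prime_three).1 h3 with h4 | h4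
  · have h5 : 3 ∣ i' * 3 ^ (m + d + 2) := Dvd.dvd.mul_left (dvd_pow_self 3 (by omega)) _
    have h6 := (Nat.dvd_add_right h5).1 h4
    omega
  · unfold q at h4
    have := Nat.Prime.dvd_of_dvd_pow Nat.prime_three h4
    omega

lemma isT_unique {m m' : ℕ} {t : ℝ} (h1 : isT m t) (h2 : isT m' t) : m = m' := by
  rcases lt_trichotomy m m' with h | h | h
  · exact (isT_lt h h1 h2).elim
  · exact h
  · exact (isT_lt h h2 h1).elim

abbrev ι := Option (Option (ℕ × Finset ℕ))

open Classical in
/-- coordinates -/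
noncomputable def F (t : ℝ) : ι → ℝ
  | none => if ∃ m, isT m t then 0 else 1
  | some none => if ∃ m, isT m t ∧ Odd m then 1 else 0
  | some (some (l, A)) => if (∃ m, l ≤ m ∧ isT m t) ∧ A ⊆ range (q l) then
      (if ⌊t * q l⌋₊ ∈ A then 1 else 0) - (A.card : ℝ) / q l else 0

open Classical in
lemma F_none (t : ℝ) : F t none = if ∃ m, isT m t then 0 else 1 := rfl
open Classical in
lemma F_type (t : ℝ) : F t (some none) = if ∃ m, isT m t ∧ Odd m then 1 else 0 := rfl
open Classical in
lemma F_pen (t : ℝ) (l : ℕ) (A : Finset ℕ) : F t (some (some (l, A))) =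
    if (∃ m, l ≤ m ∧ isT m t) ∧ A ⊆ range (q l) then
      (if ⌊t * q l⌋₊ ∈ A then 1 else 0) - (A.card : ℝ) / q l else 0 := rfl

lemma F_bound (t : ℝ) (a : ι) : |F t a| ≤ 1 := by
  match a with
  | none => rw [F_none]; split_ifs <;> simp
  | some none => rw [F_type]; split_ifs <;> simp
  | some (some (l, A)) =>
    rw [F_pen]
    split_ifs with h1 h2
    · have e1 : (A.card : ℝ) / q l ≤ 1 := by
        rw [div_le_one (qr_pos l)]
        have := card_le_card h1.2
        rw [card_range] at this
        exact_mod_cast this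
      have e2 : 0 ≤ (A.card : ℝ) / q l := by positivity
      rw [abs_le]; constructor <;> linarith
    · have e1 : (A.card : ℝ) / q l ≤ 1 := by
        rw [div_le_one (qr_pos l)]
        have := card_le_card h1.2
        rw [card_range] at this
        exact_mod_cast this
      have e2 : 0 ≤ (A.card : ℝ) / q l := by positivity
      rw [abs_le]; constructor <;> linarith
    · simp

lemma F_finite (t : ℝ) : {a | F t a ≠ 0}.Finite := by
  by_cases h : ∃ m, isT m t
  · obtain ⟨m, hm⟩ := h
    have hsub : {a | F t a ≠ 0} ⊆ ({none, some none} : Set ι) ∪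
        ((fun p : ℕ × Finset ℕ => some (some p)) '' (↑((range (m + 1)) ×ˢ (range (q m)).powerset) : Set (ℕ × Finset ℕ))) := by
      intro a ha
      match a with
      | none => left; simp
      | some none => left; simp
      | some (some (l, A)) =>
        right
        refine ⟨(l, A), ?_, rfl⟩
        have h2 : (∃ m, l ≤ m ∧ isT m t) ∧ A ⊆ range (q l) := by
          by_contra hcon
          apply ha
          rw [F_pen, if_neg hcon]
        obtain ⟨⟨m', hl, hm'⟩, hA⟩ := h2
        have := isT_unique hm hm'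
        subst this
        simp only [coe_product, Set.mem_prod, Finset.mem_coe, mem_range, mem_powerset]
        refine ⟨by omega, hA.trans ?_⟩
        apply range_subset_range.2
        unfold q
        exact Nat.pow_le_pow_right (by norm_num) (by omega)
    refine Set.Finite.subset ?_ hsub
    apply Set.Finite.union (by simp)
    exact (Finset.finite_toSet _).image _
  · have hsub : {a | F t a ≠ 0} ⊆ ({none} : Set ι) := by
      intro a ha
      match a with
      | none => simp
      | some none =>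
        exfalso; apply ha
        rw [F_type, if_neg]
        rintro ⟨m, hm, _⟩
        exact h ⟨m, hm⟩
      | some (some (l, A)) =>
        exfalso; apply ha
        rw [F_pen, if_neg]
        rintro ⟨⟨m, _, hm⟩, _⟩
        exact h ⟨m, hm⟩
    exact (Set.finite_singleton none).subset hsub

noncomputable def e : ι ≃ ℕ := Denumerable.eqv ι

/-- elements of `c₀` from finitely supported functions -/
noncomputable def mk (g : ι → ℝ) (hg : {a | g a ≠ 0}.Finite) : ZeroAtInftyContinuousMap ℕ ℝ where
  toFun j := g (e.symm j)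
  continuous_toFun := continuous_of_discreteTopology
  zero_at_infty' := by
    rw [Filter.cocompact_eq_cofinite]
    have h1 : {j : ℕ | g (e.symm j) ≠ 0}.Finite := by
      refine (hg.image e).subset ?_
      intro j hj
      exact ⟨e.symm j, hj, by simp⟩
    apply tendsto_nhds_of_eventually_eq
    rw [Filter.eventually_cofinite]
    exact h1

lemma mk_apply (g : ι → ℝ) (hg : {a | g a ≠ 0}.Finite) (a : ι) : mk g hg (e a) = g a := by
  change g (e.symm (e a)) = g a
  simp

noncomputable def f (t : ℝ) : ZeroAtInftyContinuousMap ℕ ℝ := mk (F t) (F_finite t)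

lemma f_apply (t : ℝ) (a : ι) : f t (e a) = F t a := mk_apply _ _ _

lemma norm_le' (v : ZeroAtInftyContinuousMap ℕ ℝ) (C : ℝ) (hC : 0 ≤ C) (h : ∀ a : ι, |v (e a)| ≤ C) :
    ‖v‖ ≤ C := by
  rw [← ZeroAtInftyContinuousMap.norm_toBCF_eq_norm, BoundedContinuousFunction.norm_le hC]
  intro j
  have := h (e.symm j)
  simpa using this

lemma coord_le (v : ZeroAtInftyContinuousMap ℕ ℝ) (j : ℕ) : |v j| ≤ ‖v‖ := by
  rw [← ZeroAtInftyContinuousMap.norm_toBCF_eq_norm]
  exact BoundedContinuousFunction.norm_coe_le_norm v.toBCF j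

lemma f_norm (t : ℝ) : ‖f t‖ ≤ 1 :=
  norm_le' _ _ zero_le_one (fun a => by rw [f_apply]; exact F_bound t a)

open Classical in
/-- the unit vector of the type coordinate -/
noncomputable def E : ZeroAtInftyContinuousMap ℕ ℝ :=
  mk (fun a => if a = some none then 1 else 0) (by
    refine (Set.finite_singleton (some none)).subset ?_
    intro a ha
    by_contra h
    apply ha
    exact if_neg h)

end Pool.Agent.H24.RS
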