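import Pool.Agent.H24.RSa

set_option autoImplicit false

namespace Pool.Agent.H24.RS

open Finset

section partition
variable {n : ℕ} {x t : ℕ → ℝ}
variable (hx0 : x 0 = 0) (hxn : x n = 1) (hm : ∀ i, i < n → x i < x (i+1))
  (ht : ∀ i, i < n → x i ≤ t i ∧ t i ≤ x (i+1))

include hm in
lemma x_mono {i j : ℕ} (hij : i ≤ j) (hj : j ≤ n) : x i ≤ x j := by
  induction j, hij using Nat.le_induction with
  | base => exact le_rfl
  | succ j hij ih => exact (ih (by omega)).trans (hm j (by omega)).le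

include hm in
lemma x_strict {i j : ℕ} (hij : i < j) (hj : j ≤ n) : x i < x j :=
  lt_of_lt_of_le (hm i (by omega)) (x_mono hm (show i + 1 ≤ j by omega) hj)

include hm ht in
/-- a tag in the open interval `(x i, x (i+1))` is the tag `t i` -/
lemma tag_unique {i j : ℕ} (hi : i < n) (hj : j < n) (h1 : x i < t j) (h2 : t j < x (i+1)) : j = i := by
  rcases lt_trichotomy j i with h | h | h
  · exfalso
    have := x_mono hm (show j + 1 ≤ i by omega) hi.le
    have := (ht j hj).2
    linarith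
  · exact h
  · exfalso
    have := x_mono hm (show i + 1 ≤ j by omega) hj.le
    have := (ht j hj).1
    linarith

include hm ht in
lemma fiber {i j : ℕ} (hi : i < n) (hj : j < n) (h : t i = t j) (hij : i < j) : j = i + 1 := by
  by_contra hne
  have h1 := x_strict hm (show i + 1 < j by omega) hj.le
  have h2 := (ht i hi).2
  have h3 := (ht j hj).1
  linarith

lemma card_two (s : Finset ℕ) (h : ∀ i ∈ s, ∀ j ∈ s, i < j → j = i + 1) : s.card ≤ 2 := by
  rcases s.eq_empty_or_nonempty with h0 | h0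
  · rw [h0]; simp
  · have hsub : s ⊆ {s.min' h0, s.min' h0 + 1} := by
      intro j hj
      rw [mem_insert, mem_singleton]
      rcases (s.min'_le j hj).eq_or_lt with h1 | h1
      · left; exact h1.symm
      · right; exact h _ (s.min'_mem h0) _ hj h1
    exact (card_le_card hsub).trans card_le_two

open Classical in
/-- the indices whose tag has rank `< l` -/
noncomputable def I (n : ℕ) (t : ℕ → ℝ) (l : ℕ) : Finset ℕ :=
  (range n).filter (fun i => ∃ m, m < l ∧ isT m (t i))

include hm ht in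
lemma card_I (l : ℕ) : (I n t l).card ≤ 2 * ∑ m ∈ range l, q m := by
  classical
  have h1 : (I n t l).card ≤ 2 * ((I n t l).image t).card := by
    apply card_le_mul_card_image
    intro a _
    apply card_two
    intro i hi j hj hij
    rw [mem_filter] at hi hj
    have hi1 := (mem_filter.1 hi.1).1
    have hj1 := (mem_filter.1 hj.1).1
    exact fiber hm ht (mem_range.1 hi1) (mem_range.1 hj1) (hi.2.trans hj.2.symm) hij
  refine h1.trans (Nat.mul_le_mul_left 2 ?_)
  have h2 : (I n t l).image t ⊆ (range l).biUnion (fun m => (range (q m)).image (fun i => pt m i)) := by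
    intro a ha
    obtain ⟨i, hi, rfl⟩ := mem_image.1 ha
    obtain ⟨_, m, hml, j, hj, hjt⟩ := mem_filter.1 hi
    rw [mem_biUnion]
    exact ⟨m, mem_range.2 hml, mem_image.2 ⟨j, mem_range.2 hj, hjt.symm⟩⟩
  refine (card_le_card h2).trans (card_biUnion_le.trans (sum_le_sum ?_))
  intro m _
  exact card_image_le.trans (by rw [card_range])

lemma sum_q (l : ℕ) : 999 * ∑ m ∈ range l, q m ≤ q l := by
  induction l with
  | zero => simp
  | succ l ih =>
    rw [sum_range_succ, mul_add]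
    have : q (l+1) = 1000 * q l := by unfold q; ring
    omega

/-- number of closed cells in an open interval -/
lemma cells (Q : ℕ) (hQ : 0 < Q) {a b : ℝ} (ha : 0 ≤ a) (hb : b ≤ 1) (hab : a < b) (s : Finset ℕ)
    (hs : ∀ c, c < Q → a < (c:ℝ) / Q → ((c:ℝ) + 1) / Q < b → c ∈ s) :
    (Q:ℝ) * (b - a) - 3 ≤ s.card := by
  have hQr : (0:ℝ) < Q := by exact_mod_cast hQ
  have hsub : Ico (⌊(Q:ℝ) * a⌋₊ + 1) (⌊(Q:ℝ) * b⌋₊ - 1) ⊆ s := by
    intro c hc
    rw [mem_Ico] at hc
    have h1 : (Q:ℝ) * a < c := by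
      have := Nat.lt_floor_add_one ((Q:ℝ) * a)
      have h2 : ((⌊(Q:ℝ) * a⌋₊ + 1 : ℕ) : ℝ) ≤ c := by exact_mod_cast hc.1
      push_cast at h2
      linarith
    have h2 : (c:ℝ) + 1 < Q * b := by
      have h3 : c + 1 < ⌊(Q:ℝ) * b⌋₊ := by omega
      have h4 : ((c + 1 : ℕ) : ℝ) < ⌊(Q:ℝ) * b⌋₊ := by exact_mod_cast h3
      have h5 := Nat.floor_le (show 0 ≤ (Q:ℝ) * b by nlinarith)
      push_cast at h4
      linarith
    apply hs
    · have h3 : (c:ℝ) < Q := by nlinarith
      exact_mod_cast h3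
    · rw [lt_div_iff₀ hQr]; linarith
    · rw [div_lt_iff₀ hQr]; linarith
  have h1 := card_le_card hsub
  rw [Nat.card_Ico] at h1
  have h2 : ((⌊(Q:ℝ) * b⌋₊ - 1 - (⌊(Q:ℝ) * a⌋₊ + 1) : ℕ) : ℝ) ≤ s.card := by exact_mod_cast h1
  have h3 := Nat.floor_le (show 0 ≤ (Q:ℝ) * a by positivity)
  have h4 := Nat.lt_floor_add_one ((Q:ℝ) * b)
  have h5 : ((⌊(Q:ℝ) * b⌋₊ : ℕ) : ℝ) ≤ ((⌊(Q:ℝ) * b⌋₊ - 1 - (⌊(Q:ℝ) * a⌋₊ + 1) : ℕ) : ℝ) + ⌊(Q:ℝ) * a⌋₊ + 2 := by
    have : ⌊(Q:ℝ) * b⌋₊ ≤ (⌊(Q:ℝ) * b⌋₊ - 1 - (⌊(Q:ℝ) * a⌋₊ + 1)) + ⌊(Q:ℝ) * a⌋₊ + 2 := by omega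
    exact_mod_cast this
  linarith

/-- weight of tags of rank `< l` -/
noncomputable def v (n : ℕ) (x t : ℕ → ℝ) (l : ℕ) : ℝ := ∑ i ∈ I n t l, (x (i+1) - x i)

open Classical in
/-- weight of tags of rank `≥ l` -/
noncomputable def mm (n : ℕ) (x t : ℕ → ℝ) (l : ℕ) : ℝ :=
  ∑ i ∈ (range n).filter (fun i => ∃ m, l ≤ m ∧ isT m (t i)), (x (i+1) - x i)

open Classical in
/-- weight of the tags outside `T` -/
noncomputable def w (n : ℕ) (x t : ℕ → ℝ) : ℝ :=
  ∑ i ∈ (range n).filter (fun i => ¬ ∃ m, isT m (t i)), (x (i+1) - x i)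

include hx0 hxn in
lemma total (l : ℕ) : v n x t l + mm n x t l + w n x t = 1 := by
  classical
  unfold v mm w I
  rw [sum_filter, sum_filter, sum_filter, ← sum_add_distrib, ← sum_add_distrib]
  have : ∀ i ∈ range n, ((if ∃ m, m < l ∧ isT m (t i) then x (i+1) - x i else 0) +
      (if ∃ m, l ≤ m ∧ isT m (t i) then x (i+1) - x i else 0) +
      (if ¬ ∃ m, isT m (t i) then x (i+1) - x i else 0)) = x (i+1) - x i := by
    intro i _
    by_cases h : ∃ m, isT m (t i)
    · obtain ⟨m, hm⟩ := h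
      rcases lt_or_ge m l with hl | hl
      · rw [if_pos ⟨m, hl, hm⟩, if_neg, if_neg]
        · ring
        · exact not_not.2 ⟨m, hm⟩
        · rintro ⟨m', hl', hm'⟩
          have := isT_unique hm hm'
          omega
      · rw [if_neg, if_pos ⟨m, hl, hm⟩, if_neg]
        · ring
        · exact not_not.2 ⟨m, hm⟩
        · rintro ⟨m', hl', hm'⟩
          have := isT_unique hm hm'
          omega
    · rw [if_neg, if_neg, if_pos h]
      · ring
      · rintro ⟨m', _, hm'⟩; exact h ⟨m', hm'⟩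
      · rintro ⟨m', _, hm'⟩; exact h ⟨m', hm'⟩
  rw [sum_congr rfl this, sum_range_sub, hx0, hxn, sub_zero]

/-- the Riemann sum -/
noncomputable def RSum (n : ℕ) (x t : ℕ → ℝ) : ZeroAtInftyContinuousMap ℕ ℝ :=
  ∑ i ∈ range n, (x (i+1) - x i) • f (t i)

lemma RSum_apply (a : ι) : RSum n x t (e a) = ∑ i ∈ range n, (x (i+1) - x i) * F (t i) a := by
  have key : ∀ s : Finset ℕ, (∑ i ∈ s, (x (i+1) - x i) • f (t i)) (e a) =
      ∑ i ∈ s, (x (i+1) - x i) * F (t i) a := by
    classical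
    intro s
    induction s using Finset.induction_on with
    | empty => simp
    | insert i s hi ih =>
      rw [sum_insert hi, sum_insert hi, ZeroAtInftyContinuousMap.add_apply, ih,
        ZeroAtInftyContinuousMap.smul_apply, smul_eq_mul, f_apply]
  exact key _

include hx0 hxn hm ht in
/-- the penalty -/
lemma penalty (l : ℕ) : ∃ a : ι, a ≠ some none ∧
    (v n x t l - 6 / 999) * mm n x t l ≤ |RSum n x t (e a)| := by
  classical
  let Ai : ℕ → Finset ℕ := fun i => (range (q l)).filter (fun c =>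
    x i < (c:ℝ) / q l ∧ ((c:ℝ) + 1) / q l < x (i+1))
  let A : Finset ℕ := (I n t l).biUnion Ai
  have hAsub : A ⊆ range (q l) := by
    intro c hc
    obtain ⟨i, _, hi⟩ := mem_biUnion.1 hc
    exact (mem_filter.1 hi).1
  have hcard : (A.card : ℝ) = ∑ i ∈ I n t l, ((Ai i).card : ℝ) := by
    rw [← Nat.cast_sum]
    congr 1
    apply card_biUnion
    intro i hi j hj hij
    rw [Function.onFun, disjoint_left]
    intro c hci hcj
    have hi' := mem_range.1 (mem_filter.1 hi).1
    have hj' := mem_range.1 (mem_filter.1 hj).1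
    obtain ⟨_, a1, a2⟩ := mem_filter.1 hci
    obtain ⟨_, b1, b2⟩ := mem_filter.1 hcj
    have hq := qr_pos l
    have h5 : (c:ℝ) / q l < ((c:ℝ) + 1) / q l := by
      apply div_lt_div_of_pos_right _ hq; linarith
    rcases lt_or_gt_of_ne hij with h | h
    · have := x_mono hm (show i + 1 ≤ j by omega) hj'.le
      linarith
    · have := x_mono hm (show j + 1 ≤ i by omega) hi'.le
      linarith
  have hlow : (q l : ℝ) * v n x t l - 3 * ((I n t l).card : ℝ) ≤ A.card := by
    rw [hcard]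
    unfold v
    rw [mul_sum]
    have : (3:ℝ) * ((I n t l).card : ℝ) = ∑ i ∈ I n t l, (3:ℝ) := by
      rw [sum_const, nsmul_eq_mul]; ring
    rw [this, ← sum_sub_distrib]
    apply sum_le_sum
    intro i hi
    have hi' := mem_range.1 (mem_filter.1 hi).1
    apply cells (q l) (q_pos l)
    · rw [← hx0]; exact x_mono hm (Nat.zero_le _) hi'.le
    · rw [← hxn]; exact x_mono hm (show i + 1 ≤ n by omega) le_rfl
    · exact hm i hi'
    · intro c hc h1 h2
      exact mem_filter.2 ⟨mem_range.2 hc, h1, h2⟩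
  have hI : (999:ℝ) * ((I n t l).card : ℝ) ≤ 2 * q l := by
    have h1 := card_I hm ht l
    have h2 := sum_q l
    have h3 : 999 * (I n t l).card ≤ 2 * q l := by
      calc 999 * (I n t l).card ≤ 999 * (2 * ∑ m ∈ range l, q m) := Nat.mul_le_mul_left _ h1
        _ = 2 * (999 * ∑ m ∈ range l, q m) := by ring
        _ ≤ 2 * q l := Nat.mul_le_mul_left _ h2
    exact_mod_cast h3
  have hq := qr_pos l
  have hfrac : v n x t l - 6 / 999 ≤ (A.card : ℝ) / q l := by
    rw [le_div_iff₀ hq]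
    nlinarith
  -- no tags of rank ≥ l in A
  have hno : ∀ j, j < n → (∃ m, l ≤ m ∧ isT m (t j)) → ⌊t j * q l⌋₊ ∉ A := by
    rintro j hj ⟨m, hlm, hmt⟩ hc
    obtain ⟨i, hi, hci⟩ := mem_biUnion.1 hc
    obtain ⟨hi1, m', hm'l, hm't⟩ := mem_filter.1 hi
    have hi' := mem_range.1 hi1
    obtain ⟨_, a1, a2⟩ := mem_filter.1 hci
    have htj : 0 ≤ t j := by
      have := x_mono hm (Nat.zero_le j) hj.le
      rw [hx0] at this
      exact this.trans (ht j hj).1
    have b1 := Nat.floor_le (show 0 ≤ t j * q l by positivity)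
    have b2 := Nat.lt_floor_add_one (t j * q l)
    have c1 : x i < t j := by
      have : ((⌊t j * q l⌋₊ : ℕ) : ℝ) / q l ≤ t j := by rw [div_le_iff₀ hq]; exact b1
      linarith
    have c2 : t j < x (i+1) := by
      have : t j < (((⌊t j * q l⌋₊ : ℕ) : ℝ) + 1) / q l := by rw [lt_div_iff₀ hq]; exact b2
      linarith
    have hji := tag_unique hm ht hi' hj c1 c2
    subst hji
    have := isT_unique hmt hm't
    omega
  refine ⟨some (some (l, A)), by simp, ?_⟩
  have hval : RSum n x t (e (some (some (l, A)))) = - ((A.card : ℝ) / q l) * mm n x t l := by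
    rw [RSum_apply]
    unfold mm
    rw [sum_filter, mul_sum]
    apply sum_congr rfl
    intro j hj
    rw [F_pen]
    by_cases h : ∃ m, l ≤ m ∧ isT m (t j)
    · rw [if_pos ⟨h, hAsub⟩, if_neg (hno j (mem_range.1 hj) h), if_pos h]
      ring
    · rw [if_neg (fun hh => h hh.1), if_neg h]
      ring
  rw [hval]
  have hmm : 0 ≤ mm n x t l := by
    apply sum_nonneg
    intro i hi
    have := hm i (mem_range.1 (mem_filter.1 hi).1)
    linarith
  rw [abs_mul, abs_neg, abs_of_nonneg hmm, abs_of_nonneg (by positivity : (0:ℝ) ≤ (A.card : ℝ) / q l)]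
  exact mul_le_mul_of_nonneg_right hfrac hmm

end partition
end Pool.Agent.H24.RS
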