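import Pool.Agent.H24.RSb

set_option autoImplicit false

namespace Pool.Agent.H24.RS

open Finset

open Classical in
lemma E_apply (a : ι) : E (e a) = if a = some none then 1 else 0 := mk_apply _ _ _

section partition
variable {n : ℕ} {x t : ℕ → ℝ}
variable (hx0 : x 0 = 0) (hxn : x n = 1) (hm : ∀ i, i < n → x i < x (i+1))
  (ht : ∀ i, i < n → x i ≤ t i ∧ t i ≤ x (i+1))

lemma exists_L (n : ℕ) (t : ℕ → ℝ) : ∃ L, ∀ i < n, ∀ m, isT m (t i) → m < L := by
  induction n with
  | zero => exact ⟨0, fun i hi => by omega⟩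
  | succ n ih =>
    obtain ⟨L, hL⟩ := ih
    by_cases h : ∃ m, isT m (t n)
    · obtain ⟨m0, hm0⟩ := h
      refine ⟨max L (m0 + 1), fun i hi m him => ?_⟩
      rcases Nat.lt_succ_iff_lt_or_eq.1 hi with h1 | h1
      · exact lt_of_lt_of_le (hL i h1 m him) (le_max_left _ _)
      · subst h1
        have := isT_unique him hm0
        omega
    · refine ⟨L, fun i hi m him => ?_⟩
      rcases Nat.lt_succ_iff_lt_or_eq.1 hi with h1 | h1
      · exact hL i h1 m him
      · subst h1
        exact (h ⟨m, him⟩).elim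

lemma v_zero : v n x t 0 = 0 := by
  classical
  unfold v I
  apply sum_eq_zero
  intro i hi
  obtain ⟨_, m, hm, _⟩ := mem_filter.1 hi
  omega

open Classical in
/-- weight of the rank `r` -/
noncomputable def d (n : ℕ) (x t : ℕ → ℝ) (r : ℕ) : ℝ :=
  ∑ i ∈ (range n).filter (fun i => isT r (t i)), (x (i+1) - x i)

lemma v_succ (r : ℕ) : v n x t (r+1) = v n x t r + d n x t r := by
  classical
  unfold v d I
  rw [sum_filter, sum_filter, sum_filter, ← sum_add_distrib]
  apply sum_congr rfl
  intro i _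
  by_cases h : isT r (t i)
  · rw [if_pos ⟨r, by omega, h⟩, if_neg, if_pos h]
    · ring
    · rintro ⟨m, hm, hmt⟩
      have := isT_unique h hmt
      omega
  · rw [if_neg h, add_zero]
    congr 1
    apply propext
    constructor
    · rintro ⟨m, hm, hmt⟩
      refine ⟨m, ?_, hmt⟩
      rcases Nat.lt_succ_iff_lt_or_eq.1 hm with h1 | h1
      · exact h1
      · subst h1; exact (h hmt).elim
    · rintro ⟨m, hm, hmt⟩
      exact ⟨m, by omega, hmt⟩

include hx0 hxn hm ht in
theorem far : 1 / 100 ≤ ‖RSum n x t - (1/2 : ℝ) • E‖ := by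
  classical
  by_contra hcon
  push Not at hcon
  have hc : ∀ a : ι, |RSum n x t (e a) - (1/2) * E (e a)| < 1 / 100 := by
    intro a
    have h1 := coord_le (RSum n x t - (1/2 : ℝ) • E) (e a)
    rw [ZeroAtInftyContinuousMap.sub_apply, ZeroAtInftyContinuousMap.smul_apply, smul_eq_mul] at h1
    exact lt_of_le_of_lt h1 hcon
  have hc0 : ∀ a : ι, a ≠ some none → |RSum n x t (e a)| < 1 / 100 := by
    intro a ha
    have := hc a
    rwa [E_apply, if_neg ha, mul_zero, sub_zero] at this
  have hpos : ∀ i ∈ range n, 0 ≤ x (i+1) - x i := by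
    intro i hi
    have := hm i (mem_range.1 hi)
    linarith
  -- w
  have hw : w n x t < 1 / 100 := by
    have h1 := hc0 none (by simp)
    have h2 : RSum n x t (e none) = w n x t := by
      rw [RSum_apply]
      unfold w
      rw [sum_filter]
      apply sum_congr rfl
      intro i _
      rw [F_none]
      by_cases h : ∃ m, isT m (t i)
      · rw [if_pos h, if_neg (not_not.2 h), mul_zero]
      · rw [if_neg h, if_pos h, mul_one]
    rw [h2] at h1
    exact (abs_lt.1 h1).2
  have hw0 : 0 ≤ w n x t := sum_nonneg (fun i hi => hpos i (mem_filter.1 hi).1)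
  have hmm0 : ∀ l, 0 ≤ mm n x t l := fun l => sum_nonneg (fun i hi => hpos i (mem_filter.1 hi).1)
  have hv0 : ∀ l, 0 ≤ v n x t l := fun l => sum_nonneg (fun i hi => hpos i (mem_filter.1 hi).1)
  have hpen : ∀ l, (v n x t l - 6 / 999) * (1 - w n x t - v n x t l) < 1 / 100 := by
    intro l
    obtain ⟨a, ha, hle⟩ := penalty hx0 hxn hm ht l
    have h1 := hc0 a ha
    have h2 := total (t := t) hx0 hxn l
    have h3 : mm n x t l = 1 - w n x t - v n x t l := by linarith
    rw [← h3]
    exact lt_of_le_of_lt hle h1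
  -- find the jump
  have hex : ∃ l, 1 / 2 < v n x t l := by
    obtain ⟨L, hL⟩ := exists_L n t
    refine ⟨L, ?_⟩
    have h1 : mm n x t L = 0 := by
      unfold mm
      apply sum_eq_zero
      intro i hi
      obtain ⟨hi1, m, hLm, hmt⟩ := mem_filter.1 hi
      have := hL i (mem_range.1 hi1) m hmt
      omega
    have h2 := total (t := t) hx0 hxn L
    linarith
  obtain ⟨r, hr⟩ : ∃ r, Nat.find hex = r + 1 := by
    have : Nat.find hex ≠ 0 := by
      intro h0
      have := Nat.find_spec hex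
      rw [h0, v_zero] at this
      linarith
    exact Nat.exists_eq_succ_of_ne_zero this
  have hr1 : 1 / 2 < v n x t (r+1) := by rw [← hr]; exact Nat.find_spec hex
  have hr2 : v n x t r ≤ 1 / 2 := by
    have := Nat.find_min hex (m := r) (by omega)
    exact not_lt.1 this
  have hlow : v n x t r < 2 / 100 := by
    by_contra h
    push Not at h
    have := hpen r
    nlinarith
  have hhigh : 95 / 100 < v n x t (r+1) := by
    by_contra h
    push Not at h
    have := hpen (r+1)
    nlinarith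
  have hd : 93 / 100 < d n x t r := by
    have := v_succ (n := n) (x := x) (t := t) r
    linarith
  -- the type coordinate
  have ho := hc (some none)
  rw [E_apply, if_pos rfl, RSum_apply] at ho
  simp only [F_type] at ho
  by_cases hodd : Odd r
  · have h1 : d n x t r ≤ ∑ i ∈ range n, (x (i+1) - x i) * (if ∃ m, isT m (t i) ∧ Odd m then 1 else 0) := by
      unfold d
      rw [sum_filter]
      apply sum_le_sum
      intro i hi
      by_cases h : isT r (t i)
      · rw [if_pos h, if_pos ⟨r, h, hodd⟩, mul_one]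
      · rw [if_neg h]
        apply mul_nonneg (hpos i hi)
        split_ifs <;> norm_num
    have := (abs_lt.1 ho).2
    linarith
  · have h1 : d n x t r + ∑ i ∈ range n, (x (i+1) - x i) * (if ∃ m, isT m (t i) ∧ Odd m then 1 else 0) ≤
        ∑ i ∈ range n, (x (i+1) - x i) := by
      unfold d
      rw [sum_filter, ← sum_add_distrib]
      apply sum_le_sum
      intro i hi
      by_cases h : isT r (t i)
      · rw [if_pos h, if_neg]
        · linarith
        · rintro ⟨m, hmt, hmo⟩
          have := isT_unique h hmt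
          subst this
          exact hodd hmo
      · rw [if_neg h]
        have := hpos i hi
        split_ifs <;> linarith
    rw [sum_range_sub, hx0, hxn] at h1
    have := (abs_lt.1 ho).1
    linarith

end partition

/-! ### pure partitions -/

lemma sum_div (D : ℕ) (hD : 0 < D) (N : ℕ) (g : ℕ → ℝ) :
    ∑ i ∈ range (N * D), g (i / D) = D * ∑ c ∈ range N, g c := by
  induction N with
  | zero => simp
  | succ N ih =>
    rw [Nat.succ_mul, sum_range_add, ih, sum_range_succ, mul_add]
    congr 1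
    have : ∀ k ∈ range D, g ((N * D + k) / D) = g N := by
      intro k hk
      congr 1
      rw [mul_comm, Nat.mul_add_div hD, Nat.div_eq_of_lt (mem_range.1 hk), add_zero]
    rw [sum_congr rfl this, sum_const, card_range, nsmul_eq_mul]

lemma floor_pt (l d i : ℕ) : ⌊pt (l + d) i * q l⌋₊ = i / 1000 ^ d := by
  have h1 : pt (l + d) i * q l = ((i:ℝ) + 1 / 3 ^ (l + d + 1)) / ((1000 ^ d : ℕ) : ℝ) := by
    unfold pt
    have h2 : q (l + d) = q l * 1000 ^ d := by unfold q; rw [← pow_add]; congr 1; ring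
    rw [h2]
    have := qr_pos l
    push_cast
    field_simp
  rw [h1, Nat.floor_div_natCast]
  congr 1
  rw [Nat.floor_eq_iff (by positivity)]
  have h3 : (0:ℝ) < 1 / 3 ^ (l + d + 1) := by positivity
  have h4 : (1:ℝ) / 3 ^ (l + d + 1) < 1 := by
    rw [div_lt_one (by positivity)]
    exact one_lt_pow₀ (by norm_num) (by omega)
  constructor <;> linarith

noncomputable def px (m : ℕ) (i : ℕ) : ℝ := (i:ℝ) / q m
noncomputable def ptag (m : ℕ) (i : ℕ) : ℝ := pt m i

lemma isT_ptag {m i : ℕ} (hi : i < q m) : isT m (ptag m i) := ⟨i, hi, rfl⟩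

lemma px_diff (m i : ℕ) : px m (i+1) - px m i = 1 / q m := by
  unfold px; push_cast; ring

open Classical in
lemma pure_sum (m : ℕ) : RSum (q m) (px m) (ptag m) = if Odd m then E else 0 := by
  have hq := qr_pos m
  have hT : ∀ i ∈ range (q m), isT m (ptag m i) := fun i hi => isT_ptag (mem_range.1 hi)
  ext j
  obtain ⟨a, rfl⟩ := e.surjective j
  rw [RSum_apply]
  simp_rw [px_diff]
  have hE : (if Odd m then E else (0 : ZeroAtInftyContinuousMap ℕ ℝ)) (e a) =
      if Odd m ∧ a = some none then 1 else 0 := by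
    by_cases h : Odd m
    · rw [if_pos h, E_apply]; simp [h]
    · rw [if_neg h]; simp [h]
  rw [hE]
  match a with
  | none =>
    rw [if_neg (by simp)]
    apply sum_eq_zero
    intro i hi
    rw [F_none, if_pos ⟨m, hT i hi⟩, mul_zero]
  | some none =>
    by_cases h : Odd m
    · rw [if_pos ⟨h, rfl⟩]
      have : ∀ i ∈ range (q m), (1:ℝ) / q m * F (ptag m i) (some none) = 1 / q m := by
        intro i hi
        rw [F_type, if_pos ⟨m, hT i hi, h⟩, mul_one]
      rw [sum_congr rfl this, sum_const, card_range, nsmul_eq_mul]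
      field_simp
    · rw [if_neg (fun hh => h hh.1)]
      apply sum_eq_zero
      intro i hi
      rw [F_type, if_neg, mul_zero]
      rintro ⟨m', hmt, hmo⟩
      have := isT_unique (hT i hi) hmt
      subst this
      exact h hmo
  | some (some (l, A)) =>
    rw [if_neg (by simp)]
    by_cases h : l ≤ m ∧ A ⊆ range (q l)
    · obtain ⟨hl, hA⟩ := h
      obtain ⟨d, rfl⟩ := Nat.exists_eq_add_of_le hl
      have h1 : ∀ i ∈ range (q (l + d)), (1:ℝ) / q (l + d) * F (ptag (l + d) i) (some (some (l, A))) =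
          (fun c : ℕ => (1:ℝ) / q (l + d) * ((if c ∈ A then 1 else 0) - (A.card : ℝ) / q l)) (i / 1000 ^ d) := by
        intro i hi
        rw [F_pen, if_pos ⟨⟨l + d, hl, hT i hi⟩, hA⟩]
        unfold ptag
        rw [floor_pt]
      have h2 : q (l + d) = q l * 1000 ^ d := by unfold q; rw [← pow_add]; congr 1; ring
      rw [sum_congr rfl h1]
      have h5 := sum_div (1000 ^ d) (by positivity) (q l)
        (fun c : ℕ => (1:ℝ) / q (l + d) * ((if c ∈ A then 1 else 0) - (A.card : ℝ) / q l))
      rw [← h2] at h5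
      rw [h5, ← mul_sum, sum_sub_distrib, sum_const, card_range, nsmul_eq_mul]
      have h3 : ∑ c ∈ range (q l), (if c ∈ A then (1:ℝ) else 0) = A.card := by
        rw [← sum_filter, sum_const, nsmul_eq_mul, mul_one]
        congr 2
        ext c
        rw [mem_filter]
        exact ⟨fun hh => hh.2, fun hh => ⟨hA hh, hh⟩⟩
      rw [h3]
      have := qr_pos l
      field_simp
      ring
    · apply sum_eq_zero
      intro i hi
      rw [F_pen, if_neg, mul_zero]
      rintro ⟨⟨m', hlm, hmt⟩, hA⟩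
      have := isT_unique (hT i hi) hmt
      subst this
      exact h ⟨hlm, hA⟩

lemma pure_valid (m : ℕ) : px m 0 = 0 ∧ px m (q m) = 1 ∧
    (∀ i, i < q m → px m i < px m (i+1)) ∧
    (∀ i, i < q m → px m i ≤ ptag m i ∧ ptag m i ≤ px m (i+1)) := by
  have hq := qr_pos m
  refine ⟨by simp [px], by unfold px; exact div_self hq.ne', ?_, ?_⟩
  · intro i _
    have := px_diff m i
    have h2 : 0 < 1 / (q m : ℝ) := by positivity
    linarith
  · intro i _
    refine ⟨(pt_lt m i).le, ?_⟩
    have := (pt_lt' m i).le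
    unfold px ptag
    push_cast
    exact this

lemma mesh (ε : ℝ) (hε : 0 < ε) : ∃ K : ℕ, ∀ m, K ≤ m → ∀ i, px m (i+1) - px m i < ε := by
  obtain ⟨K, hK⟩ := exists_nat_gt (1 / ε)
  refine ⟨K, fun m hm i => ?_⟩
  rw [px_diff]
  have hq := qr_pos m
  rw [div_lt_iff₀ hq]
  rw [div_lt_iff₀ hε] at hK
  have h1 : (K:ℝ) ≤ m := by exact_mod_cast hm
  have h2 : (m:ℝ) < q m := by
    have : m < q m := by
      unfold q
      calc m < 1000 ^ m := Nat.lt_pow_self (by norm_num)
        _ ≤ 1000 ^ (m+1) := Nat.pow_le_pow_right (by norm_num) (by omega)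
    exact_mod_cast this
  nlinarith

theorem main : ¬ (∀ f : ℝ → ZeroAtInftyContinuousMap ℕ ℝ,
      (∃ M : ℝ, ∀ s ∈ Set.Icc (0:ℝ) 1, ‖f s‖ ≤ M) →
      Convex ℝ {v : ZeroAtInftyContinuousMap ℕ ℝ |
        ∃ (n : ℕ → ℕ) (x t : ℕ → ℕ → ℝ),
          (∀ k, x k 0 = 0 ∧ x k (n k) = 1 ∧
            (∀ i, i < n k → x k i < x k (i+1)) ∧
            (∀ i, i < n k → x k i ≤ t k i ∧ t k i ≤ x k (i+1))) ∧
          (∀ ε : ℝ, 0 < ε → ∃ K : ℕ, ∀ k, K ≤ k → ∀ i, i < n k → x k (i+1) - x k i < ε) ∧
          Filter.Tendsto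
            (fun k => ∑ i ∈ Finset.range (n k), (x k (i+1) - x k i) • f (t k i))
            Filter.atTop (nhds v)}) := by
  intro hall
  have hconv := hall f ⟨1, fun s _ => f_norm s⟩
  have h0 : (0 : ZeroAtInftyContinuousMap ℕ ℝ) ∈ {v : ZeroAtInftyContinuousMap ℕ ℝ |
        ∃ (n : ℕ → ℕ) (x t : ℕ → ℕ → ℝ),
          (∀ k, x k 0 = 0 ∧ x k (n k) = 1 ∧
            (∀ i, i < n k → x k i < x k (i+1)) ∧
            (∀ i, i < n k → x k i ≤ t k i ∧ t k i ≤ x k (i+1))) ∧
          (∀ ε : ℝ, 0 < ε → ∃ K : ℕ, ∀ k, K ≤ k → ∀ i, i < n k → x k (i+1) - x k i < ε) ∧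
          Filter.Tendsto
            (fun k => ∑ i ∈ Finset.range (n k), (x k (i+1) - x k i) • f (t k i))
            Filter.atTop (nhds v)} := by
    refine ⟨fun k => q (2 * k), fun k => px (2 * k), fun k => ptag (2 * k), fun k => pure_valid _, ?_, ?_⟩
    · intro ε hε
      obtain ⟨K, hK⟩ := mesh ε hε
      exact ⟨K, fun k hk i _ => hK (2 * k) (by omega) i⟩
    · have : ∀ k : ℕ, ∑ i ∈ Finset.range (q (2 * k)), (px (2 * k) (i+1) - px (2 * k) i) • f (ptag (2 * k) i) = 0 := by
        intro k
        have := pure_sum (2 * k)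
        rw [if_neg (by simp)] at this
        exact this
      simp_rw [this]
      exact tendsto_const_nhds
  have h1 : E ∈ {v : ZeroAtInftyContinuousMap ℕ ℝ |
        ∃ (n : ℕ → ℕ) (x t : ℕ → ℕ → ℝ),
          (∀ k, x k 0 = 0 ∧ x k (n k) = 1 ∧
            (∀ i, i < n k → x k i < x k (i+1)) ∧
            (∀ i, i < n k → x k i ≤ t k i ∧ t k i ≤ x k (i+1))) ∧
          (∀ ε : ℝ, 0 < ε → ∃ K : ℕ, ∀ k, K ≤ k → ∀ i, i < n k → x k (i+1) - x k i < ε) ∧
          Filter.Tendsto
            (fun k => ∑ i ∈ Finset.range (n k), (x k (i+1) - x k i) • f (t k i))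
            Filter.atTop (nhds v)} := by
    refine ⟨fun k => q (2 * k + 1), fun k => px (2 * k + 1), fun k => ptag (2 * k + 1),
      fun k => pure_valid _, ?_, ?_⟩
    · intro ε hε
      obtain ⟨K, hK⟩ := mesh ε hε
      exact ⟨K, fun k hk i _ => hK (2 * k + 1) (by omega) i⟩
    · have : ∀ k : ℕ, ∑ i ∈ Finset.range (q (2 * k + 1)),
          (px (2 * k + 1) (i+1) - px (2 * k + 1) i) • f (ptag (2 * k + 1) i) = E := by
        intro k
        have := pure_sum (2 * k + 1)
        rw [if_pos ⟨k, rfl⟩] at this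
        exact this
      simp_rw [this]
      exact tendsto_const_nhds
  have h2 := hconv h0 h1 (a := 1/2) (b := 1/2) (by norm_num) (by norm_num) (by norm_num)
  rw [smul_zero, zero_add] at h2
  obtain ⟨n, x, t, hv, _, hlim⟩ := h2
  rw [Metric.tendsto_atTop] at hlim
  obtain ⟨K, hK⟩ := hlim (1/100) (by norm_num)
  have h3 := hK K le_rfl
  rw [dist_eq_norm] at h3
  obtain ⟨a1, a2, a3, a4⟩ := hv K
  have h4 := far a1 a2 a3 a4
  exact absurd h3 (not_lt.2 h4)

end Pool.Agent.H24.RS
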