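import Mathlib

open MeasureTheory Filter Topology

namespace Pool.Agent.H24.SA

/-- exponents -/
def nn (m : ℕ) : ℕ := Nat.rec 1 (fun m x => 3 ^ (5 * (m+1) * x)) m

lemma nn_zero : nn 0 = 1 := rfl

lemma nn_succ (m : ℕ) : nn (m+1) = 3 ^ (5 * (m+1) * nn m) := rfl

noncomputable def aa (m : ℕ) : ℝ := Nat.rec 1 (fun m _ => Real.exp (5 * nn m)) m

lemma aa_zero : aa 0 = 1 := rfl

lemma aa_succ (m : ℕ) : aa (m+1) = Real.exp (5 * nn m) := rfl

lemma nn_pos (m : ℕ) : 0 < nn m := by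
  cases m with
  | zero => rw [nn_zero]; norm_num
  | succ m => rw [nn_succ]; positivity

lemma aa_pos (m : ℕ) : 0 < aa m := by
  cases m with
  | zero => rw [aa_zero]; norm_num
  | succ m => rw [aa_succ]; positivity

lemma nn_succ_ge (m : ℕ) : 8 * nn m ≤ nn (m+1) := by
  have h1 := nn_pos m
  set n := nn m
  have h2 : n < 3 ^ n := Nat.lt_pow_self (by norm_num)
  have h3 : 3 ^ (n + 2) ≤ 3 ^ (5 * (m+1) * n) := by
    apply Nat.pow_le_pow_right (by norm_num)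
    nlinarith [Nat.zero_le (m*n)]
  have h4 : nn (m+1) = 3 ^ (5 * (m+1) * n) := rfl
  rw [h4]
  have : 3 ^ (n+2) = 9 * 3 ^ n := by ring
  omega

lemma nn_strictMono : StrictMono nn := by
  apply strictMono_nat_of_lt_succ
  intro m
  have := nn_succ_ge m
  have := nn_pos m
  omega

lemma nn_ge_pow (k i : ℕ) : 8 ^ i * nn k ≤ nn (k + i) := by
  induction i with
  | zero => simp
  | succ i ih =>
    have := nn_succ_ge (k+i)
    calc 8 ^ (i+1) * nn k = 8 * (8 ^ i * nn k) := by ring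
      _ ≤ 8 * nn (k+i) := by omega
      _ ≤ nn (k + i + 1) := this

lemma nn_ge_sq (m : ℕ) : m ^ 2 ≤ nn m := by
  cases m with
  | zero => simp
  | succ m =>
    have h4 : nn (m+1) = 3 ^ (5 * (m+1) * nn m) := rfl
    rw [h4]
    have h1 : m + 1 < 3 ^ (m+1) := Nat.lt_pow_self (by norm_num)
    have h2 : 3 ^ (2 * (m+1)) ≤ 3 ^ (5 * (m+1) * nn m) := by
      apply Nat.pow_le_pow_right (by norm_num)
      have := nn_pos m
      nlinarith
    calc (m+1)^2 ≤ (3 ^ (m+1))^2 := Nat.pow_le_pow_left h1.le 2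
      _ = 3 ^ (2 * (m+1)) := by ring
      _ ≤ _ := h2

lemma nn_ge_lin (m : ℕ) (hm : 1 ≤ m) : 4 * (m+1) ≤ nn m := by
  induction m, hm using Nat.le_induction with
  | base => rw [nn_succ, nn_zero]; norm_num
  | succ m hm ih => have := nn_succ_ge m; omega

lemma nn_ge_self (m : ℕ) : m ≤ nn m := nn_strictMono.le_apply

/-- the gap condition -/
lemma gap_lower (k i : ℕ) (hk : 3 ≤ k) (hik : i ≠ k) :
    ((i:ℝ) + 3) ≤ |(nn i : ℝ) - nn k| * (2 * k / nn k) := by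
  have hkpos : (0:ℝ) < nn k := by exact_mod_cast nn_pos k
  rcases lt_or_gt_of_ne hik with h | h
  · -- i < k
    have h1 : 8 * nn i ≤ nn k := by
      obtain ⟨d, rfl⟩ : ∃ d, k = i + (d + 1) := ⟨k - i - 1, by omega⟩
      have := nn_ge_pow i (d+1)
      have h8 : 8 ≤ 8 ^ (d+1) := by
        rw [pow_succ]
        have : 1 ≤ 8 ^ d := Nat.one_le_pow _ _ (by norm_num)
        omega
      nlinarith
    have h1' : (8:ℝ) * nn i ≤ nn k := by exact_mod_cast h1
    rw [abs_sub_comm, abs_of_nonneg (by linarith [(Nat.cast_nonneg (nn i) : (0:ℝ) ≤ nn i)])]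
    have h2 : (i:ℝ) + 1 ≤ k := by exact_mod_cast h
    have h3 : (3:ℝ) ≤ k := by exact_mod_cast hk
    rw [mul_div_assoc', le_div_iff₀ hkpos]
    have h4 : (7/8 : ℝ) * nn k ≤ (nn k : ℝ) - nn i := by linarith
    have h5 : (7/8 : ℝ) * nn k * (2 * k) ≤ ((nn k : ℝ) - nn i) * (2 * k) :=
      mul_le_mul_of_nonneg_right h4 (by positivity)
    refine le_trans ?_ h5
    have h6 : (i:ℝ) + 3 ≤ (7/8) * (2 * k) := by linarith
    calc ((i:ℝ) + 3) * nn k ≤ ((7/8) * (2 * k)) * nn k := mul_le_mul_of_nonneg_right h6 hkpos.le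
      _ = _ := by ring
  · -- k < i
    obtain ⟨d, rfl⟩ : ∃ d, i = k + (d + 1) := ⟨i - k - 1, by omega⟩
    have h1 := nn_ge_pow k (d+1)
    have h2 : (1 + 7 * (d+1)) ≤ 8 ^ (d+1) := by
      have := one_add_mul_le_pow (show (-2:ℤ) ≤ 7 by norm_num) (d+1)
      have h3 : (1 + ((d+1 : ℕ):ℤ) * 7) ≤ 8 ^ (d+1) := by
        simpa using this
      have h4 : ((1 + 7 * (d+1) : ℕ):ℤ) ≤ ((8 ^ (d+1) : ℕ) : ℤ) := by
        push_cast
        push_cast at h3
        linarith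
      exact_mod_cast h4
    have h5 : (1 + 7 * (d+1)) * nn k ≤ nn (k + (d+1)) := le_trans (Nat.mul_le_mul_right _ h2) h1
    have h5' : ((1:ℝ) + 7 * (d+1)) * nn k ≤ nn (k + (d+1)) := by exact_mod_cast h5
    have hd : (0:ℝ) ≤ d := Nat.cast_nonneg d
    have h6 : (7:ℝ) * (d+1) * nn k ≤ (nn (k + (d+1)) : ℝ) - nn k := by nlinarith
    have h7 : (0:ℝ) ≤ (nn (k + (d+1)) : ℝ) - nn k := le_trans (by positivity) h6
    rw [abs_of_nonneg h7]
    have h3 : (3:ℝ) ≤ k := by exact_mod_cast hk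
    rw [mul_div_assoc', le_div_iff₀ hkpos]
    push_cast
    have h8 : (7:ℝ) * (d+1) * nn k * (2 * k) ≤ ((nn (k + (d+1)) : ℝ) - nn k) * (2 * k) := by
      apply mul_le_mul_of_nonneg_right h6 (by positivity)
    refine le_trans ?_ h8
    have h9 : ((k:ℝ) + (d + 1) + 3) ≤ 7 * (d+1) * (2 * k) := by nlinarith
    calc ((k:ℝ) + (d + 1) + 3) * nn k ≤ (7 * (d+1) * (2 * k)) * nn k :=
          mul_le_mul_of_nonneg_right h9 hkpos.le
      _ = _ := by ring

lemma exp_gap (k i : ℕ) (hk : 3 ≤ k) (hik : i ≠ k) (w : ℝ) (hw : 4 * k / nn k < w) :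
    Real.exp (-(|(nn i : ℝ) - nn k| * (w / 2))) ≤ (1/4) * (1/2)^(i+1) := by
  have h1 := gap_lower k i hk hik
  have h2 : |(nn i : ℝ) - nn k| * (2 * k / nn k) ≤ |(nn i : ℝ) - nn k| * (w / 2) := by
    apply mul_le_mul_of_nonneg_left _ (abs_nonneg _)
    have : (4:ℝ) * k / nn k = 2 * (2 * k / nn k) := by ring
    linarith
  have h3 : Real.exp (-(|(nn i : ℝ) - nn k| * (w / 2))) ≤ Real.exp (-((i:ℝ) + 3)) := by
    apply Real.exp_le_exp.mpr
    linarith
  refine le_trans h3 ?_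
  have h4 : Real.exp (-((i:ℝ) + 3)) = (Real.exp (-1)) ^ (i+3) := by
    rw [← Real.exp_nat_mul]
    push_cast
    congr 1
    ring
  rw [h4]
  have h5 : Real.exp (-1) ≤ 1/2 := by
    rw [Real.exp_neg, one_div]
    apply inv_anti₀ (by norm_num)
    linarith [Real.add_one_le_exp (1:ℝ)]
  calc (Real.exp (-1)) ^ (i+3) ≤ (1/2:ℝ)^(i+3) := pow_le_pow_left₀ (Real.exp_pos _).le h5 _
    _ = (1/4) * (1/2)^(i+1) := by ring

/-- tail sum of the gap lengths -/
lemma tail_term (M i : ℕ) (hM : 1 ≤ M) : (4 * ((M + i : ℕ):ℝ) / nn (M+i)) ≤ (4 * M / nn M) * (1/4)^i := by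
  induction i with
  | zero => simp
  | succ i ih =>
    have h1 := nn_succ_ge (M+i)
    have h1' : (8:ℝ) * nn (M+i) ≤ nn (M+i+1) := by exact_mod_cast h1
    have hp : (0:ℝ) < nn (M+i) := by exact_mod_cast nn_pos _
    have hp' : (0:ℝ) < nn (M+i+1) := by exact_mod_cast nn_pos _
    have hM' : (1:ℝ) ≤ M := by exact_mod_cast hM
    have h2 : (4 * ((M + (i+1) : ℕ):ℝ) / nn (M+(i+1))) ≤ (1/4) * (4 * ((M + i : ℕ):ℝ) / nn (M+i)) := by
      rw [← add_assoc]
      rw [div_le_iff₀ hp', mul_comm (1/4 : ℝ), mul_assoc, div_mul_eq_mul_div, le_div_iff₀ hp]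
      push_cast
      have hi : (0:ℝ) ≤ i := Nat.cast_nonneg i
      nlinarith [mul_nonneg hi hp.le, mul_nonneg (sub_nonneg.mpr hM') hp.le]
    calc _ ≤ _ := h2
      _ ≤ (1/4) * ((4 * M / nn M) * (1/4)^i) := by linarith
      _ = _ := by ring

end Pool.Agent.H24.SA
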