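import Pool.Agent.H24.SAa

open MeasureTheory Filter Topology

namespace Pool.Agent.H24.SA

/-- selection of a long interval of dominance -/
lemma exists_long (b : ℕ → ℝ) (hb : ∀ k, 0 ≤ b k) (M : ℕ) (hM : 3 ≤ M)
    (hbM : 0 < b M)
    (hT : ∀ x : ℝ, 0 < x → Tendsto (fun k => b k * Real.exp (-(nn k * x))) atTop (𝓝 0))
    (hlow : ∀ k < M, b k < b M * Real.exp (-(8 * M))) :
    ∃ k, M ≤ k ∧ ∃ x y : ℝ, 0 < x ∧ y ≤ 8 * M / nn M ∧ 4 * k / nn k < y - x ∧
      (∀ i, b i * Real.exp (-(nn i * x)) ≤ b k * Real.exp (-(nn k * x))) ∧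
      (∀ i, b i * Real.exp (-(nn i * y)) ≤ b k * Real.exp (-(nn k * y))) := by
  have hnM : (0:ℝ) < nn M := by exact_mod_cast nn_pos M
  have hM0 : (0:ℝ) < M := by
    have : 0 < M := by omega
    exact_mod_cast this
  -- maximal term exists
  have hmax : ∀ x : ℝ, 0 < x → ∃ k, ∀ i, b i * Real.exp (-(nn i * x)) ≤ b k * Real.exp (-(nn k * x)) := by
    intro x hx
    have hpos : 0 < b M * Real.exp (-(nn M * x)) := by positivity
    obtain ⟨N, hN⟩ := (eventually_atTop.mp ((hT x hx).eventually (gt_mem_nhds hpos)))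
    obtain ⟨k, hk, hkmax⟩ := Finset.exists_max_image (Finset.range (N + M + 1))
      (fun k => b k * Real.exp (-(nn k * x))) ⟨M, by simp⟩
    refine ⟨k, fun i => ?_⟩
    by_cases hi : i < N + M + 1
    · exact hkmax i (by simpa using hi)
    · have h1 := hN i (by omega)
      have h2 := hkmax M (by simp)
      exact le_trans h1.le h2
  by_contra hcon
  push Not at hcon
  -- cover
  set J : Set ℝ := Set.Ioc 0 (8 * M / nn M) with hJ
  let I : ℕ → Set ℝ := fun d => {x ∈ J | ∀ i, b i * Real.exp (-(nn i * x)) ≤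
      b (M + d) * Real.exp (-(nn (M + d) * x))}
  have hcov : J ⊆ ⋃ d, I d := by
    intro x hx
    obtain ⟨k, hk⟩ := hmax x hx.1
    have hkM : M ≤ k := by
      by_contra hlt
      push Not at hlt
      have h1 := hk M
      have h2 := hlow k hlt
      have h3 : b k * Real.exp (-(nn k * x)) ≤ b k := by
        apply mul_le_of_le_one_right (hb k)
        rw [Real.exp_le_one_iff]
        have : (0:ℝ) ≤ nn k := Nat.cast_nonneg _
        nlinarith [hx.1]
      have h4 : b M * Real.exp (-(8 * M)) ≤ b M * Real.exp (-(nn M * x)) := by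
        apply mul_le_mul_of_nonneg_left _ hbM.le
        apply Real.exp_le_exp.mpr
        have := hx.2
        rw [le_div_iff₀ hnM] at this
        linarith
      linarith
    obtain ⟨d, rfl⟩ := Nat.exists_eq_add_of_le hkM
    exact Set.mem_iUnion.mpr ⟨d, hx, hk⟩
  have hvol : ∀ d, volume (I d) ≤ ENNReal.ofReal ((4 * M / nn M) * (1/4)^d) := by
    intro d
    refine le_trans (Real.volume_le_diam _) ?_
    refine le_trans ?_ (ENNReal.ofReal_le_ofReal (tail_term M d (by omega)))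
    apply Metric.ediam_le
    intro x hx y hy
    rw [edist_dist]
    apply ENNReal.ofReal_le_ofReal
    rw [Real.dist_eq]
    rcases le_total x y with hxy | hxy
    · rw [abs_sub_comm, abs_of_nonneg (by linarith)]
      by_contra hgt
      push Not at hgt
      obtain ⟨i, hi⟩ := hcon (M + d) (by omega) x y hx.1.1 hy.1.2 hgt hx.2
      exact absurd (hy.2 i) (not_le.mpr hi)
    · rw [abs_of_nonneg (by linarith)]
      by_contra hgt
      push Not at hgt
      obtain ⟨i, hi⟩ := hcon (M + d) (by omega) y x hy.1.1 hx.1.2 hgt hy.2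
      exact absurd (hx.2 i) (not_le.mpr hi)
  have h1 : volume J ≤ ∑' d : ℕ, ENNReal.ofReal ((4 * M / nn M) * (1/4)^d) := by
    calc volume J ≤ volume (⋃ d, I d) := measure_mono hcov
      _ ≤ ∑' d, volume (I d) := measure_iUnion_le _
      _ ≤ _ := ENNReal.tsum_le_tsum hvol
  have hsum : HasSum (fun d : ℕ => (4 * (M:ℝ) / nn M) * (1/4)^d) ((4 * M / nn M) * (1 - 1/4)⁻¹) :=
    (hasSum_geometric_of_lt_one (by norm_num) (by norm_num)).mul_left _
  rw [← ENNReal.ofReal_tsum_of_nonneg (fun d => by positivity) hsum.summable, hsum.tsum_eq] at h1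
  rw [hJ, Real.volume_Ioc, ENNReal.ofReal_le_ofReal_iff (by positivity)] at h1
  have h2 : 0 < (M:ℝ) / nn M := by positivity
  have h3 : (8 * M / nn M : ℝ) = 8 * (M / nn M) := by ring
  have h4 : (4 * M / nn M : ℝ) = 4 * (M / nn M) := by ring
  rw [h3, h4] at h1
  norm_num at h1
  linarith

lemma hasSum_half : HasSum (fun i : ℕ => (1/4 : ℝ) * (1/2)^(i+1)) (1/4) := by
  have h := (hasSum_geometric_of_lt_one (r := (1/2:ℝ)) (by norm_num) (by norm_num)).mul_left (1/8)
  have h2 : (fun i : ℕ => (1/4:ℝ)*(1/2)^(i+1)) = fun i => (1/8)*(1/2)^i := by funext i; ring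
  have h3 : (1/8:ℝ)*(1-1/2)⁻¹ = 1/4 := by norm_num
  rw [h2, ← h3]
  exact h

theorem core (j : ℕ → ℕ) (hj : ∀ i N, ∃ m, N ≤ m ∧ j m = i) (c : ℕ → ℂ) (F : ℂ → ℂ)
    (hF : ∀ z : ℂ, ‖z‖ < 1 → HasSum (fun k => c (j k) * aa k * z ^ nn k) (F z))
    (i0 : ℕ) (h0 : c i0 ≠ 0) (C : ℝ) (hC : ∀ k, ‖c (j k)‖ * aa k ≤ C * Real.exp (nn k))
    (K ρ : ℝ) (hρ : ρ < 1) :
    ∃ r, ρ < r ∧ 0 < r ∧ r < 1 ∧ ∀ z : ℂ, ‖z‖ = r → K ≤ ‖F z‖ := by
  obtain ⟨b, hbdef⟩ : ∃ b : ℕ → ℝ, b = fun k => ‖c (j k)‖ * aa k := ⟨_, rfl⟩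
  have hb : ∀ k, 0 ≤ b k := fun k => by rw [hbdef]; exact mul_nonneg (norm_nonneg _) (aa_pos k).le
  replace hC : ∀ k, b k ≤ C * Real.exp (nn k) := by rw [hbdef]; exact hC
  have hc0 : 0 < ‖c i0‖ := norm_pos_iff.mpr h0
  have hterm : ∀ (k : ℕ) (z : ℂ) (x : ℝ), ‖z‖ = Real.exp (-x) →
      ‖c (j k) * aa k * z ^ nn k‖ = b k * Real.exp (-(nn k * x)) := by
    intro k z x hz
    rw [norm_mul, norm_mul, norm_pow, hz, Complex.norm_real, Real.norm_of_nonneg (aa_pos k).le,
      ← Real.exp_nat_mul, hbdef]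
    congr 2
    ring
  have hT : ∀ x : ℝ, 0 < x → Tendsto (fun k => b k * Real.exp (-(nn k * x))) atTop (𝓝 0) := by
    intro x hx
    have h1 : ‖((Real.exp (-x) : ℝ) : ℂ)‖ = Real.exp (-x) := by
      rw [Complex.norm_real, Real.norm_of_nonneg (Real.exp_pos _).le]
    have h2 := (hF ((Real.exp (-x) : ℝ) : ℂ) (by rw [h1, Real.exp_lt_one_iff]; linarith)).summable.tendsto_atTop_zero.norm
    rw [norm_zero] at h2
    refine h2.congr (fun k => hterm k _ x h1)
  have hCpos : 0 ≤ C := by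
    have h1 := hC 0
    have h2 := hb 0
    have h3 : 0 ≤ C * Real.exp (nn 0) := le_trans h2 h1
    exact nonneg_of_mul_nonneg_left h3 (Real.exp_pos _)
  -- choice of M
  have htop : Tendsto (fun m : ℕ => Real.exp (nn m : ℝ)) atTop atTop := by
    apply Real.tendsto_exp_atTop.comp
    apply tendsto_atTop_mono (f := fun m : ℕ => (m:ℝ))
    · intro m
      exact_mod_cast nn_ge_self m
    · exact tendsto_natCast_atTop_atTop
  have hsmall : Tendsto (fun m : ℕ => Real.exp (-(8 * (m:ℝ) / nn m))) atTop (𝓝 1) := by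
    have h1 : Tendsto (fun m : ℕ => 8 * (m:ℝ) / nn m) atTop (𝓝 0) := by
      apply squeeze_zero_norm' (a := fun m : ℕ => 8 * (1 / (m:ℝ)))
      · filter_upwards [eventually_ge_atTop 1] with m hm
        have hm' : (0:ℝ) < m := by exact_mod_cast hm
        have hn : (0:ℝ) < nn m := by exact_mod_cast nn_pos m
        have hsq : (m:ℝ)^2 ≤ nn m := by exact_mod_cast nn_ge_sq m
        rw [Real.norm_of_nonneg (by positivity), mul_one_div, div_le_div_iff₀ hn hm']
        nlinarith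
      · have := (tendsto_one_div_atTop_nhds_zero_nat (𝕜 := ℝ)).const_mul 8
        simpa using this
    have h2 := (Real.continuous_exp.tendsto (-0)).comp h1.neg
    rw [neg_zero, Real.exp_zero] at h2
    exact h2
  have hev : ∀ᶠ m : ℕ in atTop, 3 ≤ m ∧ C / ‖c i0‖ < Real.exp (nn (m-1) : ℝ) ∧
      2 * K / ‖c i0‖ < Real.exp (nn (m-1) : ℝ) ∧ ρ < Real.exp (-(8 * (m:ℝ) / nn m)) := by
    have hsub : Tendsto (fun m : ℕ => m - 1) atTop atTop := tendsto_sub_atTop_nat 1
    filter_upwards [eventually_ge_atTop 3, (htop.comp hsub).eventually (eventually_gt_atTop (C / ‖c i0‖)),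
      (htop.comp hsub).eventually (eventually_gt_atTop (2 * K / ‖c i0‖)),
      hsmall.eventually (lt_mem_nhds hρ)] with m h1 h2 h3 h4
    exact ⟨h1, h2, h3, h4⟩
  obtain ⟨N, hN⟩ := eventually_atTop.mp hev
  obtain ⟨M, hNM, hjM⟩ := hj i0 N
  obtain ⟨hM3, hM1, hM2, hMρ⟩ := hN M hNM
  obtain ⟨m, rfl⟩ : ∃ m, M = m + 1 := ⟨M - 1, by omega⟩
  simp only [Nat.add_sub_cancel] at hM1 hM2
  have hlin : (4:ℝ) * (m+1) ≤ nn m := by exact_mod_cast nn_ge_lin m (by omega)
  have hbM : b (m+1) = ‖c i0‖ * Real.exp (5 * nn m) := by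
    simp only [hbdef, hjM, aa_succ]
  have hbM_pos : 0 < b (m+1) := by rw [hbM]; positivity
  have hkey : ‖c i0‖ * Real.exp (3 * nn m) ≤ b (m+1) * Real.exp (-(8 * ((m+1 : ℕ):ℝ))) := by
    rw [hbM, mul_assoc, ← Real.exp_add]
    apply mul_le_mul_of_nonneg_left _ hc0.le
    apply Real.exp_le_exp.mpr
    push_cast
    linarith
  have hexp3 : Real.exp (3 * nn m) = Real.exp (nn m) * Real.exp (nn m) * Real.exp (nn m) := by
    rw [← Real.exp_add, ← Real.exp_add]; congr 1; ring
  have hexp1 : 1 ≤ Real.exp (nn m) := Real.one_le_exp (Nat.cast_nonneg _)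
  have hlow : ∀ k < m+1, b k < b (m+1) * Real.exp (-(8 * ((m+1 : ℕ):ℝ))) := by
    intro k hk
    refine lt_of_lt_of_le ?_ hkey
    have h1 : b k ≤ C * Real.exp (nn m) := by
      refine le_trans (hC k) ?_
      apply mul_le_mul_of_nonneg_left _ hCpos
      apply Real.exp_le_exp.mpr
      exact_mod_cast nn_strictMono.monotone (by omega : k ≤ m)
    refine lt_of_le_of_lt h1 ?_
    rw [hexp3, div_lt_iff₀ hc0] at *
    have hE : 0 < Real.exp (nn m : ℝ) := Real.exp_pos _
    calc C * Real.exp (nn m) < (Real.exp (nn m) * ‖c i0‖) * Real.exp (nn m) :=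
          mul_lt_mul_of_pos_right hM1 hE
      _ = ‖c i0‖ * (Real.exp (nn m) * Real.exp (nn m)) * 1 := by ring
      _ ≤ ‖c i0‖ * (Real.exp (nn m) * Real.exp (nn m)) * Real.exp (nn m) := by
          apply mul_le_mul_of_nonneg_left hexp1; positivity
      _ = _ := by ring
  have hKb : 2 * K ≤ b (m+1) * Real.exp (-(8 * ((m+1 : ℕ):ℝ))) := by
    refine le_trans ?_ hkey
    rw [div_lt_iff₀ hc0] at hM2
    have hE : 0 < Real.exp (nn m : ℝ) := Real.exp_pos _
    have h2 : 1 ≤ Real.exp (nn m : ℝ) * Real.exp (nn m : ℝ) := by nlinarith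
    rw [hexp3]
    calc 2 * K ≤ Real.exp (nn m) * ‖c i0‖ := hM2.le
      _ = ‖c i0‖ * Real.exp (nn m) * 1 := by ring
      _ ≤ ‖c i0‖ * Real.exp (nn m) * (Real.exp (nn m) * Real.exp (nn m)) := by
          apply mul_le_mul_of_nonneg_left h2; positivity
      _ = _ := by ring
  obtain ⟨k, hMk, x, y, hx, hy, hlong, hxmax, hymax⟩ := exists_long b hb (m+1) hM3 hbM_pos hT hlow
  have hnk : (0:ℝ) < nn k := by exact_mod_cast nn_pos k
  have hk3 : 3 ≤ k := by omega
  have hxy : x < y := by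
    have : (0:ℝ) ≤ 4 * k / nn k := by positivity
    linarith
  set t := (x + y) / 2 with ht
  have htpos : 0 < t := by rw [ht]; linarith
  have hty : t < y := by rw [ht]; linarith
  have hnM : (0:ℝ) < nn (m+1) := by exact_mod_cast nn_pos (m+1)
  refine ⟨Real.exp (-t), ?_, Real.exp_pos _, by rw [Real.exp_lt_one_iff]; linarith, ?_⟩
  · refine lt_of_lt_of_le hMρ ?_
    apply Real.exp_le_exp.mpr
    linarith
  intro z hz
  set B : ℝ := b k * Real.exp (-(nn k * t)) with hB
  have hBpos : 0 ≤ B := mul_nonneg (hb k) (Real.exp_pos _).le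
  have hratio : ∀ i, b i * Real.exp (-(nn i * t)) ≤ B * Real.exp (-(|(nn i : ℝ) - nn k| * ((y - x) / 2))) := by
    intro i
    rcases le_total (nn i : ℝ) (nn k) with h | h
    · -- compare at y
      have h1 := hymax i
      have h2 : b i * Real.exp (-(nn i * t)) = (b i * Real.exp (-(nn i * y))) * Real.exp (nn i * ((y-x)/2)) := by
        rw [mul_assoc, ← Real.exp_add]; congr 2; rw [ht]; ring
      rw [h2]
      refine le_trans (mul_le_mul_of_nonneg_right h1 (Real.exp_pos _).le) ?_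
      rw [hB, mul_assoc, mul_assoc, ← Real.exp_add, ← Real.exp_add]
      apply mul_le_mul_of_nonneg_left _ (hb k)
      apply Real.exp_le_exp.mpr
      rw [abs_of_nonpos (by linarith), ht]
      apply le_of_eq
      ring
    · have h1 := hxmax i
      have h2 : b i * Real.exp (-(nn i * t)) = (b i * Real.exp (-(nn i * x))) * Real.exp (-(nn i * ((y-x)/2))) := by
        rw [mul_assoc, ← Real.exp_add]; congr 2; rw [ht]; ring
      rw [h2]
      refine le_trans (mul_le_mul_of_nonneg_right h1 (Real.exp_pos _).le) ?_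
      rw [hB, mul_assoc, mul_assoc, ← Real.exp_add, ← Real.exp_add]
      apply mul_le_mul_of_nonneg_left _ (hb k)
      apply Real.exp_le_exp.mpr
      rw [abs_of_nonneg (by linarith), ht]
      apply le_of_eq
      ring
  have hBlow : 2 * K ≤ B := by
    refine le_trans hKb ?_
    have h1 := hratio (m+1)
    have h2 : B * Real.exp (-(|(nn (m+1) : ℝ) - nn k| * ((y - x) / 2))) ≤ B := by
      apply mul_le_of_le_one_right hBpos
      rw [Real.exp_le_one_iff]
      have : 0 ≤ |(nn (m+1) : ℝ) - nn k| * ((y - x) / 2) := mul_nonneg (abs_nonneg _) (by linarith)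
      linarith
    refine le_trans ?_ (le_trans h1 h2)
    apply mul_le_mul_of_nonneg_left _ hbM_pos.le
    apply Real.exp_le_exp.mpr
    have h3 : t ≤ 8 * ((m+1 : ℕ):ℝ) / nn (m+1) := by linarith
    rw [le_div_iff₀ hnM] at h3
    linarith
  -- the sum
  have hz1 : ‖z‖ < 1 := by rw [hz, Real.exp_lt_one_iff]; linarith
  have hS := hF z hz1
  set u : ℕ → ℂ := fun k => c (j k) * aa k * z ^ nn k with hu
  have hS' : HasSum (Function.update u k 0) (F z - u k) := by
    have h1 := hS.update k 0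
    have h2 : (0 - u k + F z) = F z - u k := by ring
    rw [h2] at h1
    exact h1
  have hbd : ∀ i, ‖Function.update u k 0 i‖ ≤ B * ((1/4 : ℝ) * (1/2)^(i+1)) := by
    intro i
    by_cases hik : i = k
    · subst hik
      rw [Function.update_self, norm_zero]
      positivity
    · rw [Function.update_of_ne hik]
      rw [hu]
      simp only
      rw [hterm i z t hz]
      refine le_trans (hratio i) ?_
      exact mul_le_mul_of_nonneg_left (exp_gap k i hk3 hik (y - x) hlong) hBpos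
  have hnorm : ‖F z - u k‖ ≤ B * (1/4) := hS'.norm_le_of_bounded (hasSum_half.mul_left B) hbd
  have hun : ‖u k‖ = B := by
    rw [hu, hB]; exact hterm k z t hz
  have h3 : ‖u k‖ ≤ ‖F z - u k‖ + ‖F z‖ := by
    have h4 : u k = -(F z - u k) + F z := by ring
    calc ‖u k‖ = ‖-(F z - u k) + F z‖ := by rw [← h4]
      _ ≤ ‖-(F z - u k)‖ + ‖F z‖ := norm_add_le _ _
      _ = _ := by rw [norm_neg]
  linarith

end Pool.Agent.H24.SA
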