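import Pool.Agent.H24.SAdefs
import Pool.Agent.H24.SAb

open MeasureTheory Filter Topology
open scoped Nat

namespace Pool.Agent.H24.SA

/-- extension by zero -/
noncomputable def ext (f : HolD) (z : ℂ) : ℂ := by
  classical
  exact if h : z ∈ Disc then f.1 ⟨z, h⟩ else 0

lemma ext_apply (f : HolD) (z : Disc) : ext f z = f.1 z := by
  simp only [ext, z.2, dif_pos, Subtype.coe_eta]

lemma ext_add (f g : HolD) (z : ℂ) : ext (f + g) z = ext f z + ext g z := by
  by_cases h : z ∈ Disc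
  · simp only [ext, h, dif_pos]; rfl
  · simp [ext, h]

lemma ext_smul (c : ℂ) (f : HolD) (z : ℂ) : ext (c • f) z = c * ext f z := by
  by_cases h : z ∈ Disc
  · simp only [ext, h, dif_pos]; rfl
  · simp [ext, h]

lemma ext_diff (f : HolD) : DifferentiableOn ℂ (ext f) Disc := by
  obtain ⟨F, hF, hfF⟩ := f.2
  apply hF.congr
  intro z hz
  rw [← hfF ⟨z, hz⟩, ← ext_apply f ⟨z, hz⟩]

lemma ext_sub (f g : HolD) (z : ℂ) : ext (f - g) z = ext f z - ext g z := by
  by_cases h : z ∈ Disc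
  · simp only [ext, h, dif_pos]; rfl
  · simp [ext, h]

/-- Taylor coefficient of a function on ℂ -/
noncomputable def tc (n : ℕ) (G : ℂ → ℂ) : ℂ := (n ! : ℂ)⁻¹ * iteratedDeriv n G 0

lemma hasSum_tc {G : ℂ → ℂ} (hG : DifferentiableOn ℂ G Disc) {z : ℂ} (hz : z ∈ Disc) :
    HasSum (fun n => tc n G * z ^ n) (G z) := by
  have h := Complex.hasSum_taylorSeries_on_ball hG hz
  have h2 : (fun n => tc n G * z ^ n) = fun n : ℕ => (n ! : ℂ)⁻¹ • (z - 0) ^ n • iteratedDeriv n G 0 := by
    funext n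
    rw [tc, sub_zero, smul_eq_mul, smul_eq_mul]
    ring
  rw [h2]
  exact h

lemma hasFPower {a : ℕ → ℂ} {G : ℂ → ℂ} (h : ∀ z : ℂ, ‖z‖ < 1 → HasSum (fun n => a n * z ^ n) (G z)) :
    HasFPowerSeriesOnBall G (FormalMultilinearSeries.ofScalars ℂ a) 0 1 where
  r_le := by
    apply ENNReal.le_of_forall_nnreal_lt
    intro r hr
    have hr' : (r:ℝ) < 1 := by exact_mod_cast hr
    have h1 := (h (r:ℝ) (by simpa using hr')).summable
    apply FormalMultilinearSeries.le_radius_of_tendsto _ (l := 0)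
    have h2 := h1.tendsto_atTop_zero.norm
    simpa using h2
  r_pos := by simp
  hasSum := by
    intro y hy
    have hy' : ‖y‖ < 1 := by
      rw [← ENNReal.coe_one, Metric.eball_coe] at hy
      simpa using hy
    have h1 := h y hy'
    simpa [FormalMultilinearSeries.ofScalars_apply_eq, mul_comm] using h1

lemma diff_of_hasSum {a : ℕ → ℂ} {G : ℂ → ℂ} (h : ∀ z : ℂ, ‖z‖ < 1 → HasSum (fun n => a n * z ^ n) (G z)) :
    DifferentiableOn ℂ G Disc := by
  have h1 := (hasFPower h).differentiableOn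
  rw [← ENNReal.coe_one, Metric.eball_coe] at h1
  simpa using h1

lemma tc_of_hasSum {a : ℕ → ℂ} {G : ℂ → ℂ} (h : ∀ z : ℂ, ‖z‖ < 1 → HasSum (fun n => a n * z ^ n) (G z))
    (n : ℕ) : tc n G = a n := by
  have h1 := (hasFPower h).factorial_smul (1:ℂ) n
  rw [tc, iteratedDeriv_eq_iteratedFDeriv, ← h1]
  have h2 : (n ! : ℂ) ≠ 0 := by exact_mod_cast Nat.factorial_ne_zero n
  simp [FormalMultilinearSeries.ofScalars_apply_eq]
  field_simp

lemma tc_add {F G : ℂ → ℂ} (hF : DifferentiableOn ℂ F Disc) (hG : DifferentiableOn ℂ G Disc) (n : ℕ) :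
    tc n (fun z => F z + G z) = tc n F + tc n G := by
  apply tc_of_hasSum
  intro z hz
  have hz' : z ∈ Disc := by simpa using hz
  have h := (hasSum_tc hF hz').add (hasSum_tc hG hz')
  have h2 : (fun n => (tc n F + tc n G) * z ^ n) = fun n => tc n F * z ^ n + tc n G * z ^ n := by
    funext n; ring
  rw [h2]
  exact h

lemma tc_smul {F : ℂ → ℂ} (hF : DifferentiableOn ℂ F Disc) (c : ℂ) (n : ℕ) :
    tc n (fun z => c * F z) = c * tc n F := by
  apply tc_of_hasSum
  intro z hz
  have hz' : z ∈ Disc := by simpa using hz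
  have h := (hasSum_tc hF hz').mul_left c
  have h2 : (fun n => c * tc n F * z ^ n) = fun n => c * (tc n F * z ^ n) := by funext n; ring
  rw [h2]
  exact h

lemma tc_bound {G : ℂ → ℂ} (hG : DifferentiableOn ℂ G Disc) (n : ℕ) {R C : ℝ} (hR : 0 < R) (hR1 : R < 1)
    (hC : ∀ z : ℂ, ‖z‖ = R → ‖G z‖ ≤ C) : ‖tc n G‖ ≤ C / R ^ n := by
  have h1 : DiffContOnCl ℂ G (Metric.ball 0 R) := by
    apply DifferentiableOn.diffContOnCl
    rw [closure_ball _ hR.ne']
    apply hG.mono
    exact Metric.closedBall_subset_ball hR1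
  have h2 := Complex.norm_iteratedDeriv_le_of_forall_mem_sphere_norm_le n hR h1
    (fun z hz => hC z (by simpa using hz))
  rw [tc, norm_mul, norm_inv]
  have h3 : ‖(n ! : ℂ)‖ = n ! := by simp
  rw [h3]
  have h4 : (0:ℝ) < n ! := by exact_mod_cast Nat.factorial_pos n
  rw [inv_mul_le_iff₀ h4]
  calc _ ≤ _ := h2
    _ = _ := by ring

/-- Taylor coefficient functional -/
noncomputable def coef (n : ℕ) : HolD →ₗ[ℂ] ℂ where
  toFun f := tc n (ext f)
  map_add' f g := by
    have : ext (f + g) = fun z => ext f z + ext g z := funext (ext_add f g)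
    rw [this, tc_add (ext_diff f) (ext_diff g)]
  map_smul' c f := by
    have : ext (c • f) = fun z => c * ext f z := funext (ext_smul c f)
    rw [this, tc_smul (ext_diff f)]
    rfl

lemma coef_def (n : ℕ) (f : HolD) : coef n f = tc n (ext f) := rfl

lemma coef_cont (n : ℕ) : Continuous (coef n) := by
  rw [continuous_iff_continuousAt]
  intro f
  rw [ContinuousAt, Metric.tendsto_nhds]
  intro ε hε
  have h1 : Tendsto (fun g : HolD => g.1) (𝓝 f) (𝓝 f.1) := continuous_subtype_val.tendsto f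
  rw [ContinuousMap.tendsto_iff_forall_isCompact_tendstoUniformlyOn] at h1
  have hK : IsCompact {z : Disc | ‖(z:ℂ)‖ = 1/2} := by
    rw [Subtype.isCompact_iff]
    have : (Subtype.val '' {z : Disc | ‖(z:ℂ)‖ = 1/2}) = Metric.sphere (0:ℂ) (1/2) := by
      ext w
      constructor
      · rintro ⟨z, hz, rfl⟩
        simpa using hz
      · intro hw
        have hw' : ‖w‖ = 1/2 := by simpa using hw
        exact ⟨⟨w, by simp [Disc, hw']; norm_num⟩, hw', rfl⟩
    rw [this]
    exact isCompact_sphere _ _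
  have h2 := h1 _ hK
  rw [Metric.tendstoUniformlyOn_iff] at h2
  have hδ : 0 < ε / 2 * (1/2)^n := by positivity
  filter_upwards [h2 _ hδ] with g hg
  rw [dist_eq_norm, ← map_sub, coef_def]
  have h3 : ‖tc n (ext (g - f))‖ ≤ (ε / 2 * (1/2)^n) / (1/2)^n := by
    apply tc_bound (ext_diff _) n (by norm_num) (by norm_num)
    intro z hz
    have hzD : z ∈ Disc := by simp [Disc, hz]; norm_num
    rw [ext_sub]
    have h4 := hg ⟨z, hzD⟩ hz
    rw [dist_comm, dist_eq_norm] at h4
    rw [show ext g z = g.1 ⟨z, hzD⟩ from ext_apply g ⟨z, hzD⟩,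
      show ext f z = f.1 ⟨z, hzD⟩ from ext_apply f ⟨z, hzD⟩]
    exact h4.le
  have h5 : (ε / 2 * (1/2)^n) / (1/2)^n = ε / 2 := by
    rw [mul_div_assoc, div_self (by positivity), mul_one]
  rw [h5] at h3
  linarith

end Pool.Agent.H24.SA
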