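import Pool.Agent.H24.SAc

open MeasureTheory Filter Topology
open scoped Nat

namespace Pool.Agent.H24.SA

def jj (m : ℕ) : ℕ := (Nat.unpair m).1

lemma jj_fiber (i N : ℕ) : ∃ m, N ≤ m ∧ jj m = i := ⟨Nat.pair i N, Nat.right_le_pair i N, by simp [jj]⟩

/-- the closed subspace -/
noncomputable def MM : Submodule ℂ HolD where
  carrier := {f | (∀ n, (∀ k, nn k ≠ n) → coef n f = 0) ∧
    ∀ k l, jj k = jj l → coef (nn k) f * aa l = coef (nn l) f * aa k}
  add_mem' := by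
    rintro f g ⟨hf1, hf2⟩ ⟨hg1, hg2⟩
    refine ⟨fun n hn => by rw [map_add, hf1 n hn, hg1 n hn, add_zero], fun k l hkl => ?_⟩
    rw [map_add, map_add, add_mul, add_mul, hf2 k l hkl, hg2 k l hkl]
  zero_mem' := ⟨fun n _ => map_zero _, fun k l _ => by rw [map_zero, map_zero, zero_mul, zero_mul]⟩
  smul_mem' := by
    rintro c f ⟨hf1, hf2⟩
    refine ⟨fun n hn => by rw [map_smul, hf1 n hn, smul_zero], fun k l hkl => ?_⟩
    rw [map_smul, map_smul, smul_eq_mul, smul_eq_mul, mul_assoc, mul_assoc, hf2 k l hkl]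

lemma mem_MM (f : HolD) : f ∈ MM ↔ (∀ n, (∀ k, nn k ≠ n) → coef n f = 0) ∧
    ∀ k l, jj k = jj l → coef (nn k) f * aa l = coef (nn l) f * aa k := Iff.rfl

lemma MM_closed : IsClosed (MM : Set HolD) := by
  have h : (MM : Set HolD) = (⋂ n : ℕ, ⋂ _ : (∀ k, nn k ≠ n), {f | coef n f = 0}) ∩
      (⋂ k : ℕ, ⋂ l : ℕ, ⋂ _ : jj k = jj l, {f | coef (nn k) f * aa l = coef (nn l) f * aa k}) := by
    ext f
    simp only [SetLike.mem_coe, mem_MM, Set.mem_inter_iff, Set.mem_iInter, Set.mem_ofPred_eq]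
  rw [h]
  apply IsClosed.inter
  · exact isClosed_iInter fun n => isClosed_iInter fun _ => isClosed_eq (coef_cont n) continuous_const
  · exact isClosed_iInter fun k => isClosed_iInter fun l => isClosed_iInter fun _ =>
      isClosed_eq ((coef_cont _).mul continuous_const) ((coef_cont _).mul continuous_const)

noncomputable def cc (f : HolD) (i : ℕ) : ℂ := coef (nn (Nat.pair i 0)) f / aa (Nat.pair i 0)

lemma cc_eq {f : HolD} (hf : f ∈ MM) (k : ℕ) : coef (nn k) f = cc f (jj k) * aa k := by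
  have h := (mem_MM f).1 hf
  have h1 := h.2 k (Nat.pair (jj k) 0) (by simp [jj])
  have h2 : (aa (Nat.pair (jj k) 0) : ℂ) ≠ 0 := by exact_mod_cast (aa_pos _).ne'
  rw [cc, div_mul_eq_mul_div, eq_div_iff h2]
  exact h1

lemma MM_sum {f : HolD} (hf : f ∈ MM) (z : ℂ) (hz : ‖z‖ < 1) :
    HasSum (fun k => cc f (jj k) * aa k * z ^ nn k) (ext f z) := by
  have h := hasSum_tc (ext_diff f) (show z ∈ Disc by simpa using hz)
  have h0 : ∀ n ∉ Set.range nn, (fun n => tc n (ext f) * z ^ n) n = 0 := by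
    intro n hn
    have h2 := ((mem_MM f).1 hf).1 n (fun k hk => hn ⟨k, hk⟩)
    rw [coef_def] at h2
    simp only
    rw [h2, zero_mul]
  have h1 := (nn_strictMono.injective.hasSum_iff h0).mpr h
  have h3 : (fun k => cc f (jj k) * aa k * z ^ nn k) = (fun n => tc n (ext f) * z ^ n) ∘ nn := by
    funext k
    simp only [Function.comp]
    rw [← coef_def, cc_eq hf k]
  rw [h3]
  exact h1

lemma MM_SA {f : HolD} (hf : f ∈ MM) (hf0 : f ≠ 0) : StronglyAnnular f := by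
  have hex : ∃ i0, cc f i0 ≠ 0 := by
    by_contra hcon
    push Not at hcon
    apply hf0
    apply Subtype.ext
    apply ContinuousMap.ext
    intro z
    have h := MM_sum hf z (mem_ball_zero_iff.mp z.2)
    have h2 : (fun k => cc f (jj k) * aa k * (z:ℂ) ^ nn k) = fun _ => 0 := by
      funext k; rw [hcon, zero_mul, zero_mul]
    rw [h2] at h
    have h3 := h.unique hasSum_zero
    rw [← ext_apply f z, h3]
    rfl
  obtain ⟨i0, hi0⟩ := hex
  obtain ⟨C, hC⟩ : ∃ C, ∀ z ∈ Metric.sphere (0:ℂ) (Real.exp (-1)), ‖ext f z‖ ≤ C := by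
    apply IsCompact.exists_bound_of_continuousOn (isCompact_sphere _ _)
    apply (ext_diff f).continuousOn.mono
    intro z hz
    have : ‖z‖ = Real.exp (-1) := by simpa using hz
    simp [this]
  have hCk : ∀ k, ‖cc f (jj k)‖ * aa k ≤ C * Real.exp (nn k) := by
    intro k
    have h5 := tc_bound (ext_diff f) (nn k) (R := Real.exp (-1)) (C := C) (Real.exp_pos _) (by simp)
      (fun z hz => hC z (by simpa using hz))
    rw [← coef_def, cc_eq hf, norm_mul, Complex.norm_real, Real.norm_of_nonneg (aa_pos k).le] at h5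
    refine le_trans h5 (le_of_eq ?_)
    rw [← Real.exp_nat_mul, div_eq_mul_inv, ← Real.exp_neg]
    congr 2
    ring
  intro K ρ hρ
  obtain ⟨r, h1, h2, h3, h4⟩ := core jj jj_fiber (cc f) (ext f) (fun z hz => MM_sum hf z hz) i0 hi0 C hCk K ρ hρ
  exact ⟨r, h1, h2, h3, fun z hz => by rw [← ext_apply f z]; exact h4 z hz⟩

/-! ### The functions `f_i` -/

lemma exp_nn_le (m : ℕ) : Real.exp (5 * (m+1) * nn m) ≤ nn (m+1) := by
  have h4 : nn (m+1) = 3 ^ (5 * (m+1) * nn m) := rfl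
  rw [h4]
  push_cast
  have h1 : Real.exp (5 * (m+1) * nn m) = (Real.exp 1) ^ (5 * (m+1) * nn m) := by
    rw [← Real.exp_nat_mul]; push_cast; ring_nf
  rw [h1]
  apply pow_le_pow_left₀ (Real.exp_pos _).le
  linarith [Real.exp_one_lt_d9]

/-- `∑ a_m n_m^{-ε} < ∞` -/
lemma summable_eps {ε : ℝ} (hε : 0 < ε) : Summable (fun m => aa m * (nn m : ℝ) ^ (-ε)) := by
  have hev : ∀ᶠ m : ℕ in atTop, ‖aa (m+1) * (nn (m+1) : ℝ) ^ (-ε)‖ ≤ (Real.exp (-1)) ^ m := by
    filter_upwards [eventually_ge_atTop (Nat.ceil (2/ε))] with m hm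
    have h2 : 2 / ε ≤ m := le_trans (Nat.le_ceil _) (by exact_mod_cast hm)
    have h3 : 2 ≤ ε * (m + 1) := by
      rw [div_le_iff₀ hε] at h2
      nlinarith
    have hpos : (0:ℝ) < nn (m+1) := by exact_mod_cast nn_pos _
    have h4 : (nn (m+1) : ℝ) ^ (-ε) ≤ Real.exp (-(ε * (5 * (m+1) * nn m))) := by
      rw [Real.rpow_neg hpos.le, Real.exp_neg]
      apply inv_anti₀ (Real.exp_pos _)
      calc Real.exp (ε * (5 * (m+1) * nn m)) = (Real.exp (5 * (m+1) * nn m)) ^ ε := by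
            rw [← Real.exp_mul]; ring_nf
        _ ≤ _ := Real.rpow_le_rpow (Real.exp_pos _).le (exp_nn_le m) hε.le
    rw [Real.norm_of_nonneg (by have := aa_pos (m+1); positivity)]
    have h5 : aa (m+1) = Real.exp (5 * nn m) := rfl
    have h6 : (m:ℝ) ≤ nn m := by exact_mod_cast nn_ge_self m
    calc aa (m+1) * (nn (m+1) : ℝ) ^ (-ε) ≤ Real.exp (5 * nn m) * Real.exp (-(ε * (5 * (m+1) * nn m))) := by
          rw [h5]; exact mul_le_mul_of_nonneg_left h4 (Real.exp_pos _).le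
      _ = Real.exp (5 * nn m + -(ε * (5 * (m+1) * nn m))) := by rw [← Real.exp_add]
      _ ≤ Real.exp (-m) := by
          apply Real.exp_le_exp.mpr
          have h7 : (0:ℝ) ≤ nn m := Nat.cast_nonneg _
          nlinarith
      _ = _ := by rw [← Real.exp_nat_mul]; ring_nf
  have hs : Summable (fun m => aa (m+1) * (nn (m+1) : ℝ) ^ (-ε)) := by
    apply Summable.of_norm_bounded_eventually_nat _ hev
    apply summable_geometric_of_lt_one (Real.exp_pos _).le
    simp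
  exact (summable_nat_add_iff 1).mp hs

lemma pow_le_rpow {ε : ℝ} (hε : 0 < ε) (hε1 : ε ≤ 1) (n : ℕ) (hn : 0 < n) {r : ℝ} (hr : 0 ≤ r) (hr1 : r < 1) :
    r ^ n ≤ (n : ℝ) ^ (-ε) * (1 - r) ^ (-ε) := by
  have hn' : (0:ℝ) < n := by exact_mod_cast hn
  have h1r : 0 < 1 - r := by linarith
  have hu : 0 < n * (1 - r) := by positivity
  have h1 : r ≤ Real.exp (-(1 - r)) := by
    have := Real.add_one_le_exp (-(1 - r))
    linarith
  have h2 : r ^ n ≤ Real.exp (-(n * (1 - r))) := by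
    calc r ^ n ≤ (Real.exp (-(1 - r))) ^ n := pow_le_pow_left₀ hr h1 n
      _ = _ := by rw [← Real.exp_nat_mul]; ring_nf
  refine le_trans h2 ?_
  rw [← Real.mul_rpow hn'.le h1r.le, Real.rpow_neg hu.le, Real.exp_neg]
  apply inv_anti₀ (by positivity)
  rcases le_total (n * (1 - r)) 1 with h | h
  · calc (n * (1 - r)) ^ ε ≤ 1 := Real.rpow_le_one hu.le h hε.le
      _ ≤ _ := Real.one_le_exp hu.le
  · calc (n * (1 - r)) ^ ε ≤ (n * (1 - r)) ^ (1:ℝ) := Real.rpow_le_rpow_of_exponent_le h hε1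
      _ = n * (1 - r) := Real.rpow_one _
      _ ≤ _ := by linarith [Real.add_one_le_exp (n * (1 - r))]

/-- coefficients of `f_i` along `nn` -/
noncomputable def dd (i m : ℕ) : ℂ := if jj m = i then (aa m : ℂ) else 0

lemma norm_dd (i m : ℕ) : ‖dd i m‖ ≤ aa m := by
  rw [dd]
  split_ifs
  · rw [Complex.norm_real, Real.norm_of_nonneg (aa_pos m).le]
  · rw [norm_zero]; exact (aa_pos m).le

noncomputable def gf (i : ℕ) (z : ℂ) : ℂ := ∑' m, dd i m * z ^ nn m

lemma gf_bound_term {ε : ℝ} (hε : 0 < ε) (hε1 : ε ≤ 1) (i m : ℕ) {z : ℂ} (hz : ‖z‖ < 1) :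
    ‖dd i m * z ^ nn m‖ ≤ (aa m * (nn m : ℝ) ^ (-ε)) * (1 - ‖z‖) ^ (-ε) := by
  rw [norm_mul, norm_pow, mul_assoc]
  apply mul_le_mul (norm_dd i m) (pow_le_rpow hε hε1 _ (nn_pos m) (norm_nonneg _) hz)
    (by positivity) (aa_pos m).le

lemma gf_sum (i : ℕ) {z : ℂ} (hz : ‖z‖ < 1) : HasSum (fun m => dd i m * z ^ nn m) (gf i z) := by
  apply Summable.hasSum
  apply Summable.of_norm_bounded _ (fun m => gf_bound_term (ε := 1) one_pos le_rfl i m hz)
  exact (summable_eps one_pos).mul_right _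

lemma gf_bound {ε : ℝ} (hε : 0 < ε) (hε1 : ε ≤ 1) (i : ℕ) {z : ℂ} (hz : ‖z‖ < 1) :
    ‖gf i z‖ ≤ (∑' m, aa m * (nn m : ℝ) ^ (-ε)) * (1 - ‖z‖) ^ (-ε) := by
  apply (gf_sum i hz).norm_le_of_bounded ((summable_eps hε).hasSum.mul_right _)
    (fun m => gf_bound_term hε hε1 i m hz)

noncomputable def gcoef (i : ℕ) : ℕ → ℂ := Function.extend nn (dd i) 0

lemma gf_full (i : ℕ) (z : ℂ) (hz : ‖z‖ < 1) : HasSum (fun n => gcoef i n * z ^ n) (gf i z) := by
  have h0 : ∀ n ∉ Set.range nn, (fun n => gcoef i n * z ^ n) n = 0 := by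
    intro n hn
    simp only [gcoef]
    rw [Function.extend_apply' _ _ _ (fun ⟨k, hk⟩ => hn ⟨k, hk⟩)]
    simp
  apply (nn_strictMono.injective.hasSum_iff h0).mp
  have h3 : (fun n => gcoef i n * z ^ n) ∘ nn = fun m => dd i m * z ^ nn m := by
    funext k
    simp only [Function.comp, gcoef]
    rw [nn_strictMono.injective.extend_apply]
  rw [h3]
  exact gf_sum i hz

noncomputable def ff (i : ℕ) : HolD :=
  ⟨⟨fun z => gf i z, (diff_of_hasSum (gf_full i)).continuousOn.domRestrict⟩,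
    ⟨gf i, diff_of_hasSum (gf_full i), fun _ => rfl⟩⟩

lemma tc_congr {F G : ℂ → ℂ} (h : ∀ z : ℂ, ‖z‖ < 1 → F z = G z) (n : ℕ) : tc n F = tc n G := by
  have h1 : F =ᶠ[𝓝 0] G := by
    filter_upwards [Metric.ball_mem_nhds (0:ℂ) one_pos] with z hz
    exact h z (by simpa using hz)
  rw [tc, tc, h1.iteratedDeriv_eq]

lemma coef_ff (i n : ℕ) : coef n (ff i) = gcoef i n := by
  rw [coef_def, ← tc_of_hasSum (gf_full i) n]
  apply tc_congr
  intro z hz
  exact ext_apply (ff i) ⟨z, by simpa using hz⟩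

lemma ff_mem (i : ℕ) : ff i ∈ MM := by
  rw [mem_MM]
  constructor
  · intro n hn
    rw [coef_ff, gcoef, Function.extend_apply' _ _ _ (fun ⟨k, hk⟩ => hn k hk)]
    rfl
  · intro k l hkl
    rw [coef_ff, coef_ff, gcoef, nn_strictMono.injective.extend_apply, nn_strictMono.injective.extend_apply,
      dd, dd, hkl]
    split_ifs
    · ring
    · simp

lemma cc_ff (i l : ℕ) : cc (ff i) l = if l = i then 1 else 0 := by
  rw [cc, coef_ff, gcoef, nn_strictMono.injective.extend_apply, dd]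
  have h2 : (aa (Nat.pair l 0) : ℂ) ≠ 0 := by exact_mod_cast (aa_pos _).ne'
  simp only [jj, Nat.unpair_pair]
  split_ifs
  · exact div_self h2
  · simp

noncomputable def ccL (l : ℕ) : HolD →ₗ[ℂ] ℂ := (aa (Nat.pair l 0) : ℂ)⁻¹ • coef (nn (Nat.pair l 0))

lemma ccL_apply (l : ℕ) (f : HolD) : ccL l f = cc f l := by
  rw [ccL, cc, LinearMap.smul_apply, smul_eq_mul, div_eq_inv_mul]

lemma not_fd (M : Submodule ℂ HolD) (hM : ∀ i, ff i ∈ M) : ¬ Module.Finite ℂ M := by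
  intro hfd
  let Φ : M →ₗ[ℂ] (ℕ → ℂ) := LinearMap.pi (fun l => (ccL l).comp M.subtype)
  have h1 : Module.Finite ℂ (LinearMap.range Φ) := Module.Finite.range Φ
  have h2 : ∀ i, (Pi.single i 1 : ℕ → ℂ) ∈ LinearMap.range Φ := by
    intro i
    refine ⟨⟨ff i, hM i⟩, ?_⟩
    funext l
    change ccL l (ff i) = _
    rw [ccL_apply, cc_ff, Pi.single_apply]
  have h3 : LinearIndependent ℂ (fun i => (⟨Pi.single i 1, h2 i⟩ : LinearMap.range Φ)) := by
    apply LinearIndependent.of_comp (LinearMap.range Φ).subtype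
    exact Pi.linearIndependent_single_one ℕ ℂ
  have := h3.finite
  exact not_finite ℕ

end Pool.Agent.H24.SA
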