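import Mathlib

open MeasureTheory Filter Topology

namespace Pool.Agent.H24.SA

/-- The open unit disc `𝔻`. -/
abbrev Disc : Set ℂ := Metric.ball (0 : ℂ) 1

/-- `H(𝔻)`: the holomorphic functions on `𝔻`, as a subspace of the space `C(𝔻, ℂ)` of continuous
functions with its compact-open topology (uniform convergence on compact subsets of `𝔻`). -/
def HolD : Submodule ℂ C(Disc, ℂ) where
  carrier := {f | ∃ F : ℂ → ℂ, DifferentiableOn ℂ F Disc ∧ ∀ z : Disc, f z = F z}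
  add_mem' := by
    rintro f g ⟨F, hF, hfF⟩ ⟨G, hG, hgG⟩
    exact ⟨fun z => F z + G z, hF.add hG, fun z => by simp [hfF z, hgG z]⟩
  zero_mem' := ⟨fun _ => 0, differentiableOn_const _, fun _ => rfl⟩
  smul_mem' := by
    rintro c f ⟨F, hF, hfF⟩
    exact ⟨fun z => c * F z, hF.const_mul c, fun z => by simp [hfF z]⟩

/-- `f` is strongly annular: `limsup_{r → 1-} min_{|z|=r} |f(z)| = +∞`. -/
def StronglyAnnular (f : HolD) : Prop :=
  ∀ K ρ : ℝ, ρ < 1 → ∃ r : ℝ, ρ < r ∧ 0 < r ∧ r < 1 ∧ ∀ z : Disc, ‖(z : ℂ)‖ = r → K ≤ ‖f.1 z‖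

/-- `‖f‖_{p,α} = (∫_𝔻 |f|^p (1-|z|)^α dA/π)^{min(1,1/p)}`, a value in `[0,∞]`. -/
noncomputable def bergmanNorm (p α : ℝ) (f : HolD) : ENNReal :=
  (∫⁻ z : Disc, ENNReal.ofReal (‖f.1 z‖ ^ p * (1 - ‖(z : ℂ)‖) ^ α / Real.pi)
    ∂((volume : Measure ℂ).comap (Subtype.val : Disc → ℂ))) ^ (min 1 (1 / p))

end Pool.Agent.H24.SA
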