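import Pool.Agent.H24.SAd

open MeasureTheory Filter Topology Real
open scoped Nat

namespace Pool.Agent.H24.SA

lemma circ_int {G : ℂ → ℂ} (hG : DifferentiableOn ℂ G Disc) {r : ℝ} (hr : 0 < r) (hr1 : r < 1) {p : ℝ}
    (hp : 0 < p) : CircleIntegrable (fun z => ‖G z‖ ^ p) 0 r := by
  apply ContinuousOn.circleIntegrable hr.le
  apply ContinuousOn.rpow_const
  · apply ContinuousOn.norm
    apply hG.continuousOn.mono
    intro z hz
    have : ‖z‖ = r := by simpa using hz
    simpa [this] using hr1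
  · intro z _; right; exact hp.le

/-- sub-mean value property at the centre -/
lemma submean {G : ℂ → ℂ} (hG : DifferentiableOn ℂ G Disc) {r : ℝ} (hr : 0 < r) (hr1 : r < 1) {p : ℝ}
    (hp : 0 < p) : ‖G 0‖ ^ p ≤ circleAverage (fun z => ‖G z‖ ^ p) 0 r := by
  by_cases h0 : G 0 = 0
  · rw [h0, norm_zero, Real.zero_rpow hp.ne']
    apply circleAverage_nonneg_of_nonneg
    intro z _
    positivity
  have hsub : Metric.closedBall (0:ℂ) |r| ⊆ Disc := by
    rw [abs_of_pos hr]; exact Metric.closedBall_subset_ball hr1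
  have hA : AnalyticOnNhd ℂ G Disc := hG.analyticOnNhd Metric.isOpen_ball
  have hA1 : AnalyticOnNhd ℂ G (Metric.closedBall (0:ℂ) |r|) := hA.mono hsub
  have hJ := hA1.circleAverage_log_norm hr.ne' h0
  have hge : Real.log ‖G 0‖ ≤ circleAverage (fun z => Real.log ‖G z‖) 0 r := by
    rw [hJ]
    have : 0 ≤ ∑ᶠ u, (MeromorphicOn.divisor G (Metric.closedBall (0:ℂ) |r|) u : ℝ) * Real.log (r * ‖(0:ℂ) - u‖⁻¹) := by
      apply finsum_nonneg
      intro u
      by_cases hu : u ∈ Metric.closedBall (0:ℂ) |r|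
      · apply mul_nonneg (mod_cast MeromorphicOn.AnalyticOnNhd.divisor_nonneg hA1 u)
        have hu' : ‖u‖ ≤ r := by simpa [abs_of_pos hr] using hu
        by_cases hu0 : u = 0
        · simp [hu0]
        · apply Real.log_nonneg
          have : 0 < ‖u‖ := norm_pos_iff.mpr hu0
          rw [zero_sub, norm_neg, ← div_eq_mul_inv, one_le_div this]
          exact hu'
      · rw [Function.locallyFinsuppWithin.apply_eq_zero_of_notMem _ hu]
        simp
    linarith
  have hcod : ∀ᶠ z in codiscreteWithin (Metric.sphere (0:ℂ) |r|), G z ≠ 0 := by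
    have h1 : G ⁻¹' {0}ᶜ ∈ codiscreteWithin Disc :=
      hA.preimage_zero_mem_codiscreteWithin h0 (by simp) ⟨⟨0, by simp⟩, (convex_ball 0 1).isPreconnected⟩
    have h2 : G ⁻¹' {0}ᶜ ∈ codiscreteWithin (Metric.sphere (0:ℂ) |r|) :=
      codiscreteWithin_mono (Metric.sphere_subset_closedBall.trans hsub) h1
    exact h2
  set A := circleAverage (fun z => ‖G z‖ ^ p) 0 r with hAdef
  have hlogint : CircleIntegrable (fun z => Real.log ‖G z‖) 0 r :=
    (hA1.mono Metric.sphere_subset_closedBall).meromorphicOn.circleIntegrable_log_norm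
  have hint := circ_int hG hr hr1 hp
  have hA0 : 0 ≤ A := by
    apply circleAverage_nonneg_of_nonneg
    intro z _
    positivity
  apply le_of_forall_pos_le_add
  intro δ hδ
  set A' := A + δ with hA'
  have hA'pos : 0 < A' := by linarith
  -- modified log
  let f2 : ℂ → ℝ := fun z => if G z = 0 then (Real.log A' - 1) / p else Real.log ‖G z‖
  have heq : (fun z => Real.log ‖G z‖) =ᶠ[codiscreteWithin (Metric.sphere (0:ℂ) |r|)] f2 := by
    filter_upwards [hcod] with z hz
    simp [f2, hz]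
  have hf2int : CircleIntegrable f2 0 r := hlogint.congr_codiscreteWithin heq
  have hf2avg := circleAverage_congr_codiscreteWithin heq hr.ne'
  have hmono : circleAverage f2 0 r ≤ circleAverage (fun z => p⁻¹ * (A'⁻¹ * ‖G z‖ ^ p + (Real.log A' - 1))) 0 r := by
    apply circleAverage_mono hf2int
    · have h1 : CircleIntegrable (fun z => A'⁻¹ * ‖G z‖ ^ p) 0 r := hint.const_fun_smul (a := A'⁻¹)
      have h2 : CircleIntegrable (fun z => A'⁻¹ * ‖G z‖ ^ p + (Real.log A' - 1)) 0 r :=
        h1.add (circleIntegrable_const _ _ _)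
      exact h2.const_fun_smul (a := p⁻¹)
    · intro z _
      by_cases hz : G z = 0
      · simp only [f2, hz, if_true, norm_zero, Real.zero_rpow hp.ne', mul_zero, zero_add]
        rw [div_eq_inv_mul]
      · simp only [f2, hz, if_false]
        rw [← div_eq_inv_mul, le_div_iff₀ hp]
        have hn : 0 < ‖G z‖ := norm_pos_iff.mpr hz
        have h1 : Real.log (A'⁻¹ * ‖G z‖ ^ p) ≤ A'⁻¹ * ‖G z‖ ^ p - 1 :=
          Real.log_le_sub_one_of_pos (by positivity)
        rw [Real.log_mul (by positivity) (by positivity), Real.log_inv, Real.log_rpow hn] at h1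
        linarith
  have hval : circleAverage (fun z => p⁻¹ * (A'⁻¹ * ‖G z‖ ^ p + (Real.log A' - 1))) 0 r =
      p⁻¹ * (A'⁻¹ * A + (Real.log A' - 1)) := by
    have h1 : CircleIntegrable (fun z => A'⁻¹ * ‖G z‖ ^ p) 0 r := hint.const_fun_smul (a := A'⁻¹)
    have e1 := circleAverage_fun_smul (a := p⁻¹) (f := fun z => (A'⁻¹ * ‖G z‖ ^ p + (Real.log A' - 1))) (c := 0) (R := r)
    simp only [smul_eq_mul] at e1
    rw [e1]
    have e2 := circleAverage_fun_add (f₁ := fun z => A'⁻¹ * ‖G z‖ ^ p) (f₂ := fun _ => (Real.log A' - 1)) h1 (circleIntegrable_const _ _ _)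
    rw [e2]
    have e3 := circleAverage_fun_smul (a := A'⁻¹) (f := fun z => ‖G z‖ ^ p) (c := 0) (R := r)
    simp only [smul_eq_mul] at e3
    rw [e3, circleAverage_const]
  rw [← hf2avg, hval] at hmono
  have hfin : p * Real.log ‖G 0‖ ≤ Real.log A' := by
    have h1 := le_trans hge hmono
    have h2 : A'⁻¹ * A ≤ 1 := by
      rw [inv_mul_le_iff₀ hA'pos]; linarith
    have h3 : p * Real.log ‖G 0‖ ≤ p * (p⁻¹ * (A'⁻¹ * A + (Real.log A' - 1))) :=
      mul_le_mul_of_nonneg_left h1 hp.le
    rw [← mul_assoc, mul_inv_cancel₀ hp.ne', one_mul] at h3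
    linarith
  have hn : 0 < ‖G 0‖ := norm_pos_iff.mpr h0
  rw [← Real.log_rpow hn, Real.log_le_log_iff (by positivity) hA'pos] at hfin
  exact hfin

lemma tc_succ {G : ℂ → ℂ} (hG : DifferentiableOn ℂ G Disc) (n : ℕ) :
    tc (n+1) G = tc n (dslope G 0) := by
  have hD : DifferentiableOn ℂ (dslope G 0) Disc :=
    (Complex.differentiableOn_dslope (Metric.ball_mem_nhds _ one_pos)).mpr hG
  let a : ℕ → ℂ := fun n => Nat.casesOn n (G 0) (fun n => tc n (dslope G 0))
  have h : ∀ z : ℂ, ‖z‖ < 1 → HasSum (fun n => a n * z ^ n) (G z) := by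
    intro z hz
    have hz' : z ∈ Disc := by simpa using hz
    have h1 := (hasSum_tc hD hz').mul_left z
    have h2 : HasSum (fun n => a (n+1) * z ^ (n+1)) (z * dslope G 0 z) := by
      have : (fun n => a (n+1) * z ^ (n+1)) = fun n => z * (tc n (dslope G 0) * z ^ n) := by
        funext n
        simp only [a]
        ring
      rw [this]; exact h1
    have h3 := (hasSum_nat_add_iff (f := fun n => a n * z ^ n) 1).mp h2
    have h4 : z * dslope G 0 z + ∑ i ∈ Finset.range 1, a i * z ^ i = G z := by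
      have := sub_smul_dslope G 0 z
      simp only [sub_zero, smul_eq_mul] at this
      simp [a, this]
    rw [h4] at h3
    exact h3
  exact tc_of_hasSum h (n+1)

lemma add_rpow_le' {a b p : ℝ} (ha : 0 ≤ a) (hb : 0 ≤ b) (hp : 0 < p) :
    (a + b) ^ p ≤ 2 ^ p * (a ^ p + b ^ p) := by
  rcases le_total a b with h | h
  · calc (a + b) ^ p ≤ (2 * b) ^ p := Real.rpow_le_rpow (by positivity) (by linarith) hp.le
      _ = 2 ^ p * b ^ p := Real.mul_rpow (by norm_num) hb
      _ ≤ _ := by
        apply mul_le_mul_of_nonneg_left _ (by positivity)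
        have : 0 ≤ a ^ p := by positivity
        linarith
  · calc (a + b) ^ p ≤ (2 * a) ^ p := Real.rpow_le_rpow (by positivity) (by linarith) hp.le
      _ = 2 ^ p * a ^ p := Real.mul_rpow (by norm_num) ha
      _ ≤ _ := by
        apply mul_le_mul_of_nonneg_left _ (by positivity)
        have : 0 ≤ b ^ p := by positivity
        linarith

lemma tc_le_avg (p : ℝ) (hp : 0 < p) (n : ℕ) : ∀ {G : ℂ → ℂ}, DifferentiableOn ℂ G Disc →
    ∀ {r : ℝ}, 0 < r → r < 1 →
    ‖tc n G‖ ^ p ≤ (2 ^ (p+1) * (r⁻¹) ^ p) ^ n * circleAverage (fun z => ‖G z‖ ^ p) 0 r := by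
  induction n with
  | zero =>
    intro G hG r hr hr1
    have : tc 0 G = G 0 := by simp [tc]
    rw [this, pow_zero, one_mul]
    exact submean hG hr hr1 hp
  | succ n ih =>
    intro G hG r hr hr1
    have hD : DifferentiableOn ℂ (dslope G 0) Disc :=
      (Complex.differentiableOn_dslope (Metric.ball_mem_nhds _ one_pos)).mpr hG
    rw [tc_succ hG]
    refine le_trans (ih hD hr hr1) ?_
    rw [pow_succ, mul_assoc]
    apply mul_le_mul_of_nonneg_left _ (by positivity)
    set A := circleAverage (fun z => ‖G z‖ ^ p) 0 r with hA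
    have hint := circ_int hG hr hr1 hp
    have h1 : circleAverage (fun z => ‖dslope G 0 z‖ ^ p) 0 r ≤
        circleAverage (fun z => (2 ^ p * (r⁻¹) ^ p) * (‖G z‖ ^ p + ‖G 0‖ ^ p)) 0 r := by
      apply circleAverage_mono (circ_int hD hr hr1 hp)
      · exact (hint.add (circleIntegrable_const _ _ _)).const_fun_smul (a := (2 ^ p * (r⁻¹) ^ p))
      · intro z hz
        have hz' : ‖z‖ = r := by simpa [abs_of_pos hr] using hz
        have hz0 : z ≠ 0 := by
          intro h; rw [h, norm_zero] at hz'; linarith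
        have h2 := sub_smul_dslope G 0 z
        simp only [sub_zero, smul_eq_mul] at h2
        have h3 : ‖dslope G 0 z‖ = r⁻¹ * ‖G z - G 0‖ := by
          rw [← h2, norm_mul, hz', ← mul_assoc, inv_mul_cancel₀ hr.ne', one_mul]
        have h4 : ‖G z - G 0‖ ≤ ‖G z‖ + ‖G 0‖ := norm_sub_le _ _
        rw [h3, Real.mul_rpow (by positivity) (norm_nonneg _)]
        calc r⁻¹ ^ p * ‖G z - G 0‖ ^ p ≤ r⁻¹ ^ p * (2 ^ p * (‖G z‖ ^ p + ‖G 0‖ ^ p)) := by
              apply mul_le_mul_of_nonneg_left _ (by positivity)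
              exact le_trans (Real.rpow_le_rpow (norm_nonneg _) h4 hp.le)
                (add_rpow_le' (norm_nonneg _) (norm_nonneg _) hp)
          _ = _ := by ring
    refine le_trans h1 ?_
    have e1 := circleAverage_fun_smul (a := (2 ^ p * (r⁻¹) ^ p)) (f := fun z => (‖G z‖ ^ p + ‖G 0‖ ^ p)) (c := 0) (R := r)
    simp only [smul_eq_mul] at e1
    rw [e1, circleAverage_fun_add hint (circleIntegrable_const _ _ _), circleAverage_const, ← hA]
    have h5 : ‖G 0‖ ^ p ≤ A := submean hG hr hr1 hp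
    have h6 : (2:ℝ) ^ (p+1) = 2 * 2 ^ p := by rw [Real.rpow_add (by norm_num), Real.rpow_one]; ring
    rw [h6]
    have h7 : 0 ≤ (2:ℝ) ^ p * r⁻¹ ^ p := by positivity
    nlinarith

end Pool.Agent.H24.SA
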