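import Pool.Agent.H24.SAe

open MeasureTheory Filter Topology Real
open scoped Nat ENNReal

namespace Pool.Agent.H24.SA

noncomputable def bsize (p α : ℝ) (f : HolD) : ENNReal :=
  ∫⁻ z in Disc, ENNReal.ofReal (‖ext f z‖ ^ p * (1 - ‖z‖) ^ α / π)

lemma bergman_eq (p α : ℝ) (f : HolD) : bergmanNorm p α f = (bsize p α f) ^ (min 1 (1 / p)) := by
  rw [bergmanNorm, bsize, ← lintegral_subtype_comap Metric.isOpen_ball.measurableSet]
  congr 1
  apply lintegral_congr
  intro z
  rw [ext_apply]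

/-- `∫_𝔻 (1-|z|)^β < ∞` for `β > -1`. -/
lemma integrable_weight {β : ℝ} (hβ : -1 < β) : IntegrableOn (fun z : ℂ => (1 - ‖z‖) ^ β) Disc := by
  have h := (integrableOn_fun_norm_addHaar (E := ℂ) (volume : Measure ℂ) (f := fun y : ℝ => (1 - y) ^ β) (r := 1)).mpr
  apply h
  have h1 : IntervalIntegrable (fun y : ℝ => (1 - y) ^ β) volume 0 1 := by
    have h2 := (intervalIntegral.intervalIntegrable_rpow' (a := 0) (b := 1) hβ).comp_sub_left 1
    simpa using h2.symm
  rw [intervalIntegrable_iff_integrableOn_Ioo_of_le zero_le_one] at h1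
  have h3 : Module.finrank ℝ ℂ - 1 = 1 := by rw [Complex.finrank_real_complex]
  simp only [h3, pow_one, smul_eq_mul]
  apply Integrable.mono' h1
  · apply AEStronglyMeasurable.mul
    · exact measurable_id.aestronglyMeasurable
    · exact h1.aestronglyMeasurable
  · filter_upwards [ae_restrict_mem measurableSet_Ioo] with y hy
    have h4 : 0 ≤ (1 - y) ^ β := by
      apply Real.rpow_nonneg; linarith [hy.2]
    rw [Real.norm_of_nonneg (mul_nonneg hy.1.le h4)]
    nlinarith [hy.2]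

lemma ff_bsize {p α : ℝ} (hp : 0 < p) (hα : -1 < α) (i : ℕ) : bsize p α (ff i) < ∞ := by
  set ε : ℝ := min 1 ((α + 1) / (2 * p)) with hε
  have hε0 : 0 < ε := by
    apply lt_min one_pos
    have : 0 < α + 1 := by linarith
    positivity
  have hε1 : ε ≤ 1 := min_le_left _ _
  have hε2 : ε * p ≤ (α + 1) / 2 := by
    have : ε ≤ (α + 1) / (2 * p) := min_le_right _ _
    calc ε * p ≤ (α + 1) / (2 * p) * p := mul_le_mul_of_nonneg_right this hp.le
      _ = (α + 1) / 2 := by field_simp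
  have hβ : -1 < α - ε * p := by linarith
  obtain ⟨S, hS⟩ : ∃ S : ℝ, S = ∑' m, aa m * (nn m : ℝ) ^ (-ε) := ⟨_, rfl⟩
  have hS0 : 0 ≤ S := by
    rw [hS]
    apply tsum_nonneg
    intro m
    have := (aa_pos m).le
    positivity
  have hint : Integrable (fun z : ℂ => S ^ p / π * (1 - ‖z‖) ^ (α - ε * p)) (volume.restrict Disc) :=
    (integrable_weight hβ).const_mul _
  refine lt_of_le_of_lt ?_ hint.lintegral_lt_top
  rw [bsize]
  apply lintegral_mono_ae
  filter_upwards [ae_restrict_mem Metric.isOpen_ball.measurableSet] with z hz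
  apply ENNReal.ofReal_le_ofReal
  have hz1 : ‖z‖ < 1 := by simpa using hz
  have hz2 : 0 < 1 - ‖z‖ := by linarith
  have h1 : ‖ext (ff i) z‖ ≤ S * (1 - ‖z‖) ^ (-ε) := by
    rw [show ext (ff i) z = gf i z from ext_apply (ff i) ⟨z, hz⟩, hS]
    exact gf_bound hε0 hε1 i hz1
  have h2 : ‖ext (ff i) z‖ ^ p ≤ S ^ p * (1 - ‖z‖) ^ (-(ε * p)) := by
    calc ‖ext (ff i) z‖ ^ p ≤ (S * (1 - ‖z‖) ^ (-ε)) ^ p := Real.rpow_le_rpow (norm_nonneg _) h1 hp.le
      _ = _ := by
        rw [Real.mul_rpow hS0 (by positivity), ← Real.rpow_mul hz2.le]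
        ring_nf
  calc ‖ext (ff i) z‖ ^ p * (1 - ‖z‖) ^ α / π ≤ S ^ p * (1 - ‖z‖) ^ (-(ε * p)) * (1 - ‖z‖) ^ α / π := by
        gcongr
    _ = S ^ p / π * ((1 - ‖z‖) ^ (-(ε * p)) * (1 - ‖z‖) ^ α) := by ring
    _ = _ := by rw [← Real.rpow_add hz2]; ring_nf

lemma weight_lower {α r : ℝ} (hr0 : 1/4 < r) (hr : r < 1/2) : (1/2 : ℝ) ^ |α| ≤ (1 - r) ^ α := by
  calc (1/2 : ℝ) ^ |α| ≤ (1 - r) ^ |α| := Real.rpow_le_rpow (by norm_num) (by linarith) (abs_nonneg _)
    _ ≤ (1 - r) ^ α := Real.rpow_le_rpow_of_exponent_ge (by linarith) (by linarith) (le_abs_self α)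

/-- circle average as a lintegral over `(-π, π)` -/
lemma lint_circle {u : ℂ → ℝ} {r : ℝ} (hr : 0 < r) (hu : ∀ z, 0 ≤ u z) (hc : ContinuousOn u (Metric.sphere (0:ℂ) r)) :
    ∫⁻ θ in Set.Ioo (-π) π, ENNReal.ofReal (u (circleMap 0 r θ)) = ENNReal.ofReal (2 * π * circleAverage u 0 r) := by
  have hcont : Continuous (fun θ => u (circleMap 0 r θ)) := by
    rw [← continuousOn_univ]
    apply hc.comp (continuous_circleMap 0 r).continuousOn
    intro θ _
    exact circleMap_mem_sphere 0 hr.le θ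
  have h1 : circleAverage u 0 r = (2 * π)⁻¹ * ∫ θ in (-π)..π, u (circleMap 0 r θ) := by
    rw [circleAverage_eq_integral_add (-π), smul_eq_mul,
      intervalIntegral.integral_comp_add_right (fun θ => u (circleMap 0 r θ))]
    congr 2 <;> ring
  rw [h1, ← mul_assoc, mul_inv_cancel₀ (by positivity), one_mul,
    intervalIntegral.integral_of_le (by linarith [Real.pi_pos]), integral_Ioc_eq_integral_Ioo,
    ofReal_integral_eq_lintegral_ofReal]
  · have := hcont.intervalIntegrable (μ := volume) (-π) π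
    rwa [intervalIntegrable_iff_integrableOn_Ioo_of_le (by linarith [Real.pi_pos])] at this
  · exact Eventually.of_forall fun θ => hu _

lemma key_coef {p α : ℝ} (hp : 0 < p) (n : ℕ) :
    ∃ c : ℝ, 0 < c ∧ ∀ h : HolD, ENNReal.ofReal (c * ‖coef n h‖ ^ p) ≤ bsize p α h := by
  set C : ℝ := (2 ^ (p+1) * ((4:ℝ)) ^ p) ^ n with hC
  have hCpos : 0 < C := by positivity
  set k : ℝ := (1/4) * ((1/2 : ℝ) ^ |α| / π) with hk
  have hkpos : 0 < k := by positivity
  refine ⟨(1/4) * (k * (2 * π * C⁻¹)), by positivity, fun h => ?_⟩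
  have hG := ext_diff h
  set G := ext h with hGdef
  have hcoef : ∀ r : ℝ, 1/4 < r → r < 1/2 → C⁻¹ * ‖coef n h‖ ^ p ≤ circleAverage (fun z => ‖G z‖ ^ p) 0 r := by
    intro r hr0 hr1
    have h1 := tc_le_avg p hp n hG (r := r) (by linarith) (by linarith)
    have h2 : (2 ^ (p+1) * (r⁻¹) ^ p) ^ n ≤ C := by
      rw [hC]
      apply pow_le_pow_left₀ (by have : 0 < r := by linarith
                                 positivity)
      apply mul_le_mul_of_nonneg_left _ (by positivity)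
      have hr : 0 < r := by linarith
      apply Real.rpow_le_rpow (by positivity) _ hp.le
      rw [inv_le_comm₀ hr (by norm_num)]
      linarith
    have h3 : 0 ≤ circleAverage (fun z => ‖G z‖ ^ p) 0 r := by
      apply circleAverage_nonneg_of_nonneg
      intro z _
      positivity
    rw [inv_mul_le_iff₀ hCpos, coef_def]
    exact le_trans h1 (mul_le_mul_of_nonneg_right h2 h3)
  -- polar coordinates
  set wf : ℂ → ℝ≥0∞ := fun z => ENNReal.ofReal (‖G z‖ ^ p * (1 - ‖z‖) ^ α / π) with hwf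
  have h1 : bsize p α h = ∫⁻ z, Set.indicator Disc wf z := by
    rw [bsize, lintegral_indicator Metric.isOpen_ball.measurableSet]
  rw [h1, ← Complex.lintegral_comp_polarCoord_symm]
  set R : Set (ℝ × ℝ) := Set.Ioo (1/4) (1/2) ×ˢ Set.Ioo (-π) π with hR
  have hRsub : R ⊆ polarCoord.target := by
    rintro ⟨r, θ⟩ ⟨hr, hθ⟩
    exact ⟨lt_trans (by norm_num) hr.1, hθ⟩
  have hRmeas : MeasurableSet R := measurableSet_Ioo.prod measurableSet_Ioo
  refine le_trans ?_ (lintegral_mono_set hRsub)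
  -- lower bound of the integrand
  set vf : ℝ × ℝ → ℝ≥0∞ := fun q => ENNReal.ofReal k * ENNReal.ofReal (‖G (circleMap 0 q.1 q.2)‖ ^ p) with hvf
  have h2 : ∫⁻ q in R, vf q ≤ ∫⁻ q in R, ENNReal.ofReal q.1 • Set.indicator Disc wf (Complex.polarCoord.symm q) := by
    apply setLIntegral_mono' hRmeas
    rintro ⟨r, θ⟩ ⟨hr, hθ⟩
    have hr0 : 1/4 < r := hr.1
    have hr1 : r < 1/2 := hr.2
    have hrpos : 0 < r := by linarith
    have e1 : Complex.polarCoord.symm (r, θ) = circleMap 0 r θ := by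
      rw [Complex.polarCoord_symm_apply, circleMap, zero_add, Complex.exp_mul_I]
      simp only [Complex.ofReal_cos, Complex.ofReal_sin]
    have e2 : ‖circleMap 0 r θ‖ = r := by simp [abs_of_pos hrpos]
    have e3 : circleMap 0 r θ ∈ Disc := by
      rw [mem_ball_zero_iff, e2]; linarith
    simp only [hvf]
    rw [e1, Set.indicator_of_mem e3, hwf, smul_eq_mul]
    simp only
    rw [e2, ← ENNReal.ofReal_mul hkpos.le, ← ENNReal.ofReal_mul hrpos.le]
    apply ENNReal.ofReal_le_ofReal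
    have h3 := weight_lower (α := α) hr0 hr1
    have h4 : 0 ≤ ‖G (circleMap 0 r θ)‖ ^ p := by positivity
    calc k * ‖G (circleMap 0 r θ)‖ ^ p = (1/4) * (‖G (circleMap 0 r θ)‖ ^ p * (1/2 : ℝ) ^ |α| / π) := by
          rw [hk]; ring
      _ ≤ r * (‖G (circleMap 0 r θ)‖ ^ p * (1 - r) ^ α / π) := by
          gcongr
  refine le_trans ?_ h2
  -- Tonelli
  have hcontG : ContinuousOn (fun q : ℝ × ℝ => ‖G (circleMap 0 q.1 q.2)‖ ^ p) R := by
    apply ContinuousOn.rpow_const
    · apply ContinuousOn.norm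
      apply hG.continuousOn.comp
      · apply Continuous.continuousOn
        unfold circleMap
        fun_prop
      · rintro ⟨r, θ⟩ ⟨hr, _⟩
        have hr0 : 1/4 < r := hr.1
        have hr1 : r < 1/2 := hr.2
        have e2 : ‖circleMap 0 r θ‖ = r := by simp [abs_of_pos (show 0 < r by linarith)]
        rw [mem_ball_zero_iff]
        change ‖circleMap 0 r θ‖ < 1
        rw [e2]; linarith
    · intro _ _; right; exact hp.le
  have hmeas : AEMeasurable vf (volume.restrict R) := by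
    apply AEMeasurable.const_mul
    exact (hcontG.aemeasurable hRmeas).ennreal_ofReal
  have hvol : (volume.restrict R : Measure (ℝ × ℝ)) =
      (volume.restrict (Set.Ioo (1/4) (1/2))).prod (volume.restrict (Set.Ioo (-π) π)) := by
    rw [Measure.prod_restrict, hR]; rfl
  rw [hvol] at hmeas ⊢
  rw [lintegral_prod _ hmeas]
  have h5 : ∫⁻ _r in Set.Ioo (1/4 : ℝ) (1/2), ENNReal.ofReal (k * (2 * π * C⁻¹) * ‖coef n h‖ ^ p) ≤
      ∫⁻ r in Set.Ioo (1/4 : ℝ) (1/2), ∫⁻ θ in Set.Ioo (-π) π, vf (r, θ) := by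
    apply setLIntegral_mono' measurableSet_Ioo
    intro r hr
    have hr0 : 1/4 < r := hr.1
    have hr1 : r < 1/2 := hr.2
    have hrpos : 0 < r := by linarith
    simp only [hvf]
    rw [lintegral_const_mul' _ _ ENNReal.ofReal_ne_top]
    have hcs : ContinuousOn (fun z => ‖G z‖ ^ p) (Metric.sphere (0:ℂ) r) := by
      apply ContinuousOn.rpow_const
      · apply ContinuousOn.norm
        apply hG.continuousOn.mono
        intro z hz
        have : ‖z‖ = r := by simpa using hz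
        rw [mem_ball_zero_iff, this]; linarith
      · intro z _; right; exact hp.le
    rw [lint_circle hrpos (u := fun z => ‖G z‖ ^ p) (fun z => by positivity) hcs,
      ← ENNReal.ofReal_mul hkpos.le]
    apply ENNReal.ofReal_le_ofReal
    have h6 := hcoef r hr0 hr1
    calc k * (2 * π * C⁻¹) * ‖coef n h‖ ^ p = k * (2 * π * (C⁻¹ * ‖coef n h‖ ^ p)) := by ring
      _ ≤ k * (2 * π * circleAverage (fun z => ‖G z‖ ^ p) 0 r) := by gcongr
  refine le_trans ?_ h5
  rw [setLIntegral_const, Real.volume_Ioo, ← ENNReal.ofReal_mul (by positivity)]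
  apply ENNReal.ofReal_le_ofReal
  apply le_of_eq
  ring

lemma small_coef {p α : ℝ} (hp : 0 < p) (n : ℕ) {η : ℝ} (hη : 0 < η) :
    ∃ ε : ℝ≥0∞, 0 < ε ∧ ∀ h : HolD, bergmanNorm p α h < ε → ‖coef n h‖ < η := by
  obtain ⟨c, hc, hkey⟩ := key_coef (α := α) hp n
  have hs : 0 < min 1 (1 / p) := lt_min one_pos (by positivity)
  refine ⟨(ENNReal.ofReal (c * η ^ p)) ^ (min 1 (1 / p)), ?_, fun h hh => ?_⟩
  · apply ENNReal.rpow_pos _ ENNReal.ofReal_ne_top
    rw [ENNReal.ofReal_pos]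
    positivity
  · rw [bergman_eq, ENNReal.rpow_lt_rpow_iff hs] at hh
    have h1 := lt_of_le_of_lt (hkey h) hh
    rw [ENNReal.ofReal_lt_ofReal_iff (by positivity)] at h1
    have h2 : ‖coef n h‖ ^ p < η ^ p := lt_of_mul_lt_mul_left h1 hc.le
    exact (Real.rpow_lt_rpow_iff (norm_nonneg _) hη.le hp).mp h2

end Pool.Agent.H24.SA
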