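import Pool.Agent.H24.SAf

open MeasureTheory Filter Topology
open scoped ENNReal

namespace Pool.Agent.H24.SA

lemma coef_sub (n : ℕ) (f g : HolD) : coef n (f - g) = coef n f - coef n g := by
  rw [coef_def, coef_def, coef_def]
  have h : ext (f - g) = fun z => ext f z + (fun z => (-1) * ext g z) z := by
    funext z
    rw [ext_sub]
    ring
  rw [h, tc_add (ext_diff f) ((ext_diff g).const_mul _), tc_smul (ext_diff g)]
  ring

theorem q1 : ∃ M : Submodule ℂ HolD, IsClosed (M : Set HolD) ∧ ¬ Module.Finite ℂ M ∧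
    ∀ f ∈ M, f ≠ 0 → StronglyAnnular f :=
  ⟨MM, MM_closed, not_fd MM ff_mem, fun _ hf h0 => MM_SA hf h0⟩

/-- functions of finite Bergman norm -/
noncomputable def fin (p α : ℝ) (hp : 0 < p) : Submodule ℂ HolD where
  carrier := {f | bsize p α f < ∞}
  add_mem' := by
    intro f g hf hg
    simp only [Set.mem_ofPred_eq, bsize] at *
    have hmeas : AEMeasurable (fun z : ℂ => ENNReal.ofReal (‖ext f z‖ ^ p * (1 - ‖z‖) ^ α / Real.pi))
        (volume.restrict Disc) := by
      apply AEMeasurable.ennreal_ofReal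
      apply AEMeasurable.div_const
      apply AEMeasurable.mul
      · exact ((ext_diff f).continuousOn.norm.aemeasurable Metric.isOpen_ball.measurableSet).pow_const p
      · exact ((measurable_const.sub measurable_norm).pow_const α).aemeasurable
    have hle : ∫⁻ z in Disc, ENNReal.ofReal (‖ext (f + g) z‖ ^ p * (1 - ‖z‖) ^ α / Real.pi) ≤
        ∫⁻ z in Disc, ENNReal.ofReal (2 ^ p) * (ENNReal.ofReal (‖ext f z‖ ^ p * (1 - ‖z‖) ^ α / Real.pi) +
          ENNReal.ofReal (‖ext g z‖ ^ p * (1 - ‖z‖) ^ α / Real.pi)) := by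
      apply lintegral_mono_ae
      filter_upwards [ae_restrict_mem Metric.isOpen_ball.measurableSet] with z hz
      have hz1 : ‖z‖ < 1 := by simpa using hz
      have hz2 : 0 < 1 - ‖z‖ := by linarith
      have hw : 0 ≤ (1 - ‖z‖) ^ α / Real.pi := by positivity
      rw [← ENNReal.ofReal_add (by positivity) (by positivity), ← ENNReal.ofReal_mul (by positivity)]
      apply ENNReal.ofReal_le_ofReal
      have h1 : ‖ext (f + g) z‖ ^ p ≤ 2 ^ p * (‖ext f z‖ ^ p + ‖ext g z‖ ^ p) := by
        rw [ext_add]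
        exact le_trans (Real.rpow_le_rpow (norm_nonneg _) (norm_add_le _ _) hp.le)
          (add_rpow_le' (norm_nonneg _) (norm_nonneg _) hp)
      calc ‖ext (f + g) z‖ ^ p * (1 - ‖z‖) ^ α / Real.pi = ‖ext (f + g) z‖ ^ p * ((1 - ‖z‖) ^ α / Real.pi) := by ring
        _ ≤ (2 ^ p * (‖ext f z‖ ^ p + ‖ext g z‖ ^ p)) * ((1 - ‖z‖) ^ α / Real.pi) :=
          mul_le_mul_of_nonneg_right h1 hw
        _ = _ := by ring
    refine lt_of_le_of_lt hle ?_
    rw [lintegral_const_mul' _ _ ENNReal.ofReal_ne_top, lintegral_add_left' hmeas]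
    exact ENNReal.mul_lt_top ENNReal.ofReal_lt_top (ENNReal.add_lt_top.mpr ⟨hf, hg⟩)
  zero_mem' := by
    simp only [Set.mem_ofPred_eq, bsize]
    have : ∀ z : ℂ, ENNReal.ofReal (‖ext 0 z‖ ^ p * (1 - ‖z‖) ^ α / Real.pi) = 0 := by
      intro z
      have h0 : ext 0 z = 0 := by
        have := ext_smul 0 0 z
        rwa [zero_smul, zero_mul] at this
      rw [h0, norm_zero, Real.zero_rpow hp.ne']
      simp
    simp only [this, lintegral_zero]
    exact ENNReal.zero_lt_top
  smul_mem' := by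
    intro c f hf
    simp only [Set.mem_ofPred_eq, bsize] at *
    have h : ∀ z : ℂ, ENNReal.ofReal (‖ext (c • f) z‖ ^ p * (1 - ‖z‖) ^ α / Real.pi) =
        ENNReal.ofReal (‖c‖ ^ p) * ENNReal.ofReal (‖ext f z‖ ^ p * (1 - ‖z‖) ^ α / Real.pi) := by
      intro z
      rw [ext_smul, norm_mul, Real.mul_rpow (norm_nonneg _) (norm_nonneg _),
        ← ENNReal.ofReal_mul (by positivity)]
      congr 1
      ring
    simp only [h]
    rw [lintegral_const_mul' _ _ ENNReal.ofReal_ne_top]
    exact ENNReal.mul_lt_top ENNReal.ofReal_lt_top hf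

theorem q2 (p α : ℝ) (hp : 0 < p) (hα : -1 < α) : ∃ M : Submodule ℂ HolD,
    (∀ f ∈ M, bergmanNorm p α f < ∞) ∧
    (∀ f : HolD, bergmanNorm p α f < ∞ →
      (∀ ε : ℝ≥0∞, 0 < ε → ∃ g ∈ M, bergmanNorm p α (f - g) < ε) → f ∈ M) ∧
    ¬ Module.Finite ℂ M ∧ ∀ f ∈ M, f ≠ 0 → StronglyAnnular f := by
  have hs : 0 < min 1 (1 / p) := lt_min one_pos (by positivity)
  have hfin : ∀ f : HolD, bergmanNorm p α f < ∞ ↔ bsize p α f < ∞ := by
    intro f
    rw [bergman_eq]
    constructor
    · intro h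
      by_contra hcon
      rw [not_lt, top_le_iff] at hcon
      rw [hcon, ENNReal.top_rpow_of_pos hs] at h
      exact lt_irrefl _ h
    · intro h
      exact ENNReal.rpow_lt_top_of_nonneg hs.le h.ne
  refine ⟨MM ⊓ fin p α hp, fun f hf => (hfin f).mpr hf.2, ?_, ?_, fun f hf h0 => MM_SA hf.1 h0⟩
  · intro f hf happ
    refine ⟨?_, (hfin f).mp hf⟩
    rw [SetLike.mem_coe, mem_MM]
    constructor
    · intro n hn
      by_contra hne
      have hpos : 0 < ‖coef n f‖ := norm_pos_iff.mpr hne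
      obtain ⟨ε, hε, h⟩ := small_coef (α := α) hp n hpos
      obtain ⟨g, hg, hfg⟩ := happ ε hε
      have h1 := h _ hfg
      rw [coef_sub, ((mem_MM g).1 hg.1).1 n hn, sub_zero] at h1
      exact lt_irrefl _ h1
    · intro k l hkl
      by_contra hne
      have hpos : 0 < ‖coef (nn k) f * aa l - coef (nn l) f * aa k‖ := norm_pos_iff.mpr (sub_ne_zero.mpr hne)
      set d := ‖coef (nn k) f * aa l - coef (nn l) f * aa k‖ with hd
      have hak := aa_pos k
      have hal := aa_pos l
      obtain ⟨ε1, hε1, h1⟩ := small_coef (α := α) hp (nn k) (η := d / (2 * aa l)) (by positivity)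
      obtain ⟨ε2, hε2, h2⟩ := small_coef (α := α) hp (nn l) (η := d / (2 * aa k)) (by positivity)
      obtain ⟨g, hg, hfg⟩ := happ (min ε1 ε2) (lt_min hε1 hε2)
      have e1 := h1 _ (lt_of_lt_of_le hfg (min_le_left _ _))
      have e2 := h2 _ (lt_of_lt_of_le hfg (min_le_right _ _))
      have hgeq := ((mem_MM g).1 hg.1).2 k l hkl
      rw [coef_sub] at e1 e2
      have h3 : coef (nn k) f * aa l - coef (nn l) f * aa k =
          (coef (nn k) f - coef (nn k) g) * aa l - (coef (nn l) f - coef (nn l) g) * aa k := by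
        rw [sub_mul, sub_mul, hgeq]; ring
      have h4 : d ≤ ‖coef (nn k) f - coef (nn k) g‖ * aa l + ‖coef (nn l) f - coef (nn l) g‖ * aa k := by
        rw [hd, h3]
        refine le_trans (norm_sub_le _ _) ?_
        rw [norm_mul, norm_mul, Complex.norm_real, Complex.norm_real, Real.norm_of_nonneg hak.le,
          Real.norm_of_nonneg hal.le]
      have h5 : ‖coef (nn k) f - coef (nn k) g‖ * aa l < d / 2 := by
        rw [lt_div_iff₀ (by positivity)] at e1
        linarith
      have h6 : ‖coef (nn l) f - coef (nn l) g‖ * aa k < d / 2 := by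
        rw [lt_div_iff₀ (by positivity)] at e2
        linarith
      linarith
  · exact not_fd _ (fun i => ⟨ff_mem i, ff_bsize hp hα i⟩)

end Pool.Agent.H24.SA
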