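import Mathlib

open MeasureTheory

namespace Pool.Agent.H24.SA2

/-- `H(𝔻)`: the functions holomorphic on the open unit disc (extended by `0` off the disc). -/
def HolD : Set (ℂ → ℂ) :=
  {f | DifferentiableOn ℂ f (Metric.ball 0 1) ∧ ∀ z : ℂ, z ∉ Metric.ball (0 : ℂ) 1 → f z = 0}

/-- `f` is strongly annular: `limsup_{r → 1-} min_{|z|=r} |f(z)| = +∞`. -/
def StronglyAnnular (f : ℂ → ℂ) : Prop :=
  ∀ K ρ : ℝ, ρ < 1 → ∃ r : ℝ, ρ < r ∧ 0 < r ∧ r < 1 ∧ ∀ z : ℂ, ‖z‖ = r → K ≤ ‖f z‖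

/-- `M` is closed in `H(𝔻)` for the topology of uniform convergence on compact subsets of `𝔻`. -/
def ClosedInHolD (M : Set (ℂ → ℂ)) : Prop :=
  ∀ f ∈ HolD, (∀ K : Set ℂ, IsCompact K → K ⊆ Metric.ball 0 1 → ∀ ε : ℝ, 0 < ε →
    ∃ g ∈ M, ∀ z ∈ K, ‖f z - g z‖ < ε) → f ∈ M

/-- `‖f‖_{p,α} = (∫_𝔻 |f|^p (1-|z|)^α dA/π)^{min(1,1/p)}`, a value in `[0,∞]`. -/
noncomputable def bergmanNorm (p α : ℝ) (f : ℂ → ℂ) : ENNReal :=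
  (∫⁻ z in Metric.ball (0 : ℂ) 1, ENNReal.ofReal (‖f z‖ ^ p * (1 - ‖z‖) ^ α / Real.pi)) ^
    (min 1 (1 / p))

/-- The weighted Bergman space `B^p_α`. -/
def Bergman (p α : ℝ) : Set (ℂ → ℂ) := {f | f ∈ HolD ∧ bergmanNorm p α f < ⊤}

/-- `M` is closed in `B^p_α` for the metric `d(f,g) = ‖f-g‖_{p,α}`. -/
def ClosedInBergman (p α : ℝ) (M : Set (ℂ → ℂ)) : Prop :=
  ∀ f ∈ Bergman p α, (∀ ε : ENNReal, 0 < ε → ∃ g ∈ M, bergmanNorm p α (fun z => f z - g z) < ε) →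
    f ∈ M

end Pool.Agent.H24.SA2
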