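import Pool.Agent.H24.SAh
import Pool.Agent.H24.SAg

open MeasureTheory Filter Topology
open scoped ENNReal

namespace Pool.Agent.H24.SA

/-- `ext` as a linear map -/
noncomputable def extL : HolD →ₗ[ℂ] (ℂ → ℂ) where
  toFun f := ext f
  map_add' f g := funext (ext_add f g)
  map_smul' c f := funext (ext_smul c f)

lemma extL_apply (f : HolD) : extL f = ext f := rfl

lemma ext_inj {f g : HolD} (h : ext f = ext g) : f = g := by
  apply Subtype.ext
  apply ContinuousMap.ext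
  intro z
  rw [← ext_apply f z, ← ext_apply g z, h]

lemma ext_mem (f : HolD) : ext f ∈ SA2.HolD := by
  refine ⟨ext_diff f, fun z hz => ?_⟩
  simp only [ext, hz, dif_neg, not_false_eq_true]

lemma exists_ext {f : ℂ → ℂ} (hf : f ∈ SA2.HolD) : ∃ g : HolD, ext g = f := by
  have hc : Continuous (fun z : Disc => f z) := hf.1.continuousOn.domRestrict
  refine ⟨⟨⟨fun z => f z, hc⟩, ⟨f, hf.1, fun _ => rfl⟩⟩, ?_⟩
  funext z
  by_cases hz : z ∈ Disc
  · exact ext_apply _ ⟨z, hz⟩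
  · simp only [ext, hz, dif_neg, not_false_eq_true]
    exact (hf.2 z hz).symm

lemma norm_eq (p α : ℝ) (f : HolD) : SA2.bergmanNorm p α (ext f) = bergmanNorm p α f := by
  rw [bergman_eq, SA2.bergmanNorm, bsize]

lemma sa_iff (f : HolD) : StronglyAnnular f → SA2.StronglyAnnular (ext f) := by
  intro h K ρ hρ
  obtain ⟨r, h1, h2, h3, h4⟩ := h K ρ hρ
  refine ⟨r, h1, h2, h3, fun z hz => ?_⟩
  have hzD : z ∈ Disc := by rw [mem_ball_zero_iff, hz]; exact h3
  have h5 := h4 ⟨z, hzD⟩ hz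
  rwa [← ext_apply f ⟨z, hzD⟩] at h5

lemma not_fd' (M : Submodule ℂ HolD) (hM : ∀ i, ff i ∈ M) : ¬ Module.Finite ℂ (M.map extL) := by
  intro hfd
  apply not_fd M hM
  have hinj : Function.Injective extL := fun f g h => ext_inj h
  exact Module.Finite.equiv (Submodule.equivMapOfInjective extL hinj M).symm

lemma mem_of_approx (f : HolD) (happ : ∀ (n₁ n₂ : ℕ) (η : ℝ), 0 < η → ∃ g ∈ MM,
    ‖coef n₁ (f - g)‖ < η ∧ ‖coef n₂ (f - g)‖ < η) : f ∈ MM := by
  rw [mem_MM]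
  constructor
  · intro n hn
    by_contra hne
    have hpos : 0 < ‖coef n f‖ := norm_pos_iff.mpr hne
    obtain ⟨g, hg, h1, -⟩ := happ n n _ hpos
    rw [coef_sub, ((mem_MM g).1 hg).1 n hn, sub_zero] at h1
    exact lt_irrefl _ h1
  · intro k l hkl
    by_contra hne
    have hpos : 0 < ‖coef (nn k) f * aa l - coef (nn l) f * aa k‖ := norm_pos_iff.mpr (sub_ne_zero.mpr hne)
    set d := ‖coef (nn k) f * aa l - coef (nn l) f * aa k‖ with hd
    have hak := aa_pos k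
    have hal := aa_pos l
    obtain ⟨g, hg, e1, e2⟩ := happ (nn k) (nn l) (d / (2 * aa l + 2 * aa k)) (by positivity)
    have hgeq := ((mem_MM g).1 hg).2 k l hkl
    rw [coef_sub] at e1 e2
    have h3 : coef (nn k) f * aa l - coef (nn l) f * aa k =
        (coef (nn k) f - coef (nn k) g) * aa l - (coef (nn l) f - coef (nn l) g) * aa k := by
      rw [sub_mul, sub_mul, hgeq]; ring
    have h4 : d ≤ ‖coef (nn k) f - coef (nn k) g‖ * aa l + ‖coef (nn l) f - coef (nn l) g‖ * aa k := by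
      rw [hd, h3]
      refine le_trans (norm_sub_le _ _) ?_
      rw [norm_mul, norm_mul, Complex.norm_real, Complex.norm_real, Real.norm_of_nonneg hak.le,
        Real.norm_of_nonneg hal.le]
    rw [lt_div_iff₀ (by positivity)] at e1 e2
    have n1 := norm_nonneg (coef (nn k) f - coef (nn k) g)
    have n2 := norm_nonneg (coef (nn l) f - coef (nn l) g)
    nlinarith [mul_nonneg n1 hak.le, mul_nonneg n2 hal.le]

theorem final1 : ∃ M : Submodule ℂ (ℂ → ℂ), (M : Set (ℂ → ℂ)) ⊆ SA2.HolD ∧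
    SA2.ClosedInHolD M ∧ ¬ Module.Finite ℂ M ∧ ∀ f ∈ M, f ≠ 0 → SA2.StronglyAnnular f := by
  refine ⟨MM.map extL, ?_, ?_, not_fd' MM ff_mem, ?_⟩
  · rintro f ⟨g, hg, rfl⟩
    exact ext_mem g
  · intro f hf happ
    obtain ⟨g, rfl⟩ := exists_ext hf
    refine ⟨g, mem_of_approx g ?_, rfl⟩
    intro n₁ n₂ η hη
    have hδ : 0 < η / 2 * ((1/2)^n₁ * (1/2)^n₂) := by positivity
    obtain ⟨_, ⟨h, hh, rfl⟩, hgh⟩ := happ (Metric.sphere 0 (1/2)) (isCompact_sphere _ _)
      (by intro z hz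
          have : ‖z‖ = 1/2 := by simpa using hz
          rw [mem_ball_zero_iff, this]; norm_num) _ hδ
    refine ⟨h, hh, ?_⟩
    have hb : ∀ z : ℂ, ‖z‖ = 1/2 → ‖ext (g - h) z‖ ≤ η / 2 * ((1/2)^n₁ * (1/2)^n₂) := by
      intro z hz
      rw [ext_sub]
      exact (hgh z (by simpa using hz)).le
    have p1 : ((1:ℝ)/2)^n₁ ≤ 1 := pow_le_one₀ (by norm_num) (by norm_num)
    have p2 : ((1:ℝ)/2)^n₂ ≤ 1 := pow_le_one₀ (by norm_num) (by norm_num)
    constructor
    · have h3 := tc_bound (ext_diff (g - h)) n₁ (R := 1/2) (by norm_num) (by norm_num) hb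
      rw [← coef_def] at h3
      have h5 : (η / 2 * ((1/2)^n₁ * (1/2)^n₂)) / (1/2)^n₁ = η / 2 * (1/2)^n₂ := by
        field_simp
      rw [h5] at h3
      nlinarith
    · have h3 := tc_bound (ext_diff (g - h)) n₂ (R := 1/2) (by norm_num) (by norm_num) hb
      rw [← coef_def] at h3
      have h5 : (η / 2 * ((1/2)^n₁ * (1/2)^n₂)) / (1/2)^n₂ = η / 2 * (1/2)^n₁ := by
        field_simp
      rw [h5] at h3
      nlinarith
  · rintro f ⟨g, hg, rfl⟩ h0
    apply sa_iff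
    apply MM_SA hg
    rintro rfl
    exact h0 (map_zero extL)

theorem final2 (p α : ℝ) (hp : 0 < p) (hα : -1 < α) : ∃ M : Submodule ℂ (ℂ → ℂ),
    (M : Set (ℂ → ℂ)) ⊆ SA2.Bergman p α ∧
    SA2.ClosedInBergman p α M ∧ ¬ Module.Finite ℂ M ∧ ∀ f ∈ M, f ≠ 0 → SA2.StronglyAnnular f := by
  have hs : 0 < min 1 (1 / p) := lt_min one_pos (by positivity)
  have hfin : ∀ f : HolD, bergmanNorm p α f < ∞ ↔ bsize p α f < ∞ := by
    intro f
    rw [bergman_eq]
    constructor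
    · intro h
      by_contra hcon
      rw [not_lt, top_le_iff] at hcon
      rw [hcon, ENNReal.top_rpow_of_pos hs] at h
      exact lt_irrefl _ h
    · intro h
      exact ENNReal.rpow_lt_top_of_nonneg hs.le h.ne
  refine ⟨(MM ⊓ fin p α hp).map extL, ?_, ?_, not_fd' _ (fun i => ⟨ff_mem i, ff_bsize hp hα i⟩), ?_⟩
  · rintro f ⟨g, hg, rfl⟩
    refine ⟨ext_mem g, ?_⟩
    rw [extL_apply, norm_eq, hfin]
    exact hg.2
  · rintro f ⟨hf, hfb⟩ happ
    obtain ⟨g, rfl⟩ := exists_ext hf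
    refine ⟨g, ⟨mem_of_approx g ?_, ?_⟩, rfl⟩
    · intro n₁ n₂ η hη
      obtain ⟨ε1, hε1, h1⟩ := small_coef (α := α) hp n₁ hη
      obtain ⟨ε2, hε2, h2⟩ := small_coef (α := α) hp n₂ hη
      obtain ⟨_, ⟨h, hh, rfl⟩, hgh⟩ := happ (min ε1 ε2) (lt_min hε1 hε2)
      have e0 : (fun z => ext g z - extL h z) = ext (g - h) := by
        funext z; rw [ext_sub, extL_apply]
      rw [e0, norm_eq] at hgh
      exact ⟨h, hh.1, h1 _ (lt_of_lt_of_le hgh (min_le_left _ _)), h2 _ (lt_of_lt_of_le hgh (min_le_right _ _))⟩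
    · rw [norm_eq, hfin] at hfb
      exact hfb
  · rintro f ⟨g, hg, rfl⟩ h0
    apply sa_iff
    apply MM_SA hg.1
    rintro rfl
    exact h0 (map_zero extL)

end Pool.Agent.H24.SA
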