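import Mathlib

/-! Counting lemmas for MP_74be22_co: randomly thinned lines of the affine plane over `ZMod p`. -/

set_option autoImplicit false

namespace Pool.Agent.H24.Thin

open Finset

/-- counting lemma -/
theorem counting {L G S : Type} [Fintype L] [Fintype G] [Fintype S] [DecidableEq L]
    [DecidableEq G] (bad : S → L → Finset G) (hM : ∀ s l, (bad s l).Nonempty)
    (h : Fintype.card S * (Fintype.card G - 1) ^ Fintype.card L <
      Fintype.card G ^ Fintype.card L) : ∃ R : L → G, ∀ s, ∃ l, R l ∈ bad s l := by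
  classical
  by_contra hcon
  push Not at hcon
  have hcov : (univ : Finset (L → G)) ⊆
      univ.biUnion fun s : S => Fintype.piFinset fun l => (bad s l)ᶜ := by
    intro R _
    obtain ⟨s, hs⟩ := hcon R
    rw [mem_biUnion]
    refine ⟨s, mem_univ _, ?_⟩
    rw [Fintype.mem_piFinset]
    intro l
    rw [mem_compl]
    exact hs l
  have h1 := card_le_card hcov
  have h2 : (univ : Finset (L → G)).card = Fintype.card G ^ Fintype.card L := by
    rw [card_univ, Fintype.card_fun]
  have h3 : (univ.biUnion fun s : S => Fintype.piFinset fun l => (bad s l)ᶜ).card ≤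
      Fintype.card S * (Fintype.card G - 1) ^ Fintype.card L := by
    refine card_biUnion_le.trans ?_
    refine (sum_le_card_nsmul _ _ ((Fintype.card G - 1) ^ Fintype.card L) ?_).trans ?_
    · intro s _
      rw [Fintype.card_piFinset]
      refine (prod_le_pow_card _ _ (Fintype.card G - 1) ?_).trans ?_
      · intro l _
        rw [card_compl]
        have := (hM s l).card_pos
        omega
      · rw [card_univ]
    · rw [smul_eq_mul, card_univ]
  omega

/-- coding of small sets -/
theorem exists_code {α : Type} (C : ℕ) (U : Finset α) (hU : U.card ≤ C) :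
    ∃ g : Fin C → Option α, ∀ y, y ∈ U ↔ ∃ i, g i = some y := by
  classical
  refine ⟨fun i => U.toList[(i : ℕ)]?, fun y => ?_⟩
  rw [← mem_toList, List.mem_iff_getElem?]
  constructor
  · rintro ⟨i, hi⟩
    have hlt : i < U.toList.length := by
      by_contra hcon
      rw [List.getElem?_eq_none (by omega)] at hi
      cases hi
    rw [length_toList] at hlt
    exact ⟨⟨i, by omega⟩, hi⟩
  · rintro ⟨i, hi⟩
    exact ⟨i, hi⟩

section
variable (p : ℕ) [hp : Fact p.Prime] (C m : ℕ)

/-- residue block of `x` modulo `m + 1` -/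
def blk (x : ZMod p) : Fin (m + 1) := ⟨x.val % (m + 1), Nat.mod_lt _ (Nat.succ_pos m)⟩

/-- the thinnings: nothing is removed, or at most `C` residue blocks are removed -/
abbrev Gt : Type := Option (Fin C → Option (Fin (m + 1)))

/-- `x` is removed by the thinning `g` -/
def Rem (g : Gt C m) (x : ZMod p) : Prop := ∃ γ, g = some γ ∧ ∃ i, γ i = some (blk p m x)

theorem card_blk (j : Fin (m + 1)) [DecidablePred fun x : ZMod p => blk p m x = j] :
    (univ.filter fun x : ZMod p => blk p m x = j).card ≤ p / (m + 1) + 1 := by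
  have := card_le_card_of_injOn (s := univ.filter fun x : ZMod p => blk p m x = j)
    (t := range (p / (m + 1) + 1)) (fun x => x.val / (m + 1)) ?_ ?_
  · rwa [card_range] at this
  · intro x _
    simp only [coe_range, Set.mem_Iio]
    have h1 : x.val < p := ZMod.val_lt x
    have h2 : x.val / (m + 1) ≤ p / (m + 1) := Nat.div_le_div_right h1.le
    omega
  · intro x hx y hy hxy
    simp only [coe_filter, mem_univ, true_and, Set.mem_ofPred_eq] at hx hy hxy
    have hx' : x.val % (m + 1) = (j : ℕ) := congrArg Fin.val hx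
    have hy' : y.val % (m + 1) = (j : ℕ) := congrArg Fin.val hy
    apply ZMod.val_injective p
    rw [← Nat.div_add_mod x.val (m + 1), ← Nat.div_add_mod y.val (m + 1), hx', hy']
    rw [hxy]

theorem card_rem (g : Gt C m) [DecidablePred (Rem p C m g)] :
    (univ.filter fun x : ZMod p => Rem p C m g x).card ≤ C * (p / (m + 1) + 1) := by
  classical
  rcases g with _ | γ
  · have : (univ.filter fun x : ZMod p => Rem p C m none x) = ∅ := by
      rw [filter_eq_empty_iff]
      rintro x _ ⟨γ, hγ, _⟩
      cases hγ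
    rw [this, card_empty]
    exact Nat.zero_le _
  · have hsub : (univ.filter fun x : ZMod p => Rem p C m (some γ) x) ⊆
        univ.biUnion fun i : Fin C => univ.filter fun x : ZMod p => γ i = some (blk p m x) := by
      intro x hx
      rw [mem_filter] at hx
      obtain ⟨γ', hγ, i, hi⟩ := hx.2
      cases hγ
      rw [mem_biUnion]
      exact ⟨i, mem_univ _, by rw [mem_filter]; exact ⟨mem_univ _, hi⟩⟩
    refine (card_le_card hsub).trans (card_biUnion_le.trans ?_)
    refine (sum_le_card_nsmul _ _ (p / (m + 1) + 1) ?_).trans ?_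
    · intro i _
      rcases hγi : γ i with _ | j
      · simp
      · refine le_trans (card_le_card ?_) (card_blk p m j)
        intro x hx
        rw [mem_filter] at hx ⊢
        exact ⟨mem_univ _, (Option.some.inj hx.2).symm⟩
    · rw [smul_eq_mul, card_univ, Fintype.card_fin]

end

/-- the numerical inequality -/
theorem numeric (C K : ℕ) (hK : 0 < K) : ∃ N : ℕ, ∀ p : ℕ, N ≤ p →
    (p + 1) ^ C * K ^ p < (K + 1) ^ p := by
  have hq0 : (0 : ℝ) < (K : ℝ) / (K + 1) := by positivity
  have hq1 : (K : ℝ) / (K + 1) < 1 := by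
    rw [div_lt_one (by positivity)]; linarith
  have ht := tendsto_pow_const_mul_const_pow_of_abs_lt_one C
    (r := (K : ℝ) / (K + 1)) (by rwa [abs_of_pos hq0])
  have he := (ht.eventually (gt_mem_nhds hq0))
  obtain ⟨N, hN⟩ := Filter.eventually_atTop.1 he
  refine ⟨N, fun p hp => ?_⟩
  have h1 := hN (p + 1) (by omega)
  have h2 : ((p + 1 : ℕ) : ℝ) ^ C * ((K : ℝ) / (K + 1)) ^ p < 1 := by
    have h3 : ((p + 1 : ℕ) : ℝ) ^ C * ((K : ℝ) / (K + 1)) ^ p * ((K : ℝ) / (K + 1)) <
        1 * ((K : ℝ) / (K + 1)) := by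
      rw [one_mul, mul_assoc, ← pow_succ]; exact h1
    exact lt_of_mul_lt_mul_right h3 hq0.le
  rw [div_pow, ← mul_div_assoc, div_lt_one (by positivity)] at h2
  exact_mod_cast h2

section
variable (p : ℕ) [hp : Fact p.Prime] (C m : ℕ)

open Classical in
/-- a vertical line -/
noncomputable def vert (x : ZMod p) : Finset (ZMod p × ZMod p) := univ.filter fun q => q.1 = x

open Classical in
/-- the thinned line `y = a x + b` -/
noncomputable def thin (g : Gt C m) (l : ZMod p × ZMod p) : Finset (ZMod p × ZMod p) :=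
  univ.filter fun q => q.2 = l.1 * q.1 + l.2 ∧ ¬ Rem p C m g q.1

open Classical in
/-- the set with code `s` -/
noncomputable def dec (s : ZMod p → Fin C → Option (ZMod p)) : Finset (ZMod p × ZMod p) :=
  univ.filter fun q => ∃ i, s q.1 i = some q.2

theorem mem_vert (x : ZMod p) (q : ZMod p × ZMod p) : q ∈ vert p x ↔ q.1 = x := by
  classical
  simp [vert]

theorem mem_thin (g : Gt C m) (l q : ZMod p × ZMod p) :
    q ∈ thin p C m g l ↔ q.2 = l.1 * q.1 + l.2 ∧ ¬ Rem p C m g q.1 := by
  classical
  simp [thin]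

theorem mem_dec (s : ZMod p → Fin C → Option (ZMod p)) (q : ZMod p × ZMod p) :
    q ∈ dec p C s ↔ ∃ i, s q.1 i = some q.2 := by
  classical
  simp [dec]

theorem card_vert (x : ZMod p) : p ≤ (vert p x).card := by
  have h := card_le_card_of_injOn (s := (univ : Finset (ZMod p))) (t := vert p x)
    (fun y => (x, y)) (fun y _ => (mem_vert p x _).2 rfl)
    (fun y _ y' _ h => (Prod.ext_iff.1 h).2)
  rwa [card_univ, ZMod.card] at h

theorem card_thin (g : Gt C m) (l : ZMod p × ZMod p) :
    p ≤ (thin p C m g l).card + C * (p / (m + 1) + 1) := by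
  classical
  have h1 := card_le_card_of_injOn (s := univ.filter fun x : ZMod p => ¬ Rem p C m g x)
    (t := thin p C m g l) (fun x => (x, l.1 * x + l.2))
    (fun x hx => (mem_thin p C m g l _).2 ⟨rfl, (mem_filter.1 hx).2⟩)
    (fun y _ y' _ h => (Prod.ext_iff.1 h).1)
  have h2 := card_rem p C m g
  have h3 : (univ.filter fun x : ZMod p => Rem p C m g x).card +
      (univ.filter fun x : ZMod p => ¬ Rem p C m g x).card = p := by
    have := card_filter_add_card_filter_not (s := (univ : Finset (ZMod p)))
      (fun x => Rem p C m g x)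
    rwa [card_univ, ZMod.card] at this
  omega

open Classical in
theorem inter_le_one (R : ZMod p × ZMod p → Gt C m) (k l : ZMod p ⊕ (ZMod p × ZMod p))
    (hkl : k ≠ l) :
    ((Sum.elim (vert p) (fun l => thin p C m (R l) l) k) ∩
      (Sum.elim (vert p) (fun l => thin p C m (R l) l) l)).card ≤ 1 := by
  rw [card_le_one]
  intro q hq q' hq'
  rw [mem_inter] at hq hq'
  rcases k with x | u <;> rcases l with x' | v <;>
    simp only [Sum.elim_inl, Sum.elim_inr, mem_vert, mem_thin] at hq hq'
  · exact absurd (by rw [← hq.1, ← hq.2]) hkl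
  · have h1 : q.1 = q'.1 := by rw [hq.1, hq'.1]
    refine Prod.ext h1 ?_
    rw [hq.2.1, hq'.2.1, h1]
  · have h1 : q.1 = q'.1 := by rw [hq.2, hq'.2]
    refine Prod.ext h1 ?_
    rw [hq.1.1, hq'.1.1, h1]
  · have e1 : (u.1 - v.1) * (q.1 - q'.1) = 0 := by
      linear_combination (hq.2.1 - hq.1.1) - (hq'.2.1 - hq'.1.1)
    rcases mul_eq_zero.1 e1 with h | h
    · exfalso
      apply hkl
      have h1 : u.1 = v.1 := sub_eq_zero.1 h
      have h2 : u.2 = v.2 := by
        linear_combination (hq.2.1 - hq.1.1) - q.1 * h1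
      rw [Prod.ext h1 h2]
    · have h1 : q.1 = q'.1 := sub_eq_zero.1 h
      refine Prod.ext h1 ?_
      rw [hq.1.1, hq'.1.1, h1]

open Classical in
theorem bad_nonempty (s : ZMod p → Fin C → Option (ZMod p)) (l : ZMod p × ZMod p) :
    (univ.filter fun g : Gt C m => (thin p C m g l ∩ dec p C s).card = 0 ∨
      C < (thin p C m g l ∩ dec p C s).card).Nonempty := by
  by_cases hT : C < (thin p C m none l ∩ dec p C s).card
  · exact ⟨none, by rw [mem_filter]; exact ⟨mem_univ _, Or.inr hT⟩⟩
  · push Not at hT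
    obtain ⟨γ, hγ⟩ := exists_code C ((thin p C m none l ∩ dec p C s).image fun q => blk p m q.1)
      (card_image_le.trans hT)
    refine ⟨some γ, ?_⟩
    rw [mem_filter]
    refine ⟨mem_univ _, Or.inl ?_⟩
    rw [card_eq_zero, eq_empty_iff_forall_notMem]
    intro q hq
    rw [mem_inter, mem_thin] at hq
    apply hq.1.2
    have hqT : q ∈ thin p C m none l ∩ dec p C s := by
      rw [mem_inter, mem_thin]
      refine ⟨⟨hq.1.1, ?_⟩, hq.2⟩
      rintro ⟨γ', hγ', _⟩
      cases hγ'
    obtain ⟨i, hi⟩ := (hγ _).1 (mem_image_of_mem (fun q => blk p m q.1) hqT)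
    exact ⟨γ, rfl, i, hi⟩

open Classical in
theorem main_X (hnum : (p + 1) ^ C * ((m + 2) ^ C) ^ p < ((m + 2) ^ C + 1) ^ p) :
    ∃ A : (ZMod p ⊕ (ZMod p × ZMod p)) → Finset (ZMod p × ZMod p),
      (∀ k, p ≤ (A k).card + C * (p / (m + 1) + 1)) ∧
      (∀ k l, k ≠ l → (A k ∩ A l).card ≤ 1) ∧
      ∀ S : Finset (ZMod p × ZMod p), ¬ ∀ k, 1 ≤ (A k ∩ S).card ∧ (A k ∩ S).card ≤ C := by
  obtain ⟨R, hR⟩ := counting (L := ZMod p × ZMod p) (G := Gt C m)
    (S := ZMod p → Fin C → Option (ZMod p))
    (fun s l => univ.filter fun g : Gt C m => (thin p C m g l ∩ dec p C s).card = 0 ∨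
      C < (thin p C m g l ∩ dec p C s).card) (bad_nonempty p C m) (by
      have hG : Fintype.card (Gt C m) = (m + 2) ^ C + 1 := by
        rw [Fintype.card_option, Fintype.card_fun, Fintype.card_option, Fintype.card_fin,
          Fintype.card_fin]
      have hS : Fintype.card (ZMod p → Fin C → Option (ZMod p)) = ((p + 1) ^ C) ^ p := by
        rw [Fintype.card_fun, Fintype.card_fun, Fintype.card_option, Fintype.card_fin, ZMod.card]
      rw [hG, hS, Fintype.card_prod, ZMod.card, Nat.add_sub_cancel, pow_mul, pow_mul, ← mul_pow]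
      exact Nat.pow_lt_pow_left hnum hp.out.pos.ne')
  refine ⟨Sum.elim (vert p) (fun l => thin p C m (R l) l), ?_, inter_le_one p C m R, ?_⟩
  · rintro (x | l)
    · exact (card_vert p x).trans (Nat.le_add_right _ _)
    · exact card_thin p C m (R l) l
  · intro S hS
    have hcode : ∀ x : ZMod p, ∃ g : Fin C → Option (ZMod p),
        ∀ y, y ∈ (vert p x ∩ S).image Prod.snd ↔ ∃ i, g i = some y := by
      intro x
      refine exists_code C _ (card_image_le.trans ?_)
      exact (hS (Sum.inl x)).2
    choose s hs using hcode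
    have hdec : dec p C s = S := by
      ext q
      rw [mem_dec, ← hs, mem_image]
      constructor
      · rintro ⟨q', hq', hq2⟩
        rw [mem_inter, mem_vert] at hq'
        have : q' = q := Prod.ext hq'.1 hq2
        rw [← this]; exact hq'.2
      · intro hq
        exact ⟨q, by rw [mem_inter, mem_vert]; exact ⟨rfl, hq⟩, rfl⟩
    obtain ⟨l, hl⟩ := hR s
    rw [mem_filter, hdec] at hl
    have := hS (Sum.inr l)
    simp only [Sum.elim_inr] at this
    rcases hl.2 with h | h <;> omega

end

end Pool.Agent.H24.Thin
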