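import Mathlib

set_option autoImplicit false

namespace Pool.Agent.H24.UN

/-- the class of groups with nilpotent commutator subgroup -/
def FF (H : Type) [Group H] : Prop := Group.IsNilpotent (commutator H)

lemma FF_iff (H : Type) [Group H] : FF H ↔ ∃ n, (commutator H).lowerCentralSeries n = ⊥ :=
  Subgroup.isNilpotent_iff_lowerCentralSeries _

lemma map_comm {H K : Type} [Group H] [Group K] (f : H →* K) (hf : Function.Surjective f) :
    (commutator H).map f = commutator K := by
  rw [commutator_def, commutator_def, Subgroup.map_commutator, Subgroup.map_top_of_surjective f hf]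

lemma map_lcs {H K : Type} [Group H] [Group K] (f : H →* K) (hf : Function.Surjective f) (n : ℕ) :
    ((commutator H).lowerCentralSeries n).map f = (commutator K).lowerCentralSeries n := by
  rw [Subgroup.map_lowerCentralSeries, map_comm f hf]

lemma FF_map {H K : Type} [Group H] [Group K] (f : H →* K) (hf : Function.Surjective f)
    (h : FF H) : FF K := by
  rw [FF_iff] at h ⊢
  obtain ⟨n, hn⟩ := h
  exact ⟨n, by rw [← map_lcs f hf, hn, Subgroup.map_bot]⟩

lemma FF_sub {H K₁ K₂ : Type} [Group H] [Group K₁] [Group K₂]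
    (f₁ : H →* K₁) (f₂ : H →* K₂) (h1 : Function.Surjective f₁) (h2 : Function.Surjective f₂)
    (hF1 : FF K₁) (hF2 : FF K₂) : FF ↥(f₁.prod f₂).range := by
  rw [FF_iff] at hF1 hF2 ⊢
  obtain ⟨n, hn⟩ := hF1
  obtain ⟨m, hm⟩ := hF2
  refine ⟨max n m, ?_⟩
  rw [← map_lcs (f₁.prod f₂).rangeRestrict (MonoidHom.rangeRestrict_surjective _),
    Subgroup.map_eq_bot_iff, MonoidHom.ker_rangeRestrict, MonoidHom.ker_prod, le_inf_iff]
  constructor
  · rw [← Subgroup.map_eq_bot_iff, map_lcs f₁ h1, eq_bot_iff, ← hn]
    exact Subgroup.lowerCentralSeries_antitone _ (le_max_left _ _)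
  · rw [← Subgroup.map_eq_bot_iff, map_lcs f₂ h2, eq_bot_iff, ← hm]
    exact Subgroup.lowerCentralSeries_antitone _ (le_max_right _ _)

lemma FF_subgroup {H : Type} [Group H] (L : Subgroup H) (h : FF H) : FF L := by
  rw [FF_iff] at h ⊢
  obtain ⟨n, hn⟩ := h
  refine ⟨n, ?_⟩
  have h1 : ((commutator L).lowerCentralSeries n).map L.subtype ≤ (commutator H).lowerCentralSeries n := by
    rw [Subgroup.map_lowerCentralSeries]
    apply Subgroup.lowerCentralSeries_mono
    rw [commutator_def, commutator_def, Subgroup.map_commutator]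
    exact Subgroup.commutator_mono le_top le_top
  rw [hn, le_bot_iff, Subgroup.map_eq_bot_iff] at h1
  simpa using h1

lemma FF_sat {H K : Type} [Group H] [Group K] [Finite H] (f : H →* K) (hf : Function.Surjective f)
    (hker : ∀ M : Subgroup H, IsCoatom M → f.ker ≤ M) (hK : FF K) : FF H := by
  haveI : Finite K := Finite.of_surjective f hf
  let L : Subgroup H := (commutator K).comap f
  have hLle : commutator H ≤ L := by
    rw [← Subgroup.map_le_iff_le_comap, map_comm f hf]
  suffices hL : Group.IsNilpotent L by
    have h1 := (Subgroup.isNilpotent_iff_lowerCentralSeries L).1 hL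
    obtain ⟨n, hn⟩ := h1
    rw [FF_iff]
    refine ⟨n, ?_⟩
    rw [eq_bot_iff, ← hn]
    exact Subgroup.lowerCentralSeries_mono n hLle
  have tf := (Group.isNilpotent_of_finite_tfae (G := L)).out 0 3
  rw [tf]
  intro p hp Q
  -- the image of `Q` is normal in `K`
  let fL : L →* commutator K := f.subgroupComap (commutator K)
  have hfL : Function.Surjective fL := f.subgroupComap_surjective_of_surjective _ hf
  haveI hnil : Group.IsNilpotent (commutator K) := hK
  have hQn : (Q.mapSurjective hfL : Subgroup (commutator K)).Normal := by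
    have tf2 := (Group.isNilpotent_of_finite_tfae (G := commutator K)).out 0 3
    exact tf2.1 hnil p hp (Q.mapSurjective hfL)
  haveI hQc : (Q.mapSurjective hfL : Subgroup (commutator K)).Characteristic :=
    Sylow.characteristic_of_normal _ hQn
  have hKn : ((Q.mapSurjective hfL : Subgroup (commutator K)).map (commutator K).subtype).Normal :=
    ConjAct.normal_of_characteristic_of_normal
  let Q' : Subgroup H := (Q : Subgroup L).map L.subtype
  have hQ' : Q'.map f = (Q.mapSurjective hfL : Subgroup (commutator K)).map (commutator K).subtype := by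
    simp only [Q']
    rw [Sylow.coe_mapSurjective, Subgroup.map_map, Subgroup.map_map]
    rfl
  let J : Subgroup H := (Q'.map f).comap f
  haveI hJn : J.Normal := by
    have : (Q'.map f).Normal := by rw [hQ']; exact hKn
    exact this.comap f
  have hQJ : Q' ≤ J := Subgroup.le_comap_map _ _
  have hJL : J ≤ L := by
    apply Subgroup.comap_mono
    rw [hQ']
    exact Subgroup.map_subtype_le _
  have hQL : Q' ≤ L := Subgroup.map_subtype_le _
  have hidx : ¬ p ∣ (Q'.subgroupOf J).index := by
    intro hd
    have h1 : Q'.relIndex J * J.relIndex L = Q'.relIndex L := Subgroup.relIndex_mul_relIndex _ _ _ hQJ hJL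
    have h2 : p ∣ Q'.relIndex L := by
      rw [← h1]; exact Dvd.dvd.mul_right hd _
    have h3 : Q'.relIndex L = (Q : Subgroup L).index := by
      unfold Subgroup.relIndex
      congr 1
      simp only [Q']
      rw [Subgroup.subgroupOf, Subgroup.comap_map_eq_self_of_injective L.subtype_injective]
    rw [h3] at h2
    exact Q.not_dvd_index h2
  have hpg : IsPGroup p (Q'.subgroupOf J) := by
    have h1 : IsPGroup p Q' := Q.2.map _
    exact h1.comap_of_injective J.subtype J.subtype_injective
  let QJ : Sylow p J := hpg.toSylow hidx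
  have hfr := Sylow.normalizer_sup_eq_top QJ
  have hQQ : ((QJ : Subgroup J).map J.subtype) = Q' := by
    rw [IsPGroup.toSylow_coe, Subgroup.subgroupOf_map_subtype, inf_of_le_left hQJ]
  rw [hQQ] at hfr
  have hJ : J = Q' ⊔ f.ker := Subgroup.comap_map_eq _ _
  rw [hJ, ← sup_assoc] at hfr
  have h4 : Subgroup.normalizer (Q' : Set H) ⊔ Q' = Subgroup.normalizer (Q' : Set H) :=
    sup_eq_left.2 Subgroup.le_normalizer
  rw [h4] at hfr
  have h5 : Subgroup.normalizer (Q' : Set H) = ⊤ := by
    by_contra hne
    obtain ⟨M, hM, hle⟩ := (eq_top_or_exists_le_coatom (Subgroup.normalizer (Q' : Set H))).resolve_left hne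
    apply hM.1
    rw [eq_top_iff, ← hfr]
    exact sup_le hle (hker M hM)
  have h6 : Q'.Normal := Subgroup.normalizer_eq_top_iff.1 h5
  exact h6.of_map_subtype

end Pool.Agent.H24.UN
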