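import Pool.Agent.H24.UNa

set_option autoImplicit false

namespace Pool.Agent.H24.UN

/-- Heisenberg group of order 27 -/
@[ext] structure He where
  x : ZMod 3
  y : ZMod 3
  z : ZMod 3
deriving DecidableEq, Fintype

namespace He
instance : Mul He := ⟨fun p q => ⟨p.x+q.x, p.y+q.y, p.z+q.z+(p.x*q.y-p.y*q.x)⟩⟩
instance : One He := ⟨⟨0,0,0⟩⟩
instance : Inv He := ⟨fun p => ⟨-p.x,-p.y,-p.z⟩⟩
@[simp] lemma mul_x (p q : He) : (p*q).x = p.x+q.x := rfl
@[simp] lemma mul_y (p q : He) : (p*q).y = p.y+q.y := rfl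
@[simp] lemma mul_z (p q : He) : (p*q).z = p.z+q.z+(p.x*q.y-p.y*q.x) := rfl
@[simp] lemma one_x : (1 : He).x = 0 := rfl
@[simp] lemma one_y : (1 : He).y = 0 := rfl
@[simp] lemma one_z : (1 : He).z = 0 := rfl
@[simp] lemma inv_x (p : He) : (p⁻¹).x = -p.x := rfl
@[simp] lemma inv_y (p : He) : (p⁻¹).y = -p.y := rfl
@[simp] lemma inv_z (p : He) : (p⁻¹).z = -p.z := rfl

instance : Group He :=
  Group.ofLeftAxioms (by intro a b c; ext <;> simp <;> ring) (by intro a; ext <;> simp)
    (by intro a; ext <;> simp <;> ring)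

def toTriple : He ≃ ZMod 3 × ZMod 3 × ZMod 3 :=
  ⟨fun p => (p.x, p.y, p.z), fun t => ⟨t.1, t.2.1, t.2.2⟩, fun _ => rfl, fun _ => rfl⟩

lemma card : Nat.card He = 27 := by
  rw [Nat.card_congr toTriple]; simp
end He

lemma three : (3 : ZMod 3) = 0 := by decide

abbrev P := He × He

def al : MulAut P where
  toFun p := (⟨p.1.x - p.1.y, p.1.x + p.1.y, -p.1.z⟩, ⟨-(p.2.x - p.2.y), -(p.2.x + p.2.y), -p.2.z⟩)
  invFun p := (⟨-p.1.x - p.1.y, p.1.x - p.1.y, -p.1.z⟩, ⟨p.2.x + p.2.y, -(p.2.x - p.2.y), -p.2.z⟩)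
  left_inv p := by
    ext <;> simp <;> first | ring1 | (linear_combination (-p.1.x) * three) | (linear_combination (-p.1.y) * three) | (linear_combination (-p.2.x) * three) | (linear_combination (-p.2.y) * three)
  right_inv p := by
    ext <;> simp <;> first | ring1 | (linear_combination (-p.1.x) * three) | (linear_combination (-p.1.y) * three) | (linear_combination (-p.2.x) * three) | (linear_combination (-p.2.y) * three)
  map_mul' p q := by
    ext
    · simp; ring
    · simp; ring
    · simp only [Prod.fst_mul, He.mul_x, He.mul_y, He.mul_z]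
      linear_combination (-(p.1.x * q.1.y) + p.1.y * q.1.x) * three
    · simp; ring
    · simp; ring
    · simp only [Prod.snd_mul, He.mul_x, He.mul_y, He.mul_z]
      linear_combination (-(p.2.x * q.2.y) + p.2.y * q.2.x) * three

def be : MulAut P where
  toFun p := (p.2, p.1)
  invFun p := (p.2, p.1)
  left_inv _ := rfl
  right_inv _ := rfl
  map_mul' _ _ := rfl

lemma al_apply (p : P) : al p = (⟨p.1.x - p.1.y, p.1.x + p.1.y, -p.1.z⟩, ⟨-(p.2.x - p.2.y), -(p.2.x + p.2.y), -p.2.z⟩) := rfl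
lemma be_apply (p : P) : be p = (p.2, p.1) := rfl

lemma al4 (p : P) : (al ^ 4) p = (⟨-p.1.x, -p.1.y, p.1.z⟩, ⟨-p.2.x, -p.2.y, p.2.z⟩) := by
  have : (al ^ 4) p = al (al (al (al p))) := rfl
  rw [this]
  simp only [al_apply]
  ext
  · linear_combination (-p.1.x) * three
  · linear_combination (-p.1.y) * three
  · simp
  · linear_combination (-p.2.x) * three
  · linear_combination (-p.2.y) * three
  · simp

lemma al8 : al ^ 8 = 1 := by
  ext1 p
  have : (al ^ 8) p = (al ^ 4) ((al ^ 4) p) := rfl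
  rw [this, al4, al4]
  simp

lemma be2 : be * be = 1 := rfl
lemma beal : be * al = al ^ 5 * be := by
  ext1 p
  have : (al ^ 5 * be) p = al ((al ^ 4) (be p)) := rfl
  rw [this, al4, MulAut.mul_apply]
  simp only [al_apply, be_apply]
  ext <;> simp <;> ring

lemma beal' (n : ℕ) : be * al ^ n = al ^ (5 * n) * be := by
  induction n with
  | zero => simp
  | succ n ih => rw [pow_succ, ← mul_assoc, ih, mul_assoc, beal, ← mul_assoc, ← pow_add]; rfl

lemma al_mod {m n : ℕ} (h : m % 8 = n % 8) : al ^ m = al ^ n := by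
  rw [← Nat.div_add_mod m 8, ← Nat.div_add_mod n 8, pow_add, pow_add, pow_mul, pow_mul, al8, h]
  simp

/-- the modular group of order 16 -/
@[ext] structure K where
  i : ZMod 8
  j : ZMod 2
deriving DecidableEq, Fintype

namespace K
instance : Mul K := ⟨fun p q => ⟨p.i + (if p.j = 0 then q.i else 5 * q.i), p.j + q.j⟩⟩
instance : One K := ⟨⟨0, 0⟩⟩
instance : Inv K := ⟨fun p => ⟨-(if p.j = 0 then p.i else 5 * p.i), p.j⟩⟩
lemma mul_i (p q : K) : (p*q).i = p.i + (if p.j = 0 then q.i else 5 * q.i) := rfl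
lemma mul_j (p q : K) : (p*q).j = p.j+q.j := rfl

instance : Group K :=
  Group.ofLeftAxioms (by decide +kernel) (by decide +kernel) (by decide +kernel)

lemma card : Nat.card K = 16 := by
  have e : K ≃ ZMod 8 × ZMod 2 := ⟨fun p => (p.i, p.j), fun t => ⟨t.1, t.2⟩, fun _ => rfl, fun _ => rfl⟩
  rw [Nat.card_congr e]; simp
end K

def k0 : K := ⟨4, 0⟩

def phi : K →* MulAut P where
  toFun k := al ^ k.i.val * be ^ k.j.val
  map_one' := rfl
  map_mul' p q := by
    obtain ⟨i, j⟩ := p
    obtain ⟨i', j'⟩ := q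
    have hj : j = 0 ∨ j = 1 := by revert j; decide
    have hbb : ∀ j' : ZMod 2, be ^ (1 + j' : ZMod 2).val = be * be ^ j'.val := by
      intro j'
      have hj' : j' = 0 ∨ j' = 1 := by revert j'; decide
      rcases hj' with rfl | rfl
      · rfl
      · rfl
    rcases hj with rfl | rfl
    · simp only [K.mul_i, K.mul_j, if_true, zero_add]
      rw [al_mod (m := (i + i').val) (n := i.val + i'.val) (by rw [ZMod.val_add]; simp), pow_add]
      simp [mul_assoc]
    · simp only [K.mul_i, K.mul_j]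
      rw [if_neg (by decide), hbb]
      rw [al_mod (m := (i + 5 * i').val) (n := i.val + 5 * i'.val) (by
        rw [ZMod.val_add, ZMod.val_mul]
        have : (5 : ZMod 8).val = 5 := rfl
        rw [this]; omega), pow_add]
      have h1 : (1 : ZMod 2).val = 1 := rfl
      rw [h1, pow_one]
      have h2 := beal' i'.val
      calc al ^ i.val * al ^ (5 * i'.val) * (be * be ^ j'.val)
          = al ^ i.val * (al ^ (5 * i'.val) * be) * be ^ j'.val := by group
        _ = al ^ i.val * (be * al ^ i'.val) * be ^ j'.val := by rw [h2]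
        _ = _ := by group

lemma phi_k0 (p : P) : phi k0 p = (⟨-p.1.x, -p.1.y, p.1.z⟩, ⟨-p.2.x, -p.2.y, p.2.z⟩) := al4 p
lemma phi_a (p : P) : phi ⟨1, 0⟩ p = al p := rfl
lemma phi_b (p : P) : phi ⟨0, 1⟩ p = be p := rfl

abbrev G := P ⋊[phi] K

instance : Finite G := Finite.of_equiv _ (SemidirectProduct.equivProd (φ := phi)).symm

lemma cardP : Nat.card P = 3 ^ 6 := by
  rw [Nat.card_prod, He.card]; norm_num

lemma pgP : IsPGroup 3 P := IsPGroup.of_card cardP
lemma pgK : IsPGroup 2 K := IsPGroup.of_card (n := 4) (by rw [K.card]; norm_num)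

/-- the kernel of the projection -/
abbrev N0 : Subgroup G := (SemidirectProduct.rightHom : G →* K).ker

lemma pgN0 : IsPGroup 3 N0 := by
  have : N0 = (SemidirectProduct.inl : P →* G).range := SemidirectProduct.range_inl_eq_ker_rightHom.symm
  rw [this]
  exact pgP.of_surjective (SemidirectProduct.inl : P →* G).rangeRestrict (MonoidHom.rangeRestrict_surjective _)

lemma mem_N0 {g : G} : g ∈ N0 ↔ ∃ x : P, g = SemidirectProduct.inl x := by
  have h : N0 = (SemidirectProduct.inl : P →* G).range := SemidirectProduct.range_inl_eq_ker_rightHom.symm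
  rw [h]
  constructor
  · rintro ⟨x, hx⟩; exact ⟨x, hx.symm⟩
  · rintro ⟨x, hx⟩; exact ⟨x, hx.symm⟩

lemma FF_K : FF K := by
  have : Fact (Nat.Prime 2) := ⟨Nat.prime_two⟩
  have : Group.IsNilpotent K := pgK.isNilpotent
  unfold FF
  infer_instance

lemma index_N0 : N0.index = 16 := by
  rw [Subgroup.index_ker, MonoidHom.range_eq_top.2 SemidirectProduct.rightHom_surjective]
  rw [Subgroup.card_top, K.card]

theorem solG : Group.IsSolvable G := by
  have : Fact (Nat.Prime 2) := ⟨Nat.prime_two⟩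
  have : Fact (Nat.Prime 3) := ⟨Nat.prime_three⟩
  have : Group.IsNilpotent K := pgK.isNilpotent
  have : Group.IsNilpotent P := pgP.isNilpotent
  exact Group.isSolvable_of_ker_le_range (SemidirectProduct.inl : P →* G) SemidirectProduct.rightHom
    (le_of_eq SemidirectProduct.range_inl_eq_ker_rightHom.symm)

end Pool.Agent.H24.UN
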