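import Pool.Agent.H24.UNb

set_option autoImplicit false

namespace Pool.Agent.H24.UN

open SemidirectProduct
open scoped commutatorElement

/-! ### the residual -/

lemma k0_comm : k0 ∈ commutator K := by
  have h : ⁅(⟨1, 0⟩ : K), (⟨0, 1⟩ : K)⁆ = k0 := by decide +kernel
  rw [← h, commutator_def]
  exact Subgroup.commutator_mem_commutator (Subgroup.mem_top _) (Subgroup.mem_top _)

lemma inl_comm (x y : P) : ((inl x : G) * inl y) = inl (x * y) := (map_mul _ _ _).symm

lemma conj_inl (g : G) (x : P) : g * inl x * g⁻¹ = inl (g.left * phi g.right x * g.left⁻¹) := by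
  ext1
  · simp [mul_assoc]
  · simp

/-- an element inverted by `k0` lies in the kernel of any map onto a group in the class -/
lemma inverted {H : Type} [Group H] (f : G →* H) (hf : Function.Surjective f) (hH : FF H) (x : P)
    (hx : phi k0 x = x⁻¹) (hx3 : x ^ 3 = 1) : f (inl x) = 1 := by
  rw [FF_iff] at hH
  obtain ⟨n, hn⟩ := hH
  have hc : f (inr k0) ∈ commutator H := by
    have h1 : (inr k0 : G) ∈ commutator G := by
      have h2 : (commutator K).map (inr : K →* G) ≤ commutator G := by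
        rw [commutator_def, commutator_def, Subgroup.map_commutator]
        exact Subgroup.commutator_mono le_top le_top
      exact h2 ⟨k0, k0_comm, rfl⟩
    rw [← map_comm f hf]
    exact ⟨_, h1, rfl⟩
  have key : ⁅f (inl x), f (inr k0)⁆ = f (inl x) ^ 2 := by
    rw [← map_commutatorElement, ← map_pow, ← map_pow]
    congr 1
    rw [commutatorElement_def]
    have h3 : (inr k0 : G) * (inl x)⁻¹ * (inr k0)⁻¹ = inl x := by
      rw [← map_inv, conj_inl]
      congr 1
      simp only [left_inr, right_inr, one_mul, inv_one, mul_one, map_inv, hx, inv_inv]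
    rw [mul_assoc, mul_assoc, ← mul_assoc (inr k0 : G), h3, pow_two, map_mul]
  have h4 : f (inl x) = (f (inl x) ^ 2) ^ 2 := by
    rw [← pow_mul]
    have : f (inl x) ^ 3 = 1 := by rw [← map_pow, ← map_pow, hx3, map_one, map_one]
    calc f (inl x) = f (inl x) ^ 3 * f (inl x) := by rw [this, one_mul]
      _ = f (inl x) ^ (2 * 2) := by rw [← pow_succ]
  have h5 : ∀ m, f (inl x) ∈ (commutator H).lowerCentralSeries m := by
    intro m
    induction m with
    | zero =>
      rw [Subgroup.lowerCentralSeries_zero, h4]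
      apply pow_mem
      rw [← key, commutator_def]
      exact Subgroup.commutator_mem_commutator (Subgroup.mem_top _) (Subgroup.mem_top _)
    | succ m ih =>
      rw [Subgroup.lowerCentralSeries_succ, h4]
      apply pow_mem
      rw [← key]
      exact Subgroup.commutator_mem_commutator ih hc
  have h6 := h5 n
  rw [hn] at h6
  exact h6

lemma cube (x : P) : x ^ 3 = 1 := by
  have : x ^ 3 = x * x * x := by rw [pow_succ, pow_two]
  rw [this]
  ext
  · simp only [Prod.fst_mul, He.mul_x, He.mul_y, He.mul_z, Prod.fst_one, He.one_x]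
    linear_combination (x.1.x) * three
  · simp only [Prod.fst_mul, He.mul_x, He.mul_y, He.mul_z, Prod.fst_one, He.one_y]
    linear_combination (x.1.y) * three
  · simp only [Prod.fst_mul, He.mul_x, He.mul_y, He.mul_z, Prod.fst_one, He.one_z]
    linear_combination (x.1.z) * three
  · simp only [Prod.snd_mul, He.mul_x, He.mul_y, He.mul_z, Prod.snd_one, He.one_x]
    linear_combination (x.2.x) * three
  · simp only [Prod.snd_mul, He.mul_x, He.mul_y, He.mul_z, Prod.snd_one, He.one_y]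
    linear_combination (x.2.y) * three
  · simp only [Prod.snd_mul, He.mul_x, He.mul_y, He.mul_z, Prod.snd_one, He.one_z]
    linear_combination (x.2.z) * three

lemma inv_of_z (a b c d : ZMod 3) : phi k0 (⟨a, b, 0⟩, ⟨c, d, 0⟩) = (⟨a, b, 0⟩, ⟨c, d, 0⟩)⁻¹ := by
  rw [phi_k0]
  ext <;> simp

lemma decomp (x : P) : x = ((⟨x.1.x, x.1.y, 0⟩, ⟨x.2.x, x.2.y, 0⟩) : P) *
    (((⟨x.1.z, 0, 0⟩, ⟨x.2.z, 0, 0⟩) : P) * ((⟨0, 1, 0⟩, ⟨0, 1, 0⟩) : P) *
      ((⟨-x.1.z, -1, 0⟩, ⟨-x.2.z, -1, 0⟩) : P)) := by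
  ext <;> simp

lemma N0_le {H : Type} [Group H] (f : G →* H) (hf : Function.Surjective f) (hH : FF H) :
    N0 ≤ f.ker := by
  intro g hg
  obtain ⟨x, rfl⟩ := mem_N0.1 hg
  rw [MonoidHom.mem_ker]
  have h := fun a b c d : ZMod 3 => inverted f hf hH (⟨a, b, 0⟩, ⟨c, d, 0⟩) (inv_of_z a b c d) (cube _)
  rw [decomp x, map_mul, map_mul, map_mul, map_mul, map_mul, map_mul, h, h, h, h]
  simp

lemma not_FF_G : ¬ FF G := by
  intro h
  have h1 := N0_le (MonoidHom.id G) Function.surjective_id h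
  have h2 : (inl ((⟨1, 0, 0⟩, 1) : P) : G) ∈ N0 := mem_N0.2 ⟨_, rfl⟩
  have h3 := h1 h2
  rw [MonoidHom.mem_ker, MonoidHom.id_apply] at h3
  have h4 := congrArg (fun g : G => g.left.1.x) h3
  exact absurd h4 (by decide)

theorem residual : N0 = sInf {L : Subgroup G | ∃ (H : Type) (_ : Group H) (_ : Finite H),
              FF H ∧ ∃ f : G →* H, Function.Surjective f ∧ f.ker = L} := by
  apply le_antisymm
  · apply le_sInf
    rintro L ⟨H, _, _, hH, f, hf, rfl⟩
    exact N0_le f hf hH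
  · apply sInf_le
    exact ⟨K, inferInstance, inferInstance, FF_K, rightHom, rightHom_surjective, rfl⟩

/-! ### proper subgroups -/

/-- kernel of the abelianization of `K` -/
def T0 : Subgroup K where
  carrier := {k | k = 1 ∨ k = k0}
  mul_mem' := by
    rintro a b (rfl | rfl) (rfl | rfl)
    · left; rfl
    · right; rfl
    · right; rfl
    · left; rfl
  one_mem' := Or.inl rfl
  inv_mem' := by
    rintro a (rfl | rfl)
    · left; rfl
    · right; rfl

lemma comm_le : commutator K ≤ T0 := by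
  rw [commutator_def, Subgroup.commutator_le]
  have : ∀ a b : K, ⁅a, b⁆ = 1 ∨ ⁅a, b⁆ = k0 := by decide +kernel
  intro a _ b _
  exact this a b

lemma genK : ∀ a b : K, a * b ≠ b * a → ∀ k : K, ∃ i j : Fin 8, k = a ^ i.val * b ^ j.val := by
  decide +kernel

abbrev V := ZMod 3 × ZMod 3 × ZMod 3 × ZMod 3

def vp (x : P) : V := (x.1.x, x.1.y, x.2.x, x.2.y)
lemma vp_mul (x y : P) : vp (x * y) = vp x + vp y := rfl
lemma vp_one : vp 1 = 0 := rfl
lemma vp_inv (x : P) : vp x⁻¹ = - vp x := rfl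
lemma vp_conj (p x : P) : vp (p * x * p⁻¹) = vp x := by
  rw [vp_mul, vp_mul, vp_inv]; abel

def A (v : V) : V := (v.1 - v.2.1, v.1 + v.2.1, -(v.2.2.1 - v.2.2.2), -(v.2.2.1 + v.2.2.2))
def B (v : V) : V := (v.2.2.1, v.2.2.2, v.1, v.2.1)
lemma vp_al (x : P) : vp (phi ⟨1, 0⟩ x) = A (vp x) := rfl
lemma vp_be (x : P) : vp (phi ⟨0, 1⟩ x) = B (vp x) := rfl

def T (v : V) : V := v - A (A v) + A v

lemma span1 : ∀ v : V, (v.1 ≠ 0 ∨ v.2.1 ≠ 0) → ∀ t1 t2 : ZMod 3, ∃ c d : Fin 3,
    ((t1, t2, 0, 0) : V) = c.val • T v + d.val • A (A (T v)) := by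
  decide +kernel

section proper
variable (M : Subgroup G)

/-- the vectors carried by elements of `M` in the kernel -/
def S : AddSubgroup V where
  carrier := {v | ∃ x : P, (inl x : G) ∈ M ∧ vp x = v}
  add_mem' := by
    rintro _ _ ⟨x, hx, rfl⟩ ⟨y, hy, rfl⟩
    exact ⟨x * y, by rw [map_mul]; exact mul_mem hx hy, vp_mul x y⟩
  zero_mem' := ⟨1, by rw [map_one]; exact one_mem _, vp_one⟩
  neg_mem' := by
    rintro _ ⟨x, hx, rfl⟩
    exact ⟨x⁻¹, by rw [map_inv]; exact inv_mem hx, vp_inv x⟩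

variable {M}

lemma S_act (hM : ∀ k : K, ∃ g ∈ M, g.right = k) (k : K) (x : P) (hx : (inl x : G) ∈ M) :
    vp (phi k x) ∈ S M := by
  obtain ⟨g, hg, rfl⟩ := hM k
  refine ⟨g.left * phi g.right x * g.left⁻¹, ?_, vp_conj _ _⟩
  rw [← conj_inl]
  exact mul_mem (mul_mem hg hx) (inv_mem hg)

lemma S_A (hM : ∀ k : K, ∃ g ∈ M, g.right = k) {v : V} (hv : v ∈ S M) : A v ∈ S M := by
  obtain ⟨x, hx, rfl⟩ := hv
  rw [← vp_al]; exact S_act hM _ x hx
lemma S_B (hM : ∀ k : K, ∃ g ∈ M, g.right = k) {v : V} (hv : v ∈ S M) : B v ∈ S M := by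
  obtain ⟨x, hx, rfl⟩ := hv
  rw [← vp_be]; exact S_act hM _ x hx

lemma S_half (hM : ∀ k : K, ∃ g ∈ M, g.right = k) {v : V} (hv : v ∈ S M)
    (h : v.1 ≠ 0 ∨ v.2.1 ≠ 0) (t1 t2 : ZMod 3) : ((t1, t2, 0, 0) : V) ∈ S M := by
  obtain ⟨c, d, h1⟩ := span1 v h t1 t2
  have hT : T v ∈ S M := add_mem (sub_mem hv (S_A hM (S_A hM hv))) (S_A hM hv)
  rw [h1]
  exact add_mem (nsmul_mem hT _) (nsmul_mem (S_A hM (S_A hM hT)) _)

lemma S_full (hM : ∀ k : K, ∃ g ∈ M, g.right = k) {v : V} (hv : v ∈ S M) (h : v ≠ 0) (w : V) :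
    w ∈ S M := by
  have h1 : ∀ t1 t2 : ZMod 3, ((t1, t2, 0, 0) : V) ∈ S M := by
    by_cases h2 : v.1 ≠ 0 ∨ v.2.1 ≠ 0
    · exact S_half hM hv h2
    · refine S_half hM (S_B hM hv) ?_
      by_contra h3
      push Not at h2 h3
      apply h
      exact Prod.ext h2.1 (Prod.ext h2.2 (Prod.ext h3.1 h3.2))
  have h4 : w = (w.1, w.2.1, 0, 0) + B (w.2.2.1, w.2.2.2, 0, 0) := by
    obtain ⟨w1, w2, w3, w4⟩ := w
    simp only [B, Prod.mk_add_mk, add_zero, zero_add]
  rw [h4]
  exact add_mem (h1 _ _) (S_B hM (h1 _ _))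

lemma full_P (hS : ∀ w : V, w ∈ S M) (x : P) : (inl x : G) ∈ M := by
  have hz : ∀ z1 z2 : ZMod 3, (inl ((⟨0, 0, z1⟩, ⟨0, 0, z2⟩) : P) : G) ∈ M := by
    intro z1 z2
    obtain ⟨y, hy, hvy⟩ := hS (2 * z1, 0, 2 * z2, 0)
    obtain ⟨y', hy', hvy'⟩ := hS (0, 1, 0, 1)
    have h1 : ((⟨0, 0, z1⟩, ⟨0, 0, z2⟩) : P) = y * y' * y⁻¹ * y'⁻¹ := by
      simp only [vp, Prod.mk.injEq] at hvy hvy'
      obtain ⟨a1, a2, a3, a4⟩ := hvy
      obtain ⟨b1, b2, b3, b4⟩ := hvy'
      ext
      · simp
      · simp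
      · simp only [Prod.fst_mul, Prod.fst_inv, He.mul_x, He.mul_y, He.mul_z, He.inv_x, He.inv_y, He.inv_z,
          a1, a2, b1, b2]
        linear_combination (-z1) * three
      · simp
      · simp
      · simp only [Prod.snd_mul, Prod.snd_inv, He.mul_x, He.mul_y, He.mul_z, He.inv_x, He.inv_y, He.inv_z,
          a3, a4, b3, b4]
        linear_combination (-z2) * three
    rw [h1, map_mul, map_mul, map_mul, map_inv, map_inv]
    exact mul_mem (mul_mem (mul_mem hy hy') (inv_mem hy)) (inv_mem hy')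
  obtain ⟨y, hy, hvy⟩ := hS (vp x)
  have h1 : x = y * ((⟨0, 0, x.1.z - y.1.z⟩, ⟨0, 0, x.2.z - y.2.z⟩) : P) := by
    simp only [vp, Prod.mk.injEq] at hvy
    obtain ⟨a1, a2, a3, a4⟩ := hvy
    ext <;> simp [a1, a2, a3, a4]
  rw [h1, map_mul]
  exact mul_mem hy (hz _ _)

theorem proper (hM : M ≠ ⊤) : FF M := by
  by_contra hF
  apply hM
  -- Step 1
  have h1 : ∃ g ∈ M, ∃ g' ∈ M, g.right * g'.right ≠ g'.right * g.right := by
    by_contra hcon
    push Not at hcon
    apply hF
    have h2 : commutator M ≤ (rightHom.comp M.subtype).ker := by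
      rw [commutator_def, Subgroup.commutator_le]
      intro a _ b _
      rw [MonoidHom.mem_ker, map_commutatorElement]
      rw [commutatorElement_eq_one_iff_mul_comm]
      exact hcon a.1 a.2 b.1 b.2
    have h3 : IsPGroup 3 (commutator M) := by
      let ι : commutator M →* N0 :=
        ((M.subtype).comp (commutator M).subtype).codRestrict N0 (fun c => h2 c.2)
      refine pgN0.of_injective ι ?_
      intro a b hab
      exact Subtype.ext (Subtype.ext (congrArg (fun t : N0 => (t : G)) hab))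
    have : Fact (Nat.Prime 3) := ⟨Nat.prime_three⟩
    exact h3.isNilpotent
  -- Step 2
  have hsurj : ∀ k : K, ∃ g ∈ M, g.right = k := by
    obtain ⟨g, hg, g', hg', hne⟩ := h1
    intro k
    obtain ⟨i, j, hk⟩ := genK _ _ hne k
    refine ⟨g ^ i.val * g' ^ j.val, mul_mem (pow_mem hg _) (pow_mem hg' _), ?_⟩
    have : (g ^ i.val * g' ^ j.val).right = rightHom (g ^ i.val * g' ^ j.val) := rfl
    rw [this, map_mul, map_pow, map_pow, hk]
    rfl
  -- Step 3
  have h3 : ∃ v ∈ S M, v ≠ 0 := by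
    by_contra hcon
    push Not at hcon
    apply hF
    have hz : ∀ x : P, (inl x : G) ∈ M → x.1.x = 0 ∧ x.1.y = 0 ∧ x.2.x = 0 ∧ x.2.y = 0 := by
      intro x hx
      have := hcon (vp x) ⟨x, hx, rfl⟩
      simpa [vp, Prod.ext_iff] using this
    have hcen : ∀ x : P, (inl x : G) ∈ M → ∀ g : G, g.right ∈ T0 → inl x * g = g * inl x := by
      intro x hx g hg
      obtain ⟨a1, a2, a3, a4⟩ := hz x hx
      have h5 : phi g.right x = x := by
        rcases hg with hg | hg
        · rw [hg, map_one]; rfl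
        · rw [hg, phi_k0]; ext <;> simp [a1, a2, a3, a4]
      have h6 : x * g.left = g.left * x := by
        ext <;> simp [a1, a2, a3, a4, add_comm]
      ext1
      · simp only [mul_left, left_inl, right_inl, map_one, MulAut.one_apply, h5, h6]
      · simp
    have hab : (commutator M).lowerCentralSeries 1 = ⊥ := by
      rw [Subgroup.lowerCentralSeries_succ, Subgroup.lowerCentralSeries_zero,
        Subgroup.commutator_eq_bot_iff_le_centralizer]
      have hright : ∀ c ∈ commutator M, (c : G).right ∈ T0 := by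
        intro c hc
        apply comm_le
        have h7 : (commutator M).map (rightHom.comp M.subtype) ≤ commutator K := by
          rw [commutator_def, commutator_def, Subgroup.map_commutator]
          exact Subgroup.commutator_mono le_top le_top
        exact h7 ⟨c, hc, rfl⟩
      intro c hc
      rw [Subgroup.mem_centralizer_iff]
      intro c' hc'
      have r1 := hright c hc
      have r2 := hright c' hc'
      apply Subtype.ext
      change (c' : G) * (c : G) = (c : G) * (c' : G)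
      have hk1 : ∀ d : M, (d : G).right = 1 → ∃ x : P, (d : G) = inl x ∧ (inl x : G) ∈ M := by
        intro d hd
        obtain ⟨x, hx⟩ := mem_N0.1 (show (d : G) ∈ N0 from hd)
        exact ⟨x, hx, hx ▸ d.2⟩
      rcases r1 with h8 | h8
      · obtain ⟨x, hx, hxM⟩ := hk1 c h8
        rw [hx]
        exact (hcen x hxM _ r2).symm
      · rcases r2 with h9 | h9
        · obtain ⟨x, hx, hxM⟩ := hk1 c' h9
          rw [hx]
          exact hcen x hxM _ (Or.inr h8)
        · have h10 : ((c * c'⁻¹ : M) : G).right = 1 := by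
            change (rightHom ((c : G) * (c' : G)⁻¹)) = 1
            rw [map_mul, map_inv]
            change (c : G).right * ((c' : G).right)⁻¹ = 1
            rw [h8, h9, mul_inv_cancel]
          obtain ⟨x, hx, hxM⟩ := hk1 _ h10
          have h11 : (c : G) = inl x * (c' : G) := by
            rw [← hx]
            change (c : G) = (c : G) * (c' : G)⁻¹ * (c' : G)
            rw [inv_mul_cancel_right]
          rw [h11, mul_assoc, ← mul_assoc (c' : G), ← hcen x hxM _ (Or.inr h9), mul_assoc]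
    exact Subgroup.isNilpotent_of_lowerCentralSeries_eq_bot hab
  -- conclusion
  obtain ⟨v, hv, hv0⟩ := h3
  have hP : ∀ x : P, (inl x : G) ∈ M := full_P (S_full hsurj hv hv0)
  rw [Subgroup.eq_top_iff']
  intro g
  obtain ⟨m, hm, hmr⟩ := hsurj g.right
  have h12 : g * m⁻¹ ∈ N0 := by
    rw [MonoidHom.mem_ker, map_mul, map_inv]
    change g.right * (m.right)⁻¹ = 1
    rw [hmr, mul_inv_cancel]
  obtain ⟨x, hx⟩ := mem_N0.1 h12
  have h13 : g = inl x * m := by rw [← hx]; simp
  rw [h13]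
  exact mul_mem (hP x) hm

end proper

end Pool.Agent.H24.UN
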