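import Pool.Agent.H24.UNc

set_option autoImplicit false

namespace Pool.Agent.H24.UN

open SemidirectProduct

instance fact3 : Fact (Nat.Prime 3) := ⟨Nat.prime_three⟩

theorem nonquot (n : ℕ) (hn : 0 < n)
    (φ : GaloisField 3 (2 * n) × GaloisField 3 (2 * n) → G)
    (h1 : ∀ x : GaloisField 3 (2 * n) × GaloisField 3 (2 * n),
                x.2 + x.2 ^ (3 ^ n) + x.1 ^ (3 ^ n + 1) = 0 → φ x ∈ N0)
    (h2 : ∀ g ∈ N0, ∃ x : GaloisField 3 (2 * n) × GaloisField 3 (2 * n),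
                x.2 + x.2 ^ (3 ^ n) + x.1 ^ (3 ^ n + 1) = 0 ∧ φ x = g)
    (h3 : ∀ x y : GaloisField 3 (2 * n) × GaloisField 3 (2 * n),
                x.2 + x.2 ^ (3 ^ n) + x.1 ^ (3 ^ n + 1) = 0 →
                y.2 + y.2 ^ (3 ^ n) + y.1 ^ (3 ^ n + 1) = 0 →
                φ (x.1 + y.1, x.2 + y.2 - x.1 * y.1 ^ (3 ^ n)) = φ x * φ y) : False := by
  set q := 3 ^ n with hq
  have hqpos : q ≠ 0 := by rw [hq]; positivity
  have hchar : (3 : GaloisField 3 (2 * n)) = 0 := by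
    have := CharP.cast_eq_zero (GaloisField 3 (2 * n)) 3
    exact_mod_cast this
  have hq2 : ∀ x : GaloisField 3 (2 * n), (x ^ q) ^ q = x := by
    intro x
    rw [← pow_mul]
    have hc : Nat.card (GaloisField 3 (2 * n)) = q * q := by
      rw [GaloisField.card _ _ (by omega), hq, ← pow_add]; congr 1; omega
    have : Fintype (GaloisField 3 (2 * n)) := Fintype.ofFinite _
    rw [← hc, Nat.card_eq_fintype_card]
    exact FiniteField.pow_card x
  have hadd : ∀ x y : GaloisField 3 (2 * n), (x + y) ^ q = x ^ q + y ^ q :=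
    fun x y => add_pow_char_pow (p := 3) x y (n := n)
  have hsub : ∀ x y : GaloisField 3 (2 * n), (x - y) ^ q = x ^ q - y ^ q :=
    fun x y => sub_pow_char_pow (p := 3) x y (n := n)
  have hneg : ∀ x : GaloisField 3 (2 * n), (-x) ^ q = - x ^ q := by
    intro x
    have := hsub 0 x
    rw [zero_sub, zero_pow (by rw [hq]; positivity), zero_sub] at this
    exact this
  have hS : ∀ x : GaloisField 3 (2 * n) × GaloisField 3 (2 * n),
      x.2 + x.2 ^ q + x.1 ^ (q + 1) = 0 ↔ x.2 + x.2 ^ q + x.1 ^ q * x.1 = 0 := by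
    intro x; rw [pow_succ]
  -- commutator identity
  let c : GaloisField 3 (2 * n) → GaloisField 3 (2 * n) → GaloisField 3 (2 * n) :=
    fun s t => t * s ^ q - s * t ^ q
  have hcS : ∀ s t, c s t + (c s t) ^ q + (0 : GaloisField 3 (2 * n)) ^ (q + 1) = 0 := by
    intro s t
    simp only [c]
    rw [hsub, mul_pow, mul_pow, hq2, hq2, zero_pow (Nat.succ_ne_zero q)]
    ring
  have hcomm : ∀ s t : GaloisField 3 (2 * n) × GaloisField 3 (2 * n),
      s.2 + s.2 ^ q + s.1 ^ (q + 1) = 0 → t.2 + t.2 ^ q + t.1 ^ (q + 1) = 0 →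
      φ s * φ t = φ (0, c s.1 t.1) * (φ t * φ s) := by
    intro s t hs ht
    rw [← h3 s t hs ht, ← h3 t s ht hs, ← h3 (0, c s.1 t.1) _ (hcS _ _)]
    · congr 1
      simp only [c, zero_add, zero_mul, sub_zero, Prod.mk.injEq]
      constructor
      · ring
      · ring
    · simp only
      rw [pow_succ] at hs ht
      rw [pow_succ, hsub, hadd, hadd, mul_pow, hq2]
      linear_combination hs + ht
  have h00 : φ (0, 0) = 1 := by
    have h := h3 (0, 0) (0, 0) (by simp [hqpos]) (by simp [hqpos])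
    simp only [add_zero, zero_mul, sub_zero] at h
    exact (mul_eq_left.1 h.symm)
  obtain ⟨s, hs, hφs⟩ := h2 (inl ((⟨1, 0, 0⟩, 1) : P)) (mem_N0.2 ⟨_, rfl⟩)
  obtain ⟨s', hs', hφs'⟩ := h2 (inl ((⟨0, 1, 0⟩, 1) : P)) (mem_N0.2 ⟨_, rfl⟩)
  obtain ⟨t, ht, hφt⟩ := h2 (inl ((1, ⟨1, 0, 0⟩) : P)) (mem_N0.2 ⟨_, rfl⟩)
  obtain ⟨u, hu, hφu⟩ := h2 (inl ((1, ⟨0, 1, 0⟩) : P)) (mem_N0.2 ⟨_, rfl⟩)
  have hs1 : s.1 ≠ 0 := by
    intro h0
    have h := hcomm s s' hs hs'
    have hc0 : c s.1 s'.1 = 0 := by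
      simp only [c, h0]
      rw [zero_pow (by rw [hq]; positivity)]; ring
    rw [hc0, h00, one_mul, hφs, hφs', ← map_mul, ← map_mul] at h
    have h' := inl_injective h
    exact absurd h' (by decide)
  have hctu : φ (0, c t.1 u.1) = inl ((1, ⟨0, 0, 2⟩) : P) := by
    have h := hcomm t u ht hu
    rw [hφt, hφu] at h
    have h4 : (inl ((1, ⟨1, 0, 0⟩) : P) * inl ((1, ⟨0, 1, 0⟩) : P) : G) =
        inl ((1, ⟨0, 0, 2⟩) : P) * (inl ((1, ⟨0, 1, 0⟩) : P) * inl ((1, ⟨1, 0, 0⟩) : P)) := by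
      rw [← map_mul, ← map_mul, ← map_mul]
      congr 1
    rw [h4] at h
    exact (mul_right_cancel h).symm
  set e := c t.1 u.1 with he
  have heq : e ^ q = - e := by
    have := hcS t.1 u.1
    rw [zero_pow (Nat.succ_ne_zero q), add_zero] at this
    linear_combination this
  -- the element `r`
  have hsq : s.1 ^ q ≠ 0 := pow_ne_zero _ hs1
  let r1 : GaloisField 3 (2 * n) := - e / s.1 ^ q
  have hr1q : r1 ^ q = e / s.1 := by
    simp only [r1]
    rw [div_pow, hneg, heq, hq2, neg_neg]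
  let r2 : GaloisField 3 (2 * n) := r1 ^ q * r1
  have hr2q : r2 ^ q = r2 := by
    simp only [r2]
    rw [mul_pow, hq2]
    exact mul_comm _ _
  have hr : r2 + r2 ^ q + r1 ^ (q + 1) = 0 := by
    rw [hr2q, pow_succ]
    simp only [r2]
    linear_combination (r1 ^ q * r1) * hchar
  have hc : c s.1 r1 = e := by
    simp only [c]
    rw [hr1q]
    simp only [r1]
    field_simp
    linear_combination (-e) * hchar
  have h5 := hcomm s (r1, r2) hs hr
  simp only at h5
  rw [hc, hctu, hφs] at h5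
  obtain ⟨ρ, hρ⟩ := mem_N0.1 (h1 (r1, r2) hr)
  rw [hρ, ← map_mul, ← map_mul, ← map_mul] at h5
  have h6 := inl_injective h5
  have h7 := congrArg (fun p : P => p.2.z) h6
  simp at h7
  exact absurd h7 (by decide)

theorem main : ¬ (∀ (F : ∀ (H : Type) [Group H], Prop),
    (∀ (H K : Type) [Group H] [Group K] [Finite H] (f : H →* K),
        Function.Surjective f → F H → F K) →
    (∀ (H K₁ K₂ : Type) [Group H] [Group K₁] [Group K₂] [Finite H]
        (f₁ : H →* K₁) (f₂ : H →* K₂),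
        Function.Surjective f₁ → Function.Surjective f₂ → F K₁ → F K₂ →
        F ↥(f₁.prod f₂).range) →
    (∀ (H K : Type) [Group H] [Group K] [Finite H] (f : H →* K),
        Function.Surjective f → (∀ M : Subgroup H, IsCoatom M → f.ker ≤ M) →
        F K → F H) →
    ∀ (G : Type) [Group G] [Finite G],
      Group.IsSolvable G → ¬ F G → (∀ K : Subgroup G, K ≠ ⊤ → F ↥K) →
      ∀ (p : ℕ) [Fact p.Prime] (R : Subgroup G),
        R = sInf {K : Subgroup G | ∃ (H : Type) (_ : Group H) (_ : Finite H),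
              F H ∧ ∃ f : G →* H, Function.Surjective f ∧ f.ker = K} →
        (∃ P : Sylow p G, (P : Subgroup G) = R) →
        ∃ n : ℕ, 0 < n ∧
          ∃ φ : GaloisField p (2 * n) × GaloisField p (2 * n) → G,
            (∀ x : GaloisField p (2 * n) × GaloisField p (2 * n),
                x.2 + x.2 ^ (p ^ n) + x.1 ^ (p ^ n + 1) = 0 → φ x ∈ R) ∧
            (∀ g ∈ R, ∃ x : GaloisField p (2 * n) × GaloisField p (2 * n),
                x.2 + x.2 ^ (p ^ n) + x.1 ^ (p ^ n + 1) = 0 ∧ φ x = g) ∧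
            (∀ x y : GaloisField p (2 * n) × GaloisField p (2 * n),
                x.2 + x.2 ^ (p ^ n) + x.1 ^ (p ^ n + 1) = 0 →
                y.2 + y.2 ^ (p ^ n) + y.1 ^ (p ^ n + 1) = 0 →
                φ (x.1 + y.1, x.2 + y.2 - x.1 * y.1 ^ (p ^ n)) = φ x * φ y)) := by
  intro hall
  obtain ⟨n, hn, φ, h1, h2, h3⟩ := hall (fun H _ => FF H)
    (fun H K _ _ _ f hf h => FF_map f hf h)
    (fun H K₁ K₂ _ _ _ _ f₁ f₂ h1 h2 hF1 hF2 => FF_sub f₁ f₂ h1 h2 hF1 hF2)
    (fun H K _ _ _ f hf hk h => FF_sat f hf hk h)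
    G solG not_FF_G (fun M hM => proper hM) 3 N0 residual
    ⟨pgN0.toSylow (by rw [index_N0]; decide), rfl⟩
  exact nonquot n hn φ h1 h2 h3

end Pool.Agent.H24.UN
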