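import Pool.Agent.H24.RCADefs

namespace Pool.Agent.H24.WSP

open Function Pool.Agent.H24.RCA

section Defs

variable {M : Type} [CommSemiring M] [LinearOrder M] [IsStrictOrderedRing M]

/-- `R` codes a (reflexive) partial order on `P`. -/
def IsPO (P R : Set M) : Prop :=
  (∀ x ∈ P, rel R x x) ∧
  (∀ x ∈ P, ∀ y ∈ P, rel R x y → rel R y x → x = y) ∧
  (∀ x ∈ P, ∀ y ∈ P, ∀ z ∈ P, rel R x y → rel R y z → rel R x z)

/-- `R` codes a (reflexive) linear order on `P`. -/
def IsLO (P R : Set M) : Prop := IsPO P R ∧ ∀ x ∈ P, ∀ y ∈ P, rel R x y ∨ rel R y x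

/-- `x ≼ y` for all but finitely many `y ∈ P`. -/
def Small (P R : Set M) (x : M) : Prop := ∃ b : M, ∀ y ∈ P, b < y → rel R x y
/-- `y ≼ x` for all but finitely many `y ∈ P`. -/
def Large (P R : Set M) (x : M) : Prop := ∃ b : M, ∀ y ∈ P, b < y → rel R y x
/-- `x` and `y` are incomparable for all but finitely many `y ∈ P`. -/
def Isolated (P R : Set M) (x : M) : Prop := ∃ b : M, ∀ y ∈ P, b < y → ¬ rel R x y ∧ ¬ rel R y x

/-- `(P, R)` is stable: every element is small or isolated, or every element is large or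
isolated. -/
def Stable (P R : Set M) : Prop :=
  (∀ x ∈ P, Small P R x ∨ Isolated P R x) ∨ (∀ x ∈ P, Large P R x ∨ Isolated P R x)

/-- `(P, R)` is weakly stable: every element is small, large or isolated. -/
def WeaklyStable (P R : Set M) : Prop := ∀ x ∈ P, Small P R x ∨ Large P R x ∨ Isolated P R x

/-- The principle `P`: every infinite weakly stable partial order has an infinite suborder that
is stable (smallness etc. computed inside the suborder). -/
def PrincipleP (S : Set (Set M)) : Prop :=
  ∀ P ∈ S, ∀ R ∈ S, IsPO P R → Inf P → WeaklyStable P R →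
    ∃ A ∈ S, A ⊆ P ∧ Inf A ∧ Stable A R

/-- `(A, R)` has type `ω + ω*`: every element has only finitely many predecessors or only
finitely many successors. -/
def TypeOmegaPlusOmegaStar (A R : Set M) : Prop :=
  ∀ x ∈ A, (∃ b : M, ∀ y ∈ A, rel R y x → y ≤ b) ∨ (∃ b : M, ∀ y ∈ A, rel R x y → y ≤ b)

/-- `B` is an ascending sequence of the order coded by `R`. -/
def Ascending (B R : Set M) : Prop := ∀ s ∈ B, ∀ t ∈ B, s < t → rel R s t
/-- `B` is a descending sequence of the order coded by `R`. -/
def Descending (B R : Set M) : Prop := ∀ s ∈ B, ∀ t ∈ B, s < t → rel R t s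

/-- The principle `SADS`: every infinite linear order of type `ω + ω*` has an infinite ascending
sequence or an infinite descending sequence. -/
def SADS (S : Set (Set M)) : Prop :=
  ∀ A ∈ S, ∀ R ∈ S, IsLO A R → Inf A → TypeOmegaPlusOmegaStar A R →
    ∃ B ∈ S, B ⊆ A ∧ Inf B ∧ (Ascending B R ∨ Descending B R)

end Defs

end Pool.Agent.H24.WSP
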