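import Pool.Agent.H24.RCA
import Pool.Agent.H24.WSPDefs

set_option linter.unusedSectionVars false
set_option linter.unusedSimpArgs false
set_option linter.unusedVariables false

namespace Pool.Agent.H24.WSP

open Function Pool.Agent.H24.RCA



section Proof

variable {M : Type} [CommSemiring M] [LinearOrder M] [IsStrictOrderedRing M]
variable {S : Set (Set M)} {P R : Set M}

lemma small_mono {A : Set M} (hA : A ⊆ P) {x : M} (h : Small P R x) : Small A R x := by
  obtain ⟨b, hb⟩ := h; exact ⟨b, fun y hy => hb y (hA hy)⟩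
lemma large_mono {A : Set M} (hA : A ⊆ P) {x : M} (h : Large P R x) : Large A R x := by
  obtain ⟨b, hb⟩ := h; exact ⟨b, fun y hy => hb y (hA hy)⟩
lemma isol_mono {A : Set M} (hA : A ⊆ P) {x : M} (h : Isolated P R x) : Isolated A R x := by
  obtain ⟨b, hb⟩ := h; exact ⟨b, fun y hy => hb y (hA hy)⟩

lemma stable_of_noSmall (hws : WeaklyStable P R) {A : Set M} (hA : A ⊆ P)
    (hns : ∀ x ∈ A, ¬ Small P R x) : Stable A R := by
  right
  intro x hx
  rcases hws x (hA hx) with h | h | h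
  · exact absurd h (hns x hx)
  · exact Or.inl (large_mono hA h)
  · exact Or.inr (isol_mono hA h)

lemma stable_of_noLarge (hws : WeaklyStable P R) {A : Set M} (hA : A ⊆ P)
    (hns : ∀ x ∈ A, ¬ Large P R x) : Stable A R := by
  left
  intro x hx
  rcases hws x (hA hx) with h | h | h
  · exact Or.inl (small_mono hA h)
  · exact absurd h (hns x hx)
  · exact Or.inr (isol_mono hA h)

/-- `z` is the first element at which the principal up-sets of `x` and `y` differ. -/
def D (P R : Set M) (x y z : M) : Prop :=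
  z ∈ P ∧ ¬ (rel R x z ↔ rel R y z) ∧ ∀ w, w < z → w ∈ P → (rel R x w ↔ rel R y w)

lemma D_def (hP : P ∈ S) (hR : R ∈ S) {a b c : (ℕ → M) → M} (ha : Term a) (hb : Term b)
    (hc : Term c) (fa : ∀ v x, a (update v 9 x) = a v) (fb : ∀ v x, b (update v 9 x) = b v) :
    Sig00 S (fun v => D P R (a v) (b v) (c v)) := by
  have h := Sig00.and (Sig00.mem hP hc) (Sig00.and
    (Sig00.not (Sig00.iff (Sig00.rel hR ha hc) (Sig00.rel hR hb hc)))
    (Sig00.ball 9 (Sig00.imp (Sig00.mem hP (Term.var 9))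
      (Sig00.iff (Sig00.rel hR ha (Term.var 9)) (Sig00.rel hR hb (Term.var 9)))) hc))
  simp only [fa, fb, update_self] at h
  exact h

lemma D_symm {x y z : M} (h : D P R x y z) : D P R y x z :=
  ⟨h.1, fun h' => h.2.1 h'.symm, fun w hw hwP => (h.2.2 w hw hwP).symm⟩

lemma D_unique {x y z z' : M} (h : D P R x y z) (h' : D P R x y z') : z = z' := by
  rcases lt_trichotomy z z' with h1 | h1 | h1
  · exact absurd (h'.2.2 z h1 h.1) h.2.1
  · exact h1
  · exact absurd (h.2.2 z' h1 h'.1) h'.2.1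

lemma D_le (hmod : Model M S) {x y z w : M} (h : D P R x y z) (hw : w ∈ P)
    (hd : ¬ (rel R x w ↔ rel R y w)) : z ≤ w := by
  by_contra hcon
  push Not at hcon
  exact hd (h.2.2 w hcon hw)

lemma D_exists (hmod : Model M S) (hP : P ∈ S) (hR : R ∈ S) (hpo : IsPO P R) {x y : M}
    (hx : x ∈ P) (hy : y ∈ P) (hne : x ≠ y) : ∃ z, D P R x y z ∧ z < x + y + 1 := by
  have hφ : Sig00 S (fun v : ℕ → M => (v 0 ∈ P ∧ ¬ (rel R x (v 0) ↔ rel R y (v 0)))) :=
    Sig00.and (Sig00.mem hP (Term.var 0)) (Sig00.not (Sig00.iff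
      (Sig00.rel hR (Term.const x) (Term.var 0)) (Sig00.rel hR (Term.const y) (Term.var 0))))
  have hex : ∃ w, (w ∈ P ∧ ¬ (rel R x w ↔ rel R y w)) ∧ w ≤ x + y := by
    by_cases hxy : rel R x y
    · refine ⟨x, ⟨hx, fun h => hne (hpo.2.1 x hx y hy hxy (h.mp (hpo.1 x hx)))⟩, ?_⟩
      exact le_add_of_nonneg_right (hmod.zero_le _)
    · refine ⟨y, ⟨hy, fun h => hxy (h.mpr (hpo.1 y hy))⟩, ?_⟩
      exact le_add_of_nonneg_left (hmod.zero_le _)
  obtain ⟨w, hw, hwle⟩ := hex
  obtain ⟨z, hz, hmin⟩ := lnp hmod (φ := fun z => (z ∈ P ∧ ¬ (rel R x z ↔ rel R y z))) hφ ⟨w, hw⟩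
  refine ⟨z, ⟨hz.1, hz.2, ?_⟩, ?_⟩
  · intro u hu huP
    by_contra hcon
    exact hmin u hu ⟨huP, hcon⟩
  · rw [lt_succ hmod]
    refine le_trans ?_ hwle
    by_contra hcon
    push Not at hcon
    exact hmin w hcon hw

/-- the lexicographic linear extension -/
def LT (P R : Set M) (x y : M) : Prop :=
  x ∈ P ∧ y ∈ P ∧ ∃ z, z < x + y + 1 ∧ (D P R x y z ∧ rel R x z)

lemma LT_irrefl {x : M} : ¬ LT P R x x := by
  rintro ⟨_, _, z, _, hD, _⟩
  exact hD.2.1 Iff.rfl

lemma LT_total (hmod : Model M S) (hP : P ∈ S) (hR : R ∈ S) (hpo : IsPO P R) {x y : M}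
    (hx : x ∈ P) (hy : y ∈ P) (hne : x ≠ y) : LT P R x y ∨ LT P R y x := by
  obtain ⟨z, hD, hz⟩ := D_exists hmod hP hR hpo hx hy hne
  by_cases h : rel R x z
  · exact Or.inl ⟨hx, hy, z, hz, hD, h⟩
  · right
    refine ⟨hy, hx, z, by rwa [add_comm y x], D_symm hD, ?_⟩
    by_contra h2
    exact hD.2.1 ⟨fun h' => absurd h' h, fun h' => absurd h' h2⟩

lemma LT_trans (hmod : Model M S) (hP : P ∈ S) (hR : R ∈ S) (hpo : IsPO P R) {x y w : M}
    (h1 : LT P R x y) (h2 : LT P R y w) : LT P R x w := by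
  obtain ⟨hx, hy, z1, hz1, hD1, hr1⟩ := h1
  obtain ⟨_, hw, z2, hz2, hD2, hr2⟩ := h2
  have key : ∃ z, D P R x w z ∧ rel R x z := by
    rcases lt_trichotomy z1 z2 with h | h | h
    · have hyz : ¬ rel R y z1 := fun h' => hD1.2.1 ⟨fun _ => h', fun _ => hr1⟩
      have hwz : ¬ rel R w z1 := fun h' => hyz ((hD2.2.2 z1 h hD1.1).mpr h')
      refine ⟨z1, ⟨hD1.1, fun h' => hwz (h'.mp hr1), ?_⟩, hr1⟩
      intro u hu huP
      exact (hD1.2.2 u hu huP).trans (hD2.2.2 u (lt_trans hu h) huP)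
    · subst h
      exact absurd ⟨fun _ => hr2, fun _ => hr1⟩ hD1.2.1
    · have hxz : rel R x z2 := (hD1.2.2 z2 h hD2.1).mpr hr2
      have hwz : ¬ rel R w z2 := fun h' => hD2.2.1 ⟨fun _ => h', fun _ => hr2⟩
      refine ⟨z2, ⟨hD2.1, fun h' => hwz (h'.mp hxz), ?_⟩, hxz⟩
      intro u hu huP
      exact (hD1.2.2 u (lt_trans hu h) huP).trans (hD2.2.2 u hu huP)
  obtain ⟨z, hD, hr⟩ := key
  have hne : x ≠ w := by rintro rfl; exact hD.2.1 Iff.rfl
  obtain ⟨z', hD', hz'⟩ := D_exists hmod hP hR hpo hx hw hne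
  have := D_unique hD hD'
  subst this
  exact ⟨hx, hw, z, hz', hD, hr⟩

lemma LT_of_rel (hmod : Model M S) (hP : P ∈ S) (hR : R ∈ S) (hpo : IsPO P R) {x y : M}
    (hx : x ∈ P) (hy : y ∈ P) (hne : x ≠ y) (hr : rel R x y) : LT P R x y := by
  obtain ⟨z, hD, hz⟩ := D_exists hmod hP hR hpo hx hy hne
  refine ⟨hx, hy, z, hz, hD, ?_⟩
  by_contra hxz
  apply hD.2.1
  constructor
  · intro h; exact absurd h hxz
  · intro h; exact hpo.2.2 x hx y hy z hD.1 hr h

lemma LT_asymm (hmod : Model M S) (hP : P ∈ S) (hR : R ∈ S) (hpo : IsPO P R) {x y : M}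
    (h1 : LT P R x y) (h2 : LT P R y x) : False := LT_irrefl (LT_trans hmod hP hR hpo h1 h2)

/-- small below large -/
lemma small_le_large (hpo : IsPO P R) (hinf : Inf P) {y z : M} (hy : y ∈ P) (hz : z ∈ P)
    (hs : Small P R y) (hl : Large P R z) : rel R y z := by
  obtain ⟨b, hb⟩ := hs
  obtain ⟨c, hc⟩ := hl
  obtain ⟨w, hw, hbw⟩ := hinf (max b c)
  exact hpo.2.2 y hy w hw z hz (hb w hw (lt_of_le_of_lt (le_max_left _ _) hbw))
    (hc w hw (lt_of_le_of_lt (le_max_right _ _) hbw))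

lemma large_up (hpo : IsPO P R) {y z : M} (hy : y ∈ P) (hz : z ∈ P)
    (hl : Large P R y) (hr : rel R y z) : Large P R z := by
  obtain ⟨b, hb⟩ := hl
  exact ⟨b, fun w hw hbw => hpo.2.2 w hw y hy z hz (hb w hw hbw) hr⟩

lemma LT_def (hP : P ∈ S) (hR : R ∈ S) : Sig00 S (fun v : ℕ → M => LT P R (v 1) (v 2)) := by
  have h1 : Sig00 S (fun v : ℕ → M => D P R (v 1) (v 2) (v 3) ∧ rel R (v 1) (v 3)) :=
    Sig00.and (D_def hP hR (Term.var 1) (Term.var 2) (Term.var 3) (by intro v x; simp)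
      (by intro v x; simp)) (Sig00.rel hR (Term.var 1) (Term.var 3))
  have h2 := Sig00.bex 3 h1 (Term.add (Term.add (Term.var 1) (Term.var 2)) (Term.const 1))
  have h3 := Sig00.and (Sig00.mem hP (Term.var 1)) (Sig00.and (Sig00.mem hP (Term.var 2)) h2)
  simpa [LT] using h3

lemma bdd_of_not_inf {A : Set M} (h : ¬ Inf A) : ∃ b, ∀ x ∈ A, x ≤ b := by
  unfold Inf at h
  push Not at h
  exact h

section Main

variable (hmod : Model M S) (hP : P ∈ S) (hR : R ∈ S) (hpo : IsPO P R) (hinf : Inf P)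
  (hws : WeaklyStable P R) (hsads : SADS S)
  (hno : ∀ A ∈ S, A ⊆ P → Inf A → ¬ Stable A R)

include hws hno in
lemma noS {A : Set M} (hA : A ∈ S) (hAP : A ⊆ P) (h : ∀ x ∈ A, ¬ Small P R x) :
    ∃ b, ∀ x ∈ A, x ≤ b := by
  apply bdd_of_not_inf
  intro hi
  exact hno A hA hAP hi (stable_of_noSmall hws hAP h)

include hws hno in
lemma noL {A : Set M} (hA : A ∈ S) (hAP : A ⊆ P) (h : ∀ x ∈ A, ¬ Large P R x) :
    ∃ b, ∀ x ∈ A, x ≤ b := by
  apply bdd_of_not_inf
  intro hi
  exact hno A hA hAP hi (stable_of_noLarge hws hAP h)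

include hmod hP hR hpo hinf hws hsads hno in
lemma step1 : ∃ x ∈ P, (∀ b, ∃ y ∈ P, b < y ∧ LT P R y x) ∧ (∀ b, ∃ y ∈ P, b < y ∧ LT P R x y) := by
  by_contra hcon
  push Not at hcon
  have hφ : Sig00 S (fun v : ℕ → M => (v 1 ∈ P ∧ v 2 ∈ P ∧ (v 1 = v 2 ∨ LT P R (v 1) (v 2)))) :=
    Sig00.and (Sig00.mem hP (Term.var 1)) (Sig00.and (Sig00.mem hP (Term.var 2))
      (Sig00.or (Sig00.eq (Term.var 1) (Term.var 2)) (LT_def hP hR)))
  obtain ⟨RL, hRL, hrel⟩ := relCompr hmod (φ := fun x y => x ∈ P ∧ y ∈ P ∧ (x = y ∨ LT P R x y)) hφ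
  have hLO : IsLO P RL := by
    refine ⟨⟨?_, ?_, ?_⟩, ?_⟩
    · intro x hx; rw [hrel]; exact ⟨hx, hx, Or.inl rfl⟩
    · intro x hx y hy h1 h2
      rw [hrel] at h1 h2
      rcases h1.2.2 with h | h
      · exact h
      · rcases h2.2.2 with h' | h'
        · exact h'.symm
        · exact (LT_asymm hmod hP hR hpo h h').elim
    · intro x hx y hy z hz h1 h2
      rw [hrel] at h1 h2 ⊢
      refine ⟨hx, hz, ?_⟩
      rcases h1.2.2 with rfl | h
      · exact h2.2.2
      · rcases h2.2.2 with rfl | h'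
        · exact Or.inr h
        · exact Or.inr (LT_trans hmod hP hR hpo h h')
    · intro x hx y hy
      rw [hrel, hrel]
      by_cases hxy : x = y
      · exact Or.inl ⟨hx, hy, Or.inl hxy⟩
      · rcases LT_total hmod hP hR hpo hx hy hxy with h | h
        · exact Or.inl ⟨hx, hy, Or.inr h⟩
        · exact Or.inr ⟨hy, hx, Or.inr h⟩
  have htype : TypeOmegaPlusOmegaStar P RL := by
    intro x hx
    by_cases hpu : ∀ b, ∃ y ∈ P, b < y ∧ LT P R y x
    · right
      obtain ⟨b, hb⟩ := hcon x hx hpu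
      refine ⟨max b x, ?_⟩
      intro y hy h1
      rw [hrel] at h1
      rcases h1.2.2 with rfl | h
      · exact le_max_right _ _
      · by_contra h2
        push Not at h2
        exact hb y hy (lt_of_le_of_lt (le_max_left _ _) h2) h
    · left
      push Not at hpu
      obtain ⟨b, hb⟩ := hpu
      refine ⟨max b x, ?_⟩
      intro y hy h1
      rw [hrel] at h1
      rcases h1.2.2 with rfl | h
      · exact le_max_right _ _
      · by_contra h2
        push Not at h2
        exact hb y hy (lt_of_le_of_lt (le_max_left _ _) h2) h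
  obtain ⟨B, hB, hBP, hBinf, hBs⟩ := hsads P hP RL hRL hLO hinf htype
  rcases hBs with hasc | hdesc
  · have : ∃ b, ∀ x ∈ B, x ≤ b := by
      apply noL hws hno hB hBP
      rintro x hx ⟨b, hb⟩
      obtain ⟨y, hy, hby⟩ := hBinf (max b x)
      have hxy : x < y := lt_of_le_of_lt (le_max_right _ _) hby
      have h1 := hasc x hx y hy hxy
      rw [hrel] at h1
      rcases h1.2.2 with h | h
      · exact hxy.ne h
      · exact LT_asymm hmod hP hR hpo h (LT_of_rel hmod hP hR hpo (hBP hy) (hBP hx) hxy.ne'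
          (hb y (hBP hy) (lt_of_le_of_lt (le_max_left _ _) hby)))
    obtain ⟨b, hb⟩ := this
    obtain ⟨y, hy, hby⟩ := hBinf b
    exact absurd hby (not_lt.mpr (hb y hy))
  · have : ∃ b, ∀ x ∈ B, x ≤ b := by
      apply noS hws hno hB hBP
      rintro x hx ⟨b, hb⟩
      obtain ⟨y, hy, hby⟩ := hBinf (max b x)
      have hxy : x < y := lt_of_le_of_lt (le_max_right _ _) hby
      have h1 := hdesc x hx y hy hxy
      rw [hrel] at h1
      rcases h1.2.2 with h | h
      · exact hxy.ne' h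
      · exact LT_asymm hmod hP hR hpo h (LT_of_rel hmod hP hR hpo (hBP hx) (hBP hy) hxy.ne
          (hb y (hBP hy) (lt_of_le_of_lt (le_max_left _ _) hby)))
    obtain ⟨b, hb⟩ := this
    obtain ⟨y, hy, hby⟩ := hBinf b
    exact absurd hby (not_lt.mpr (hb y hy))

/-- elements `z ≤ x` at which `x` disagrees with the limit behaviour -/
def T (P R : Set M) (x z : M) : Prop :=
  z ∈ P ∧ ((rel R x z ∧ ¬ Large P R z) ∨ (¬ rel R x z ∧ Large P R z))

include hmod hpo hws in
lemma lemma1 {x z : M} (hz : T P R x z) :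
    ∃ b, ∀ y ∈ P, b < y → ∀ z', D P R x y z' → z' ≤ z := by
  obtain ⟨hzP, h | h⟩ := hz
  · have : ∃ b, ∀ y ∈ P, b < y → ¬ rel R y z := by
      rcases hws z hzP with hs | hl | hi
      · obtain ⟨b, hb⟩ := hs
        refine ⟨max b z, fun y hy hby hr => ?_⟩
        have h1 := hb y hy (lt_of_le_of_lt (le_max_left _ _) hby)
        have h2 := hpo.2.1 z hzP y hy h1 hr
        exact absurd (lt_of_le_of_lt (le_max_right _ _) hby) (by rw [h2]; exact lt_irrefl y)
      · exact absurd hl h.2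
      · obtain ⟨b, hb⟩ := hi
        exact ⟨b, fun y hy hby => (hb y hy hby).2⟩
    obtain ⟨b, hb⟩ := this
    refine ⟨b, fun y hy hby z' hD => ?_⟩
    exact D_le hmod hD hzP (fun h' => hb y hy hby (h'.mp h.1))
  · obtain ⟨b, hb⟩ := h.2
    refine ⟨b, fun y hy hby z' hD => ?_⟩
    exact D_le hmod hD hzP (fun h' => h.1 (h'.mpr (hb y hy hby)))

lemma not_rel_of_D {x y z : M} (hD : D P R x y z) (h : rel R x z) : ¬ rel R y z :=
  fun h' => hD.2.1 ⟨fun _ => h', fun _ => h⟩

lemma rel_of_D {x y z : M} (hD : D P R x y z) (h : ¬ rel R x z) : rel R y z := by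
  by_contra h'
  exact hD.2.1 ⟨fun h1 => absurd h1 h, fun h1 => absurd h1 h'⟩

/-- definability of the sets `{y ∈ A | ∃ z < t, D x y z ∧ x ≼ z}` -/
lemma setB (hmod : Model M S) (hP : P ∈ S) (hR : R ∈ S) {A : Set M} (hA : A ∈ S) (x t : M) :
    {y | y ∈ A ∧ ∃ z, z < t ∧ (D P R x y z ∧ rel R x z)} ∈ S ∧
    {y | y ∈ A ∧ ∃ z, z < t ∧ (D P R x y z ∧ ¬ rel R x z)} ∈ S := by
  have hD := D_def (S := S) hP hR (Term.const x) (Term.var 0) (Term.var 3) (by intro v a; simp)
    (by intro v a; simp)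
  constructor
  · apply compr1 hmod
    have h1 : Sig00 S (fun v : ℕ → M => D P R x (v 0) (v 3) ∧ rel R x (v 3)) :=
      Sig00.and hD (Sig00.rel hR (Term.const x) (Term.var 3))
    have h2 := Sig00.bex 3 h1 (Term.const t)
    have h3 := Sig00.and (Sig00.mem hA (Term.var 0)) h2
    simpa using h3
  · apply compr1 hmod
    have h1 : Sig00 S (fun v : ℕ → M => D P R x (v 0) (v 3) ∧ ¬ rel R x (v 3)) :=
      Sig00.and hD (Sig00.not (Sig00.rel hR (Term.const x) (Term.var 3)))
    have h2 := Sig00.bex 3 h1 (Term.const t)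
    have h3 := Sig00.and (Sig00.mem hA (Term.var 0)) h2
    simpa using h3

include hmod hP hR hpo hinf hws hno in
lemma lemma2 {x t : M} (ht : ∀ z, T P R x z → ¬ z < t) :
    ∃ b, ∀ y ∈ P, ∀ z, z < t → D P R x y z → y ≤ b := by
  obtain ⟨hB1, hB0⟩ := setB hmod hP hR hP x t
  obtain ⟨b1, hb1⟩ := noS hws hno hB1 (fun y hy => hy.1) (by
    rintro y ⟨hy, z, hz, hD, hr⟩ hs
    have hl : Large P R z := by
      by_contra hl
      exact ht z ⟨hD.1, Or.inl ⟨hr, hl⟩⟩ hz
    exact not_rel_of_D hD hr (small_le_large hpo hinf hy hD.1 hs hl))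
  obtain ⟨b0, hb0⟩ := noL hws hno hB0 (fun y hy => hy.1) (by
    rintro y ⟨hy, z, hz, hD, hr⟩ hl
    exact ht z ⟨hD.1, Or.inr ⟨hr, large_up hpo hy hD.1 hl (rel_of_D hD hr)⟩⟩ hz)
  refine ⟨max b1 b0, fun y hy z hz hD => ?_⟩
  by_cases hr : rel R x z
  · exact le_trans (hb1 y ⟨hy, z, hz, hD, hr⟩) (le_max_left _ _)
  · exact le_trans (hb0 y ⟨hy, z, hz, hD, hr⟩) (le_max_right _ _)

include hmod hP hR hpo hinf hws hsads hno in
theorem contra : False := by
  obtain ⟨x, hx, hpu, hsu⟩ := step1 hmod hP hR hpo hinf hws hsads hno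
  have hnl : ¬ Large P R x := by
    rintro ⟨b, hb⟩
    obtain ⟨y, hy, hby, hlt⟩ := hsu (max b x)
    have hxy : x < y := lt_of_le_of_lt (le_max_right _ _) hby
    exact LT_asymm hmod hP hR hpo hlt (LT_of_rel hmod hP hR hpo hy hx hxy.ne'
      (hb y hy (lt_of_le_of_lt (le_max_left _ _) hby)))
  have hns : ¬ Small P R x := by
    rintro ⟨b, hb⟩
    obtain ⟨y, hy, hby, hlt⟩ := hpu (max b x)
    have hxy : x < y := lt_of_le_of_lt (le_max_right _ _) hby
    exact LT_asymm hmod hP hR hpo hlt (LT_of_rel hmod hP hR hpo hx hy hxy.ne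
      (hb y hy (lt_of_le_of_lt (le_max_left _ _) hby)))
  obtain ⟨b0, hb0⟩ : Isolated P R x := by
    rcases hws x hx with h | h | h
    · exact absurd h hns
    · exact absurd h hnl
    · exact h
  -- the set P'
  set P' : Set M := {y | y ∈ P ∧ b0 < y} with hP'def
  have hP' : P' ∈ S := compr1 hmod (Sig00.and (Sig00.mem hP (Term.var 0))
    (Sig00.lt (Term.const b0) (Term.var 0)))
  have hP'P : P' ⊆ P := fun y hy => hy.1
  have hP'inf : Inf P' := by
    intro b
    obtain ⟨y, hy, hby⟩ := hinf (max b b0)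
    exact ⟨y, ⟨hy, lt_of_le_of_lt (le_max_right _ _) hby⟩, lt_of_le_of_lt (le_max_left _ _) hby⟩
  have hd : ∀ y ∈ P', ∃ z, z < x + 1 ∧ D P R x y z := by
    intro y hy
    have hyx := (hb0 y hy.1 hy.2)
    have hne : x ≠ y := by
      rintro rfl
      exact hyx.1 (hpo.1 x hx)
    obtain ⟨z, hD, _⟩ := D_exists hmod hP hR hpo hx hy.1 hne
    refine ⟨z, ?_, hD⟩
    rw [lt_succ hmod]
    exact D_le hmod hD hx (fun h => hyx.2 (h.mp (hpo.1 x hx)))
  -- second order
  let φ : M → M → Prop := fun y y' => y ∈ P' ∧ y' ∈ P' ∧ ∃ z, z < x + 1 ∧ ∃ z', z' < x + 1 ∧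
    (D P R x y z ∧ D P R x y' z' ∧ (z < z' ∨ (z = z' ∧ y ≤ y')))
  have hφ : Sig00 S (fun v : ℕ → M => φ (v 1) (v 2)) := by
    have hD1 := D_def (S := S) hP hR (Term.const x) (Term.var 1) (Term.var 3)
      (by intro v a; simp) (by intro v a; simp)
    have hD2 := D_def (S := S) hP hR (Term.const x) (Term.var 2) (Term.var 4)
      (by intro v a; simp) (by intro v a; simp)
    have h1 := Sig00.and hD1 (Sig00.and hD2 (Sig00.or (Sig00.lt (Term.var 3) (Term.var 4))
      (Sig00.and (Sig00.eq (Term.var 3) (Term.var 4)) (Sig00.le (Term.var 1) (Term.var 2)))))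
    have h2 := Sig00.bex 4 h1 (Term.const (x + 1))
    have h3 := Sig00.bex 3 h2 (Term.const (x + 1))
    have h4 := Sig00.and (Sig00.mem hP' (Term.var 1)) (Sig00.and (Sig00.mem hP' (Term.var 2)) h3)
    simpa [φ] using h4
  obtain ⟨R2, hR2, hrel⟩ := relCompr hmod (φ := φ) hφ
  -- description of the order through first differences
  have hchar : ∀ y ∈ P', ∀ y' ∈ P', ∀ z z', D P R x y z → D P R x y' z' →
      (rel R2 y y' ↔ (z < z' ∨ (z = z' ∧ y ≤ y'))) := by
    intro y hy y' hy' z z' hD hD'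
    rw [hrel]
    constructor
    · rintro ⟨_, _, w, _, w', _, hw, hw', h⟩
      rw [D_unique hD hw, D_unique hD' hw']
      exact h
    · intro h
      obtain ⟨w, hw, hDw⟩ := hd y hy
      obtain ⟨w', hw', hDw'⟩ := hd y' hy'
      rw [D_unique hDw hD] at hw
      rw [D_unique hDw' hD'] at hw'
      exact ⟨hy, hy', z, hw, z', hw', hD, hD', h⟩
  have hLO : IsLO P' R2 := by
    refine ⟨⟨?_, ?_, ?_⟩, ?_⟩
    · intro y hy
      obtain ⟨z, _, hD⟩ := hd y hy
      rw [hchar y hy y hy z z hD hD]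
      exact Or.inr ⟨rfl, le_refl _⟩
    · intro y hy y' hy' h1 h2
      obtain ⟨z, _, hD⟩ := hd y hy
      obtain ⟨z', _, hD'⟩ := hd y' hy'
      rw [hchar y hy y' hy' z z' hD hD'] at h1
      rw [hchar y' hy' y hy z' z hD' hD] at h2
      rcases h1 with h1 | h1
      · rcases h2 with h2 | h2
        · exact absurd h1 h2.asymm
        · exact absurd h2.1 h1.ne'
      · rcases h2 with h2 | h2
        · exact absurd h1.1 h2.ne'
        · exact le_antisymm h1.2 h2.2
    · intro y hy y' hy' y'' hy'' h1 h2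
      obtain ⟨z, _, hD⟩ := hd y hy
      obtain ⟨z', _, hD'⟩ := hd y' hy'
      obtain ⟨z'', _, hD''⟩ := hd y'' hy''
      rw [hchar y hy y' hy' z z' hD hD'] at h1
      rw [hchar y' hy' y'' hy'' z' z'' hD' hD''] at h2
      rw [hchar y hy y'' hy'' z z'' hD hD'']
      rcases h1 with h1 | ⟨h1, h1'⟩
      · rcases h2 with h2 | ⟨h2, h2'⟩
        · exact Or.inl (h1.trans h2)
        · exact Or.inl (h2 ▸ h1)
      · rcases h2 with h2 | ⟨h2, h2'⟩
        · exact Or.inl (h1 ▸ h2)
        · exact Or.inr ⟨h1.trans h2, h1'.trans h2'⟩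
    · intro y hy y' hy'
      obtain ⟨z, _, hD⟩ := hd y hy
      obtain ⟨z', _, hD'⟩ := hd y' hy'
      rw [hchar y hy y' hy' z z' hD hD', hchar y' hy' y hy z' z hD' hD]
      rcases lt_trichotomy z z' with h | h | h
      · exact Or.inl (Or.inl h)
      · rcases le_total y y' with h' | h'
        · exact Or.inl (Or.inr ⟨h, h'⟩)
        · exact Or.inr (Or.inr ⟨h.symm, h'⟩)
      · exact Or.inr (Or.inl h)
  have htype : TypeOmegaPlusOmegaStar P' R2 := by
    intro y hy
    obtain ⟨z, _, hD⟩ := hd y hy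
    by_cases hT : ∃ z1, T P R x z1 ∧ z1 < z
    · right
      obtain ⟨z1, hTz1, hlt⟩ := hT
      obtain ⟨b, hb⟩ := lemma1 hmod hpo hws hTz1
      refine ⟨b, fun y' hy' h1 => ?_⟩
      by_contra hcon
      push Not at hcon
      obtain ⟨z', _, hD'⟩ := hd y' hy'
      have h2 := hb y' hy'.1 hcon z' hD'
      rw [hchar y hy y' hy' z z' hD hD'] at h1
      rcases h1 with h1 | h1
      · exact absurd (lt_trans h1 (lt_of_le_of_lt h2 hlt)) (lt_irrefl _)
      · rw [← h1.1] at h2
        exact absurd hlt (not_lt.mpr h2)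
    · left
      push Not at hT
      obtain ⟨b, hb⟩ := lemma2 hmod hP hR hpo hinf hws hno (x := x) (t := z)
        (fun z1 h1 => not_lt.mpr (hT z1 h1))
      refine ⟨max b y, fun y' hy' h1 => ?_⟩
      obtain ⟨z', _, hD'⟩ := hd y' hy'
      rw [hchar y' hy' y hy z' z hD' hD] at h1
      rcases h1 with h1 | h1
      · exact le_trans (hb y' hy'.1 z' h1 hD') (le_max_left _ _)
      · exact le_trans h1.2 (le_max_right _ _)
  obtain ⟨B, hB, hBP', hBinf, hBs⟩ := hsads P' hP' R2 hR2 hLO hP'inf htype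
  have hBP : B ⊆ P := fun y hy => (hBP' hy).1
  rcases hBs with hasc | hdesc
  · -- ascending
    have hnoT : ∀ y ∈ B, ∀ z, D P R x y z → ∀ z1, T P R x z1 → ¬ z1 < z := by
      intro y hy z hD z1 hT hlt
      obtain ⟨b, hb⟩ := lemma1 hmod hpo hws hT
      obtain ⟨y', hy', hby'⟩ := hBinf (max b y)
      obtain ⟨z', _, hD'⟩ := hd y' (hBP' hy')
      have h1 := hasc y hy y' hy' (lt_of_le_of_lt (le_max_right _ _) hby')
      rw [hchar y (hBP' hy) y' (hBP' hy') z z' hD hD'] at h1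
      have h2 := hb y' (hBP hy') (lt_of_le_of_lt (le_max_left _ _) hby') z' hD'
      rcases h1 with h1 | h1
      · exact absurd (lt_trans h1 (lt_of_le_of_lt h2 hlt)) (lt_irrefl _)
      · rw [← h1.1] at h2
        exact absurd hlt (not_lt.mpr h2)
    have hnotT : ∀ y ∈ B, ∀ z, D P R x y z → ¬ T P R x z := by
      intro y hy z hD hT
      obtain ⟨b, hb⟩ := lemma1 hmod hpo hws hT
      obtain ⟨b', hb'⟩ := lemma2 hmod hP hR hpo hinf hws hno (x := x) (t := z) (hnoT y hy z hD)
      by_cases hr : rel R x z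
      · obtain ⟨w, hw, hbw, hlt⟩ := hpu (max (max b b') b0)
        have hwP' : w ∈ P' := ⟨hw, lt_of_le_of_lt (le_max_right _ _) hbw⟩
        obtain ⟨z', _, hD'⟩ := hd w hwP'
        have h1 := hb w hw (lt_of_le_of_lt (le_trans (le_max_left _ _) (le_max_left _ _)) hbw) z' hD'
        have h2 : z' = z := by
          by_contra hne
          have h3 := hb' w hw z' (lt_of_le_of_ne h1 hne) hD'
          exact absurd (lt_of_le_of_lt (le_trans (le_max_right _ _) (le_max_left _ _)) hbw) (not_lt.mpr h3)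
        subst h2
        obtain ⟨_, _, u, _, hDu, hru⟩ := hlt
        have := D_unique (D_symm hDu) hD'
        subst this
        exact not_rel_of_D hD' hr hru
      · obtain ⟨w, hw, hbw, hlt⟩ := hsu (max (max b b') b0)
        have hwP' : w ∈ P' := ⟨hw, lt_of_le_of_lt (le_max_right _ _) hbw⟩
        obtain ⟨z', _, hD'⟩ := hd w hwP'
        have h1 := hb w hw (lt_of_le_of_lt (le_trans (le_max_left _ _) (le_max_left _ _)) hbw) z' hD'
        have h2 : z' = z := by
          by_contra hne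
          have h3 := hb' w hw z' (lt_of_le_of_ne h1 hne) hD'
          exact absurd (lt_of_le_of_lt (le_trans (le_max_right _ _) (le_max_left _ _)) hbw) (not_lt.mpr h3)
        subst h2
        obtain ⟨_, _, u, _, hDu, hru⟩ := hlt
        have := D_unique hDu hD'
        subst this
        exact hr hru
    obtain ⟨hB1, hB0⟩ := setB hmod hP hR hB x (x + 1)
    obtain ⟨b1, hb1⟩ := noS hws hno hB1 (fun y hy => hBP hy.1) (by
      rintro y ⟨hy, z, hz, hD, hr⟩ hs
      have hl : Large P R z := by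
        by_contra hl
        exact hnotT y hy z hD ⟨hD.1, Or.inl ⟨hr, hl⟩⟩
      exact not_rel_of_D hD hr (small_le_large hpo hinf (hBP hy) hD.1 hs hl))
    obtain ⟨b2, hb2⟩ := noL hws hno hB0 (fun y hy => hBP hy.1) (by
      rintro y ⟨hy, z, hz, hD, hr⟩ hl
      exact hnotT y hy z hD ⟨hD.1, Or.inr ⟨hr, large_up hpo (hBP hy) hD.1 hl (rel_of_D hD hr)⟩⟩)
    obtain ⟨y, hy, hby⟩ := hBinf (max b1 b2)
    obtain ⟨z, hz, hD⟩ := hd y (hBP' hy)
    by_cases hr : rel R x z
    · exact absurd (lt_of_le_of_lt (le_max_left _ _) hby) (not_lt.mpr (hb1 y ⟨hy, z, hz, hD, hr⟩))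
    · exact absurd (lt_of_le_of_lt (le_max_right _ _) hby) (not_lt.mpr (hb2 y ⟨hy, z, hz, hD, hr⟩))
  · -- descending
    have hdlt : ∀ y ∈ B, ∀ y' ∈ B, y < y' → ∀ z z', D P R x y z → D P R x y' z' → z' < z := by
      intro y hy y' hy' hlt z z' hD hD'
      have h1 := hdesc y hy y' hy' hlt
      rw [hchar y' (hBP' hy') y (hBP' hy) z' z hD' hD] at h1
      rcases h1 with h1 | h1
      · exact h1
      · exact absurd hlt (not_lt.mpr h1.2)
    have hexT : ∀ y ∈ B, ∀ z, D P R x y z → ∃ z1, T P R x z1 ∧ z1 < z := by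
      intro y hy z hD
      by_contra hcon
      push Not at hcon
      obtain ⟨b, hb⟩ := lemma2 hmod hP hR hpo hinf hws hno (x := x) (t := z)
        (fun z1 h1 => not_lt.mpr (hcon z1 h1))
      obtain ⟨y', hy', hby'⟩ := hBinf (max b y)
      obtain ⟨z', _, hD'⟩ := hd y' (hBP' hy')
      have h1 := hdlt y hy y' hy' (lt_of_le_of_lt (le_max_right _ _) hby') z z' hD hD'
      exact absurd (lt_of_le_of_lt (le_max_left _ _) hby') (not_lt.mpr (hb y' (hBP hy') z' h1 hD'))
    by_cases hall : ∀ y ∈ B, ∀ z, D P R x y z → ∃ z1, T P R x z1 ∧ ¬ rel R x z1 ∧ z1 < z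
    · obtain ⟨b, hb⟩ := noS hws hno hB hBP (by
        intro y hy hs
        obtain ⟨z, _, hD⟩ := hd y (hBP' hy)
        obtain ⟨z1, hT, hr, hlt⟩ := hall y hy z hD
        have hl : Large P R z1 := by
          rcases hT.2 with h | h
          · exact absurd h.1 hr
          · exact h.2
        have h1 := small_le_large hpo hinf (hBP hy) hT.1 hs hl
        exact hr ((hD.2.2 z1 hlt hT.1).mpr h1))
      obtain ⟨y, hy, hby⟩ := hBinf b
      exact absurd hby (not_lt.mpr (hb y hy))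
    · push Not at hall
      obtain ⟨y0, hy0, z0, hD0, hall⟩ := hall
      set B' : Set M := {y | y ∈ B ∧ y0 < y} with hB'def
      have hB' : B' ∈ S := compr1 hmod (Sig00.and (Sig00.mem hB (Term.var 0))
        (Sig00.lt (Term.const y0) (Term.var 0)))
      obtain ⟨b, hb⟩ := noL hws hno hB' (fun y hy => hBP hy.1) (by
        rintro y ⟨hy, hlt0⟩ hl
        obtain ⟨z, _, hD⟩ := hd y (hBP' hy)
        have hz0 := hdlt y0 hy0 y hy hlt0 z0 z hD0 hD
        obtain ⟨z1, hT, hlt⟩ := hexT y hy z hD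
        have hr : rel R x z1 := by
          by_contra hr
          exact absurd (lt_trans hlt hz0) (not_lt.mpr (hall z1 hT hr))
        have hnl1 : ¬ Large P R z1 := by
          rcases hT.2 with h | h
          · exact h.2
          · exact absurd hr h.1
        exact hnl1 (large_up hpo (hBP hy) hT.1 hl ((hD.2.2 z1 hlt hT.1).mp hr)))
      obtain ⟨y, hy, hby⟩ := hBinf (max b y0)
      exact absurd (lt_of_le_of_lt (le_max_left _ _) hby)
        (not_lt.mpr (hb y ⟨hy, lt_of_le_of_lt (le_max_right _ _) hby⟩))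

end Main

theorem P_of_SADS (hmod : Model M S) (hsads : SADS S) : PrincipleP S := by
  intro P hP R hR hpo hinf hws
  by_contra hcon
  push Not at hcon
  exact contra hmod hP hR hpo hinf hws hsads hcon

/-- thinning out -/
lemma thin (hmod : Model M S) {B : Set M} (hB : B ∈ S) {ρ : M → M → Prop}
    (hρ : ∀ a b : (ℕ → M) → M, Term a → Term b → Sig00 S (fun v => ρ (a v) (b v)))
    (htot : ∀ x ∈ B, ∀ y ∈ B, ρ x y ∨ ρ y x)
    (htr : ∀ x ∈ B, ∀ y ∈ B, ∀ z ∈ B, ρ x y → ρ y z → ρ x z)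
    (hanti : ∀ x ∈ B, ∀ y ∈ B, ρ x y → ρ y x → x = y)
    (hinf : Inf B) (hs : ∀ x ∈ B, ∃ b, ∀ y ∈ B, b < y → ρ x y) :
    ∃ C ∈ S, C ⊆ B ∧ Inf C ∧ ∀ s ∈ C, ∀ t ∈ C, s < t → ρ s t := by
  refine ⟨{y | y ∈ B ∧ ∀ w, w < y → w ∈ B → ρ w y}, ?_, fun y hy => hy.1, ?_, ?_⟩
  · apply compr1 hmod
    have h1 : Sig00 S (fun v : ℕ → M => v 1 ∈ B → ρ (v 1) (v 0)) :=
      Sig00.imp (Sig00.mem hB (Term.var 1)) (hρ _ _ (Term.var 1) (Term.var 0))
    have h2 := Sig00.and (Sig00.mem hB (Term.var 0)) (Sig00.ball 1 h1 (Term.var 0))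
    simpa using h2
  · intro b
    obtain ⟨c, hc, hbc⟩ := hinf b
    have hmax : ∀ n : M, (∀ w, w < n + 1 → ¬ w ∈ B) ∨
        ∃ m, m < n + 1 ∧ (m ∈ B ∧ ∀ w, w < n + 1 → w ∈ B → ρ w m) := by
      have h1 : Sig00 S (fun v : ℕ → M => v 1 ∈ B → ρ (v 1) (v 2)) :=
        Sig00.imp (Sig00.mem hB (Term.var 1)) (hρ _ _ (Term.var 1) (Term.var 2))
      have h2 := Sig00.and (Sig00.mem hB (Term.var 2))
        (Sig00.ball 1 h1 (Term.add (Term.var 0) (Term.const 1)))
      have h3 := Sig00.bex 2 h2 (Term.add (Term.var 0) (Term.const 1))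
      have h4 : Sig00 S (fun v : ℕ → M => ¬ v 1 ∈ B) := Sig00.not (Sig00.mem hB (Term.var 1))
      have h5 := Sig00.or (Sig00.ball 1 h4 (Term.add (Term.var 0) (Term.const 1))) h3
      have hind := hmod.induction _ (Or.inl h5) (fun _ => 0) 0
      simp only [update_self, ne_eq, OfNat.ofNat_ne_zero, not_false_eq_true, update_of_ne,
        OfNat.zero_ne_ofNat, OfNat.one_ne_ofNat, one_ne_zero, OfNat.ofNat_ne_one, zero_ne_one] at hind
      apply hind
      · by_cases h0 : (0 : M) ∈ B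
        · right
          refine ⟨0, lt_add_one 0, h0, ?_⟩
          intro w hw hwB
          have : w = 0 := le_antisymm ((lt_succ hmod).mp hw) (hmod.zero_le w)
          subst this
          rcases htot 0 h0 0 h0 with h | h <;> exact h
        · left
          intro w hw hwB
          have : w = 0 := le_antisymm ((lt_succ hmod).mp hw) (hmod.zero_le w)
          subst this
          exact h0 hwB
      · intro n hn
        have hsplit : ∀ w, w < n + 1 + 1 → w < n + 1 ∨ w = n + 1 := fun w hw =>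
          ((lt_succ hmod).mp hw).lt_or_eq
        by_cases h0 : n + 1 ∈ B
        · right
          rcases hn with hn | ⟨m, hm, hmB, hmax⟩
          · refine ⟨n + 1, lt_add_one _, h0, ?_⟩
            intro w hw hwB
            rcases hsplit w hw with h | h
            · exact absurd hwB (hn w h)
            · subst h
              rcases htot _ h0 _ h0 with h | h <;> exact h
          · rcases htot m hmB (n+1) h0 with h | h
            · refine ⟨n + 1, lt_add_one _, h0, ?_⟩
              intro w hw hwB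
              rcases hsplit w hw with h' | h'
              · exact htr w hwB m hmB _ h0 (hmax w h' hwB) h
              · subst h'
                rcases htot _ h0 _ h0 with h | h <;> exact h
            · refine ⟨m, lt_trans hm (lt_add_one _), hmB, ?_⟩
              intro w hw hwB
              rcases hsplit w hw with h' | h'
              · exact hmax w h' hwB
              · subst h'; exact h
        · rcases hn with hn | ⟨m, hm, hmB, hmax⟩
          · left
            intro w hw hwB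
            rcases hsplit w hw with h | h
            · exact hn w h hwB
            · subst h; exact h0 hwB
          · right
            refine ⟨m, lt_trans hm (lt_add_one _), hmB, ?_⟩
            intro w hw hwB
            rcases hsplit w hw with h | h
            · exact hmax w h hwB
            · subst h; exact absurd hwB h0
    obtain ⟨m, hm, hmB, hmax⟩ : ∃ m, m < c + 1 ∧ (m ∈ B ∧ ∀ w, w < c + 1 → w ∈ B → ρ w m) := by
      rcases hmax c with h | h
      · exact absurd hc (h c (lt_add_one c))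
      · exact h
    obtain ⟨b', hb'⟩ := hs m hmB
    have hψ : Sig00 S (fun v : ℕ → M => v 0 ∈ B ∧ ¬ ρ (v 0) m) :=
      Sig00.and (Sig00.mem hB (Term.var 0)) (Sig00.not (hρ _ _ (Term.var 0) (Term.const m)))
    have hex : ∃ y, y ∈ B ∧ ¬ ρ y m := by
      obtain ⟨y, hy, hby⟩ := hinf (max b' m)
      refine ⟨y, hy, fun h => ?_⟩
      have h1 := hb' y hy (lt_of_le_of_lt (le_max_left _ _) hby)
      have h2 := hanti y hy m hmB h h1
      exact absurd (lt_of_le_of_lt (le_max_right _ _) hby) (by rw [h2]; exact lt_irrefl m)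
    obtain ⟨y, ⟨hyB, hym⟩, hymin⟩ := lnp hmod (φ := fun y => y ∈ B ∧ ¬ ρ y m) hψ hex
    refine ⟨y, ⟨hyB, ?_⟩, ?_⟩
    · intro w hw hwB
      have h1 : ρ w m := by
        by_contra h
        exact hymin w hw ⟨hwB, h⟩
      have h2 : ρ m y := by
        rcases htot m hmB y hyB with h | h
        · exact h
        · exact absurd h hym
      exact htr w hwB m hmB y hyB h1 h2
    · have h1 : ¬ y < c + 1 := fun h => hym (hmax y h hyB)
      push Not at h1
      exact lt_trans hbc (lt_of_lt_of_le (lt_add_one c) h1)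
  · intro s hs t ht hst
    exact ht.2 s hst hs.1

theorem SADS_of_P (hmod : Model M S) (hp : PrincipleP S) : SADS S := by
  intro A hA R hR hlo hinf htype
  obtain ⟨hpo, htot⟩ := hlo
  have hws : WeaklyStable A R := by
    intro x hx
    rcases htype x hx with ⟨b, hb⟩ | ⟨b, hb⟩
    · left
      refine ⟨b, fun y hy hby => ?_⟩
      rcases htot x hx y hy with h | h
      · exact h
      · exact absurd hby (not_lt.mpr (hb y hy h))
    · right; left
      refine ⟨b, fun y hy hby => ?_⟩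
      rcases htot x hx y hy with h | h
      · exact absurd hby (not_lt.mpr (hb y hy h))
      · exact h
  obtain ⟨B, hB, hBA, hBinf, hst⟩ := hp A hA R hR hpo hinf hws
  have hniso : ∀ x ∈ B, ¬ Isolated B R x := by
    rintro x hx ⟨b, hb⟩
    obtain ⟨y, hy, hby⟩ := hBinf b
    rcases htot x (hBA hx) y (hBA hy) with h | h
    · exact (hb y hy hby).1 h
    · exact (hb y hy hby).2 h
  rcases hst with hst | hst
  · obtain ⟨C, hC, hCB, hCinf, hasc⟩ := thin hmod hB (ρ := fun x y => rel R x y)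
      (fun a b ha hb => Sig00.rel hR ha hb)
      (fun x hx y hy => htot x (hBA hx) y (hBA hy))
      (fun x hx y hy z hz => hpo.2.2 x (hBA hx) y (hBA hy) z (hBA hz))
      (fun x hx y hy => hpo.2.1 x (hBA hx) y (hBA hy)) hBinf
      (fun x hx => (hst x hx).resolve_right (hniso x hx))
    exact ⟨C, hC, hCB.trans hBA, hCinf, Or.inl hasc⟩
  · obtain ⟨C, hC, hCB, hCinf, hasc⟩ := thin hmod hB (ρ := fun x y => rel R y x)
      (fun a b ha hb => Sig00.rel hR hb ha)
      (fun x hx y hy => (htot x (hBA hx) y (hBA hy)).symm)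
      (fun x hx y hy z hz h1 h2 => hpo.2.2 z (hBA hz) y (hBA hy) x (hBA hx) h2 h1)
      (fun x hx y hy h1 h2 => hpo.2.1 x (hBA hx) y (hBA hy) h2 h1) hBinf
      (fun x hx => (hst x hx).resolve_right (hniso x hx))
    exact ⟨C, hC, hCB.trans hBA, hCinf, Or.inr hasc⟩

end Proof

end Pool.Agent.H24.WSP
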